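import Pool.Agent.TMN.Base

/-! # TMN row A2: `1 / (ν + ν̄)` is not an algebraic integer -/

set_option autoImplicit false

open Set Filter Topology

namespace TMN

open TMX

/-- powers of `u + 1/u` modulo `2`. -/
private theorem a2_pow {u : ℂ} (hu : u ≠ 0) (hi : IsIntegral ℤ u) (hi' : IsIntegral ℤ u⁻¹) (j : ℕ) :
    ∃ r : ℂ, IsIntegral ℤ r ∧
      (u + u⁻¹) ^ 2 ^ j = u ^ 2 ^ j + u⁻¹ ^ 2 ^ j + 2 * r := by
  induction j with
  | zero => exact ⟨0, isIntegral_zero, by ring⟩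
  | succ j ih =>
    obtain ⟨r, hr, h⟩ := ih
    have h2 : IsIntegral ℤ (2 : ℂ) := by
      have := isIntegral_one (R := ℤ) (B := ℂ)
      have h3 := this.add this
      norm_num at h3
      exact h3
    refine ⟨1 + 2 * r * (u ^ 2 ^ j + u⁻¹ ^ 2 ^ j) + 2 * r ^ 2, ?_, ?_⟩
    · exact (isIntegral_one.add ((h2.mul hr).mul ((hi.pow _).add (hi'.pow _)))).add
        (h2.mul (hr.pow 2))
    · have h4 : u ^ 2 ^ j * u⁻¹ ^ 2 ^ j = 1 := by
        rw [← mul_pow, mul_inv_cancel₀ hu, one_pow]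
      rw [pow_succ, pow_mul, h, pow_mul, pow_mul]
      linear_combination 2 * h4

/-- [A2] `1 / (ν + ν̄)` is not an algebraic integer. -/
theorem inv_not_int {n : ℕ} (hn : 2 ≤ n) {u : ℂ} (hu : u ^ 2 ^ (n + 1) = 1)
    (hu2 : (u ^ 2) ^ 2 ^ (n - 1) = -1) : ¬ IsIntegral ℤ (1 / (u + (starRingEnd ℂ) u)) := by
  intro hint
  have hM : 2 ^ (n + 1) ≠ 0 := by positivity
  have hn1 : ‖u‖ = 1 := Complex.norm_eq_one_of_pow_eq_one hu hM
  have hu0 : u ≠ 0 := by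
    intro h
    rw [h, norm_zero] at hn1
    exact zero_ne_one hn1
  have hc : (starRingEnd ℂ) u = u⁻¹ := by
    rw [Complex.inv_def, Complex.normSq_eq_norm_sq, hn1]
    norm_num
  rw [hc] at hint
  have hi : IsIntegral ℤ u := IsIntegral.of_pow (n := 2 ^ (n + 1)) (by positivity) (by
    rw [hu]
    exact isIntegral_one)
  have hi' : IsIntegral ℤ u⁻¹ := IsIntegral.of_pow (n := 2 ^ (n + 1)) (by positivity) (by
    rw [inv_pow, hu, inv_one]
    exact isIntegral_one)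
  have hx : u + u⁻¹ ≠ 0 := by
    intro h
    have h1 : u ^ 2 = -1 := by
      have h2 : u * (u + u⁻¹) = 0 := by rw [h, mul_zero]
      rw [mul_add, mul_inv_cancel₀ hu0] at h2
      linear_combination h2
    rw [h1] at hu2
    have h3 : 2 ^ (n - 1) = 2 * 2 ^ (n - 2) := by
      rw [← pow_succ']
      congr 1
      omega
    rw [h3, pow_mul] at hu2
    norm_num at hu2
  obtain ⟨r, hr, h⟩ := a2_pow hu0 hi hi' (n - 1)
  have h0 : u ^ 2 ^ (n - 1) + u⁻¹ ^ 2 ^ (n - 1) = 0 := by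
    have h1 : u ^ 2 ^ (n - 1) ≠ 0 := pow_ne_zero _ hu0
    have h2 : (u ^ 2 ^ (n - 1)) * (u ^ 2 ^ (n - 1)) = -1 := by
      rw [← hu2, ← pow_mul, ← pow_add]
      congr 1
      ring
    have h3 : (u ^ 2 ^ (n - 1)) * (u ^ 2 ^ (n - 1) + u⁻¹ ^ 2 ^ (n - 1)) = 0 := by
      rw [mul_add, h2, ← mul_pow, mul_inv_cancel₀ hu0, one_pow]
      norm_num
    exact (mul_eq_zero.mp h3).resolve_left h1
  rw [h0, zero_add] at h
  have h5 : (1 / (u + u⁻¹)) ^ 2 ^ (n - 1) * r = 1 / 2 := by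
    have h6 : (1 / (u + u⁻¹)) ^ 2 ^ (n - 1) * (u + u⁻¹) ^ 2 ^ (n - 1) = 1 := by
      rw [← mul_pow, one_div, inv_mul_cancel₀ hx, one_pow]
    rw [h] at h6
    linear_combination (1 / 2 : ℂ) * h6
  have h7 : IsIntegral ℤ (1 / 2 : ℂ) := by
    rw [← h5]
    exact (hint.pow _).mul hr
  have h8 : IsIntegral ℤ (1 / 2 : ℚ) := by
    rw [← isIntegral_algebraMap_iff (R := ℤ) (algebraMap ℚ ℂ).injective]
    have : algebraMap ℚ ℂ (1 / 2) = (1 / 2 : ℂ) := by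
      rw [map_div₀, map_one, map_ofNat]
    rw [this]
    exact h7
  obtain ⟨z, hz⟩ := IsIntegrallyClosed.isIntegral_iff.mp h8
  have h9 : (2 : ℚ) * (z : ℚ) = 1 := by
    have : (algebraMap ℤ ℚ) z = (z : ℚ) := rfl
    rw [← this, hz]
    norm_num
  have h10 : (2 : ℤ) * z = 1 := by exact_mod_cast h9
  omega

end TMN
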