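import Pool.Agent.TMN.Defs
import Pool.Agent.TMX.All

/-! # TMN: the system of the section -/

set_option autoImplicit false

open Set Filter Topology

namespace TMN

open TMX

theorem CC_finite (θ : ℝ) (p : Par) (n : ℕ) : (CC θ p n).Finite :=
  ((DD_finite θ n).prod (Set.finite_univ (α := Fin 4))).subset fun c hc => ⟨hc.1, Set.mem_univ _⟩

/-- The system of the section. -/
noncomputable def sys2 (θ : ℝ) (p : Par) (n : ℕ) : Sys (ℂ × Fin 4) where
  C := (CC_finite θ p n).toFinset
  a := fun c => crs c.1 (sv p c.2)
  b := fun c => crs c.1 (se p c.2)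
  A := EA θ p n
  B := EB θ p n
  T := TS θ p

end TMN
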