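import Pool.Agent.TMN.A2
import Pool.Agent.TMN.Base

/-! # TMN, A3: no saddle connections -/

set_option autoImplicit false

open Set Filter Topology

namespace TMN

open TMX

/-! ## coordinates in `KK` -/

private def a3bK (θ : ℝ) (x : ℂ) : Prop := x.re ∈ KK θ ∧ x.im ∈ KK θ

private theorem a3bK_zero (θ : ℝ) : a3bK θ 0 := ⟨by simp, by simp⟩
private theorem a3bK_add {θ : ℝ} {x y : ℂ} (hx : a3bK θ x) (hy : a3bK θ y) : a3bK θ (x + y) :=
  ⟨by rw [Complex.add_re]; exact (KK θ).add_mem hx.1 hy.1,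
   by rw [Complex.add_im]; exact (KK θ).add_mem hx.2 hy.2⟩
private theorem a3bK_neg {θ : ℝ} {x : ℂ} (hx : a3bK θ x) : a3bK θ (-x) :=
  ⟨by rw [Complex.neg_re]; exact (KK θ).neg_mem hx.1,
   by rw [Complex.neg_im]; exact (KK θ).neg_mem hx.2⟩
private theorem a3bK_sub {θ : ℝ} {x y : ℂ} (hx : a3bK θ x) (hy : a3bK θ y) : a3bK θ (x - y) := by
  rw [sub_eq_add_neg]; exact a3bK_add hx (a3bK_neg hy)
private theorem a3bK_mul {θ : ℝ} {x y : ℂ} (hx : a3bK θ x) (hy : a3bK θ y) : a3bK θ (x * y) :=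
  ⟨by rw [Complex.mul_re]
      exact (KK θ).sub_mem ((KK θ).mul_mem hx.1 hy.1) ((KK θ).mul_mem hx.2 hy.2),
   by rw [Complex.mul_im]
      exact (KK θ).add_mem ((KK θ).mul_mem hx.1 hy.2) ((KK θ).mul_mem hx.2 hy.1)⟩
private theorem a3bK_conj {θ : ℝ} {x : ℂ} (hx : a3bK θ x) : a3bK θ ((starRingEnd ℂ) x) :=
  ⟨by rw [Complex.conj_re]; exact hx.1, by rw [Complex.conj_im]; exact (KK θ).neg_mem hx.2⟩
private theorem a3bK_crs {θ : ℝ} {x y : ℂ} (hx : a3bK θ x) (hy : a3bK θ y) : crs x y ∈ KK θ := by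
  unfold crs
  exact (KK θ).sub_mem ((KK θ).mul_mem hx.1 hy.2) ((KK θ).mul_mem hx.2 hy.1)

private theorem a3bK_root (θ : ℝ) {N : ℕ} {v : ℂ} (hv : v ^ 2 ^ N = 1) : a3bK θ v := by
  have hne : (2 ^ N : ℕ) ≠ 0 := by positivity
  have hprim := Complex.isPrimitiveRoot_exp (2 ^ N) hne
  have : NeZero (2 ^ N : ℕ) := ⟨hne⟩
  obtain ⟨i, -, hi⟩ := hprim.eq_pow_of_pow_eq_one hv
  rw [← Complex.exp_nat_mul] at hi
  have harg : (i : ℂ) * (2 * Real.pi * Complex.I / ((2 ^ N : ℕ) : ℂ)) =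
      ((Real.pi * (2 * i : ℤ) / 2 ^ N : ℝ) : ℂ) * Complex.I := by
    push_cast; ring
  rw [harg] at hi
  rw [← hi]
  refine ⟨?_, ?_⟩
  · rw [Complex.exp_ofReal_mul_I_re]
    exact Subfield.subset_closure (Or.inl (Or.inr ⟨((2 * i : ℤ), N), rfl⟩))
  · rw [Complex.exp_ofReal_mul_I_im]
    exact Subfield.subset_closure (Or.inr ⟨((2 * i : ℤ), N), rfl⟩)

private theorem a3bK_zz (θ : ℝ) : a3bK θ (zz θ) :=
  ⟨by rw [zz_re]; exact Subfield.subset_closure (Or.inl (Or.inl (Or.inl rfl))),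
   by rw [zz_im]; exact Subfield.subset_closure (Or.inl (Or.inl (Or.inr rfl)))⟩

private theorem a3b_zz_conj (θ : ℝ) : zz θ * (starRingEnd ℂ) (zz θ) = 1 := by
  rw [Complex.mul_conj, Complex.normSq_eq_norm_sq, zz_norm]; norm_num

/-- the two forms of the directions -/
private theorem a3b_DD {θ : ℝ} {n : ℕ} {w : ℂ} (hw : w ∈ DD θ n) :
    ∃ u : ℂ, u ^ 2 ^ n = 1 ∧ (w = u * zz θ ∨ w = u * (starRingEnd ℂ) (zz θ)) := by
  rcases hw with h | h
  · refine ⟨_, h, Or.inl ?_⟩
    linear_combination (-w) * a3b_zz_conj θ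
  · refine ⟨_, h, Or.inr ?_⟩
    linear_combination (-w) * a3b_zz_conj θ

private theorem a3bK_DD {θ : ℝ} {n : ℕ} {w : ℂ} (hw : w ∈ DD θ n) : a3bK θ w := by
  obtain ⟨u, hu, h | h⟩ := a3b_DD hw
  · rw [h]; exact a3bK_mul (a3bK_root θ hu) (a3bK_zz θ)
  · rw [h]; exact a3bK_mul (a3bK_root θ hu) (a3bK_conj (a3bK_zz θ))

/-! ## algebraic numbers -/

private theorem a3b_int_root {M : ℕ} (hM : M ≠ 0) {v : ℂ} (hv : v ^ M = 1) : IsIntegral ℤ v :=
  IsIntegral.of_pow (Nat.pos_of_ne_zero hM) (by rw [hv]; exact isIntegral_one)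

private theorem a3b_half : ¬ IsIntegral ℤ ((1 : ℂ) / 2) := by
  intro h
  have h1 : IsIntegral ℤ ((algebraMap ℚ ℂ) (1 / 2)) := by simpa using h
  rw [isIntegral_algebraMap_iff (algebraMap ℚ ℂ).injective] at h1
  obtain ⟨m, hm⟩ := IsIntegrallyClosed.isIntegral_iff.1 h1
  have h2 : (m : ℚ) = 1 / 2 := by simpa using hm
  have h3 : (2 * m : ℚ) = 1 := by rw [h2]; norm_num
  have h4 : (2 * m : ℤ) = 1 := by exact_mod_cast h3
  omega

private theorem a3b_root_ne {M : ℕ} (hM : M ≠ 0) {v E : ℂ} (hv : v ^ M = 1)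
    (hE : IsIntegral ℤ E) : v ≠ 2 * E := by
  intro h
  apply a3b_half
  have h1 : (1 : ℂ) / 2 = E * v ^ (M - 1) := by
    have h2 : v ^ (M - 1) * v = 1 := by
      rw [← pow_succ, Nat.sub_add_cancel (Nat.pos_of_ne_zero hM), hv]
    rw [h] at h2 ⊢
    linear_combination (-(1 : ℂ) / 2) * h2
  rw [h1]
  exact hE.mul ((a3b_int_root hM hv).pow _)

private theorem a3b_alg {θ : ℝ} (hz : Transcendental ℚ (zz θ)) {n : ℕ} {w : ℂ} (hw : w ∈ DD θ n)
    (hn : ‖w‖ = 1) {c : ℂ} (hcA : c ∈ algebraicClosure ℚ ℂ) (h : crs w c = 0) : c = 0 := by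
  by_contra hne
  have hcc : (starRingEnd ℂ) c ∈ algebraicClosure ℚ ℂ := by
    rw [mem_algebraicClosure_iff] at hcA ⊢
    exact hcA.algHom (Complex.conjAe.toAlgHom.restrictScalars ℚ)
  have hdec := decomp hn c
  rw [h] at hdec
  set r : ℝ := dot w c with hr
  have hdec' : c = (r : ℂ) * w := by rw [hdec]; push_cast; ring
  have hr0 : (r : ℂ) ≠ 0 := by
    intro h0; rw [h0] at hdec'; exact hne (by rw [hdec']; ring)
  have hw0 : w ≠ 0 := by rintro rfl; simp at hn
  have hww : w * (starRingEnd ℂ) w = 1 := by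
    rw [Complex.mul_conj, Complex.normSq_eq_norm_sq, hn]; norm_num
  have hconj : (starRingEnd ℂ) c = (r : ℂ) * (starRingEnd ℂ) w := by
    rw [hdec', map_mul, Complex.conj_ofReal]
  have hcne : (starRingEnd ℂ) c ≠ 0 := by simpa using hne
  have hsq : w ^ 2 = c / (starRingEnd ℂ) c := by
    rw [eq_div_iff hcne, hconj]
    rw [hdec']
    linear_combination (w * r) * hww
  have hwA : w ^ 2 ∈ algebraicClosure ℚ ℂ := by rw [hsq]; exact div_mem hcA hcc
  have hroot : ∀ u : ℂ, u ^ 2 ^ n = 1 → u ∈ algebraicClosure ℚ ℂ := by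
    intro u hu
    rw [mem_algebraicClosure_iff]
    exact ((a3b_int_root (by positivity) hu).tower_top (A := ℚ)).isAlgebraic
  have hzne : zz θ ≠ 0 := by
    intro h0; have := zz_norm θ; rw [h0] at this; simp at this
  have hfin : zz θ ^ 2 ∈ algebraicClosure ℚ ℂ := by
    obtain ⟨u, hu, h1 | h1⟩ := a3b_DD hw
    · have hune : u ≠ 0 := by rintro rfl; rw [h1] at hw0; simp at hw0
      have : zz θ ^ 2 = w ^ 2 / u ^ 2 := by rw [h1]; field_simp
      rw [this]; exact div_mem hwA (pow_mem (hroot u hu) 2)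
    · have hune : u ≠ 0 := by rintro rfl; rw [h1] at hw0; simp at hw0
      have : zz θ ^ 2 = u ^ 2 / w ^ 2 := by
        rw [eq_div_iff (pow_ne_zero 2 hw0), h1]
        linear_combination (u ^ 2 * (zz θ * (starRingEnd ℂ) (zz θ) + 1)) * a3b_zz_conj θ
      rw [this]; exact div_mem (pow_mem (hroot u hu) 2) hwA
  apply hz
  have h2 := mem_algebraicClosure_iff.1 hfin
  exact IsAlgebraic.of_pow two_pos h2

/-! ## hits -/

private noncomputable def a3bS (L : List (Fin 4 × ℂ)) (s : Fin 4) : ℂ :=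
  (L.map fun h => if h.1 = s then h.2 else 0).sum

private theorem a3bS_nil (s : Fin 4) : a3bS [] s = 0 := rfl
private theorem a3bS_cons (h : Fin 4 × ℂ) (L : List (Fin 4 × ℂ)) (s : Fin 4) :
    a3bS (h :: L) s = (if h.1 = s then h.2 else 0) + a3bS L s := by
  simp [a3bS]

private theorem a3bS_sum (p : Par) (L : List (Fin 4 × ℂ)) :
    ∑ s, (p.2 s : ℂ) * a3bS L s = (L.map fun h => (p.2 h.1 : ℂ) * h.2).sum := by
  induction L with
  | nil => simp [a3bS_nil]
  | cons h L ih =>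
    simp only [a3bS_cons, mul_add, Finset.sum_add_distrib, ih, List.map_cons, List.sum_cons]
    congr 1
    simp

private theorem a3bS_int {N : ℕ} (L : List (Fin 4 × ℂ)) (s : Fin 4)
    (hL : ∀ h ∈ L, h.2 ^ 2 ^ N = 1) : IsIntegral ℤ (a3bS L s) := by
  induction L with
  | nil => rw [a3bS_nil]; exact isIntegral_zero
  | cons h L ih =>
    rw [a3bS_cons]
    refine IsIntegral.add ?_ (ih fun h' hh' => hL h' (List.mem_cons_of_mem _ hh'))
    split_ifs
    · exact a3b_int_root (by positivity) (hL h (List.mem_cons_self ..))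
    · exact isIntegral_zero

private theorem a3bS_K (θ : ℝ) {N : ℕ} (L : List (Fin 4 × ℂ)) (s : Fin 4)
    (hL : ∀ h ∈ L, h.2 ^ 2 ^ N = 1) : a3bK θ (a3bS L s) := by
  induction L with
  | nil => rw [a3bS_nil]; exact a3bK_zero θ
  | cons h L ih =>
    rw [a3bS_cons]
    refine a3bK_add ?_ (ih fun h' hh' => hL h' (List.mem_cons_of_mem _ hh'))
    split_ifs
    · exact a3bK_root θ (hL h (List.mem_cons_self ..))
    · exact a3bK_zero θ

private theorem a3b_dot_zero (w : ℂ) : dot w 0 = 0 := by simp [dot]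

private theorem a3bS_pos (w : ℂ) (L : List (Fin 4 × ℂ)) (s : Fin 4)
    (hL : ∀ h ∈ L, 0 < dot w h.2) :
    0 ≤ dot w (a3bS L s) ∧ ((∃ h ∈ L, h.1 = s) → 0 < dot w (a3bS L s)) ∧
      ((∀ h ∈ L, h.1 ≠ s) → a3bS L s = 0) := by
  induction L with
  | nil =>
    rw [a3bS_nil]
    refine ⟨(a3b_dot_zero w).ge, ?_, fun _ => rfl⟩
    rintro ⟨h, hh, -⟩
    simp at hh
  | cons h L ih =>
    obtain ⟨i1, i2, i3⟩ := ih fun h' hh' => hL h' (List.mem_cons_of_mem _ hh')
    have hh := hL h (List.mem_cons_self ..)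
    rw [a3bS_cons, dot_add_right]
    refine ⟨?_, ?_, ?_⟩
    · split_ifs
      · linarith
      · rw [a3b_dot_zero]; linarith
    · rintro ⟨h', hh', hs⟩
      rcases List.mem_cons.1 hh' with rfl | hh''
      · rw [if_pos hs]; linarith
      · have := i2 ⟨h', hh'', hs⟩
        split_ifs
        · linarith
        · rw [a3b_dot_zero]; linarith
    · intro hall
      rw [if_neg (hall h (List.mem_cons_self ..)), i3 fun h' hh' => hall h' (List.mem_cons_of_mem _ hh'),
        add_zero]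

/-! ## normals are roots of unity -/

private theorem a3b_nu {θ : ℝ} {p : Par} {n : ℕ} (g : Gen θ p n) (s : Fin 4) :
    (nu p s) ^ 2 ^ (n + 1) = 1 := by
  obtain ⟨k, -, hk⟩ := g.tilt
  have h4 : (4 : ℕ) ∣ 2 ^ (n + 1) := by
    have : (4 : ℕ) = 2 ^ 2 := by norm_num
    rw [this]
    exact pow_dvd_pow 2 (by have := g.two; omega)
  obtain ⟨q, hq⟩ := h4
  unfold nu
  rw [mul_pow, ← pow_mul, mul_comm (s : ℕ), pow_mul Complex.I, hq, pow_mul Complex.I,
    Complex.I_pow_four, one_pow, one_pow, mul_one, ← hq, ← Complex.exp_nat_mul, hk]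
  rw [Complex.exp_eq_one_iff]
  refine ⟨k, ?_⟩
  push_cast
  rw [pow_succ]
  have : (2 : ℂ) ^ n ≠ 0 := pow_ne_zero n two_ne_zero
  field_simp

private theorem a3b_act {N : ℕ} (d : Sg) {v : ℂ} (hv : v ^ 2 ^ (N + 1) = 1) :
    (act d v) ^ 2 ^ (N + 1) = 1 := by
  have hneg : ∀ x : ℂ, x ^ 2 ^ (N + 1) = 1 → (-x) ^ 2 ^ (N + 1) = 1 := by
    intro x hx
    rw [neg_pow, hx, pow_succ, pow_mul', neg_one_sq, one_pow, mul_one]
  have hconj : ∀ x : ℂ, x ^ 2 ^ (N + 1) = 1 → ((starRingEnd ℂ) x) ^ 2 ^ (N + 1) = 1 := by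
    intro x hx
    rw [← map_pow, hx, map_one]
  obtain ⟨h1, h2⟩ := sg_cases d
  rcases h1 with h1 | h1 <;> rcases h2 with h2 | h2
  · have : act d v = v := by apply Complex.ext <;> simp [act, h1, h2]
    rw [this]; exact hv
  · have : act d v = (starRingEnd ℂ) v := by apply Complex.ext <;> simp [act, h1, h2]
    rw [this]; exact hconj v hv
  · have : act d v = -(starRingEnd ℂ) v := by apply Complex.ext <;> simp [act, h1, h2]
    rw [this]; exact hneg _ (hconj v hv)
  · have : act d v = -v := by apply Complex.ext <;> simp [act, h1, h2]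
    rw [this]; exact hneg v hv


/-! ## coefficients -/

/-- real multiples of roots of unity -/
private def a3N (θ : ℝ) (n : ℕ) (x : ℂ) : Prop :=
  ∃ r : ℝ, r ∈ KK θ ∧ (r : ℂ) ∈ algebraicClosure ℚ ℂ ∧ ∃ u : ℂ, u ^ 2 ^ (n + 1) = 1 ∧
    x = (r : ℂ) * u

private theorem a3_root_alg {M : ℕ} (hM : M ≠ 0) {u : ℂ} (hu : u ^ M = 1) :
    u ∈ algebraicClosure ℚ ℂ := by
  rw [mem_algebraicClosure_iff]
  exact ((a3b_int_root hM hu).tower_top (A := ℚ)).isAlgebraic

private theorem a3N_alg {θ : ℝ} {n : ℕ} {x : ℂ} (h : a3N θ n x) : x ∈ algebraicClosure ℚ ℂ := by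
  obtain ⟨r, -, hr, u, hu, rfl⟩ := h
  exact mul_mem hr (a3_root_alg (by positivity) hu)

private theorem a3N_K {θ : ℝ} {n : ℕ} {x : ℂ} (h : a3N θ n x) : a3bK θ x := by
  obtain ⟨r, hr, -, u, hu, rfl⟩ := h
  have h1 : a3bK θ (r : ℂ) := ⟨by simpa using hr, by simp⟩
  exact a3bK_mul h1 (a3bK_root θ hu)

private theorem a3N_root {θ : ℝ} {n : ℕ} {u : ℂ} (hu : u ^ 2 ^ (n + 1) = 1) : a3N θ n u :=
  ⟨1, (KK θ).one_mem, by simpa using one_mem (algebraicClosure ℚ ℂ), u, hu, by simp⟩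

private theorem a3N_zero {θ : ℝ} {n : ℕ} : a3N θ n 0 :=
  ⟨0, (KK θ).zero_mem, by simpa using zero_mem (algebraicClosure ℚ ℂ), 1, one_pow _, by simp⟩

private theorem a3N_joint {θ : ℝ} {p : Par} {n : ℕ} (g : Gen θ p n) (k : Fin 4) :
    a3N θ n (((nu p k).re⁻¹ : ℝ) : ℂ) := by
  have hroot := a3b_nu g k
  refine ⟨(nu p k).re⁻¹, (KK θ).inv_mem (a3bK_root θ hroot).1, ?_, 1, one_pow _, by simp⟩
  have h1 : nu p k ∈ algebraicClosure ℚ ℂ := a3_root_alg (by positivity) hroot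
  have h2 : (starRingEnd ℂ) (nu p k) ∈ algebraicClosure ℚ ℂ := by
    apply a3_root_alg (M := 2 ^ (n + 1)) (by positivity)
    rw [← map_pow, hroot, map_one]
  have h3 : (((nu p k).re⁻¹ : ℝ) : ℂ) = (2⁻¹ * (nu p k + (starRingEnd ℂ) (nu p k)))⁻¹ := by
    rw [Complex.add_conj]; push_cast; rw [← mul_assoc]; norm_num
  rw [h3]
  refine inv_mem (mul_mem (inv_mem ?_) (add_mem h1 h2))
  have := (algebraicClosure ℚ ℂ).algebraMap_mem (2 : ℚ)
  simpa using this

private theorem a3_crs_sum (w : ℂ) (p : Par) (D : Fin 4 → ℂ) :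
    crs w (∑ s, (p.2 s : ℂ) * D s) = ∑ s, crs w (D s) * p.2 s := by
  rw [Fin.sum_univ_four, Fin.sum_univ_four, crs_add_right, crs_add_right, crs_add_right,
    crs_mul_right, crs_mul_right, crs_mul_right, crs_mul_right]
  ring

private theorem a3_core {θ : ℝ} (hz : Transcendental ℚ (zz θ)) {p : Par} {n : ℕ} (g : Gen θ p n)
    {v w : ℂ} (hw : w ∈ DD θ n) {l : List Lt} (hl : GoodL θ p l (v, w)) {c : Cp} {t : ℝ}
    {v' : ℂ}
    (hend : frm θ c ((run θ p l (v, w)).1 + t * (run θ p l (v, w)).2) = v')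
    {a a' : Fin 4 → ℂ} (hv : v = ∑ s, (p.2 s : ℂ) * a s) (hv' : v' = ∑ s, (p.2 s : ℂ) * a' s)
    (ha : ∀ s, a3N θ n (a s)) (ha' : ∀ s, a3N θ n (a' s)) :
    ∃ (H : ℂ → ℂ) (L : List (Fin 4 × ℂ)), (∀ u v, H (u + v) = H u + H v) ∧
      (∀ (r : ℝ) u, H ((r : ℂ) * u) = (r : ℂ) * H u) ∧
      (∀ u : ℂ, u ^ 2 ^ (n + 1) = 1 → (H u) ^ 2 ^ (n + 1) = 1) ∧
      (∀ h ∈ L, h.2 ^ 2 ^ (n + 1) = 1) ∧ (∀ h ∈ L, 0 < dot w h.2) ∧ L.length = l.length ∧
      (∀ s, H (a' s) - a s = 2 * a3bS L s) ∧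
      (∀ u, dot (act c.1 (run θ p l (v, w)).2) u = dot w (H u)) ∧
      (l = [] → ∀ u, H u = act c.1 u) := by
  obtain ⟨hn, -, -, -, -, hwnu⟩ := DD_ops hz g hw
  obtain ⟨G, L, c0, Gadd, Gmul, Gdot, Gw, Groot, GK, hc0, hlen, hits, heq, hnil⟩ :=
    holonomy hz g hw hl
  set z' := run θ p l (v, w) with hz'
  have hLroot : ∀ h ∈ L, h.2 ^ 2 ^ (n + 1) = 1 := fun h hh => (hits h hh).1
  have hLpos : ∀ h ∈ L, 0 < dot w h.2 := fun h hh => (hits h hh).2
  set H : ℂ → ℂ := fun v => G (act c.1 v) with hH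
  have Hadd : ∀ u v, H (u + v) = H u + H v := fun u v => by
    simp only [hH]; rw [act_add, Gadd]
  have Hmul : ∀ (r : ℝ) u, H ((r : ℂ) * u) = (r : ℂ) * H u := fun r u => by
    simp only [hH]; rw [act_mul, Gmul]
  have Hroot : ∀ u : ℂ, u ^ 2 ^ (n + 1) = 1 → (H u) ^ 2 ^ (n + 1) = 1 := fun u hu =>
    Groot _ (a3b_act c.1 hu)
  have hpos : z'.1 + (t : ℂ) * z'.2 = act c.1 v' + lat θ c.2 := by
    have h1 : act c.1 (z'.1 + (t : ℂ) * z'.2 - lat θ c.2) = v' := hend
    have h2 := congrArg (act c.1) h1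
    rw [act_self] at h2
    rw [← h2]; ring
  have hGpos : G z'.1 + (t : ℂ) * w = H v' + G (lat θ c.2) := by
    have := congrArg G hpos
    rw [Gadd, Gadd, Gmul, Gw] at this
    exact this
  have hHv : H v' = ∑ s, (p.2 s : ℂ) * H (a' s) := by
    rw [hv', Fin.sum_univ_four, Fin.sum_univ_four]
    rw [Hadd, Hadd, Hadd, Hmul, Hmul, Hmul, Hmul]
  set C : Fin 4 → ℂ := fun s => H (a' s) - a s - 2 * a3bS L s with hC
  have hsumC : ∑ s, (p.2 s : ℂ) * C s = ((t + tim θ p l (v, w) : ℝ) : ℂ) * w -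
      G (lat θ c.2) - c0 := by
    have e1 : ∑ s, (p.2 s : ℂ) * C s = ∑ s, (p.2 s : ℂ) * H (a' s) -
        ∑ s, (p.2 s : ℂ) * a s - 2 * ∑ s, (p.2 s : ℂ) * a3bS L s := by
      simp only [hC, mul_sub, Finset.sum_sub_distrib]
      congr 1
      rw [Finset.mul_sum]
      exact Finset.sum_congr rfl fun s _ => by ring
    rw [e1, a3bS_sum, ← hHv, ← hv]
    push_cast
    linear_combination heq - hGpos
  have hHN : ∀ s, a3N θ n (H (a' s)) := by
    intro s
    obtain ⟨r, hr, hr', u, hu, he⟩ := ha' s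
    exact ⟨r, hr, hr', H u, Hroot u hu, by rw [he, Hmul]⟩
  have hCK : ∀ s, a3bK θ (C s) := by
    intro s
    have k3 : a3bK θ (a3bS L s) := a3bS_K θ L s hLroot
    have k4 : a3bK θ (2 * a3bS L s) := by rw [two_mul]; exact a3bK_add k3 k3
    exact a3bK_sub (a3bK_sub (a3N_K (hHN s)) (a3N_K (ha s))) k4
  have hCA : ∀ s, C s ∈ algebraicClosure ℚ ℂ := by
    intro s
    have k3 : a3bS L s ∈ algebraicClosure ℚ ℂ := by
      rw [mem_algebraicClosure_iff]
      exact ((a3bS_int L s hLroot).tower_top (A := ℚ)).isAlgebraic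
    have k4 : 2 * a3bS L s ∈ algebraicClosure ℚ ℂ := by rw [two_mul]; exact add_mem k3 k3
    exact sub_mem (sub_mem (a3N_alg (hHN s)) (a3N_alg (ha s))) k4
  have hwK := a3bK_DD hw
  have hcrs : (crs w (G (lat θ c.2)) + crs w c0) + ∑ s, crs w (C s) * p.2 s = 0 := by
    have h1 := congrArg (crs w) hsumC
    rw [a3_crs_sum w p C, crs_sub_right, crs_sub_right, crs_mul_right, crs_self] at h1
    linear_combination h1
  obtain ⟨-, hd⟩ := g.lin _ ((KK θ).add_mem (GK _) hc0) (fun s => crs w (C s))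
    (fun s => a3bK_crs hwK (hCK s)) hcrs
  have hC0 : ∀ s, C s = 0 := fun s => a3b_alg hz hw hn (hCA s) (hd s)
  refine ⟨H, L, Hadd, Hmul, Hroot, hLroot, hLpos, hlen, ?_, ?_, ?_⟩
  · intro s
    have := hC0 s
    simp only [hC] at this
    linear_combination this
  · intro u
    rw [dot_act_left, ← Gdot, Gw]
  · intro hl0 u
    exact (hnil hl0).1 _

/-- coefficients of a vertex -/
private noncomputable def a3q (p : Par) (i s : Fin 4) : ℂ :=
  (if s = i then nu p s else 0) + (if s = i + 1 then nu p s else 0)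

private noncomputable def a3j (p : Par) (k s : Fin 4) : ℂ :=
  if s = k then (((nu p k).re⁻¹ : ℝ) : ℂ) else 0

private theorem a3q_sum (p : Par) (i : Fin 4) : vtx p i = ∑ s, (p.2 s : ℂ) * a3q p i s := by
  simp only [a3q, mul_add, Finset.sum_add_distrib, mul_ite, mul_zero, Finset.sum_ite_eq',
    Finset.mem_univ, if_true]
  rfl

private theorem a3j_sum (p : Par) (k : Fin 4) : jt p k = ∑ s, (p.2 s : ℂ) * a3j p k s := by
  simp only [a3j, mul_ite, mul_zero, Finset.sum_ite_eq', Finset.mem_univ, if_true]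
  unfold jt
  push_cast
  rw [div_eq_mul_inv]

private theorem a3q_N {θ : ℝ} {p : Par} {n : ℕ} (g : Gen θ p n) (i s : Fin 4) :
    a3N θ n (a3q p i s) := by
  have hii : i ≠ i + 1 := (by decide : ∀ i : Fin 4, i ≠ i + 1) i
  have h1 : a3q p i s = 0 ∨ a3q p i s = nu p s := by
    unfold a3q
    by_cases h : s = i
    · subst h; right; rw [if_pos rfl, if_neg hii, add_zero]
    · rw [if_neg h, zero_add]
      by_cases h' : s = i + 1
      · right; rw [if_pos h']
      · left; rw [if_neg h']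
  rcases h1 with h1 | h1
  · rw [h1]; exact a3N_zero
  · rw [h1]; exact a3N_root (a3b_nu g s)

private theorem a3j_N {θ : ℝ} {p : Par} {n : ℕ} (g : Gen θ p n) (k s : Fin 4) :
    a3N θ n (a3j p k s) := by
  unfold a3j
  split_ifs
  · exact a3N_joint g k
  · exact a3N_zero

private theorem a3_nu_half {θ : ℝ} {p : Par} {n : ℕ} (g : Gen θ p n) (s : Fin 4) :
    ((nu p s) ^ 2) ^ 2 ^ (n - 1) = -1 := by
  obtain ⟨k, hk1, hk⟩ := g.tilt
  have h2 := g.two
  have h4 : (4 : ℕ) ∣ 2 ^ n := by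
    have : (4 : ℕ) = 2 ^ 2 := by norm_num
    rw [this]
    exact pow_dvd_pow 2 h2
  obtain ⟨q, hq⟩ := h4
  have hnn : 2 * 2 ^ (n - 1) = 2 ^ n := by
    rw [← pow_succ']; congr 1; omega
  rw [← pow_mul, hnn]
  unfold nu
  rw [mul_pow, ← pow_mul, mul_comm (s : ℕ), pow_mul Complex.I, hq, pow_mul Complex.I,
    Complex.I_pow_four, one_pow, one_pow, mul_one, ← hq, ← Complex.exp_nat_mul, hk]
  have harg : ((2 ^ n : ℕ) : ℂ) * (((Real.pi * k / 2 ^ n : ℝ) : ℂ) * Complex.I) =
      (k : ℂ) * (Real.pi * Complex.I) := by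
    push_cast
    have : (2 : ℂ) ^ n ≠ 0 := pow_ne_zero n two_ne_zero
    field_simp
  rw [harg, Complex.exp_int_mul, Complex.exp_pi_mul_I]
  exact hk1.neg_one_zpow

/-- two vertices `q_i`, `q_j` -/
private theorem a3_qq {θ : ℝ} (hz : Transcendental ℚ (zz θ)) {p : Par}
    {n : ℕ} (g : Gen θ p n) {w : ℂ} (hw : w ∈ DD θ n) {i : Fin 4}
    (hst : ¬ (dot w (nu p i) < 0 ∧ dot w (nu p (i + 1)) < 0))
    {l : List Lt} (hl : GoodL θ p l (vtx p i, w)) {c : Cp} {t : ℝ} (ht : 0 < t) {j : Fin 4}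
    (hend : frm θ c ((run θ p l (vtx p i, w)).1 + t * (run θ p l (vtx p i, w)).2) = vtx p j)
    (harr : ¬ (0 < dot (act c.1 (run θ p l (vtx p i, w)).2) (nu p j) ∧
      0 < dot (act c.1 (run θ p l (vtx p i, w)).2) (nu p (j + 1)))) :
    l = [] ∧ c.1 = 1 ∧ Spc θ w ∧ (t : ℂ) * w = lat θ c.2 := by
  obtain ⟨hn, -, -, -, -, hwnu⟩ := DD_ops hz g hw
  have hw0 : w ≠ 0 := by rintro rfl; simp at hn
  obtain ⟨G, L, c0, Gadd, Gmul, Gdot, Gw, Groot, GK, hc0, hlen, hits, heq, hnil⟩ :=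
    holonomy hz g hw hl
  set z' := run θ p l (vtx p i, w) with hz'
  have hLroot : ∀ h ∈ L, h.2 ^ 2 ^ (n + 1) = 1 := fun h hh => (hits h hh).1
  have hLpos : ∀ h ∈ L, 0 < dot w h.2 := fun h hh => (hits h hh).2
  have hM : (2 ^ (n + 1) : ℕ) ≠ 0 := by positivity
  -- the map `H`
  set H : ℂ → ℂ := fun v => G (act c.1 v) with hH
  have Hadd : ∀ u v, H (u + v) = H u + H v := fun u v => by
    simp only [hH]; rw [act_add, Gadd]
  have Hmul : ∀ (r : ℝ) u, H ((r : ℂ) * u) = (r : ℂ) * H u := fun r u => by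
    simp only [hH]; rw [act_mul, Gmul]
  have Hroot : ∀ s, (H (nu p s)) ^ 2 ^ (n + 1) = 1 := fun s =>
    Groot _ (a3b_act c.1 (a3b_nu g s))
  -- position at the end
  have hpos : z'.1 + (t : ℂ) * z'.2 = act c.1 (vtx p j) + lat θ c.2 := by
    have h1 : act c.1 (z'.1 + (t : ℂ) * z'.2 - lat θ c.2) = vtx p j := hend
    have h2 := congrArg (act c.1) h1
    rw [act_self] at h2
    rw [← h2]; ring
  have hGpos : G z'.1 + (t : ℂ) * w = H (vtx p j) + G (lat θ c.2) := by
    have := congrArg G hpos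
    rw [Gadd, Gadd, Gmul, Gw] at this
    exact this
  have hHv : H (vtx p j) = (p.2 j : ℂ) * H (nu p j) + (p.2 (j + 1) : ℂ) * H (nu p (j + 1)) := by
    unfold vtx; rw [Hadd, Hmul, Hmul]
  have hvi : vtx p i = (p.2 i : ℂ) * nu p i + (p.2 (i + 1) : ℂ) * nu p (i + 1) := rfl
  -- the coefficient of `p.2 s`
  set C : Fin 4 → ℂ := fun s => (if s = j then H (nu p s) else 0) +
    (if s = j + 1 then H (nu p s) else 0) - (if s = i then nu p s else 0) -
    (if s = i + 1 then nu p s else 0) - 2 * a3bS L s with hC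
  have hsumC : ∑ s, (p.2 s : ℂ) * C s = ((t + tim θ p l (vtx p i, w) : ℝ) : ℂ) * w -
      G (lat θ c.2) - c0 := by
    have e1 : ∑ s, (p.2 s : ℂ) * C s = (p.2 j : ℂ) * H (nu p j) +
        (p.2 (j + 1) : ℂ) * H (nu p (j + 1)) - (p.2 i : ℂ) * nu p i -
        (p.2 (i + 1) : ℂ) * nu p (i + 1) - 2 * ∑ s, (p.2 s : ℂ) * a3bS L s := by
      simp only [hC, mul_add, mul_sub, Finset.sum_add_distrib, Finset.sum_sub_distrib, mul_ite,
        mul_zero, Finset.sum_ite_eq', Finset.mem_univ, if_true]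
      congr 1
      rw [Finset.mul_sum]
      exact Finset.sum_congr rfl fun s _ => by ring
    rw [e1, a3bS_sum]
    push_cast
    linear_combination heq - hGpos - hHv + hvi
  have hCK : ∀ s, a3bK θ (C s) := by
    intro s
    have k1 : a3bK θ (H (nu p s)) := a3bK_root θ (Hroot s)
    have k2 : a3bK θ (nu p s) := a3bK_root θ (a3b_nu g s)
    have k3 : a3bK θ (a3bS L s) := a3bS_K θ L s hLroot
    have k4 : a3bK θ (2 * a3bS L s) := by rw [two_mul]; exact a3bK_add k3 k3
    simp only [hC]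
    refine a3bK_sub (a3bK_sub (a3bK_sub (a3bK_add ?_ ?_) ?_) ?_) k4 <;> split_ifs <;>
      first | exact k1 | exact k2 | exact a3bK_zero θ
  have hCint : ∀ s, IsIntegral ℤ (C s) := by
    intro s
    have k1 : IsIntegral ℤ (H (nu p s)) := a3b_int_root hM (Hroot s)
    have k2 : IsIntegral ℤ (nu p s) := a3b_int_root hM (a3b_nu g s)
    have k3 : IsIntegral ℤ (a3bS L s) := a3bS_int L s hLroot
    have k4 : IsIntegral ℤ (2 * a3bS L s) := by rw [two_mul]; exact k3.add k3
    simp only [hC]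
    refine ((((IsIntegral.add ?_ ?_).sub ?_).sub ?_).sub k4) <;> split_ifs <;>
      first | exact k1 | exact k2 | exact isIntegral_zero
  have hwK := a3bK_DD hw
  have hcrs : (crs w (G (lat θ c.2)) + crs w c0) + ∑ s, crs w (C s) * p.2 s = 0 := by
    have hgen : ∀ D : Fin 4 → ℂ, crs w (∑ s, (p.2 s : ℂ) * D s) = ∑ s, crs w (D s) * p.2 s := by
      intro D
      rw [Fin.sum_univ_four, Fin.sum_univ_four, crs_add_right, crs_add_right, crs_add_right,
        crs_mul_right, crs_mul_right, crs_mul_right, crs_mul_right]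
      ring
    have h1 := congrArg (crs w) hsumC
    rw [hgen C, crs_sub_right, crs_sub_right, crs_mul_right, crs_self] at h1
    linear_combination h1
  obtain ⟨-, hd⟩ := g.lin _ ((KK θ).add_mem (GK _) hc0) (fun s => crs w (C s))
    (fun s => a3bK_crs hwK (hCK s)) hcrs
  have hC0 : ∀ s, C s = 0 := fun s => a3b_alg hz hw hn
    (mem_algebraicClosure_iff.2 ((hCint s).tower_top (A := ℚ)).isAlgebraic) (hd s)
  have hii : i ≠ i + 1 := (by decide : ∀ i : Fin 4, i ≠ i + 1) i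
  -- `i = j`
  have hij : j = i := by
    by_contra hne
    have hex : ∀ i j : Fin 4, j ≠ i → ∃ s, (s = i ∨ s = i + 1) ∧ s ≠ j ∧ s ≠ j + 1 := by decide
    obtain ⟨s, hs, hsj, hsj1⟩ := hex i j hne
    have h1 := hC0 s
    simp only [hC] at h1
    rw [if_neg hsj, if_neg hsj1] at h1
    have h2 : nu p s = 2 * (-a3bS L s) := by
      rcases hs with rfl | rfl
      · simp only [if_true, if_neg hii] at h1; linear_combination -h1
      · simp only [if_true, if_neg hii.symm] at h1; linear_combination -h1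
    exact a3b_root_ne hM (a3b_nu g s) (a3bS_int L s hLroot).neg h2
  subst hij
  have hjj : j ≠ j + 1 := hii
  have hEi : H (nu p j) - nu p j = 2 * a3bS L j := by
    have h1 := hC0 j
    simp only [hC, if_true, if_neg hjj] at h1
    linear_combination h1
  have hEi1 : H (nu p (j + 1)) - nu p (j + 1) = 2 * a3bS L (j + 1) := by
    have h1 := hC0 (j + 1)
    simp only [hC, if_true, if_neg hjj.symm] at h1
    linear_combination h1
  have hEo : ∀ s, s ≠ j → s ≠ j + 1 → a3bS L s = 0 := by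
    intro s h0 h1
    have h2 := hC0 s
    simp only [hC] at h2
    rw [if_neg h0, if_neg h1, if_neg h0, if_neg h1] at h2
    linear_combination (-(1 : ℂ) / 2) * h2
  have hnohit : ∀ s, a3bS L s = 0 → ∀ h ∈ L, h.1 ≠ s := by
    intro s hs h hh hhs
    have := (a3bS_pos w L s hLpos).2.1 ⟨h, hh, hhs⟩
    rw [hs, a3b_dot_zero] at this
    exact lt_irrefl _ this
  -- the sign alternative
  have halt : ∀ s, H (nu p s) - nu p s = 2 * a3bS L s →
      (H (nu p s) = nu p s ∧ a3bS L s = 0) ∨ (H (nu p s) = -nu p s ∧ dot w (nu p s) < 0) := by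
    intro s hs
    have hint : IsIntegral ℤ ((H (nu p s) - nu p s) / 2) := by
      have : (H (nu p s) - nu p s) / 2 = a3bS L s := by rw [hs]; ring
      rw [this]; exact a3bS_int L s hLroot
    rcases half_unit (Hroot s) (a3b_nu g s) hint with h1 | h1
    · left
      refine ⟨h1, ?_⟩
      rw [h1] at hs
      linear_combination (-(1 : ℂ) / 2) * hs
    · right
      refine ⟨h1, ?_⟩
      have hS : a3bS L s = -nu p s := by
        rw [h1] at hs
        linear_combination (-(1 : ℂ) / 2) * hs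
      have hne : a3bS L s ≠ 0 := by
        rw [hS, neg_ne_zero]
        intro h0
        have := nu_norm p s
        rw [h0] at this; simp at this
      have hexi : ∃ h ∈ L, h.1 = s := by
        by_contra hno
        push Not at hno
        exact hne ((a3bS_pos w L s hLpos).2.2 hno)
      have := (a3bS_pos w L s hLpos).2.1 hexi
      rw [hS, dot_neg_right] at this
      linarith
  have hdotarr : ∀ s, dot (act c.1 z'.2) (nu p s) = dot w (H (nu p s)) := by
    intro s
    rw [dot_act_left, ← Gdot, Gw]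
  rcases halt j hEi with ⟨a1, a2⟩ | ⟨a1, a2⟩ <;> rcases halt (j + 1) hEi1 with ⟨b1, b2⟩ | ⟨b1, b2⟩
  · -- no hits
    have hLnil : L = [] := by
      rw [List.eq_nil_iff_forall_not_mem]
      intro h hh
      by_cases e1 : h.1 = j
      · exact hnohit j a2 h hh e1
      by_cases e2 : h.1 = j + 1
      · exact hnohit (j + 1) b2 h hh e2
      exact hnohit h.1 (hEo _ e1 e2) h hh rfl
    have hlnil : l = [] := by
      rw [← List.length_eq_zero_iff, ← hlen, hLnil]; rfl
    obtain ⟨hGid, -⟩ := hnil hlnil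
    have hact1 : act c.1 (nu p j) = nu p j := by rw [← hGid (act c.1 (nu p j))]; exact a1
    have hact2 : act c.1 (nu p (j + 1)) = nu p (j + 1) := by
      rw [← hGid (act c.1 (nu p (j + 1)))]; exact b1
    have hactid : ∀ v, act c.1 v = v := by
      intro v
      conv_lhs => rw [basis_nu p j v]
      rw [act_add, act_mul, act_mul, hact1, hact2]
      exact (basis_nu p j v).symm
    have hc1 : c.1 = 1 := by
      have h1 := hactid (1 + Complex.I)
      obtain ⟨e1, e2⟩ := sg_cases c.1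
      have hre := congrArg Complex.re h1
      have him := congrArg Complex.im h1
      simp only [act, Complex.add_re, Complex.add_im, Complex.one_re, Complex.one_im,
        Complex.I_re, Complex.I_im] at hre him
      apply Prod.ext
      · rcases e1 with e1 | e1
        · exact e1
        · rw [e1] at hre; norm_num at hre
      · rcases e2 with e2 | e2
        · exact e2
        · rw [e2] at him; norm_num at him
    have hz1 : z' = (vtx p j, w) := by rw [hz', hlnil]; rfl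
    have hlat : (t : ℂ) * w = lat θ c.2 := by
      rw [hz1, hactid] at hpos
      linear_combination hpos
    have hcne : c.2 ≠ 0 := by
      intro h0
      have : lat θ c.2 = 0 := by rw [h0]; apply Complex.ext <;> simp [lat]
      rw [this] at hlat
      rcases mul_eq_zero.1 hlat with h1 | h1
      · exact ht.ne' (Complex.ofReal_eq_zero.1 h1)
      · exact hw0 h1
    have hcr : crs w (lat θ c.2) = 0 := by rw [← hlat, crs_mul_right, crs_self, mul_zero]
    exact ⟨hlnil, hc1, (lat_special hz hw hcne hcr).1, hlat⟩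
  · exfalso
    have h1 : 0 < dot w (nu p j) := by
      rcases lt_trichotomy (dot w (nu p j)) 0 with h | h | h
      · exact absurd ⟨h, b2⟩ hst
      · exact absurd h (hwnu j)
      · exact h
    apply harr
    rw [hdotarr, hdotarr, a1, b1, dot_neg_right]
    exact ⟨h1, by linarith⟩
  · exfalso
    have h1 : 0 < dot w (nu p (j + 1)) := by
      rcases lt_trichotomy (dot w (nu p (j + 1))) 0 with h | h | h
      · exact absurd ⟨a2, h⟩ hst
      · exact absurd h (hwnu (j + 1))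
      · exact h
    apply harr
    rw [hdotarr, hdotarr, a1, b1, dot_neg_right]
    exact ⟨by linarith, h1⟩
  · exact absurd ⟨a2, b2⟩ hst


private theorem a3_l2 {θ : ℝ} {p : Par} (l : List Lt) : ∀ z, GoodL2 θ p l z → GoodL θ p l z := by
  induction l with
  | nil => exact fun _ _ => trivial
  | cons a l ih => exact fun z h => ⟨h.1.1, ih _ h.2⟩

private theorem a3_pos {p : Par} {k : Fin 4} {w : ℂ} (h1 : 0 < dot w (nu p k))
    (h2 : 0 < dot ((starRingEnd ℂ) w) (nu p k)) :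
    0 < dot w (((nu p k).re⁻¹ : ℝ) : ℂ) := by
  have h3 : 0 < w.re * (nu p k).re := by
    have e1 : dot w (nu p k) = w.re * (nu p k).re + w.im * (nu p k).im := rfl
    have e2 : dot ((starRingEnd ℂ) w) (nu p k) = w.re * (nu p k).re - w.im * (nu p k).im := by
      simp [dot]; ring
    rw [e1] at h1; rw [e2] at h2
    linarith
  have e3 : dot w (((nu p k).re⁻¹ : ℝ) : ℂ) = w.re * (nu p k).re⁻¹ := by
    simp [dot]
  rw [e3]
  rcases mul_pos_iff.1 h3 with ⟨ha, hb⟩ | ⟨ha, hb⟩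
  · exact mul_pos ha (inv_pos.2 hb)
  · exact mul_pos_of_neg_of_neg ha (inv_lt_zero.2 hb)

/-- [A3] no saddle connections. -/
theorem nosc2 {θ : ℝ} (hθ : |θ - Real.pi / 4| < 1 / 100) (hz : Transcendental ℚ (zz θ)) {p : Par}
    (hp : p ∈ Pi1) {n : ℕ} (g : Gen2 θ p n) {v w : ℂ} (hw : w ∈ DD θ n) (hst : Vst p v w)
    {l : List Lt} (hl : GoodL2 θ p l (v, w)) {c : Cp} {t : ℝ} (ht : 0 < t)
    (hend : Vst p (frm θ c ((run θ p l (v, w)).1 + t * (run θ p l (v, w)).2))
      (-act c.1 (run θ p l (v, w)).2)) :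
    l = [] ∧ c.1 = 1 ∧ Spc θ w ∧ (t : ℂ) * w = lat θ c.2 ∧ ∃ i : Fin 4, i ≠ 2 ∧ v = vtx p i := by
  have gg := g.toGen
  have hl' := a3_l2 l _ hl
  have hM : (2 ^ (n + 1) : ℕ) ≠ 0 := by positivity
  rcases hst with ⟨i, hi, rfl, hst⟩ | ⟨k, hk, rfl, hs1, hs2⟩
  · rcases hend with ⟨j, hj, he, harr⟩ | ⟨k, hk, he, ha1, ha2⟩
    · have harr' : ¬ (0 < dot (act c.1 (run θ p l (vtx p i, w)).2) (nu p j) ∧
          0 < dot (act c.1 (run θ p l (vtx p i, w)).2) (nu p (j + 1))) := by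
        rintro ⟨h1, h2⟩
        apply harr
        rw [dot_neg_left, dot_neg_left]
        exact ⟨by linarith, by linarith⟩
      obtain ⟨c1, c2, c3, c4⟩ := a3_qq hz gg hw hst hl' ht he harr'
      exact ⟨c1, c2, c3, c4, i, hi, rfl⟩
    · exfalso
      obtain ⟨H, L, Hadd, Hmul, Hroot, hLroot, hLpos, hlen, hC, hdot, hnil⟩ :=
        a3_core hz gg hw hl' he (a3q_sum p i) (a3j_sum p k) (a3q_N gg i) (a3j_N gg k)
      have hex : ∀ i k : Fin 4, ∃ s, (s = i ∨ s = i + 1) ∧ s ≠ k := by decide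
      obtain ⟨s, hs, hsk⟩ := hex i k
      have hii : i ≠ i + 1 := (by decide : ∀ i : Fin 4, i ≠ i + 1) i
      have h1 := hC s
      have h2 : a3q p i s = nu p s := by
        unfold a3q
        rcases hs with rfl | rfl
        · rw [if_pos rfl, if_neg hii, add_zero]
        · rw [if_neg hii.symm, if_pos rfl, zero_add]
      have h3 : a3j p k s = 0 := by unfold a3j; rw [if_neg hsk]
      have h0 : H 0 = 0 := by
        have := Hmul 0 0
        simpa using this
      rw [h2, h3, h0] at h1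
      have h4 : nu p s = 2 * (-a3bS L s) := by linear_combination -h1
      exact a3b_root_ne hM (a3b_nu gg s) (a3bS_int L s hLroot).neg h4
  · exfalso
    rcases hend with ⟨j, hj, he, harr⟩ | ⟨k', hk', he, ha1, ha2⟩
    · obtain ⟨H, L, Hadd, Hmul, Hroot, hLroot, hLpos, hlen, hC, hdot, hnil⟩ :=
        a3_core hz gg hw hl' he (a3j_sum p k) (a3q_sum p j) (a3j_N gg k) (a3q_N gg j)
      have hex : ∀ i k : Fin 4, ∃ s, (s = i ∨ s = i + 1) ∧ s ≠ k := by decide
      obtain ⟨s, hs, hsk⟩ := hex j k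
      have hii : j ≠ j + 1 := (by decide : ∀ i : Fin 4, i ≠ i + 1) j
      have h1 := hC s
      have h2 : a3q p j s = nu p s := by
        unfold a3q
        rcases hs with rfl | rfl
        · rw [if_pos rfl, if_neg hii, add_zero]
        · rw [if_neg hii.symm, if_pos rfl, zero_add]
      have h3 : a3j p k s = 0 := by unfold a3j; rw [if_neg hsk]
      rw [h2, h3] at h1
      have h4 : H (nu p s) = 2 * a3bS L s := by linear_combination h1
      exact a3b_root_ne hM (Hroot _ (a3b_nu gg s)) (a3bS_int L s hLroot) h4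
    · obtain ⟨H, L, Hadd, Hmul, Hroot, hLroot, hLpos, hlen, hC, hdot, hnil⟩ :=
        a3_core hz gg hw hl' he (a3j_sum p k) (a3j_sum p k') (a3j_N gg k) (a3j_N gg k')
      have h1 := hC k
      have h2 : a3j p k k = (((nu p k).re⁻¹ : ℝ) : ℂ) := by unfold a3j; rw [if_pos rfl]
      by_cases hkk : k = k'
      · subst hkk
        rw [h2] at h1
        have h3 := congrArg (dot w) h1
        have h4 : dot w (2 * a3bS L k) = 2 * dot w (a3bS L k) := by
          have := dot_mul_right 2 w (a3bS L k)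
          simpa using this
        rw [dot_sub_right, ← hdot, h4] at h3
        have h5 := (a3bS_pos w L k hLpos).1
        have h6 := a3_pos hs1 hs2
        have h7 := a3_pos ha1 ha2
        rw [dot_neg_left] at h7
        linarith
      · have h3 : a3j p k' k = 0 := by unfold a3j; rw [if_neg hkk]
        have h0 : H 0 = 0 := by
          have := Hmul 0 0
          simpa using this
        rw [h2, h3, h0] at h1
        refine TMN.inv_not_int gg.two (a3b_nu gg k) (a3_nu_half gg k) ?_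
        have h4 : 1 / (nu p k + (starRingEnd ℂ) (nu p k)) = -a3bS L k := by
          rw [Complex.add_conj]
          have h5 : (1 : ℂ) / ((2 * (nu p k).re : ℝ) : ℂ) = (1 / 2) * (((nu p k).re⁻¹ : ℝ) : ℂ) := by
            push_cast
            rw [one_div, mul_inv, one_div]
          rw [h5]
          linear_combination (-(1 : ℂ) / 2) * h1
        rw [h4]
        exact (a3bS_int L k hLroot).neg

end TMN
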