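import Pool.Agent.TMN.Base

set_option autoImplicit false

open Set Filter Topology

namespace TMN

open TMX

private theorem A5_cl {s : Set ℝ} (hs : s.Countable) :
    ((Subfield.closure s : Subfield ℝ) : Set ℝ).Countable := by
  have h1 := Subfield.cardinalMk_closure_le_max s
  refine Cardinal.le_aleph0_iff_set_countable.1 ?_
  exact h1.trans (max_le (Cardinal.le_aleph0_iff_set_countable.2 hs) le_rfl)

private theorem A5_adj (F : Subfield ℝ) (hF : (F : Set ℝ).Countable) (h : ℝ) :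
    ∃ F' : Subfield ℝ, F ≤ F' ∧ h ∈ F' ∧ (F' : Set ℝ).Countable := by
  refine ⟨Subfield.closure (insert h (F : Set ℝ)), ?_, ?_, A5_cl (hF.insert h)⟩
  · exact fun x hx => Subfield.subset_closure (mem_insert_of_mem _ hx)
  · exact Subfield.subset_closure (mem_insert _ _)

private theorem A5_pick (F : Subfield ℝ) (hF : (F : Set ℝ).Countable) (x : ℝ) {ε : ℝ}
    (hε : 0 < ε) : ∃ h : ℝ, |h - x| < ε ∧ h ∉ F := by
  obtain ⟨y, hy, hd⟩ := (hF.dense_compl ℝ).exists_dist_lt x hε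
  refine ⟨y, ?_, hy⟩
  rw [← Real.dist_eq, dist_comm]
  exact hd

private theorem A5_KK (θ : ℝ) : ((KK θ : Subfield ℝ) : Set ℝ).Countable := by
  unfold KK
  exact A5_cl ((((Set.toFinite _).countable).union (countable_range _)).union (countable_range _))

private theorem A5_open : IsOpen Pi1 := by
  have hn : ∀ j, Continuous fun p : Par => nu p j := by
    intro j
    unfold nu
    fun_prop
  have hv : ∀ j, Continuous fun p : Par => vtx p j := by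
    intro j
    unfold vtx nu
    fun_prop
  have e : Pi1 = {p : Par | 1 / 10 < p.1} ∩ ({p : Par | p.1 < 3 / 10} ∩
      ((⋂ j : Fin 4, {p : Par | 0 < p.2 j + p.2 (j + 2)}) ∩
        ((⋂ j : Fin 4, ({p : Par | |(vtx p j).re - 1 / 4| < 1 / 50} ∩
          {p : Par | |(vtx p j).im| < 1 / 50})) ∩
        ({p : Par | (vtx p 2).im < 0} ∩ ({p : Par | 0 < (vtx p 1).im} ∩
          ({p : Par | 0 < (vtx p 3).im} ∩
            ⋂ j : Fin 4, {p : Par | dot ((starRingEnd ℂ) (vtx p 2)) (nu p j) < p.2 j})))))) := by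
    ext p
    simp only [Pi1, mem_setOf_eq, mem_inter_iff, mem_iInter]
  rw [e]
  refine (isOpen_lt continuous_const continuous_fst).inter
    ((isOpen_lt continuous_fst continuous_const).inter
      ((isOpen_iInter_of_finite fun j => isOpen_lt continuous_const (by fun_prop)).inter
        ((isOpen_iInter_of_finite fun j => ?_).inter
          ((isOpen_lt (Complex.continuous_im.comp (hv 2)) continuous_const).inter
            ((isOpen_lt continuous_const (Complex.continuous_im.comp (hv 1))).inter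
              ((isOpen_lt continuous_const (Complex.continuous_im.comp (hv 3))).inter
                (isOpen_iInter_of_finite fun j => ?_)))))))
  · refine IsOpen.inter (isOpen_lt ?_ continuous_const) (isOpen_lt ?_ continuous_const)
    · exact ((Complex.continuous_re.comp (hv j)).sub continuous_const).abs
    · exact (Complex.continuous_im.comp (hv j)).abs
  · have h2 := hv 2
    have h3 := hn j
    refine isOpen_lt ?_ (by fun_prop)
    unfold dot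
    fun_prop

private theorem A5_dyad (x : ℝ) {ε : ℝ} (hε : 0 < ε) (n₀ : ℕ) :
    ∃ n : ℕ, n₀ ≤ n ∧ 2 ≤ n ∧ ∃ k : ℤ, Odd k ∧ |Real.pi * k / 2 ^ n - x| < ε := by
  obtain ⟨m, hm⟩ := exists_nat_gt (Real.pi / ε)
  have hpi := Real.pi_pos
  refine ⟨max m (max n₀ 2), ?_, ?_, ?_⟩
  · exact le_max_of_le_right (le_max_left _ _)
  · exact le_max_of_le_right (le_max_right _ _)
  · generalize hn : max m (max n₀ 2) = n
    have hmn : m ≤ n := hn ▸ le_max_left _ _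
    have h2 : (0 : ℝ) < 2 ^ n := by positivity
    have h3 : (m : ℝ) < 2 ^ n := by
      have h4 : m < 2 ^ m := Nat.lt_two_pow_self
      have h5 : 2 ^ m ≤ 2 ^ n := Nat.pow_le_pow_right (by norm_num) hmn
      exact_mod_cast lt_of_lt_of_le h4 h5
    have h6 : Real.pi / 2 ^ n < ε := by
      rw [div_lt_iff₀ h2]
      rw [div_lt_iff₀ hε] at hm
      nlinarith
    refine ⟨2 * ⌊x * 2 ^ n / Real.pi / 2⌋ + 1, odd_two_mul_add_one _, ?_⟩
    have h7 := Int.floor_le (x * 2 ^ n / Real.pi / 2)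
    have h8 := Int.lt_floor_add_one (x * 2 ^ n / Real.pi / 2)
    have h9 : Real.pi * ((2 * ⌊x * 2 ^ n / Real.pi / 2⌋ + 1 : ℤ) : ℝ) / 2 ^ n - x
        = Real.pi / 2 ^ n * ((2 * (⌊x * 2 ^ n / Real.pi / 2⌋ : ℝ) + 1) - x * 2 ^ n / Real.pi) := by
      push_cast
      field_simp
    rw [h9, abs_mul, abs_of_pos (by positivity)]
    have h10 : |(2 * (⌊x * 2 ^ n / Real.pi / 2⌋ : ℝ) + 1) - x * 2 ^ n / Real.pi| ≤ 1 := by
      rw [abs_le]
      constructor <;> linarith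
    calc _ ≤ Real.pi / 2 ^ n * 1 := mul_le_mul_of_nonneg_left h10 (by positivity)
      _ < ε := by rw [mul_one]; exact h6

private theorem A5_out {F : Subfield ℝ} {a b h : ℝ} (ha : a ∈ F) (hb : b ∈ F) (hh : h ∉ F)
    (e : a + b * h = 0) : a = 0 ∧ b = 0 := by
  by_cases hb0 : b = 0
  · rw [hb0, zero_mul, add_zero] at e
    exact ⟨e, hb0⟩
  · exfalso
    apply hh
    have : h = -a / b := by
      field_simp
      linarith
    rw [this]
    exact F.div_mem (F.neg_mem ha) hb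

/-- [A5] generic parameters are dense. -/
theorem gen_dense2 (θ : ℝ) {p : Par} (hp : p ∈ Pi1) {N : Set Par} (hN : N ∈ 𝓝 p) (n₀ : ℕ) :
    ∃ q ∈ N, q ∈ Pi1 ∧ ∃ n ≥ n₀, Gen2 θ q n := by
  obtain ⟨ε, hε, hball⟩ := Metric.mem_nhds_iff.1 (Filter.inter_mem hN (A5_open.mem_nhds hp))
  have hU : ∀ q : Par, |q.1 - p.1| < ε → (∀ j, |q.2 j - p.2 j| < ε) → q ∈ N ∩ Pi1 := by
    intro q h1 h2
    apply hball
    rw [Metric.mem_ball, Prod.dist_eq, max_lt_iff]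
    refine ⟨by rw [Real.dist_eq]; exact h1, ?_⟩
    rw [dist_pi_lt_iff hε]
    intro j
    rw [Real.dist_eq]
    exact h2 j
  obtain ⟨n, hn0, hn2, k, hk, hkε⟩ := A5_dyad p.1 hε n₀
  obtain ⟨Fa, hFa, a1Fa, cFa⟩ := A5_adj (KK θ) (A5_KK θ) (nu (Real.pi * k / 2 ^ n, p.2) 2).im
  obtain ⟨Fb, hFb, a2Fb, cFb⟩ := A5_adj Fa cFa (nu (Real.pi * k / 2 ^ n, p.2) 3).im
  obtain ⟨F0, hF0, a3F0, cF0⟩ := A5_adj Fb cFb
    (2 * Real.sin (Real.pi * k / 2 ^ n) * Real.cos (Real.pi * k / 2 ^ n))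
  obtain ⟨h0, h0ε, h0F⟩ := A5_pick F0 cF0 (p.2 0) hε
  obtain ⟨F1, hF1, h0F1, cF1⟩ := A5_adj F0 cF0 h0
  obtain ⟨h2, h2ε, h2F⟩ := A5_pick F1 cF1 (p.2 2) hε
  obtain ⟨F2, hF2, h2F2, cF2⟩ := A5_adj F1 cF1 h2
  obtain ⟨h3, h3ε, h3F⟩ := A5_pick F2 cF2 (p.2 3) hε
  obtain ⟨F3, hF3, h3F3, cF3⟩ := A5_adj F2 cF2 h3
  obtain ⟨h1, h1ε, h1F⟩ := A5_pick F3 cF3 (p.2 1) hε
  have k0 : ∀ {x : ℝ}, x ∈ KK θ → x ∈ F0 := fun hx => hF0 (hFb (hFa hx))
  have k1 : ∀ {x : ℝ}, x ∈ KK θ → x ∈ F1 := fun hx => hF1 (k0 hx)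
  have k2 : ∀ {x : ℝ}, x ∈ KK θ → x ∈ F2 := fun hx => hF2 (k1 hx)
  have k3 : ∀ {x : ℝ}, x ∈ KK θ → x ∈ F3 := fun hx => hF3 (k2 hx)
  have m0 : h0 ∈ F3 := hF3 (hF2 h0F1)
  have m2 : h2 ∈ F3 := hF3 h2F2
  have hq := hU (Real.pi * k / 2 ^ n, ![h0, h1, h2, h3]) hkε (by
    intro j
    have e : ∀ i : Fin 4, i = 0 ∨ i = 1 ∨ i = 2 ∨ i = 3 := by decide
    rcases e j with rfl | rfl | rfl | rfl
    · exact h0ε
    · exact h1ε
    · exact h2ε
    · exact h3ε)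
  refine ⟨_, hq.1, hq.2, n, hn0, ⟨hn2, ⟨k, hk, rfl⟩, ?_, ?_⟩, ?_⟩
  · intro c hc d hd e
    rw [Fin.sum_univ_four] at e
    change c + (d 0 * h0 + d 1 * h1 + d 2 * h2 + d 3 * h3) = 0 at e
    have a1 := A5_out (a := c + d 0 * h0 + d 2 * h2 + d 3 * h3) (b := d 1)
      (F3.add_mem (F3.add_mem (F3.add_mem (k3 hc)
        (F3.mul_mem (k3 (hd 0)) m0)) (F3.mul_mem (k3 (hd 2)) m2))
        (F3.mul_mem (k3 (hd 3)) h3F3)) (k3 (hd 1)) h1F (by linarith)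
    have a3 := A5_out (a := c + d 0 * h0 + d 2 * h2) (b := d 3)
      (F2.add_mem (F2.add_mem (k2 hc) (F2.mul_mem (k2 (hd 0)) (hF2 h0F1)))
        (F2.mul_mem (k2 (hd 2)) h2F2)) (k2 (hd 3)) h3F a1.1
    have a2 := A5_out (a := c + d 0 * h0) (b := d 2)
      (F1.add_mem (k1 hc) (F1.mul_mem (k1 (hd 0)) h0F1)) (k1 (hd 2)) h2F a3.1
    have a0 := A5_out (a := c) (b := d 0) (k0 hc) (k0 (hd 0)) h0F a2.1
    refine ⟨a0.1, fun j => ?_⟩
    have e : ∀ i : Fin 4, i = 0 ∨ i = 1 ∨ i = 2 ∨ i = 3 := by decide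
    rcases e j with rfl | rfl | rfl | rfl
    · exact a0.2
    · exact a1.2
    · exact a2.2
    · exact a3.2
  · rintro ⟨c, hc, d, hd, e⟩
    rw [Fin.sum_univ_four] at e
    change (h0 + h2) * (h1 + h3) = c + (d 0 * h0 + d 1 * h1 + d 2 * h2 + d 3 * h3) at e
    have a1 := A5_out (a := c + d 0 * h0 + d 2 * h2 + d 3 * h3 - (h0 + h2) * h3)
      (b := d 1 - (h0 + h2))
      (F3.sub_mem (F3.add_mem (F3.add_mem (F3.add_mem (k3 hc)
        (F3.mul_mem (k3 (hd 0)) m0)) (F3.mul_mem (k3 (hd 2)) m2))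
        (F3.mul_mem (k3 (hd 3)) h3F3)) (F3.mul_mem (F3.add_mem m0 m2) h3F3))
      (F3.sub_mem (k3 (hd 1)) (F3.add_mem m0 m2)) h1F (by linarith)
    apply h2F
    have e2 : h2 = d 1 - h0 := by linarith [a1.2]
    rw [e2]
    exact F1.sub_mem (k1 (hd 1)) h0F1
  · rintro ⟨c, hc, d, hd, e⟩
    rw [Fin.sum_univ_four] at e
    obtain ⟨s2, hs2⟩ : ∃ s2, s2 = (nu (Real.pi * k / 2 ^ n, p.2) 2).im := ⟨_, rfl⟩
    obtain ⟨s3, hs3⟩ : ∃ s3, s3 = (nu (Real.pi * k / 2 ^ n, p.2) 3).im := ⟨_, rfl⟩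
    obtain ⟨s4, hs4⟩ : ∃ s4, s4 = 2 * Real.sin (Real.pi * k / 2 ^ n) * Real.cos (Real.pi * k / 2 ^ n) :=
      ⟨_, rfl⟩
    change (h0 + h2) * (h1 + h3) - (h2 * (nu (Real.pi * k / 2 ^ n, p.2) 2).im +
      h3 * (nu (Real.pi * k / 2 ^ n, p.2) 3).im) ^ 2 /
      (2 * Real.sin (Real.pi * k / 2 ^ n) * Real.cos (Real.pi * k / 2 ^ n)) =
      c + (d 0 * h0 + d 1 * h1 + d 2 * h2 + d 3 * h3) at e
    rw [← hs2, ← hs3, ← hs4] at e
    have i2 : s2 ∈ F3 := hs2 ▸ hF3 (hF2 (hF1 (hF0 (hFb a1Fa))))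
    have i3 : s3 ∈ F3 := hs3 ▸ hF3 (hF2 (hF1 (hF0 a2Fb)))
    have i4 : s4 ∈ F3 := hs4 ▸ hF3 (hF2 (hF1 a3F0))
    have iz : (h2 * s2 + h3 * s3) ^ 2 / s4 ∈ F3 :=
      F3.div_mem (F3.pow_mem (F3.add_mem (F3.mul_mem m2 i2) (F3.mul_mem h3F3 i3)) 2) i4
    have a1 := A5_out (a := c + d 0 * h0 + d 2 * h2 + d 3 * h3 - (h0 + h2) * h3 +
        (h2 * s2 + h3 * s3) ^ 2 / s4)
      (b := d 1 - (h0 + h2))
      (F3.add_mem (F3.sub_mem (F3.add_mem (F3.add_mem (F3.add_mem (k3 hc)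
        (F3.mul_mem (k3 (hd 0)) m0)) (F3.mul_mem (k3 (hd 2)) m2))
        (F3.mul_mem (k3 (hd 3)) h3F3)) (F3.mul_mem (F3.add_mem m0 m2) h3F3)) iz)
      (F3.sub_mem (k3 (hd 1)) (F3.add_mem m0 m2)) h1F (by linarith)
    apply h2F
    have e2 : h2 = d 1 - h0 := by linarith [a1.2]
    rw [e2]
    exact F1.sub_mem (k1 (hd 1)) h0F1

end TMN
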