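import Pool.Agent.TMN.Base

/-! # TMN: the separatrix is outgoing -/

set_option autoImplicit false

open Set Filter Topology

namespace TMN

open TMX

private theorem c1_vtx_mem {p : Par} (hp : p ∈ Pi1) (j : Fin 4) : vtx p j ∈ Q p := by
  obtain ⟨_, _, hh, _⟩ := hp
  have e : ∀ i k : Fin 4, k = i ∨ k = i + 1 ∨ k = i + 2 ∨ k = i + 3 := by decide
  intro k
  rcases e j k with rfl | rfl | rfl | rfl
  · exact (dot_vtx_self p _).le
  · exact (dot_vtx_succ p _).le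
  · rw [dot_vtx_two]; have := hh j; linarith
  · rw [dot_vtx_three]
    have := hh (j + 1)
    have e3 : j + 1 + 2 = j + 3 := by rw [add_assoc]; rfl
    rw [e3] at this
    linarith

/-- [C1] -/
theorem sep_out2 {θ : ℝ} (hθ : |θ - Real.pi / 4| < 1 / 100) {p : Par} (hp : p ∈ Pi1) :
    Out2 p (sepm θ p).1 (sepm θ p).2 ∧ ‖(sepm θ p).2‖ = 1 ∧
    0 < dot (sepm θ p).2 (nu p 1) ∧ 0 < dot (sepm θ p).2 (nu p 2) := by
  have hp' := hp
  obtain ⟨hp1, hp2, _, _, _, him, _⟩ := hp'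
  have hθ' := abs_lt.mp hθ
  have hpi1 := Real.pi_gt_d2
  have hpi2 := Real.pi_lt_d2
  have s1 : 0 < Real.sin (θ - p.1) := by
    apply Real.sin_pos_of_pos_of_lt_pi <;> linarith
  have s2 : 0 < Real.cos (θ - p.1) := by
    apply Real.cos_pos_of_mem_Ioo; constructor <;> linarith
  have m1 : 0 < dot (sepm θ p).2 (nu p 1) := by
    show 0 < dot (-refl p 1 (zz θ)) (nu p 1)
    rw [dot_neg_left, dot_refl_nu, neg_neg, c1_zz_nu1]
    exact s1
  have m2 : 0 < dot (sepm θ p).2 (nu p 2) := by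
    show 0 < dot (-refl p 1 (zz θ)) (nu p 2)
    have h := dot_refl_succ p 1 (zz θ)
    have e : (1 : Fin 4) + 1 = 2 := rfl
    rw [e] at h
    have h2 := dot_add_two p (zz θ) 0
    rw [zero_add] at h2
    rw [dot_neg_left, h, h2, neg_neg, c1_zz_nu0]
    exact s2
  refine ⟨⟨⟨c1_vtx_mem hp 1, 1, dot_vtx_self p 1, m1⟩, ?_, ?_⟩, ?_, m1, m2⟩
  · show 0 ≤ (vtx p 1).im
    exact him.le
  · intro h0
    have h1 : (vtx p 1).im = 0 := h0
    exact absurd h1 him.ne'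
  · show ‖-refl p 1 (zz θ)‖ = 1
    rw [norm_neg, norm_refl, zz_norm]

end TMN
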