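import Pool.Agent.TMN.Base

/-! # TMN, G1a: the box, the distance of the copies, the hidden part, signs -/

set_option autoImplicit false

open Set Filter Topology

namespace TMN

open TMX

/-- the table of signs and the real and imaginary parts of normals and vertices -/
theorem G1a_dat {p : Par} (hp : p ∈ Pi1) :
    0 < Real.sin p.1 ∧ 0 < Real.cos p.1 ∧ Real.sin p.1 ^ 2 + Real.cos p.1 ^ 2 = 1 ∧
    (nu p 0).re = Real.cos p.1 ∧ (nu p 0).im = Real.sin p.1 ∧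
    (nu p 1).re = -Real.sin p.1 ∧ (nu p 1).im = Real.cos p.1 ∧
    (nu p 2).re = -Real.cos p.1 ∧ (nu p 2).im = -Real.sin p.1 ∧
    (nu p 3).re = Real.sin p.1 ∧ (nu p 3).im = -Real.cos p.1 ∧
    (vtx p 3).re = p.2 0 * Real.cos p.1 + p.2 3 * Real.sin p.1 ∧
    (vtx p 1).re = -p.2 2 * Real.cos p.1 - p.2 1 * Real.sin p.1 ∧
    (vtx p 0).im = p.2 0 * Real.sin p.1 + p.2 1 * Real.cos p.1 ∧
    (vtx p 1).im = -p.2 2 * Real.sin p.1 + p.2 1 * Real.cos p.1 ∧
    (vtx p 2).im = -p.2 2 * Real.sin p.1 - p.2 3 * Real.cos p.1 ∧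
    (vtx p 3).im = p.2 0 * Real.sin p.1 - p.2 3 * Real.cos p.1 := by
  obtain ⟨hp1, hp2, -⟩ := hp
  have hpi := Real.pi_gt_three
  have hs : 0 < Real.sin p.1 := Real.sin_pos_of_pos_of_lt_pi (by linarith) (by linarith)
  have hc : 0 < Real.cos p.1 := Real.cos_pos_of_mem_Ioo ⟨by linarith, by linarith⟩
  have n2 : nu p 2 = -nu p 0 := nu_add_two p 0
  have n3 : nu p 3 = -nu p 1 := nu_add_two p 1
  have v0 : vtx p 0 = p.2 0 * nu p 0 + p.2 1 * nu p 1 := rfl
  have v1 : vtx p 1 = p.2 1 * nu p 1 + p.2 2 * nu p 2 := rfl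
  have v2 : vtx p 2 = p.2 2 * nu p 2 + p.2 3 * nu p 3 := rfl
  have v3 : vtx p 3 = p.2 3 * nu p 3 + p.2 0 * nu p 0 := rfl
  rw [n2] at v1 v2
  rw [n3] at v2 v3
  refine ⟨hs, hc, Real.sin_sq_add_cos_sq _, nu_re_zero p, nu_im_zero p, G1_re_one p, G1_im_one p,
    ?_, ?_, ?_, ?_, ?_, ?_, ?_, ?_, ?_, ?_⟩
  · rw [n2, Complex.neg_re, nu_re_zero]
  · rw [n2, Complex.neg_im, nu_im_zero]
  · rw [n3, Complex.neg_re, G1_re_one, neg_neg]
  · rw [n3, Complex.neg_im, G1_im_one]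
  · rw [v3, Complex.add_re, Complex.re_ofReal_mul, Complex.re_ofReal_mul, Complex.neg_re, nu_re_zero,
      G1_re_one]
    ring
  · rw [v1, Complex.add_re, Complex.re_ofReal_mul, Complex.re_ofReal_mul, Complex.neg_re, nu_re_zero,
      G1_re_one]
    ring
  · rw [v0, Complex.add_im, Complex.im_ofReal_mul, Complex.im_ofReal_mul, nu_im_zero, G1_im_one]
  · rw [v1, Complex.add_im, Complex.im_ofReal_mul, Complex.im_ofReal_mul, Complex.neg_im, nu_im_zero,
      G1_im_one]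
    ring
  · rw [v2, Complex.add_im, Complex.im_ofReal_mul, Complex.im_ofReal_mul, Complex.neg_im, Complex.neg_im,
      nu_im_zero, G1_im_one]
    ring
  · rw [v3, Complex.add_im, Complex.im_ofReal_mul, Complex.im_ofReal_mul, Complex.neg_im,
      nu_im_zero, G1_im_one]
    ring

/-- the coordinates of a point in the basis of the normals -/
theorem G1a_pt (p : Par) (x : ℂ) :
    x.re = dot x (nu p 0) * Real.cos p.1 - dot x (nu p 1) * Real.sin p.1 ∧
    x.im = dot x (nu p 0) * Real.sin p.1 + dot x (nu p 1) * Real.cos p.1 ∧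
    dot x (nu p 2) = -dot x (nu p 0) ∧ dot x (nu p 3) = -dot x (nu p 1) := by
  have e2 : dot x (nu p 2) = -dot x (nu p 0) := dot_add_two p x 0
  have e3 : dot x (nu p 3) = -dot x (nu p 1) := dot_add_two p x 1
  have hb : x = (dot x (nu p 0) : ℂ) * nu p 0 + (dot x (nu p 1) : ℂ) * nu p 1 := basis_nu p 0 x
  refine ⟨?_, ?_, e2, e3⟩
  · have h := congrArg Complex.re hb
    rw [Complex.add_re, Complex.re_ofReal_mul, Complex.re_ofReal_mul, nu_re_zero, G1_re_one] at h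
    rw [h]
    ring
  · have h := congrArg Complex.im hb
    rw [Complex.add_im, Complex.im_ofReal_mul, Complex.im_ofReal_mul, nu_im_zero, G1_im_one] at h
    exact h

/-- [G1] -/
theorem box2 {p : Par} (hp : p ∈ Pi1) {x : ℂ} (hx : x ∈ Q p) :
    |x.re - 1 / 4| < 1 / 50 ∧ |x.im| < 1 / 50 := by
  obtain ⟨hs, hc, -, -, -, -, -, -, -, -, -, w3, w1, w0, -, w2, -⟩ := G1a_dat hp
  obtain ⟨-, -, -, hv, -⟩ := hp
  obtain ⟨xr, xi, e2, e3⟩ := G1a_pt p x
  have a0 := hx 0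
  have a1 := hx 1
  have a2 := hx 2
  have a3 := hx 3
  rw [e2] at a2
  rw [e3] at a3
  obtain ⟨r3, r3'⟩ := abs_lt.1 (hv 3).1
  obtain ⟨r1, r1'⟩ := abs_lt.1 (hv 1).1
  obtain ⟨i0, i0'⟩ := abs_lt.1 (hv 0).2
  obtain ⟨i2, i2'⟩ := abs_lt.1 (hv 2).2
  rw [w3] at r3 r3'
  rw [w1] at r1 r1'
  rw [w0] at i0 i0'
  rw [w2] at i2 i2'
  have m1 := mul_le_mul_of_nonneg_right a0 hc.le
  have m2 := mul_le_mul_of_nonneg_right a0 hs.le
  have m3 := mul_le_mul_of_nonneg_right a1 hc.le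
  have m4 := mul_le_mul_of_nonneg_right a1 hs.le
  have m5 := mul_le_mul_of_nonneg_right a2 hc.le
  have m6 := mul_le_mul_of_nonneg_right a2 hs.le
  have m7 := mul_le_mul_of_nonneg_right a3 hc.le
  have m8 := mul_le_mul_of_nonneg_right a3 hs.le
  rw [abs_lt, abs_lt, xr, xi]
  refine ⟨⟨?_, ?_⟩, ?_, ?_⟩ <;> linarith

/-- [G1] -/
theorem copies_dist2 {θ : ℝ} (hθ : |θ - Real.pi / 4| < 1 / 100) {p : Par} (hp : p ∈ Pi1)
    {c c' : Cp} (hc : c' ≠ c) (hc' : c' ≠ cmp c cj) {y y' : ℂ} (hy : y ∈ obs θ p c)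
    (hy' : y' ∈ obs θ p c') : 2 / 5 ≤ ‖y - y'‖ := by
  obtain ⟨r1, i1⟩ := box2 hp hy
  obtain ⟨r2, i2⟩ := box2 hp hy'
  have hb := G1_tan hθ
  obtain ⟨⟨d1, d2⟩, m1, m2⟩ := c
  obtain ⟨⟨d1', d2'⟩, m1', m2'⟩ := c'
  change |((d1 : ℤ) : ℝ) * (y.re - 2 * (m1 : ℝ)) - 1 / 4| < 1 / 50 at r1
  change |((d1' : ℤ) : ℝ) * (y'.re - 2 * (m1' : ℝ)) - 1 / 4| < 1 / 50 at r2
  change |((d2 : ℤ) : ℝ) * (y.im - 2 * bb θ * (m2 : ℝ))| < 1 / 50 at i1
  change |((d2' : ℤ) : ℝ) * (y'.im - 2 * bb θ * (m2' : ℝ))| < 1 / 50 at i2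
  by_cases h : d1 = d1' ∧ m1 = m1'
  · obtain ⟨rfl, rfl⟩ := h
    have hm : m2 ≠ m2' := by
      rintro rfl
      rcases Int.units_eq_one_or d2 with rfl | rfl <;>
        rcases Int.units_eq_one_or d2' with rfl | rfl
      · exact hc rfl
      · apply hc'
        simp [TMX.cmp, cj]
      · apply hc'
        simp [TMX.cmp, cj]
      · exact hc rfl
    have j1 : |y.im - 2 * bb θ * (m2 : ℝ)| < 1 / 50 := by
      rcases Int.units_eq_one_or d2 with rfl | rfl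
      · simpa using i1
      · rw [abs_mul] at i1
        simpa using i1
    have j2 : |y'.im - 2 * bb θ * (m2' : ℝ)| < 1 / 50 := by
      rcases Int.units_eq_one_or d2' with rfl | rfl
      · simpa using i2
      · rw [abs_mul] at i2
        simpa using i2
    obtain ⟨j1, j1'⟩ := abs_lt.1 j1
    obtain ⟨j2, j2'⟩ := abs_lt.1 j2
    have h3 : 2 / 5 ≤ |y.im - y'.im| := by
      rw [le_abs]
      rcases lt_or_gt_of_ne hm with h | h
      · right
        have h4 : (m2 : ℝ) + 1 ≤ m2' := by exact_mod_cast h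
        nlinarith
      · left
        have h4 : (m2' : ℝ) + 1 ≤ m2 := by exact_mod_cast h
        nlinarith
    refine h3.trans ?_
    rw [← Complex.sub_im]
    exact Complex.abs_im_le_norm _
  · have h3 := G1_coord (β := 1) (γ := 1 / 4) (by norm_num) (by norm_num) h
      (by rw [mul_one]; exact r1) (by rw [mul_one]; exact r2)
    refine h3.trans ?_
    rw [← Complex.sub_re]
    exact Complex.abs_re_le_norm _

theorem G1a_conj (x v : ℂ) : dot ((starRingEnd ℂ) x) v = dot x v - 2 * x.im * v.im := by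
  simp only [dot, Complex.conj_re, Complex.conj_im]
  ring

/-- [G1] the part of `Q p` below the wall is inside the mirror image. -/
theorem hidden {p : Par} (hp : p ∈ Pi1) {x : ℂ} (hx : x ∈ Q p) (h : x.im < 0) :
    ∀ j, dot ((starRingEnd ℂ) x) (nu p j) < p.2 j := by
  obtain ⟨hs, hc, -, -, n0, -, n1, -, n2, -, n3, -, -, -, w1, w2, w3⟩ := G1a_dat hp
  obtain ⟨-, -, hpos, -, hv2, hv1, hv3, hq⟩ := hp
  obtain ⟨-, xi, e2, e3⟩ := G1a_pt p x
  have q0 := hq 0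
  have q1 := hq 1
  rw [G1a_conj, n0] at q0
  rw [G1a_conj, n1] at q1
  have d0 : dot (vtx p 2) (nu p 0) = -p.2 2 := dot_vtx_two p 2
  have d1 : dot (vtx p 2) (nu p 1) = -p.2 3 := dot_vtx_three p 2
  rw [d0] at q0
  rw [d1] at q1
  have a2 := hx 2
  have a3 := hx 3
  have p0 : 0 < p.2 0 + p.2 2 := hpos 0
  have p1 : 0 < p.2 1 + p.2 3 := hpos 1
  rw [w1] at hv1
  rw [w3] at hv3
  rw [w2] at hv2 q0 q1
  set S := Real.sin p.1 with hS
  set C := Real.cos p.1 with hC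
  have b2 : dot x (nu p 2) ≤ p.2 2 := a2
  have b3 : dot x (nu p 3) ≤ p.2 3 := a3
  rw [e2] at b2
  rw [e3] at b3
  set a := dot x (nu p 0) with ha
  set b := dot x (nu p 1) with hb
  rw [xi] at h
  have hA : 0 ≤ a + p.2 2 := by linarith
  have hB : 0 ≤ b + p.2 3 := by linarith
  have hY : 0 < -(a * S + b * C) := by linarith
  have hy2 : 0 < p.2 2 * S + p.2 3 * C := by
    nlinarith [mul_nonneg hA hs.le, mul_nonneg hB hc.le]
  have f0 : a - 2 * x.im * S < p.2 0 := by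
    rw [xi]
    have t1 := mul_pos hY (show 0 < p.2 0 + p.2 2 - 2 * (p.2 2 * S + p.2 3 * C) * S by linarith)
    have t2 := mul_nonneg (mul_nonneg hB hc.le) p0.le
    have t3 := mul_nonneg hA (show 0 ≤ p.2 0 * S - p.2 3 * C by linarith)
    have t4 : (p.2 2 * S + p.2 3 * C) * (p.2 0 - (a - 2 * (a * S + b * C) * S)) =
        -(a * S + b * C) * (p.2 0 + p.2 2 - 2 * (p.2 2 * S + p.2 3 * C) * S) +
        (b + p.2 3) * C * (p.2 0 + p.2 2) + (a + p.2 2) * (p.2 0 * S - p.2 3 * C) := by ring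
    have t5 : 0 < (p.2 2 * S + p.2 3 * C) * (p.2 0 - (a - 2 * (a * S + b * C) * S)) := by
      rw [t4]
      linarith
    have t6 := (mul_pos_iff_of_pos_left hy2).1 t5
    linarith
  have f1 : b - 2 * x.im * C < p.2 1 := by
    rw [xi]
    have t1 := mul_pos hY (show 0 < p.2 1 + p.2 3 - 2 * (p.2 2 * S + p.2 3 * C) * C by linarith)
    have t2 := mul_nonneg (mul_nonneg hA hs.le) p1.le
    have t3 := mul_nonneg hB (show 0 ≤ p.2 1 * C - p.2 2 * S by linarith)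
    have t4 : (p.2 2 * S + p.2 3 * C) * (p.2 1 - (b - 2 * (a * S + b * C) * C)) =
        -(a * S + b * C) * (p.2 1 + p.2 3 - 2 * (p.2 2 * S + p.2 3 * C) * C) +
        (a + p.2 2) * S * (p.2 1 + p.2 3) + (b + p.2 3) * (p.2 1 * C - p.2 2 * S) := by ring
    have t5 : 0 < (p.2 2 * S + p.2 3 * C) * (p.2 1 - (b - 2 * (a * S + b * C) * C)) := by
      rw [t4]
      linarith
    have t6 := (mul_pos_iff_of_pos_left hy2).1 t5
    linarith
  rw [← xi] at h
  have cases4 : ∀ i : Fin 4, i = 0 ∨ i = 1 ∨ i = 2 ∨ i = 3 := by decide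
  intro j
  rcases cases4 j with rfl | rfl | rfl | rfl
  · rw [G1a_conj, n0]
    exact f0
  · rw [G1a_conj, n1]
    exact f1
  · rw [G1a_conj, n2, e2]
    nlinarith [mul_pos hs (neg_pos.2 h)]
  · rw [G1a_conj, n3, e3]
    nlinarith [mul_pos hc (neg_pos.2 h)]

/-- [G1] signs. -/
theorem signs {p : Par} (hp : p ∈ Pi1) : (nu p 2).re < 0 ∧ 0 < (nu p 3).re ∧ (nu p 2).im < 0 ∧
    (nu p 3).im < 0 ∧ 0 < (nu p 0).im ∧ 0 < (nu p 1).im ∧ 0 < (vtx p 0).im ∧
    (vtx p 1).re < (jt p 2).re ∧ (jt p 2).re < (jt p 3).re ∧ (jt p 3).re < (vtx p 3).re := by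
  obtain ⟨hs, hc, h1, -, n0, -, n1, m2, n2, m3, n3, u3, u1, w0, w1, w2, w3⟩ := G1a_dat hp
  obtain ⟨-, -, hpos, -, hv2, hv1, hv3, -⟩ := hp
  rw [w2] at hv2
  rw [w1] at hv1
  rw [w3] at hv3
  have j2 : (jt p 2).re = -(p.2 2 / Real.cos p.1) := by
    unfold jt
    rw [Complex.ofReal_re, m2, div_neg]
  have j3 : (jt p 3).re = p.2 3 / Real.sin p.1 := by
    unfold jt
    rw [Complex.ofReal_re, m3]
  rw [m2, m3, n2, n3, n0, n1, w0, u1, u3, j2, j3]
  set S := Real.sin p.1 with hS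
  set C := Real.cos p.1 with hC
  refine ⟨by linarith, hs, by linarith, by linarith, hs, hc, by linarith, ?_, ?_, ?_⟩
  · have e : p.2 2 / C < p.2 2 * C + p.2 1 * S := by
      rw [div_lt_iff₀ hc]
      have t := mul_pos hs (show 0 < p.2 1 * C - p.2 2 * S by linarith)
      have e : (p.2 2 * C + p.2 1 * S) * C = p.2 2 + S * (p.2 1 * C - p.2 2 * S) := by
        linear_combination p.2 2 * h1
      rw [e]
      linarith
    linarith
  · have e : -(p.2 2 / C) = (-p.2 2) / C := by ring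
    rw [e, div_lt_div_iff₀ hc hs]
    linarith
  · rw [div_lt_iff₀ hs]
    have t := mul_pos hc (show 0 < p.2 0 * S - p.2 3 * C by linarith)
    have e : (p.2 0 * C + p.2 3 * S) * S = p.2 3 + C * (p.2 0 * S - p.2 3 * C) := by
      linear_combination p.2 3 * h1
    rw [e]
    linarith

end TMN
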