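import Pool.Agent.TMN.Base
import Pool.Agent.TMN.G1a

set_option autoImplicit false

open Set Filter Topology

namespace TMN

open TMX

private theorem G1b_ex {p : Par} (hp : p ∈ Pi1) (i : Fin 4) {x : ℂ}
    (hx : dot x (nu p (i + 1)) = p.2 (i + 1)) :
    ∃ σ : ℝ, x = vtx p i + (σ : ℂ) * (vtx p (i + 1) - vtx p i) := by
  have hL := hp.2.2.1 i
  refine ⟨crs (nu p (i + 1)) (x - vtx p i) / (p.2 i + p.2 (i + 2)), ?_⟩
  have h1 := decomp (nu_norm p (i + 1)) (x - vtx p i)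
  have h2 : dot (nu p (i + 1)) (x - vtx p i) = 0 := by
    rw [dot_comm, dot_sub_left, hx, dot_vtx_succ, sub_self]
  rw [h2] at h1
  rw [vtx_sub]
  generalize crs (nu p (i + 1)) (x - vtx p i) = c at h1 ⊢
  generalize p.2 i + p.2 (i + 2) = l at hL ⊢
  have hne : (l : ℂ) ≠ 0 := by exact_mod_cast hL.ne'
  have e : ((c / l : ℝ) : ℂ) * ((l : ℂ) * (Complex.I * nu p (i + 1))) =
      (c : ℂ) * (Complex.I * nu p (i + 1)) := by
    push_cast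
    field_simp
  rw [e]
  push_cast at h1
  linear_combination h1

private theorem G1b_iff {p : Par} (hp : p ∈ Pi1) (i : Fin 4) {x : ℂ} {σ : ℝ}
    (hx : x = vtx p i + (σ : ℂ) * (vtx p (i + 1) - vtx p i)) :
    (∀ j, j ≠ i + 1 → dot x (nu p j) < p.2 j) ↔ 0 < σ ∧ σ < 1 := by
  have hL := hp.2.2.1 i
  have hL1 := hp.2.2.1 (i + 1)
  have e13 : ∀ i : Fin 4, i + 1 + 3 = i := by decide
  have e12 : ∀ i : Fin 4, i + 1 + 2 = i + 3 := by decide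
  have e11 : ∀ i : Fin 4, i + 1 + 1 = i + 2 := by decide
  have hd : ∀ j, dot x (nu p j) = dot (vtx p i) (nu p j) +
      σ * (dot (vtx p (i + 1)) (nu p j) - dot (vtx p i) (nu p j)) := by
    intro j
    rw [hx, dot_add_left, dot_mul_left, dot_sub_left]
  have b3 := dot_vtx_three p (i + 1)
  have b2 := dot_vtx_two p (i + 1)
  have b1 := dot_vtx_succ p (i + 1)
  rw [e13, e11] at b3
  rw [e12] at b2
  rw [e11] at b1
  rw [e12] at hL1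
  have a0 : dot x (nu p i) = p.2 i - σ * (p.2 i + p.2 (i + 2)) := by
    rw [hd, dot_vtx_self, b3]
    ring
  have a2 : dot x (nu p (i + 2)) = -p.2 i + σ * (p.2 i + p.2 (i + 2)) := by
    rw [hd, dot_vtx_two, b1]
    ring
  have a3 : dot x (nu p (i + 3)) = -p.2 (i + 1) := by
    rw [hd, dot_vtx_three, b2]
    ring
  constructor
  · intro h
    have n0 : ∀ i : Fin 4, i ≠ i + 1 := by decide
    have n2 : ∀ i : Fin 4, i + 2 ≠ i + 1 := by decide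
    have c0 := h i (n0 i)
    have c2 := h (i + 2) (n2 i)
    rw [a0] at c0
    rw [a2] at c2
    constructor
    · by_contra hh
      push Not at hh
      have := mul_nonpos_of_nonpos_of_nonneg hh hL.le
      linarith
    · by_contra hh
      push Not at hh
      have := mul_le_mul_of_nonneg_right hh hL.le
      linarith
  · rintro ⟨h0, h1⟩ j hj
    have hc : ∀ i j : Fin 4, j = i ∨ j = i + 1 ∨ j = i + 2 ∨ j = i + 3 := by decide
    rcases hc i j with rfl | rfl | rfl | rfl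
    · rw [a0]
      have := mul_pos h0 hL
      linarith
    · exact absurd rfl hj
    · rw [a2]
      have := mul_lt_mul_of_pos_right h1 hL
      linarith
    · rw [a3]
      linarith

private theorem G1b_dot {p : Par} (i : Fin 4) {x : ℂ} {σ : ℝ}
    (hx : x = vtx p i + (σ : ℂ) * (vtx p (i + 1) - vtx p i)) :
    dot x (nu p (i + 1)) = p.2 (i + 1) ∧
      x.im = (vtx p i).im + σ * ((vtx p (i + 1)).im - (vtx p i).im) := by
  constructor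
  · rw [hx, dot_add_left, dot_mul_left, dot_sub_left, dot_vtx_succ, dot_vtx_self]
    ring
  · rw [hx]
    simp

private theorem G1b_jt1 {p : Par} (hp : p ∈ Pi1) {k : Fin 4} (hk : k = 2 ∨ k = 3) :
    dot (jt p k) (nu p k) = p.2 k ∧ (jt p k).im = 0 := by
  have hs := TMN.signs hp
  have hre : (nu p k).re ≠ 0 := by
    rcases hk with rfl | rfl
    · exact hs.1.ne
    · exact hs.2.1.ne'
  constructor
  · unfold dot jt
    rw [Complex.ofReal_re, Complex.ofReal_im]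
    field_simp
    ring
  · unfold jt
    exact Complex.ofReal_im _

/-- the parameters of the joints -/
private theorem G1b_jt2 {p : Par} (hp : p ∈ Pi1) : ∃ σ : ℝ, 0 < σ ∧ σ < 1 ∧
    jt p 2 = vtx p 1 + (σ : ℂ) * (vtx p 2 - vtx p 1) ∧
      (vtx p 1).im = σ * ((vtx p 1).im - (vtx p 2).im) := by
  obtain ⟨h1, h2⟩ := G1b_jt1 hp (k := 2) (Or.inl rfl)
  have hp' := hp
  obtain ⟨-, -, -, -, i2, i1, i3, -⟩ := hp'
  obtain ⟨σ, hσ⟩ := G1b_ex hp 1 (x := jt p 2) h1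
  have h3 := (G1b_dot 1 hσ).2
  rw [h2] at h3
  change 0 = (vtx p 1).im + σ * ((vtx p 2).im - (vtx p 1).im) at h3
  refine ⟨σ, ?_, ?_, hσ, by linarith⟩
  · by_contra hh
    push Not at hh
    have := mul_nonneg_of_nonpos_of_nonpos hh (by linarith : (vtx p 2).im - (vtx p 1).im ≤ 0)
    linarith
  · by_contra hh
    push Not at hh
    have := mul_le_mul_of_nonpos_right hh (by linarith : (vtx p 2).im - (vtx p 1).im ≤ 0)
    linarith

private theorem G1b_jt3 {p : Par} (hp : p ∈ Pi1) : ∃ σ : ℝ, 0 < σ ∧ σ < 1 ∧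
    jt p 3 = vtx p 2 + (σ : ℂ) * (vtx p 3 - vtx p 2) ∧
      0 = (vtx p 2).im + σ * ((vtx p 3).im - (vtx p 2).im) := by
  obtain ⟨h1, h2⟩ := G1b_jt1 hp (k := 3) (Or.inr rfl)
  have hp' := hp
  obtain ⟨-, -, -, -, i2, i1, i3, -⟩ := hp'
  obtain ⟨σ, hσ⟩ := G1b_ex hp 2 (x := jt p 3) h1
  have h3 := (G1b_dot 2 hσ).2
  rw [h2] at h3
  change 0 = (vtx p 2).im + σ * ((vtx p 3).im - (vtx p 2).im) at h3
  refine ⟨σ, ?_, ?_, hσ, h3⟩
  · by_contra hh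
    push Not at hh
    have := mul_nonpos_of_nonpos_of_nonneg hh (by linarith : 0 ≤ (vtx p 3).im - (vtx p 2).im)
    linarith
  · by_contra hh
    push Not at hh
    have := mul_le_mul_of_nonneg_right hh (by linarith : 0 ≤ (vtx p 3).im - (vtx p 2).im)
    linarith

/-- [G1] the joints. -/
theorem jt_facts {p : Par} (hp : p ∈ Pi1) {k : Fin 4} (hk : k = 2 ∨ k = 3) :
    dot (jt p k) (nu p k) = p.2 k ∧ (∀ j, j ≠ k → dot (jt p k) (nu p j) < p.2 j) ∧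
    (jt p k).im = 0 ∧ jt p k ∈ Q p := by
  obtain ⟨h1, h2⟩ := G1b_jt1 hp hk
  have h3 : ∀ j, j ≠ k → dot (jt p k) (nu p j) < p.2 j := by
    rcases hk with rfl | rfl
    · obtain ⟨σ, s0, s1, hσ, -⟩ := G1b_jt2 hp
      exact (G1b_iff hp 1 hσ).2 ⟨s0, s1⟩
    · obtain ⟨σ, s0, s1, hσ, -⟩ := G1b_jt3 hp
      exact (G1b_iff hp 2 hσ).2 ⟨s0, s1⟩
  refine ⟨h1, h3, h2, fun j => ?_⟩
  by_cases hj : j = k
  · rw [hj, h1]
  · exact (h3 j hj).le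

/-- [G1] the visible part of the side `s`. -/
theorem side {p : Par} (hp : p ∈ Pi1) (s : Fin 4) :
    (∃ L : ℝ, 0 < L ∧ se p s - sv p s = (L : ℂ) * (Complex.I * nu p s)) ∧
    dot (sv p s) (nu p s) = p.2 s ∧
    ∀ x : ℂ, dot x (nu p s) = p.2 s →
      ((0 < x.im ∧ ∀ j, j ≠ s → dot x (nu p j) < p.2 j) ↔
        ∃ τ : ℝ, 0 < τ ∧ τ < 1 ∧ x = sv p s + (τ : ℂ) * (se p s - sv p s)) := by
  have hs := TMN.signs hp
  have i0 : 0 < (vtx p 0).im := hs.2.2.2.2.2.2.1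
  have i2 : (vtx p 2).im < 0 := hp.2.2.2.2.1
  have i1 : 0 < (vtx p 1).im := hp.2.2.2.2.2.1
  have i3 : 0 < (vtx p 3).im := hp.2.2.2.2.2.2.1
  have e : ∀ i : Fin 4, i = 0 ∨ i = 1 ∨ i = 2 ∨ i = 3 := by decide
  rcases e s with rfl | rfl | rfl | rfl
  · change (∃ L : ℝ, 0 < L ∧ vtx p 0 - vtx p 3 = (L : ℂ) * (Complex.I * nu p 0)) ∧
      dot (vtx p 3) (nu p 0) = p.2 0 ∧ ∀ x : ℂ, dot x (nu p 0) = p.2 0 →
      ((0 < x.im ∧ ∀ j, j ≠ 0 → dot x (nu p j) < p.2 j) ↔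
        ∃ τ : ℝ, 0 < τ ∧ τ < 1 ∧ x = vtx p 3 + (τ : ℂ) * (vtx p 0 - vtx p 3))
    refine ⟨⟨_, hp.2.2.1 3, vtx_sub p 3⟩, dot_vtx_succ p 3, fun x hx => ⟨?_, ?_⟩⟩
    · rintro ⟨-, h2⟩
      obtain ⟨σ, hσ⟩ := G1b_ex hp 3 (x := x) hx
      obtain ⟨s0, s1⟩ := (G1b_iff hp 3 hσ).1 h2
      exact ⟨σ, s0, s1, hσ⟩
    · rintro ⟨σ, s0, s1, hσ⟩
      refine ⟨?_, (G1b_iff hp 3 hσ).2 ⟨s0, s1⟩⟩
      have h3 : x.im = (vtx p 3).im + σ * ((vtx p 0).im - (vtx p 3).im) := (G1b_dot 3 hσ).2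
      have t1 := mul_pos (sub_pos.2 s1) i3
      have t2 := mul_pos s0 i0
      linarith
  · change (∃ L : ℝ, 0 < L ∧ vtx p 1 - vtx p 0 = (L : ℂ) * (Complex.I * nu p 1)) ∧
      dot (vtx p 0) (nu p 1) = p.2 1 ∧ ∀ x : ℂ, dot x (nu p 1) = p.2 1 →
      ((0 < x.im ∧ ∀ j, j ≠ 1 → dot x (nu p j) < p.2 j) ↔
        ∃ τ : ℝ, 0 < τ ∧ τ < 1 ∧ x = vtx p 0 + (τ : ℂ) * (vtx p 1 - vtx p 0))
    refine ⟨⟨_, hp.2.2.1 0, vtx_sub p 0⟩, dot_vtx_succ p 0, fun x hx => ⟨?_, ?_⟩⟩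
    · rintro ⟨-, h2⟩
      obtain ⟨σ, hσ⟩ := G1b_ex hp 0 (x := x) hx
      obtain ⟨s0, s1⟩ := (G1b_iff hp 0 hσ).1 h2
      exact ⟨σ, s0, s1, hσ⟩
    · rintro ⟨σ, s0, s1, hσ⟩
      refine ⟨?_, (G1b_iff hp 0 hσ).2 ⟨s0, s1⟩⟩
      have h3 : x.im = (vtx p 0).im + σ * ((vtx p 1).im - (vtx p 0).im) := (G1b_dot 0 hσ).2
      have t1 := mul_pos (sub_pos.2 s1) i0
      have t2 := mul_pos s0 i1
      linarith
  · obtain ⟨ρ, r0, r1, hρ, hρi⟩ := G1b_jt2 hp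
    have hse : jt p 2 - vtx p 1 = (ρ : ℂ) * (vtx p 2 - vtx p 1) := by
      rw [hρ]
      ring
    have hL := hp.2.2.1 1
    change (∃ L : ℝ, 0 < L ∧ jt p 2 - vtx p 1 = (L : ℂ) * (Complex.I * nu p 2)) ∧
      dot (vtx p 1) (nu p 2) = p.2 2 ∧ ∀ x : ℂ, dot x (nu p 2) = p.2 2 →
      ((0 < x.im ∧ ∀ j, j ≠ 2 → dot x (nu p j) < p.2 j) ↔
        ∃ τ : ℝ, 0 < τ ∧ τ < 1 ∧ x = vtx p 1 + (τ : ℂ) * (jt p 2 - vtx p 1))
    refine ⟨⟨ρ * (p.2 1 + p.2 (1 + 2)), mul_pos r0 hL, ?_⟩, dot_vtx_succ p 1,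
      fun x hx => ⟨?_, ?_⟩⟩
    · have h4 : vtx p 2 - vtx p 1 = ((p.2 1 + p.2 (1 + 2) : ℝ) : ℂ) * (Complex.I * nu p 2) :=
        vtx_sub p 1
      rw [hse, h4]
      push_cast
      ring
    · rintro ⟨h1, h2⟩
      obtain ⟨σ, hσ⟩ := G1b_ex hp 1 (x := x) hx
      obtain ⟨s0, s1⟩ := (G1b_iff hp 1 hσ).1 h2
      have h3 : x.im = (vtx p 1).im + σ * ((vtx p 2).im - (vtx p 1).im) := (G1b_dot 1 hσ).2
      have h5 : σ < ρ := by
        by_contra hh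
        push Not at hh
        have := mul_le_mul_of_nonneg_right hh (by linarith : 0 ≤ (vtx p 1).im - (vtx p 2).im)
        linarith
      refine ⟨σ / ρ, div_pos s0 r0, (div_lt_one r0).2 h5, ?_⟩
      have hσ' : x = vtx p 1 + (σ : ℂ) * (vtx p 2 - vtx p 1) := hσ
      have hρ0 : (ρ : ℂ) ≠ 0 := by exact_mod_cast r0.ne'
      rw [hse, hσ']
      push_cast
      field_simp
    · rintro ⟨τ, t0, t1, hτ⟩
      have hσ : x = vtx p 1 + ((τ * ρ : ℝ) : ℂ) * (vtx p (1 + 1) - vtx p 1) := by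
        rw [hτ, hse]
        push_cast
        rw [mul_assoc]
      have hlt : τ * ρ < ρ := mul_lt_of_lt_one_left r0 t1
      refine ⟨?_, (G1b_iff hp 1 hσ).2 ⟨mul_pos t0 r0, hlt.trans r1⟩⟩
      have h3 : x.im = (vtx p 1).im + (τ * ρ) * ((vtx p 2).im - (vtx p 1).im) := (G1b_dot 1 hσ).2
      have := mul_lt_mul_of_pos_right hlt (by linarith : 0 < (vtx p 1).im - (vtx p 2).im)
      linarith
  · obtain ⟨ρ, r0, r1, hρ, hρi⟩ := G1b_jt3 hp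
    have hse : vtx p 3 - jt p 3 = ((1 - ρ : ℝ) : ℂ) * (vtx p 3 - vtx p 2) := by
      rw [hρ]
      push_cast
      ring
    have hL := hp.2.2.1 2
    change (∃ L : ℝ, 0 < L ∧ vtx p 3 - jt p 3 = (L : ℂ) * (Complex.I * nu p 3)) ∧
      dot (jt p 3) (nu p 3) = p.2 3 ∧ ∀ x : ℂ, dot x (nu p 3) = p.2 3 →
      ((0 < x.im ∧ ∀ j, j ≠ 3 → dot x (nu p j) < p.2 j) ↔
        ∃ τ : ℝ, 0 < τ ∧ τ < 1 ∧ x = jt p 3 + (τ : ℂ) * (vtx p 3 - jt p 3))
    have hr1 : 0 < 1 - ρ := by linarith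
    refine ⟨⟨(1 - ρ) * (p.2 2 + p.2 (2 + 2)), mul_pos hr1 hL, ?_⟩,
      (G1b_jt1 hp (Or.inr rfl)).1, fun x hx => ⟨?_, ?_⟩⟩
    · have h4 : vtx p 3 - vtx p 2 = ((p.2 2 + p.2 (2 + 2) : ℝ) : ℂ) * (Complex.I * nu p 3) :=
        vtx_sub p 2
      rw [hse, h4]
      push_cast
      ring
    · rintro ⟨h1, h2⟩
      obtain ⟨σ, hσ⟩ := G1b_ex hp 2 (x := x) hx
      obtain ⟨s0, s1⟩ := (G1b_iff hp 2 hσ).1 h2
      have h3 : x.im = (vtx p 2).im + σ * ((vtx p 3).im - (vtx p 2).im) := (G1b_dot 2 hσ).2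
      have h5 : ρ < σ := by
        by_contra hh
        push Not at hh
        have := mul_le_mul_of_nonneg_right hh (by linarith : 0 ≤ (vtx p 3).im - (vtx p 2).im)
        linarith
      refine ⟨(σ - ρ) / (1 - ρ), div_pos (by linarith) hr1, (div_lt_one hr1).2 (by linarith), ?_⟩
      have hσ' : x = vtx p 2 + (σ : ℂ) * (vtx p 3 - vtx p 2) := hσ
      have hρ0 : ((1 - ρ : ℝ) : ℂ) ≠ 0 := by exact_mod_cast hr1.ne'
      have h6 : (((σ - ρ) / (1 - ρ) : ℝ) : ℂ) * (((1 - ρ : ℝ) : ℂ) * (vtx p 3 - vtx p 2)) =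
          ((σ - ρ : ℝ) : ℂ) * (vtx p 3 - vtx p 2) := by
        rw [Complex.ofReal_div]
        field_simp
      rw [hse, h6, hρ, hσ']
      push_cast
      ring
    · rintro ⟨τ, t0, t1, hτ⟩
      have hσ : x = vtx p 2 + ((ρ + τ * (1 - ρ) : ℝ) : ℂ) * (vtx p (2 + 1) - vtx p 2) := by
        change x = vtx p 2 + ((ρ + τ * (1 - ρ) : ℝ) : ℂ) * (vtx p 3 - vtx p 2)
        rw [hτ, hse, hρ]
        push_cast
        ring
      have hlt : τ * (1 - ρ) < 1 - ρ := mul_lt_of_lt_one_left hr1 t1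
      have hgt : 0 < τ * (1 - ρ) := mul_pos t0 hr1
      refine ⟨?_, (G1b_iff hp 2 hσ).2 ⟨by linarith, by linarith⟩⟩
      have h3 : x.im = (vtx p 2).im + (ρ + τ * (1 - ρ)) * ((vtx p 3).im - (vtx p 2).im) :=
        (G1b_dot 2 hσ).2
      have := mul_pos hgt (by linarith : 0 < (vtx p 3).im - (vtx p 2).im)
      linarith

end TMN
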