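import Pool.Agent.TMN.Base
import Pool.Agent.TMN.G1a
import Pool.Agent.TMN.G1b

/-! # TMN [F1]: the table is a polygon -/

set_option autoImplicit false

open Set Filter Topology

namespace TMN

open TMX

theorem n1_four (i : Fin 4) : i = 0 ∨ i = 1 ∨ i = 2 ∨ i = 3 := by revert i; decide

theorem n1_nine (i : Fin 9) : i = 0 ∨ i = 1 ∨ i = 2 ∨ i = 3 ∨ i = 4 ∨ i = 5 ∨ i = 6 ∨ i = 7 ∨
    i = 8 := by
  revert i; decide

theorem n1_nu_re {p : Par} (hp : p ∈ Pi1) (j : Fin 4) : (nu p j).re ≠ 0 := by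
  obtain ⟨h1, h2, _⟩ := hp
  have hpi := Real.pi_gt_three
  have hs : 0 < Real.sin p.1 := Real.sin_pos_of_pos_of_lt_pi (by linarith) (by linarith)
  have hc : 0 < Real.cos p.1 := Real.cos_pos_of_mem_Ioo ⟨by linarith, by linarith⟩
  have r0 := nu_re_zero p
  have i0 := nu_im_zero p
  have n1 : nu p 1 = Complex.I * nu p 0 := nu_succ p 0
  have n2 : nu p 2 = -nu p 0 := nu_add_two p 0
  have n3 : nu p 3 = -nu p 1 := nu_add_two p 1
  rcases n1_four j with rfl | rfl | rfl | rfl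
  · rw [r0]; exact hc.ne'
  · rw [n1, Complex.mul_re, Complex.I_re, Complex.I_im, i0]
    intro h; linarith
  · rw [n2, Complex.neg_re, r0]
    intro h; linarith
  · rw [n3, Complex.neg_re, n1, Complex.mul_re, Complex.I_re, Complex.I_im, i0]
    intro h; linarith

/-- the centre of the hole -/
theorem n1_centre {p : Par} (hp : p ∈ Pi1) : ∃ q : ℂ, ∀ j, dot q (nu p j) < p.2 j := by
  obtain ⟨_, _, h, _⟩ := hp
  have h0 := h 0
  have h1 := h 1
  have e2 : (0 : Fin 4) + 2 = 2 := rfl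
  have e3 : (1 : Fin 4) + 2 = 3 := rfl
  rw [e2] at h0
  rw [e3] at h1
  refine ⟨(((p.2 0 - p.2 2) / 2 : ℝ) : ℂ) * nu p 0 + (((p.2 1 - p.2 3) / 2 : ℝ) : ℂ) * nu p 1, ?_⟩
  have n2 : nu p 2 = -nu p 0 := nu_add_two p 0
  have n3 : nu p 3 = -nu p 1 := nu_add_two p 1
  have d00 : dot (nu p 0) (nu p 0) = 1 := dot_nu_self p 0
  have d11 : dot (nu p 1) (nu p 1) = 1 := dot_nu_self p 1
  have d01 : dot (nu p 0) (nu p 1) = 0 := dot_nu_succ p 0
  have d10 : dot (nu p 1) (nu p 0) = 0 := dot_nu_succ' p 0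
  intro j
  rcases n1_four j with rfl | rfl | rfl | rfl
  · rw [dot_add_left, dot_mul_left, dot_mul_left, d00, d10]; linarith
  · rw [dot_add_left, dot_mul_left, dot_mul_left, d01, d11]; linarith
  · rw [n2, dot_neg_right, dot_add_left, dot_mul_left, dot_mul_left, d00, d10]; linarith
  · rw [n3, dot_neg_right, dot_add_left, dot_mul_left, dot_mul_left, d01, d11]; linarith

theorem n1_interior {θ : ℝ} {p : Par} (hp : p ∈ Pi1) :
    interior (Tb θ p) = {x | x ∈ Ro θ ∧ x ∉ Q p} := by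
  apply Set.Subset.antisymm
  · intro x hx
    have hxR : x ∈ Ro θ := f1_int_Rc (interior_mono (fun y hy => hy.1) hx)
    refine ⟨hxR, fun hq => ?_⟩
    obtain ⟨q, hqj⟩ := n1_centre hp
    have hc : Tendsto (fun ε : ℝ => x + (ε : ℂ) * (q - x)) (𝓝 0) (𝓝 x) := by
      have hc : Continuous fun ε : ℝ => x + (ε : ℂ) * (q - x) := by fun_prop
      have := hc.tendsto 0
      simpa only [Complex.ofReal_zero, zero_mul, add_zero] using this
    have h1 := hc (isOpen_interior.mem_nhds hx)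
    rw [Filter.mem_map, Metric.mem_nhds_iff] at h1
    obtain ⟨δ, hδ, h1⟩ := h1
    set ε := min (δ / 2) (1 / 2) with hε
    have hε0 : 0 < ε := lt_min (by linarith) (by norm_num)
    have hε1 : ε ≤ 1 / 2 := min_le_right _ _
    have hε2 : ε ≤ δ / 2 := min_le_left _ _
    have : ε ∈ Metric.ball (0 : ℝ) δ := by
      rw [Metric.mem_ball, Real.dist_eq, sub_zero, abs_of_pos hε0]; linarith
    obtain ⟨_, j, hj⟩ := interior_subset (h1 this)
    change p.2 j ≤ dot (x + (ε : ℂ) * (q - x)) (nu p j) at hj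
    rw [dot_add_left, dot_mul_left, dot_sub_left] at hj
    have h2 := hq j
    have h3 := hqj j
    nlinarith
  · exact interior_maximal (fun x hx => f1_G_Tb (f1_Ro_Rc hx.1) hx.2) (f1_G_open θ p)

theorem n1_Tb_clos {θ : ℝ} (hθ : |θ - Real.pi / 4| < 1 / 100) {p : Par} (hp : p ∈ Pi1) :
    Tb θ p ⊆ closure {x | x ∈ Ro θ ∧ x ∉ Q p} := by
  rintro x ⟨hx, j, hj⟩
  have hb := f1_bb hθ
  by_cases hR : x ∈ Ro θ
  · -- move in the direction of the normal
    have hO := (f1_Ro_open θ).mem_nhds hR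
    have hc : Tendsto (fun ε : ℝ => x + (ε : ℂ) * nu p j) (𝓝 0) (𝓝 x) := by
      have hc : Continuous fun ε : ℝ => x + (ε : ℂ) * nu p j := by fun_prop
      have := hc.tendsto 0
      simpa only [Complex.ofReal_zero, zero_mul, add_zero] using this
    have h1 := hc hO
    rw [Filter.mem_map, Metric.mem_nhds_iff] at h1
    obtain ⟨δ, hδ, h1⟩ := h1
    refine f1_clos ⟨δ, hδ, fun ε h0 hε => ⟨h1 ?_, ?_⟩⟩
    · rw [Metric.mem_ball, Real.dist_eq, sub_zero, abs_of_pos h0]; exact hε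
    · rw [f1_notQ]
      refine ⟨j, ?_⟩
      rw [dot_add_left, dot_mul_left, dot_nu_self]
      linarith
  · by_cases hq : x ∈ Q p
    · -- a point of the bottom wall on the boundary of the hole
      obtain ⟨b1, b2⟩ := TMN.box2 hp hq
      rw [abs_lt] at b1 b2
      obtain ⟨a1, a2, a3, a4⟩ := hx
      set r := (nu p j).re with hr
      have hr0 : r ≠ 0 := n1_nu_re hp j
      have hr2 : 0 < r ^ 2 := by positivity
      set v : ℂ := ⟨2 / r, 1⟩ with hv
      have him : |(nu p j).im| ≤ 1 := by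
        have := Complex.abs_im_le_norm (nu p j)
        rw [nu_norm] at this
        exact this
      have hdot : 0 < dot v (nu p j) := by
        have e : dot v (nu p j) = 2 + (nu p j).im := by
          simp only [dot, hv]
          rw [← hr]
          field_simp
        rw [e]
        have := (abs_le.1 him).1
        linarith
      have hO : {y : ℂ | 0 < y.re ∧ y.re < 1 ∧ y.im < bb θ} ∈ 𝓝 x := by
        have : IsOpen {y : ℂ | 0 < y.re ∧ y.re < 1 ∧ y.im < bb θ} := by
          have e : {y : ℂ | 0 < y.re ∧ y.re < 1 ∧ y.im < bb θ} =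
              {y : ℂ | 0 < y.re} ∩ ({y : ℂ | y.re < 1} ∩ {y : ℂ | y.im < bb θ}) := by
            ext y; simp only [Set.mem_ofPred_eq, Set.mem_inter_iff]
          rw [e]
          exact (isOpen_lt continuous_const Complex.continuous_re).inter
            ((isOpen_lt Complex.continuous_re continuous_const).inter
            (isOpen_lt Complex.continuous_im continuous_const))
        exact this.mem_nhds ⟨by linarith, by linarith, by linarith⟩
      have hc : Tendsto (fun ε : ℝ => x + (ε : ℂ) * v) (𝓝 0) (𝓝 x) := by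
        have hc : Continuous fun ε : ℝ => x + (ε : ℂ) * v := by fun_prop
        have := hc.tendsto 0
        simpa only [Complex.ofReal_zero, zero_mul, add_zero] using this
      have h1 := hc hO
      rw [Filter.mem_map, Metric.mem_nhds_iff] at h1
      obtain ⟨δ, hδ, h1⟩ := h1
      refine f1_clos (v := v) ⟨δ, hδ, fun ε h0 hε => ?_⟩
      have hm : ε ∈ Metric.ball (0 : ℝ) δ := by
        rw [Metric.mem_ball, Real.dist_eq, sub_zero, abs_of_pos h0]; exact hε
      obtain ⟨c1, c2, c3⟩ := h1 hm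
      refine ⟨⟨c1, c2, ?_, c3⟩, ?_⟩
      · change 0 < (x + (ε : ℂ) * v).im
        simp only [Complex.add_im, Complex.mul_im, Complex.ofReal_re, Complex.ofReal_im, hv]
        linarith
      · rw [f1_notQ]
        refine ⟨j, ?_⟩
        rw [dot_add_left, dot_mul_left]
        have := mul_pos h0 hdot
        linarith
    · -- move to the centre of the outer rectangle
      obtain ⟨i, hi⟩ := f1_notQ.mp hq
      set m : ℂ := ⟨1 / 2, bb θ / 2⟩ with hm
      have hO : {y : ℂ | p.2 i < dot y (nu p i)} ∈ 𝓝 x :=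
        (isOpen_lt continuous_const (f1_cont_dot _)).mem_nhds hi
      have hc : Tendsto (fun ε : ℝ => x + (ε : ℂ) * (m - x)) (𝓝 0) (𝓝 x) := by
        have hc : Continuous fun ε : ℝ => x + (ε : ℂ) * (m - x) := by fun_prop
        have := hc.tendsto 0
        simpa only [Complex.ofReal_zero, zero_mul, add_zero] using this
      have h1 := hc hO
      rw [Filter.mem_map, Metric.mem_nhds_iff] at h1
      obtain ⟨δ, hδ, h1⟩ := h1
      refine f1_clos (v := m - x) ⟨min δ (1 / 2), lt_min hδ (by norm_num), fun ε h0 hε => ⟨?_, ?_⟩⟩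
      · have hε1 : ε < 1 / 2 := lt_of_lt_of_le hε (min_le_right _ _)
        obtain ⟨a1, a2, a3, a4⟩ := hx
        refine ⟨?_, ?_, ?_, ?_⟩
        · simp [hm]; nlinarith
        · simp [hm]; nlinarith
        · simp [hm]; nlinarith
        · simp [hm]; nlinarith
      · rw [f1_notQ]
        refine ⟨i, ?_⟩
        have : ε ∈ Metric.ball (0 : ℝ) δ := by
          rw [Metric.mem_ball, Real.dist_eq, sub_zero, abs_of_pos h0]
          exact lt_of_lt_of_le hε (min_le_left _ _)
        exact h1 this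

theorem n1_fre {θ : ℝ} (hθ : |θ - Real.pi / 4| < 1 / 100) {p : Par} (hp : p ∈ Pi1) {x : ℂ}
    (hx : x ∈ Ro θ) (hq : x ∉ Q p) : Fre θ p x := by
  intro c hc
  have hb := f1_bb hθ
  have hb0 : 0 < bb θ := by linarith
  have hc' : frm θ c x ∈ Q p := hc
  obtain ⟨b1, b2⟩ := TMN.box2 hp hc'
  rw [abs_lt] at b1 b2
  obtain ⟨a1, a2, a3, a4⟩ := hx
  obtain ⟨⟨d1, d2⟩, ⟨m1, m2⟩⟩ := c
  simp only [frm, act, lat, Complex.sub_re, Complex.sub_im] at b1 b2
  obtain ⟨u1, u2⟩ := f1_int_one (m := m1) (x := x.re) (b := 1) one_pos a1 a2 d1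
    (by rw [mul_one]; linarith) (by rw [mul_one]; linarith)
  subst u1 u2
  rcases lt_trichotomy (((d2 : ℤ) : ℝ) * (x.im - 2 * bb θ * m2)) 0 with h | h | h
  · -- the reflected copy
    have h' : 0 < (((-d2 : ℤˣ) : ℤ) : ℝ) * (x.im - 2 * bb θ * m2) := by
      push_cast
      linarith
    obtain ⟨v1, v2⟩ := f1_int_one (m := m2) (x := x.im) (b := bb θ) hb0 a3 a4 (-d2) h' (by
      push_cast
      linarith)
    have v1' : d2 = -1 := by rw [← v1, neg_neg]
    subst v1' v2
    have e : frm θ ((1, -1), (0, 0)) x = (starRingEnd ℂ) x := by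
      apply Complex.ext
      · simp [frm, act, lat]
      · simp [frm, act, lat]
    rw [e] at hc'
    have h1 := TMN.hidden hp hc' (by rw [Complex.conj_im]; linarith)
    apply hq
    intro j
    have h2 := (h1 j).le
    rwa [Complex.conj_conj] at h2
  · -- impossible
    have hd : ((d2 : ℤ) : ℝ) ≠ 0 := by
      rcases Int.units_eq_one_or d2 with hd | hd
      · rw [hd]; simp
      · rw [hd]; simp
    have h0 : x.im = 2 * bb θ * m2 := by
      have := (mul_eq_zero.1 h).resolve_left hd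
      linarith
    have h1 : 0 < (m2 : ℝ) := by
      by_contra hcon
      push Not at hcon
      nlinarith
    have h2 : (m2 : ℝ) < 1 := by
      by_contra hcon
      push Not at hcon
      nlinarith
    have h3 : 0 < m2 := by exact_mod_cast h1
    have h4 : m2 < 1 := by exact_mod_cast h2
    omega
  · obtain ⟨v1, v2⟩ := f1_int_one (m := m2) (x := x.im) (b := bb θ) hb0 a3 a4 d2 h (by linarith)
    subst v1 v2
    apply hq
    have : frm θ (1, (0, 0)) x ∈ Q p := hc'
    rwa [frm_one] at this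

theorem table_closure2 {θ : ℝ} (hθ : |θ - Real.pi / 4| < 1 / 100) {p : Par} (hp : p ∈ Pi1) :
    interior (Tb θ p) = {x | x ∈ Ro θ ∧ x ∉ Q p} ∧ Tb θ p ⊆ closure {x | x ∈ Ro θ ∧ x ∉ Q p} ∧
    ∀ x ∈ Ro θ, x ∉ Q p → Fre θ p x :=
  ⟨n1_interior hp, n1_Tb_clos hθ hp, fun _ hx hq => n1_fre hθ hp hx hq⟩

/-! ## the sides -/

theorem n1_side {p : Par} (hp : p ∈ Pi1) (j : Fin 4) (x : ℂ) :
    x ∈ segment ℝ (vtx p j) (vtx p (j + 1)) ↔
      x ∈ Q p ∧ dot x (nu p (j + 1)) = p.2 (j + 1) := by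
  obtain ⟨_, _, hh, _⟩ := hp
  have hL := hh j
  have hL1 := hh (j + 1)
  have e3 : j + 1 + 2 = j + 3 := by rw [add_assoc]; rfl
  rw [e3] at hL1
  have dA0 := dot_vtx_self p j
  have dA1 := dot_vtx_succ p j
  have dA2 := dot_vtx_two p j
  have dA3 := dot_vtx_three p j
  have dB1 := dot_vtx_self p (j + 1)
  have dB2 := dot_vtx_succ p (j + 1)
  have dB3 := dot_vtx_two p (j + 1)
  have dB0 := dot_vtx_three p (j + 1)
  rw [f1_e12] at dB2 dB0
  rw [e3] at dB3
  rw [f1_e13] at dB0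
  constructor
  · rintro ⟨a, b, ha, hb, hab, rfl⟩
    have key : ∀ i, dot (a • vtx p j + b • vtx p (j + 1)) (nu p i) =
        a * dot (vtx p j) (nu p i) + b * dot (vtx p (j + 1)) (nu p i) := by
      intro i
      rw [Complex.real_smul, Complex.real_smul, dot_add_left, dot_mul_left, dot_mul_left]
    have ea : a = 1 - b := by linarith
    refine ⟨?_, ?_⟩
    · intro i
      rw [key i]
      rcases f1_four j i with rfl | rfl | rfl | rfl
      · rw [dA0, dB0, ea]; nlinarith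
      · rw [dA1, dB1, ea]; nlinarith
      · rw [dA2, dB2, ea]; nlinarith
      · rw [dA3, dB3, ea]; nlinarith
    · rw [key, dA1, dB1, ea]; ring
  · rintro ⟨hq, h1⟩
    have hs := basis_nu p (j + 1) x
    rw [f1_e12, h1] at hs
    set s := dot x (nu p (j + 2)) with hsd
    have hs2 : s ≤ p.2 (j + 2) := hq (j + 2)
    have hs0 : -p.2 j ≤ s := by
      have := hq j
      rw [hsd, dot_add_two]; linarith
    have hvA : vtx p j = (p.2 (j + 1) : ℂ) * nu p (j + 1) + ((-p.2 j : ℝ) : ℂ) * nu p (j + 2) := by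
      unfold vtx; rw [nu_add_two]; push_cast; ring
    have hvB : vtx p (j + 1) = (p.2 (j + 1) : ℂ) * nu p (j + 1) +
        ((p.2 (j + 2) : ℝ) : ℂ) * nu p (j + 2) := by
      unfold vtx; rw [f1_e12]
    have hne : p.2 j + p.2 (j + 2) ≠ 0 := hL.ne'
    refine ⟨(p.2 (j + 2) - s) / (p.2 j + p.2 (j + 2)), (s + p.2 j) / (p.2 j + p.2 (j + 2)),
      div_nonneg (by linarith) hL.le, div_nonneg (by linarith) hL.le, ?_, ?_⟩
    · field_simp; ring
    · rw [Complex.real_smul, Complex.real_smul, hvA, hvB]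
      have hr : (p.2 (j + 2) - s) / (p.2 j + p.2 (j + 2)) * (-p.2 j) +
          (s + p.2 j) / (p.2 j + p.2 (j + 2)) * p.2 (j + 2) = s := by field_simp; ring
      have hr1 : (p.2 (j + 2) - s) / (p.2 j + p.2 (j + 2)) +
          (s + p.2 j) / (p.2 j + p.2 (j + 2)) = 1 := by field_simp; ring
      have hrc : (((p.2 (j + 2) - s) / (p.2 j + p.2 (j + 2)) : ℝ) : ℂ) * ((-p.2 j : ℝ) : ℂ) +
          (((s + p.2 j) / (p.2 j + p.2 (j + 2)) : ℝ) : ℂ) * (p.2 (j + 2) : ℂ) = (s : ℂ) := by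
        rw [← Complex.ofReal_mul, ← Complex.ofReal_mul, ← Complex.ofReal_add, hr]
      have hr1c : (((p.2 (j + 2) - s) / (p.2 j + p.2 (j + 2)) : ℝ) : ℂ) +
          (((s + p.2 j) / (p.2 j + p.2 (j + 2)) : ℝ) : ℂ) = 1 := by
        rw [← Complex.ofReal_add, hr1, Complex.ofReal_one]
      rw [hs]
      linear_combination (nu p (j + 2)) * hrc + ((p.2 (j + 1) : ℂ) * nu p (j + 1)) * hr1c

theorem n1_vtx_ne {p : Par} (hp : p ∈ Pi1) (j : Fin 4) : vtx p j ≠ vtx p (j + 1) := by
  intro h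
  have h1 := vtx_sub p j
  rw [← h, sub_self] at h1
  have h2 := hp.2.2.1 j
  have h3 : ‖(0 : ℂ)‖ = ‖((p.2 j + p.2 (j + 2) : ℝ) : ℂ) * (Complex.I * nu p (j + 1))‖ := by
    rw [← h1]
  rw [norm_zero, norm_mul, norm_mul, nu_norm, Complex.norm_I, Complex.norm_real,
    Real.norm_eq_abs, abs_of_pos h2] at h3
  linarith


/-- the part of a segment above the real axis -/
theorem n1_cut {a b c : ℂ} (ha : 0 < a.im) (hb : b.im < 0) (hc : c ∈ segment ℝ a b) (hc0 : c.im = 0)
    (x : ℂ) : (x ∈ segment ℝ a b ∧ 0 ≤ x.im) ↔ x ∈ segment ℝ a c := by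
  rw [segment_eq_image'] at hc
  obtain ⟨u, ⟨hu0, hu1⟩, rfl⟩ := hc
  simp only [Complex.add_im, Complex.smul_im, Complex.sub_im, smul_eq_mul] at hc0
  have hu : 0 < u := by
    rcases hu0.lt_or_eq with h | h
    · exact h
    · rw [← h] at hc0; linarith
  constructor
  · rintro ⟨hx, hx0⟩
    rw [segment_eq_image'] at hx ⊢
    obtain ⟨t, ⟨ht0, ht1⟩, rfl⟩ := hx
    simp only [Complex.add_im, Complex.smul_im, Complex.sub_im, smul_eq_mul] at hx0
    refine ⟨t / u, ⟨by positivity, ?_⟩, ?_⟩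
    · rw [div_le_one hu]
      by_contra hcon
      push Not at hcon
      nlinarith
    · simp only [add_sub_cancel_left, smul_smul]
      rw [div_mul_cancel₀ _ hu.ne']
  · intro hx
    rw [segment_eq_image'] at hx
    obtain ⟨s, ⟨hs0, hs1⟩, rfl⟩ := hx
    refine ⟨?_, ?_⟩
    · rw [segment_eq_image']
      refine ⟨s * u, ⟨by positivity, by nlinarith⟩, ?_⟩
      simp only [add_sub_cancel_left, smul_smul]
    · simp only [Complex.add_im, Complex.smul_im, Complex.sub_im, smul_eq_mul]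
      have e : a.im + s * (a.im + u * (b.im - a.im) - a.im) = (1 - s) * a.im := by
        linear_combination s * hc0
      rw [e]
      exact mul_nonneg (by linarith) ha.le

/-- the visible parts of the sides -/
theorem n1_side2 {p : Par} (hp : p ∈ Pi1) (x : ℂ) :
    (x ∈ Q p ∧ dot x (nu p 2) = p.2 2 ∧ 0 ≤ x.im) ↔ x ∈ segment ℝ (jt p 2) (vtx p 1) := by
  obtain ⟨j1, _, j3, j4⟩ := TMN.jt_facts hp (k := 2) (Or.inl rfl)
  have h2 : (vtx p 2).im < 0 := hp.2.2.2.2.1
  have h1 : 0 < (vtx p 1).im := hp.2.2.2.2.2.1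
  have hs : x ∈ segment ℝ (vtx p 1) (vtx p 2) ↔ x ∈ Q p ∧ dot x (nu p 2) = p.2 2 :=
    n1_side hp 1 x
  have hj : jt p 2 ∈ segment ℝ (vtx p 1) (vtx p 2) := (n1_side hp 1 (jt p 2)).2 ⟨j4, j1⟩
  rw [segment_symm, ← n1_cut h1 h2 hj j3 x, hs]
  exact ⟨fun ⟨a, b, c⟩ => ⟨⟨a, b⟩, c⟩, fun ⟨⟨a, b⟩, c⟩ => ⟨a, b, c⟩⟩

theorem n1_side3 {p : Par} (hp : p ∈ Pi1) (x : ℂ) :
    (x ∈ Q p ∧ dot x (nu p 3) = p.2 3 ∧ 0 ≤ x.im) ↔ x ∈ segment ℝ (vtx p 3) (jt p 3) := by
  obtain ⟨j1, _, j3, j4⟩ := TMN.jt_facts hp (k := 3) (Or.inr rfl)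
  have h2 : (vtx p 2).im < 0 := hp.2.2.2.2.1
  have h3 : 0 < (vtx p 3).im := hp.2.2.2.2.2.2.1
  have hs := n1_side hp 2 x
  have hj := (n1_side hp 2 (jt p 3)).2 ⟨j4, j1⟩
  rw [segment_symm] at hj
  have hj' : jt p 3 ∈ segment ℝ (vtx p 3) (vtx p 2) := hj
  rw [← n1_cut h3 h2 hj' j3 x, segment_symm ℝ (vtx p 3) (vtx p 2)]
  have hs' : x ∈ segment ℝ (vtx p 2) (vtx p 3) ↔ x ∈ Q p ∧ dot x (nu p 3) = p.2 3 := hs
  rw [hs']
  exact ⟨fun ⟨a, b, c⟩ => ⟨⟨a, b⟩, c⟩, fun ⟨⟨a, b⟩, c⟩ => ⟨a, b, c⟩⟩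

theorem n1_seg_im {a b x : ℂ} (hx : x ∈ segment ℝ a b) {c : ℝ} (ha : c ≤ a.im) (hb : c ≤ b.im) :
    c ≤ x.im := by
  obtain ⟨s, t, hs, ht, hst, rfl⟩ := hx
  simp only [Complex.add_im, Complex.smul_im, smul_eq_mul]
  have e : s = 1 - t := by linarith
  rw [e]
  nlinarith

/-- segments of the real axis -/
theorem n1_real {a b x : ℂ} (ha : a.im = 0) (hb : b.im = 0) (hab : a.re < b.re) :
    x ∈ segment ℝ a b ↔ x.im = 0 ∧ a.re ≤ x.re ∧ x.re ≤ b.re := by
  constructor
  · rintro ⟨s, t, hs, ht, hst, rfl⟩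
    simp only [Complex.add_im, Complex.smul_im, Complex.add_re, Complex.smul_re, smul_eq_mul, ha,
      hb]
    have e : s = 1 - t := by linarith
    rw [e]
    refine ⟨by ring, by nlinarith, by nlinarith⟩
  · rintro ⟨h0, h1, h2⟩
    have hne : b.re - a.re ≠ 0 := by linarith
    have hpos : 0 < b.re - a.re := by linarith
    refine ⟨(b.re - x.re) / (b.re - a.re), (x.re - a.re) / (b.re - a.re),
      div_nonneg (by linarith) hpos.le, div_nonneg (by linarith) hpos.le, ?_, ?_⟩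
    · field_simp; ring
    · apply Complex.ext
      · simp only [Complex.add_re, Complex.smul_re, smul_eq_mul]
        field_simp; ring
      · simp only [Complex.add_im, Complex.smul_im, smul_eq_mul, ha, hb, h0]
        ring

/-- the bottom wall -/
theorem n1_bottom {p : Par} (hp : p ∈ Pi1) {x : ℂ} (hx0 : x.im = 0) :
    (∃ j, p.2 j ≤ dot x (nu p j)) ↔ x.re ≤ (jt p 2).re ∨ (jt p 3).re ≤ x.re := by
  obtain ⟨s1, s2, _, _, _, _, _, _, _, _⟩ := TMN.signs hp
  obtain ⟨j1, j2, j3, _⟩ := TMN.jt_facts hp (k := 2) (Or.inl rfl)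
  obtain ⟨k1, k2, k3, _⟩ := TMN.jt_facts hp (k := 3) (Or.inr rfl)
  have hd : ∀ j, dot x (nu p j) = x.re * (nu p j).re := by
    intro j
    simp only [dot, hx0, zero_mul, add_zero]
  have hdj : ∀ j, dot (jt p 2) (nu p j) = (jt p 2).re * (nu p j).re := by
    intro j
    simp only [dot, j3, zero_mul, add_zero]
  have hdk : ∀ j, dot (jt p 3) (nu p j) = (jt p 3).re * (nu p j).re := by
    intro j
    simp only [dot, k3, zero_mul, add_zero]
  have n2 : nu p 2 = -nu p 0 := nu_add_two p 0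
  have n3 : nu p 3 = -nu p 1 := nu_add_two p 1
  have r0 : (nu p 0).re = -(nu p 2).re := by rw [n2, Complex.neg_re, neg_neg]
  have r1 : (nu p 1).re = -(nu p 3).re := by rw [n3, Complex.neg_re, neg_neg]
  rw [hdj 2] at j1
  rw [hdk 3] at k1
  constructor
  · rintro ⟨j, hj⟩
    rw [hd] at hj
    rcases n1_four j with rfl | rfl | rfl | rfl
    · right
      have h := k2 0 (by decide)
      rw [hdk 0, r0] at h
      rw [r0] at hj
      by_contra hcon
      push Not at hcon
      nlinarith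
    · left
      have h := j2 1 (by decide)
      rw [hdj 1, r1] at h
      rw [r1] at hj
      by_contra hcon
      push Not at hcon
      nlinarith
    · left
      by_contra hcon
      push Not at hcon
      nlinarith
    · right
      by_contra hcon
      push Not at hcon
      nlinarith
  · rintro (h | h)
    · refine ⟨2, ?_⟩
      rw [hd, ← j1]
      nlinarith
    · refine ⟨3, ?_⟩
      rw [hd, ← k1]
      nlinarith

theorem polygon2 {θ : ℝ} (hθ : |θ - Real.pi / 4| < 1 / 100) {p : Par} (hp : p ∈ Pi1) :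
    BIL.IsPolygon (Tb θ p) (vx θ p) (fun i => vx θ p (i + 1)) := by
  have hb := f1_bb hθ
  have hb0 : 0 < bb θ := by linarith
  obtain ⟨_, _, j3, j4⟩ := TMN.jt_facts hp (k := 2) (Or.inl rfl)
  obtain ⟨_, _, k3, k4⟩ := TMN.jt_facts hp (k := 3) (Or.inr rfl)
  have jb := (TMN.box2 hp j4).1
  have kb := (TMN.box2 hp k4).1
  rw [abs_lt] at jb kb
  obtain ⟨_, _, _, _, _, _, hv0, _, _, _⟩ := TMN.signs hp
  have hv1 : 0 < (vtx p 1).im := hp.2.2.2.2.2.1
  have hv3 : 0 < (vtx p 3).im := hp.2.2.2.2.2.2.1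
  refine ⟨?_, ?_, ?_, ?_⟩
  · refine Metric.isCompact_of_isClosed_isBounded (f1_Tb_closed θ p) ?_
    refine (Metric.isBounded_closedBall (x := (0 : ℂ)) (r := 1 + bb θ)).subset ?_
    rintro x ⟨⟨a1, a2, a3, a4⟩, _⟩
    rw [mem_closedBall_zero_iff]
    refine (Complex.norm_le_abs_re_add_abs_im x).trans ?_
    rw [abs_of_nonneg a1, abs_of_nonneg a3]
    linarith
  · rw [n1_interior hp]
    refine ⟨⟨1 / 10, 1 / 10⟩, ⟨?_, ?_, ?_, ?_⟩, fun h => ?_⟩
    · norm_num
    · norm_num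
    · norm_num
    · change (1 / 10 : ℝ) < bb θ; linarith
    · have := (TMN.box2 hp h).1
      norm_num [abs_lt] at this
  · intro i
    rcases n1_nine i with rfl | rfl | rfl | rfl | rfl | rfl | rfl | rfl | rfl
    · change (0 : ℂ) ≠ jt p 2
      intro h
      have := congrArg Complex.re h
      rw [Complex.zero_re] at this
      linarith
    · change jt p 2 ≠ vtx p 1
      intro h
      have := congrArg Complex.im h
      rw [j3] at this
      linarith
    · change vtx p 1 ≠ vtx p 0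
      exact (n1_vtx_ne hp 0).symm
    · change vtx p 0 ≠ vtx p 3
      exact (n1_vtx_ne hp 3).symm
    · change vtx p 3 ≠ jt p 3
      intro h
      have := congrArg Complex.im h
      rw [k3] at this
      linarith
    · change jt p 3 ≠ 1
      intro h
      have := congrArg Complex.re h
      rw [Complex.one_re] at this
      linarith
    · change (1 : ℂ) ≠ 1 + bb θ * Complex.I
      intro h
      have := congrArg Complex.im h
      simp at this
      linarith
    · change 1 + bb θ * Complex.I ≠ bb θ * Complex.I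
      intro h
      have := congrArg Complex.re h
      simp at this
    · change bb θ * Complex.I ≠ 0
      intro h
      have := congrArg Complex.im h
      simp at this
      linarith
  · ext x
    rw [(f1_Tb_closed θ p).frontier_eq, n1_interior hp, mem_iUnion]
    have hQbox : ∀ {y : ℂ}, y ∈ Q p → 0 ≤ y.im → y ∈ Rc θ := by
      intro y hy h0
      obtain ⟨b1, b2⟩ := TMN.box2 hp hy
      rw [abs_lt] at b1 b2
      exact ⟨by linarith, by linarith, h0, by linarith⟩
    have outer := f1_outer hb0 x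
    rw [f1_cor0, f1_cor1, f1_cor2, f1_cor3] at outer
    constructor
    · rintro ⟨⟨hx, j, hj⟩, hn⟩
      by_cases hR : x ∈ Ro θ
      · have hq : x ∈ Q p := by
          by_contra hq
          exact hn ⟨hR, hq⟩
        have hje := le_antisymm (hq j) hj
        have h0 : 0 ≤ x.im := hR.2.2.1.le
        rcases n1_four j with rfl | rfl | rfl | rfl
        · refine ⟨3, ?_⟩
          change x ∈ segment ℝ (vtx p 0) (vtx p 3)
          rw [segment_symm]
          exact (n1_side hp 3 x).2 ⟨hq, hje⟩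
        · refine ⟨2, ?_⟩
          change x ∈ segment ℝ (vtx p 1) (vtx p 0)
          rw [segment_symm]
          exact (n1_side hp 0 x).2 ⟨hq, hje⟩
        · exact ⟨1, (n1_side2 hp x).1 ⟨hq, hje, h0⟩⟩
        · exact ⟨4, (n1_side3 hp x).1 ⟨hq, hje, h0⟩⟩
      · rcases outer.1 ⟨hx, hR⟩ with h | h | h | h
        · have hr := (n1_real (a := 0) (b := 1) rfl rfl (by simp)).1 h
          rcases (n1_bottom hp hr.1).1 ⟨j, hj⟩ with h1 | h1
          · refine ⟨0, ?_⟩
            change x ∈ segment ℝ 0 (jt p 2)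
            exact (n1_real rfl j3 (by rw [Complex.zero_re]; linarith)).2 ⟨hr.1, hr.2.1, h1⟩
          · refine ⟨5, ?_⟩
            change x ∈ segment ℝ (jt p 3) 1
            exact (n1_real k3 rfl (by rw [Complex.one_re]; linarith)).2 ⟨hr.1, h1, hr.2.2⟩
        · exact ⟨6, h⟩
        · exact ⟨7, h⟩
        · exact ⟨8, h⟩
    · rintro ⟨i, hi⟩
      have key : ∀ y : ℂ, y ∈ Rc θ → y ∉ Ro θ → (∃ j, p.2 j ≤ dot y (nu p j)) →
          y ∈ Tb θ p \ {x | x ∈ Ro θ ∧ x ∉ Q p} := fun y h1 h2 h3 => ⟨⟨h1, h3⟩, fun h => h2 h.1⟩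
      have keyQ : ∀ y : ℂ, y ∈ Q p → 0 ≤ y.im → (∃ j, dot y (nu p j) = p.2 j) →
          y ∈ Tb θ p \ {x | x ∈ Ro θ ∧ x ∉ Q p} := fun y h1 h2 ⟨j, h3⟩ =>
        ⟨⟨hQbox h1 h2, j, h3.ge⟩, fun h => h.2 h1⟩
      have hout : ∀ y : ℂ, (y.re = 1 ∨ y.im = bb θ ∨ y.re = 0) → ∃ j, p.2 j ≤ dot y (nu p j) := by
        intro y hy
        have : y ∉ Q p := by
          intro hq
          obtain ⟨b1, b2⟩ := TMN.box2 hp hq
          rw [abs_lt] at b1 b2
          rcases hy with h | h | h <;> linarith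
        obtain ⟨j, hj⟩ := f1_notQ.1 this
        exact ⟨j, hj.le⟩
      rcases n1_nine i with rfl | rfl | rfl | rfl | rfl | rfl | rfl | rfl | rfl
      · have hi' : x ∈ segment ℝ 0 (jt p 2) := hi
        obtain ⟨h1, h2, h3⟩ := (n1_real rfl j3 (by rw [Complex.zero_re]; linarith)).1 hi'
        rw [Complex.zero_re] at h2
        exact key x ⟨h2, by linarith, h1.ge, by rw [h1]; exact hb0.le⟩
          (fun h => by have := h.2.2.1; linarith) ((n1_bottom hp h1).2 (Or.inl h3))
      · have hi' : x ∈ segment ℝ (jt p 2) (vtx p 1) := hi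
        obtain ⟨h1, h2, h3⟩ := (n1_side2 hp x).2 hi'
        exact keyQ x h1 h3 ⟨_, h2⟩
      · have hi' : x ∈ segment ℝ (vtx p 1) (vtx p 0) := hi
        rw [segment_symm] at hi'
        obtain ⟨h1, h2⟩ := (n1_side hp 0 x).1 hi'
        exact keyQ x h1 (n1_seg_im hi' hv0.le hv1.le) ⟨_, h2⟩
      · have hi' : x ∈ segment ℝ (vtx p 0) (vtx p 3) := hi
        rw [segment_symm] at hi'
        obtain ⟨h1, h2⟩ := (n1_side hp 3 x).1 hi'
        exact keyQ x h1 (n1_seg_im hi' hv3.le hv0.le) ⟨_, h2⟩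
      · have hi' : x ∈ segment ℝ (vtx p 3) (jt p 3) := hi
        obtain ⟨h1, h2, h3⟩ := (n1_side3 hp x).2 hi'
        exact keyQ x h1 h3 ⟨_, h2⟩
      · have hi' : x ∈ segment ℝ (jt p 3) 1 := hi
        obtain ⟨h1, h2, h3⟩ := (n1_real k3 rfl (by rw [Complex.one_re]; linarith)).1 hi'
        rw [Complex.one_re] at h3
        exact key x ⟨by linarith, h3, h1.ge, by rw [h1]; exact hb0.le⟩
          (fun h => by have := h.2.2.1; linarith) ((n1_bottom hp h1).2 (Or.inr h2))
      · have hi' : x ∈ segment ℝ (1 : ℂ) (1 + bb θ * Complex.I) := hi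
        obtain ⟨h1, h2⟩ := outer.2 (Or.inr (Or.inl hi'))
        refine key x h1 h2 (hout x (Or.inl ?_))
        obtain ⟨s, t, hs, ht, hst, rfl⟩ := hi'
        simp; linarith
      · have hi' : x ∈ segment ℝ (1 + bb θ * Complex.I) (bb θ * Complex.I) := hi
        obtain ⟨h1, h2⟩ := outer.2 (Or.inr (Or.inr (Or.inl hi')))
        refine key x h1 h2 (hout x (Or.inr (Or.inl ?_)))
        obtain ⟨s, t, hs, ht, hst, rfl⟩ := hi'
        simp
        rw [← add_mul, hst, one_mul]
      · have hi' : x ∈ segment ℝ (bb θ * Complex.I) (0 : ℂ) := hi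
        obtain ⟨h1, h2⟩ := outer.2 (Or.inr (Or.inr (Or.inr hi')))
        refine key x h1 h2 (hout x (Or.inr (Or.inr ?_)))
        obtain ⟨s, t, hs, ht, hst, rfl⟩ := hi'
        simp

end TMN
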