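import Pool.Agent.TMN.Base
import Pool.Agent.TMN.G1a
import Pool.Agent.TMN.G1b

/-!
-/

set_option autoImplicit false

open Set Filter Topology

namespace TMN

open TMX

/-! ## Affine functions on a segment -/

theorem F1b_comb_le {A B c t : ℝ} (hA : A ≤ c) (hB : B ≤ c) (h0 : 0 ≤ t) (h1 : t ≤ 1) :
    A + t * (B - A) ≤ c := by
  nlinarith [mul_nonneg h0 (sub_nonneg.mpr hB), mul_nonneg (sub_nonneg.mpr h1) (sub_nonneg.mpr hA)]

theorem F1b_comb_lt {A B c t : ℝ} (hA : A < c) (hB : B < c) (h0 : 0 ≤ t) (h1 : t ≤ 1) :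
    A + t * (B - A) < c := by
  rcases h0.lt_or_eq with h | h
  · nlinarith [mul_pos h (sub_pos.mpr hB), mul_nonneg (sub_nonneg.mpr h1) (sub_pos.mpr hA).le]
  · rw [← h]; linarith

theorem F1b_comb_ge {A B c t : ℝ} (hA : c ≤ A) (hB : c ≤ B) (h0 : 0 ≤ t) (h1 : t ≤ 1) :
    c ≤ A + t * (B - A) := by
  nlinarith [mul_nonneg h0 (sub_nonneg.mpr hB), mul_nonneg (sub_nonneg.mpr h1) (sub_nonneg.mpr hA)]

theorem F1b_comb_gt {A B c t : ℝ} (hA : c < A) (hB : c < B) (h0 : 0 ≤ t) (h1 : t ≤ 1) :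
    c < A + t * (B - A) := by
  rcases h0.lt_or_eq with h | h
  · nlinarith [mul_pos h (sub_pos.mpr hB), mul_nonneg (sub_nonneg.mpr h1) (sub_pos.mpr hA).le]
  · rw [← h]; linarith

/-- The affine function has the value `c` only at the second end point. -/
theorem F1b_comb_one {A B c t : ℝ} (hA : A ≠ c) (hB : B = c) (h : A + t * (B - A) = c) : t = 1 := by
  subst hB
  have h2 : (1 - t) * (A - B) = 0 := by linear_combination h
  rcases mul_eq_zero.mp h2 with h3 | h3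
  · linarith
  · exact absurd (sub_eq_zero.mp h3) hA

/-- The affine function has the value `c` only at the first end point. -/
theorem F1b_comb_zero {A B c t : ℝ} (hA : A = c) (hB : B ≠ c) (h : A + t * (B - A) = c) : t = 0 := by
  subst hA
  have h2 : t * (B - A) = 0 := by linear_combination h
  rcases mul_eq_zero.mp h2 with h3 | h3
  · exact h3
  · exact absurd (sub_eq_zero.mp h3) hB

theorem F1b_seg {a b x : ℂ} (hx : x ∈ segment ℝ a b) :
    ∃ t : ℝ, 0 ≤ t ∧ t ≤ 1 ∧ x = a + (t : ℂ) * (b - a) := by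
  rw [segment_eq_image'] at hx
  obtain ⟨t, ht, rfl⟩ := hx
  exact ⟨t, ht.1, ht.2, by simp only [Complex.real_smul]⟩

theorem F1b_re (a b : ℂ) (t : ℝ) : (a + (t : ℂ) * (b - a)).re = a.re + t * (b.re - a.re) := by
  simp

theorem F1b_im (a b : ℂ) (t : ℝ) : (a + (t : ℂ) * (b - a)).im = a.im + t * (b.im - a.im) := by
  simp

theorem F1b_dot (a b v : ℂ) (t : ℝ) :
    dot (a + (t : ℂ) * (b - a)) v = dot a v + t * (dot b v - dot a v) := by
  rw [dot_add_left, dot_mul_left, dot_sub_left]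

/-- The small box that contains the hole. -/
def F1b_box (x : ℂ) : Prop := |x.re - 1 / 4| < 1 / 50 ∧ |x.im| < 1 / 50

theorem F1b_box_seg {a b : ℂ} (ha : F1b_box a) (hb : F1b_box b) {t : ℝ} (h0 : 0 ≤ t) (h1 : t ≤ 1) :
    F1b_box (a + (t : ℂ) * (b - a)) := by
  obtain ⟨a1, a2⟩ := ha
  obtain ⟨b1, b2⟩ := hb
  rw [abs_lt] at a1 a2 b1 b2
  refine ⟨?_, ?_⟩
  · rw [F1b_re, abs_lt]
    have e1 := F1b_comb_gt (c := 1 / 4 - 1 / 50) (by linarith : 1 / 4 - 1 / 50 < a.re)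
      (by linarith : 1 / 4 - 1 / 50 < b.re) h0 h1
    have e2 := F1b_comb_lt (c := 1 / 4 + 1 / 50) (by linarith : a.re < 1 / 4 + 1 / 50)
      (by linarith : b.re < 1 / 4 + 1 / 50) h0 h1
    constructor <;> linarith
  · rw [F1b_im, abs_lt]
    exact ⟨F1b_comb_gt a2.1 b2.1 h0 h1, F1b_comb_lt a2.2 b2.2 h0 h1⟩

/-! ## The four inner sides -/

/-- Facts about the points of the side `2` above the wall. -/
theorem F1b_side2 {p : Par} (hp : p ∈ Pi1) {x : ℂ} (hx : x ∈ segment ℝ (jt p 2) (vtx p 1)) :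
    F1b_box x ∧ (x.im = 0 → x = jt p 2) ∧ (dot x (nu p 1) = p.2 1 → x = vtx p 1) ∧
      dot x (nu p 0) < p.2 0 ∧ dot x (nu p 3) < p.2 3 := by
  obtain ⟨t, h0, h1, rfl⟩ := F1b_seg hx
  obtain ⟨j1, j2, j3, j4⟩ := TMN.jt_facts hp (k := 2) (Or.inl rfl)
  have hpos := hp.2.2.1
  refine ⟨F1b_box_seg (TMN.box2 hp j4) (hp.2.2.2.1 1) h0 h1, fun h => ?_, fun h => ?_, ?_, ?_⟩
  · rw [F1b_im] at h
    rw [F1b_comb_zero j3 (ne_of_gt hp.2.2.2.2.2.1) h]; simp
  · rw [F1b_dot] at h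
    rw [F1b_comb_one (ne_of_lt (j2 1 (by decide))) (dot_vtx_self p 1) h]; simp
  · rw [F1b_dot]
    have h3 : dot (vtx p 1) (nu p 0) = -p.2 2 := dot_vtx_three p 1
    have h4 : 0 < p.2 0 + p.2 2 := hpos 0
    exact F1b_comb_lt (j2 0 (by decide)) (by rw [h3]; linarith) h0 h1
  · rw [F1b_dot]
    have h3 : dot (vtx p 1) (nu p 3) = -p.2 1 := dot_vtx_two p 1
    have h4 : 0 < p.2 1 + p.2 3 := hpos 1
    exact F1b_comb_lt (j2 3 (by decide)) (by rw [h3]; linarith) h0 h1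

/-- Facts about the points of the side `1`. -/
theorem F1b_side1 {p : Par} (hp : p ∈ Pi1) {x : ℂ} (hx : x ∈ segment ℝ (vtx p 1) (vtx p 0)) :
    F1b_box x ∧ 0 < x.im ∧ dot x (nu p 1) = p.2 1 ∧ (dot x (nu p 0) = p.2 0 → x = vtx p 0) ∧
      dot x (nu p 3) < p.2 3 := by
  obtain ⟨t, h0, h1, rfl⟩ := F1b_seg hx
  obtain ⟨s1, s2, s3, s4, s5, s6, s7, s8, s9, s10⟩ := TMN.signs hp
  have hpos := hp.2.2.1
  refine ⟨F1b_box_seg (hp.2.2.2.1 1) (hp.2.2.2.1 0) h0 h1, ?_, ?_, fun h => ?_, ?_⟩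
  · rw [F1b_im]; exact F1b_comb_gt hp.2.2.2.2.2.1 s7 h0 h1
  · have h3 : dot (vtx p 0) (nu p 1) = p.2 1 := dot_vtx_succ p 0
    rw [F1b_dot, dot_vtx_self, h3]; ring
  · rw [F1b_dot] at h
    have h3 : dot (vtx p 1) (nu p 0) = -p.2 2 := dot_vtx_three p 1
    have h4 : 0 < p.2 0 + p.2 2 := hpos 0
    rw [F1b_comb_one (by rw [h3]; intro h5; linarith) (dot_vtx_self p 0) h]; simp
  · rw [F1b_dot]
    have h3 : dot (vtx p 1) (nu p 3) = -p.2 1 := dot_vtx_two p 1
    have h4 : dot (vtx p 0) (nu p 3) = -p.2 1 := dot_vtx_three p 0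
    have h5 : 0 < p.2 1 + p.2 3 := hpos 1
    exact F1b_comb_lt (by rw [h3]; linarith) (by rw [h4]; linarith) h0 h1

/-- Facts about the points of the side `0`. -/
theorem F1b_side0 {p : Par} (hp : p ∈ Pi1) {x : ℂ} (hx : x ∈ segment ℝ (vtx p 0) (vtx p 3)) :
    F1b_box x ∧ 0 < x.im ∧ dot x (nu p 0) = p.2 0 ∧ (dot x (nu p 3) = p.2 3 → x = vtx p 3) := by
  obtain ⟨t, h0, h1, rfl⟩ := F1b_seg hx
  obtain ⟨s1, s2, s3, s4, s5, s6, s7, s8, s9, s10⟩ := TMN.signs hp
  have hpos := hp.2.2.1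
  refine ⟨F1b_box_seg (hp.2.2.2.1 0) (hp.2.2.2.1 3) h0 h1, ?_, ?_, fun h => ?_⟩
  · rw [F1b_im]; exact F1b_comb_gt s7 hp.2.2.2.2.2.2.1 h0 h1
  · have h3 : dot (vtx p 3) (nu p 0) = p.2 0 := dot_vtx_succ p 3
    rw [F1b_dot, dot_vtx_self, h3]; ring
  · rw [F1b_dot] at h
    have h4 : dot (vtx p 0) (nu p 3) = -p.2 1 := dot_vtx_three p 0
    have h5 : 0 < p.2 1 + p.2 3 := hpos 1
    rw [F1b_comb_one (by rw [h4]; intro h6; linarith) (dot_vtx_self p 3) h]; simp

/-- Facts about the points of the side `3` above the wall. -/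
theorem F1b_side3 {p : Par} (hp : p ∈ Pi1) {x : ℂ} (hx : x ∈ segment ℝ (vtx p 3) (jt p 3)) :
    F1b_box x ∧ (x.im = 0 → x = jt p 3) ∧ dot x (nu p 3) = p.2 3 ∧ dot x (nu p 1) < p.2 1 := by
  obtain ⟨t, h0, h1, rfl⟩ := F1b_seg hx
  obtain ⟨j1, j2, j3, j4⟩ := TMN.jt_facts hp (k := 3) (Or.inr rfl)
  have hpos := hp.2.2.1
  refine ⟨F1b_box_seg (hp.2.2.2.1 3) (TMN.box2 hp j4) h0 h1, fun h => ?_, ?_, ?_⟩
  · rw [F1b_im] at h
    rw [F1b_comb_one (ne_of_gt hp.2.2.2.2.2.2.1) j3 h]; simp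
  · rw [F1b_dot, dot_vtx_self, j1]; ring
  · rw [F1b_dot]
    have h3 : dot (vtx p 3) (nu p 1) = -p.2 3 := dot_vtx_two p 3
    have h4 : 0 < p.2 1 + p.2 3 := hpos 1
    exact F1b_comb_lt (by rw [h3]; linarith) (j2 1 (by decide)) h0 h1

/-! ## The nine sides -/

/-- Facts about the points of the nine sides. -/
def F1b_E (θ : ℝ) (p : Par) : Fin 9 → ℂ → Prop := ![
  fun x => x.im = 0 ∧ 0 ≤ x.re ∧ x.re ≤ (jt p 2).re,
  fun x => F1b_box x ∧ (x.im = 0 → x = jt p 2) ∧ (dot x (nu p 1) = p.2 1 → x = vtx p 1) ∧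
      dot x (nu p 0) < p.2 0 ∧ dot x (nu p 3) < p.2 3,
  fun x => F1b_box x ∧ 0 < x.im ∧ dot x (nu p 1) = p.2 1 ∧ (dot x (nu p 0) = p.2 0 → x = vtx p 0) ∧
      dot x (nu p 3) < p.2 3,
  fun x => F1b_box x ∧ 0 < x.im ∧ dot x (nu p 0) = p.2 0 ∧ (dot x (nu p 3) = p.2 3 → x = vtx p 3),
  fun x => F1b_box x ∧ (x.im = 0 → x = jt p 3) ∧ dot x (nu p 3) = p.2 3 ∧ dot x (nu p 1) < p.2 1,
  fun x => x.im = 0 ∧ (jt p 3).re ≤ x.re,
  fun x => x.re = 1,
  fun x => x.im = bb θ,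
  fun x => x.re = 0]

theorem F1b_edge {θ : ℝ} {p : Par} (hp : p ∈ Pi1) (i : Fin 9)
    {x : ℂ} (hx : x ∈ segment ℝ (vx θ p i) (vx θ p (i + 1))) : F1b_E θ p i x := by
  obtain ⟨a1, a2, a3, a4⟩ := TMN.jt_facts hp (k := 2) (Or.inl rfl)
  obtain ⟨c1, c2, c3, c4⟩ := TMN.jt_facts hp (k := 3) (Or.inr rfl)
  have ba := (TMN.box2 hp a4).1
  have bc := (TMN.box2 hp c4).1
  rw [abs_lt] at ba bc
  fin_cases i
  · have hx' : x ∈ segment ℝ (0 : ℂ) (jt p 2) := hx
    obtain ⟨t, h0, h1, rfl⟩ := F1b_seg hx'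
    refine ⟨?_, ?_, ?_⟩
    · rw [F1b_im, a3]; simp
    · rw [F1b_re]; exact F1b_comb_ge (by simp) (by linarith) h0 h1
    · rw [F1b_re]; exact F1b_comb_le (by simp only [Complex.zero_re]; linarith) le_rfl h0 h1
  · exact F1b_side2 hp hx
  · exact F1b_side1 hp hx
  · exact F1b_side0 hp hx
  · exact F1b_side3 hp hx
  · have hx' : x ∈ segment ℝ (jt p 3) (1 : ℂ) := hx
    obtain ⟨t, h0, h1, rfl⟩ := F1b_seg hx'
    refine ⟨?_, ?_⟩
    · rw [F1b_im, c3]; simp
    · rw [F1b_re]; exact F1b_comb_ge le_rfl (by simp only [Complex.one_re]; linarith) h0 h1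
  · have hx' : x ∈ segment ℝ (1 : ℂ) (1 + bb θ * Complex.I) := hx
    obtain ⟨t, h0, h1, rfl⟩ := F1b_seg hx'
    change (_ : ℂ).re = 1
    rw [F1b_re]; simp
  · have hx' : x ∈ segment ℝ (1 + bb θ * Complex.I : ℂ) (bb θ * Complex.I) := hx
    obtain ⟨t, h0, h1, rfl⟩ := F1b_seg hx'
    change (_ : ℂ).im = bb θ
    rw [F1b_im]; simp
  · have hx' : x ∈ segment ℝ (bb θ * Complex.I : ℂ) 0 := hx
    obtain ⟨t, h0, h1, rfl⟩ := F1b_seg hx'
    change (_ : ℂ).re = 0
    rw [F1b_re]; simp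

/-- Inner sides and outer sides do not meet. -/
theorem F1b_box_out {θ : ℝ} (hb : 3 / 4 < bb θ) {x : ℂ} (h : F1b_box x) :
    x.re ≠ 1 ∧ x.im ≠ bb θ ∧ x.re ≠ 0 := by
  obtain ⟨h1, h2⟩ := h
  rw [abs_lt] at h1 h2
  refine ⟨fun h => ?_, fun h => ?_, fun h => ?_⟩ <;> linarith

theorem F1b_pair {θ : ℝ} (hb : 3 / 4 < bb θ) {p : Par} (hp : p ∈ Pi1) (i j : Fin 9) (hij : i < j)
    {x : ℂ} (hi : F1b_E θ p i x) (hj : F1b_E θ p j x) :
    (j = i + 1 ∧ x = vx θ p j) ∨ (i = j + 1 ∧ x = vx θ p i) := by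
  obtain ⟨s1, s2, s3, s4, s5, s6, s7, s8, s9, s10⟩ := TMN.signs hp
  obtain ⟨a1, a2, a3, a4⟩ := TMN.jt_facts hp (k := 2) (Or.inl rfl)
  obtain ⟨c1, c2, c3, c4⟩ := TMN.jt_facts hp (k := 3) (Or.inr rfl)
  have ba := (TMN.box2 hp a4).1
  have bc := (TMN.box2 hp c4).1
  rw [abs_lt] at ba bc
  fin_cases i
  · obtain ⟨u1, u2, u3⟩ := hi
    fin_cases j
    · exact absurd hij (by decide)
    · exact Or.inl ⟨rfl, hj.2.1 u1⟩
    · exact absurd hj.2.1 (by rw [u1]; exact lt_irrefl _)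
    · exact absurd hj.2.1 (by rw [u1]; exact lt_irrefl _)
    · have h1 := hj.2.1 u1
      rw [h1] at u3
      exact absurd u3 (not_le.mpr s9)
    · exact absurd (lt_of_lt_of_le s9 hj.2) (not_lt.mpr u3)
    · have h1 : x.re = 1 := hj
      exact absurd u3 (by rw [h1]; intro h2; linarith)
    · have h1 : x.im = bb θ := hj
      exact absurd (h1.symm.trans u1) (by intro h2; linarith)
    · have h1 : x.re = 0 := hj
      refine Or.inr ⟨rfl, ?_⟩
      change x = 0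
      apply Complex.ext
      · rw [h1]; rfl
      · rw [u1]; rfl
  · obtain ⟨u1, u2, u3, u4, u5⟩ := hi
    obtain ⟨o1, o2, o3⟩ := F1b_box_out hb u1
    fin_cases j
    · exact absurd hij (by decide)
    · exact absurd hij (by decide)
    · exact Or.inl ⟨rfl, u3 hj.2.2.1⟩
    · exact absurd hj.2.2.1 (ne_of_lt u4)
    · exact absurd hj.2.2.1 (ne_of_lt u5)
    · have h1 := u2 hj.1
      have h2 : (jt p 3).re ≤ x.re := hj.2
      rw [h1] at h2
      exact absurd h2 (not_le.mpr s9)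
    · exact absurd hj o1
    · exact absurd hj o2
    · exact absurd hj o3
  · obtain ⟨u1, u2, u3, u4, u5⟩ := hi
    obtain ⟨o1, o2, o3⟩ := F1b_box_out hb u1
    fin_cases j
    · exact absurd hij (by decide)
    · exact absurd hij (by decide)
    · exact absurd hij (by decide)
    · exact Or.inl ⟨rfl, u4 hj.2.2.1⟩
    · exact absurd hj.2.2.1 (ne_of_lt u5)
    · exact absurd hj.1 (ne_of_gt u2)
    · exact absurd hj o1
    · exact absurd hj o2
    · exact absurd hj o3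
  · obtain ⟨u1, u2, u3, u4⟩ := hi
    obtain ⟨o1, o2, o3⟩ := F1b_box_out hb u1
    fin_cases j
    · exact absurd hij (by decide)
    · exact absurd hij (by decide)
    · exact absurd hij (by decide)
    · exact absurd hij (by decide)
    · exact Or.inl ⟨rfl, u4 hj.2.2.1⟩
    · exact absurd hj.1 (ne_of_gt u2)
    · exact absurd hj o1
    · exact absurd hj o2
    · exact absurd hj o3
  · obtain ⟨u1, u2, u3, u4⟩ := hi
    obtain ⟨o1, o2, o3⟩ := F1b_box_out hb u1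
    fin_cases j
    · exact absurd hij (by decide)
    · exact absurd hij (by decide)
    · exact absurd hij (by decide)
    · exact absurd hij (by decide)
    · exact absurd hij (by decide)
    · exact Or.inl ⟨rfl, u2 hj.1⟩
    · exact absurd hj o1
    · exact absurd hj o2
    · exact absurd hj o3
  · obtain ⟨u1, u2⟩ := hi
    fin_cases j
    · exact absurd hij (by decide)
    · exact absurd hij (by decide)
    · exact absurd hij (by decide)
    · exact absurd hij (by decide)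
    · exact absurd hij (by decide)
    · exact absurd hij (by decide)
    · have h1 : x.re = 1 := hj
      refine Or.inl ⟨rfl, ?_⟩
      change x = 1
      apply Complex.ext
      · rw [h1]; rfl
      · rw [u1]; rfl
    · have h1 : x.im = bb θ := hj
      exact absurd (h1.symm.trans u1) (by intro h2; linarith)
    · have h1 : x.re = 0 := hj
      rw [h1] at u2
      exact absurd u2 (not_le.mpr (by linarith))
  · have u1 : x.re = 1 := hi
    fin_cases j
    · exact absurd hij (by decide)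
    · exact absurd hij (by decide)
    · exact absurd hij (by decide)
    · exact absurd hij (by decide)
    · exact absurd hij (by decide)
    · exact absurd hij (by decide)
    · exact absurd hij (by decide)
    · have h1 : x.im = bb θ := hj
      refine Or.inl ⟨rfl, ?_⟩
      change x = 1 + bb θ * Complex.I
      apply Complex.ext
      · rw [u1]; simp
      · rw [h1]; simp
    · have h1 : x.re = 0 := hj
      rw [u1] at h1
      exact absurd h1 one_ne_zero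
  · have u1 : x.im = bb θ := hi
    fin_cases j
    · exact absurd hij (by decide)
    · exact absurd hij (by decide)
    · exact absurd hij (by decide)
    · exact absurd hij (by decide)
    · exact absurd hij (by decide)
    · exact absurd hij (by decide)
    · exact absurd hij (by decide)
    · exact absurd hij (by decide)
    · have h1 : x.re = 0 := hj
      refine Or.inl ⟨rfl, ?_⟩
      change x = bb θ * Complex.I
      apply Complex.ext
      · rw [h1]; simp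
      · rw [u1]; simp
  · exact absurd hij (not_lt.mpr (Fin.le_last j))

theorem simple2 {θ : ℝ} (hθ : |θ - Real.pi / 4| < 1 / 100) {p : Par} (hp : p ∈ Pi1) :
    Simple (vx θ p) := by
  have hb := G1_tan hθ
  intro i j x hi hj
  have ei := F1b_edge hp i hi
  have ej := F1b_edge hp j hj
  rcases lt_trichotomy i j with h | h | h
  · exact Or.inr (F1b_pair hb hp i j h ei ej)
  · exact Or.inl h
  · rcases F1b_pair hb hp j i h ej ei with h2 | h2
    · exact Or.inr (Or.inr h2)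
    · exact Or.inr (Or.inl h2)

end TMN
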