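import Pool.Agent.TMN.Base
import Pool.Agent.TMN.F1
import Pool.Agent.TMN.G1a
import Pool.Agent.TMN.G1b

/-! # TMN F2a: billiard orbits follow free segments -/

set_option autoImplicit false

open Set Filter Topology

namespace TMN

open TMX

private theorem N2a_vQ {p : Par} (hp : p ∈ Pi1) (i : Fin 4) : vtx p i ∈ Q p := by
  intro j
  have hj : j = i ∨ j = i + 1 ∨ j = i + 2 ∨ j = i + 3 := by
    clear hp
    revert j i; decide
  rcases hj with rfl | rfl | rfl | rfl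
  · rw [dot_vtx_self]
  · rw [dot_vtx_succ]
  · rw [dot_vtx_two]
    have := hp.2.2.1 i; linarith
  · rw [dot_vtx_three]
    have h1 := hp.2.2.1 (i + 1)
    have e : i + 1 + 2 = i + 3 := by rw [add_assoc]; rfl
    rw [e] at h1; linarith

private theorem N2a_cases : ∀ i : Fin 9, i = 1 ∨ i = 2 ∨ i = 3 ∨ i = 4 ∨
    (i = 0 ∨ i = 5 ∨ i = 6 ∨ i = 7 ∨ i = 8) := by
  decide

/-- pieces of the bottom wall -/
private theorem N2a_bot {θ : ℝ} (hb : 0 < bb θ) (p : Par) {A B : ℝ} (hA : 0 ≤ A) (hAB : A < B)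
    (hB : B ≤ 1) {y : ℂ} (hy : y ∈ openSegment ℝ (A : ℂ) (B : ℂ)) :
    ∃ e : Cp, frm θ e y = y ∧
      (∀ α : BIL.Ang, BIL.dir ((2 : ℕ) • BIL.ang ((B : ℂ) - (A : ℂ)) - α) =
        act e.1 (BIL.dir α)) ∧
      ∀ u : ℂ, (∃ r₀ > 0, ∀ r ∈ Ioo (0 : ℝ) r₀, y - r * u ∈ Rc θ ∧
        y - r * u ∉ segment ℝ (A : ℂ) (B : ℂ)) →
        ∀ᶠ r : ℝ in 𝓝[>] (0 : ℝ), y + r * act e.1 u ∈ Rc θ := by
  obtain ⟨a, b, ha, hb', hab, hy0⟩ := hy
  have hyre : y.re = a * A + b * B := by rw [← hy0]; simp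
  have hyim : y.im = 0 := by rw [← hy0]; simp
  have hA1 : A < y.re := by
    rw [hyre]
    have : a = 1 - b := by linarith
    rw [this]; nlinarith
  have hB1 : y.re < B := by
    rw [hyre]
    have : b = 1 - a := by linarith
    rw [this]; nlinarith
  have hy1 : y ∈ openSegment ℝ (sa θ p 0) (sb θ p 0) := by
    have ea : sa θ p 0 = 0 := rfl
    have eb : sb θ p 0 = 1 := rfl
    rw [ea, eb]
    refine ⟨1 - y.re, y.re, by linarith, by linarith, by ring, ?_⟩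
    apply Complex.ext
    · simp
    · simp [hyim]
  obtain ⟨e, he1, he2, he3⟩ := F2a_side hb p 0 (by decide) hy1
  refine ⟨e, he1, fun α => ?_, fun u hu => he3 u ?_⟩
  · rw [← he2 α]
    have ea : sa θ p 0 = 0 := rfl
    have eb : sb θ p 0 = 1 := rfl
    rw [ea, eb]
    rw [F2a_re (v := (B : ℂ) - (A : ℂ)) (by simp) (by simp; linarith), F2a_re (by simp) (by simp)]
  · obtain ⟨r₀, hr₀, hu⟩ := hu
    have hc : Tendsto (fun r : ℝ => y.re - r * u.re) (𝓝[>] (0 : ℝ)) (𝓝 y.re) := by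
      have hc : Continuous fun r : ℝ => y.re - r * u.re := by fun_prop
      have := hc.tendsto 0
      simp only [zero_mul, sub_zero] at this
      exact this.mono_left nhdsWithin_le_nhds
    obtain ⟨r₁, hr₁, hsub⟩ := mem_nhdsGT_iff_exists_Ioo_subset.1
      ((hc.eventually_const_lt hA1).and (hc.eventually_lt_const hB1))
    rw [mem_Ioi] at hr₁
    refine ⟨min r₀ r₁, lt_min hr₀ hr₁, fun r hr => ?_⟩
    have h1 := hu r ⟨hr.1, hr.2.trans_le (min_le_left _ _)⟩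
    have h2 := hsub (show r ∈ Ioo 0 r₁ from ⟨hr.1, hr.2.trans_le (min_le_right _ _)⟩)
    refine ⟨h1.1, fun h3 => h1.2 ?_⟩
    have ea : sa θ p 0 = 0 := rfl
    have eb : sb θ p 0 = 1 := rfl
    rw [ea, eb] at h3
    have him : (y - r * u).im = 0 := by
      obtain ⟨a', b', -, -, -, h4⟩ := h3
      rw [← h4]; simp
    have hre : (y - r * u).re = y.re - r * u.re := by simp
    have h5 : A < (y - r * u).re := by rw [hre]; exact h2.1
    have h6 : (y - r * u).re < B := by rw [hre]; exact h2.2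
    have hBA : 0 < B - A := by linarith
    refine ⟨(B - (y - r * u).re) / (B - A), ((y - r * u).re - A) / (B - A),
      div_nonneg (by linarith) hBA.le, div_nonneg (by linarith) hBA.le, ?_, ?_⟩
    · rw [← add_div, div_eq_one_iff_eq hBA.ne']; ring
    · generalize y - r * u = x at him
      apply Complex.ext
      · simp only [Complex.real_smul, Complex.add_re, Complex.mul_re, Complex.ofReal_re,
          Complex.ofReal_im, mul_zero, sub_zero]
        field_simp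
        ring
      · simp only [Complex.real_smul, Complex.add_im, Complex.mul_im, Complex.ofReal_re,
          Complex.ofReal_im, him]
        ring

private theorem N2a_side {θ : ℝ} (hb : 0 < bb θ) {p : Par} (hp : p ∈ Pi1) (i : Fin 9)
    (hi : i = 0 ∨ i = 5 ∨ i = 6 ∨ i = 7 ∨ i = 8) {y : ℂ}
    (hy : y ∈ openSegment ℝ (vx θ p i) (vx θ p (i + 1))) :
    ∃ e : Cp, frm θ e y = y ∧
      (∀ α : BIL.Ang, BIL.dir ((2 : ℕ) • BIL.ang (vx θ p (i + 1) - vx θ p i) - α) =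
        act e.1 (BIL.dir α)) ∧
      ∀ u : ℂ, (∃ r₀ > 0, ∀ r ∈ Ioo (0 : ℝ) r₀, y - r * u ∈ Rc θ ∧
        y - r * u ∉ segment ℝ (vx θ p i) (vx θ p (i + 1))) →
        ∀ᶠ r : ℝ in 𝓝[>] (0 : ℝ), y + r * act e.1 u ∈ Rc θ := by
  rcases hi with rfl | rfl | rfl | rfl | rfl
  · have h1 := abs_lt.1 (TMN.box2 hp (TMN.jt_facts hp (Or.inl rfl : (2 : Fin 4) = 2 ∨ _)).2.2.2).1
    have ea : vx θ p 0 = ((0 : ℝ) : ℂ) := (Complex.ofReal_zero).symm
    have eb : vx θ p (0 + 1) = ((p.2 2 / (nu p 2).re : ℝ) : ℂ) := rfl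
    have ej : (jt p 2).re = p.2 2 / (nu p 2).re := Complex.ofReal_re _
    rw [ej] at h1
    rw [ea, eb] at hy ⊢
    exact N2a_bot hb p le_rfl (by linarith) (by linarith) hy
  · have h1 := abs_lt.1 (TMN.box2 hp (TMN.jt_facts hp (Or.inr rfl : (3 : Fin 4) = 2 ∨ _)).2.2.2).1
    have ea : vx θ p 5 = ((p.2 3 / (nu p 3).re : ℝ) : ℂ) := rfl
    have eb : vx θ p (5 + 1) = ((1 : ℝ) : ℂ) := (Complex.ofReal_one).symm
    have ej : (jt p 3).re = p.2 3 / (nu p 3).re := Complex.ofReal_re _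
    rw [ej] at h1
    rw [ea, eb] at hy ⊢
    exact N2a_bot hb p (by linarith) (by linarith) le_rfl hy
  · exact F2a_side hb p 1 (by decide) hy
  · exact F2a_side hb p 2 (by decide) hy
  · exact F2a_side hb p 3 (by decide) hy

section

variable {θ : ℝ} {p : Par} {γ : ℝ → ℂ × BIL.Ang}
  (hγ : BIL.IsOrbit (Tb θ p) (vx θ p) (fun i => vx θ p (i + 1)) γ)

include hγ

/-- the frontier times are isolated -/
private theorem N2a_iso (T : ℝ) : ∃ ε > 0, ∀ τ : ℝ, |τ - T| < ε → τ ≠ T →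
    (γ τ).1 ∉ frontier (Tb θ p) := by
  have hf : ({τ | τ ∈ Icc (T - 1) (T + 1) ∧ (γ τ).1 ∈ frontier (Tb θ p)} \ {T}).Finite :=
    (hγ.finite (T - 1) (T + 1)).subset fun τ hτ => hτ.1
  have h1 : ({τ | τ ∈ Icc (T - 1) (T + 1) ∧ (γ τ).1 ∈ frontier (Tb θ p)} \ {T})ᶜ ∈ 𝓝 T :=
    hf.isClosed.isOpen_compl.mem_nhds fun h => h.2 rfl
  obtain ⟨ε, hε, h2⟩ := Metric.mem_nhds_iff.1 h1
  refine ⟨min ε 1, lt_min hε one_pos, fun τ hτ hne hfr => ?_⟩
  have h3 : τ ∈ Metric.ball T ε := by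
    rw [Metric.mem_ball, Real.dist_eq]
    exact hτ.trans_le (min_le_left _ _)
  have h4 := abs_lt.1 (hτ.trans_le (min_le_right _ _))
  exact h2 h3 ⟨⟨⟨by linarith, by linarith⟩, hfr⟩, hne⟩

private theorem N2a_right {x w : ℂ} {T : ℝ} (h : Rel θ (γ T) (x, w)) :
    ∃ ε > 0, ∀ r : ℝ, 0 ≤ r → r < ε → Rel θ (γ (T + r)) (x + r * w, w) := by
  obtain ⟨c, h1, h2, h3⟩ := h
  obtain ⟨ε₁, hε₁, h4⟩ := N2a_iso hγ T
  obtain ⟨ε₂, hε₂, h5⟩ := (mem_nhdsGT_iff_exists_Ioo_subset).1 h3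
  rw [mem_Ioi] at hε₂
  refine ⟨min ε₁ ε₂, lt_min hε₁ hε₂, fun r hr0 hr => ?_⟩
  have hr1 := hr.trans_le (min_le_left _ _)
  have hr2 := hr.trans_le (min_le_right _ _)
  have h6 := hγ.free T (T + r) (by linarith) fun τ hτ => h4 τ
    (abs_lt.2 ⟨by linarith [hτ.1], by linarith [hτ.2]⟩) hτ.1.ne'
  refine ⟨c, ?_, ?_, ?_⟩
  · show (γ (T + r)).1 = frm θ c (x + r * w)
    rw [h6.2, h1, h2, frm_ray]
    push_cast
    ring
  · show BIL.dir (γ (T + r)).2 = act c.1 w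
    rw [h6.1]
    exact h2
  · show ∀ᶠ s : ℝ in 𝓝[>] (0 : ℝ), frm θ c (x + r * w + s * w) ∈ Rc θ
    filter_upwards [Ioo_mem_nhdsGT (by linarith : (0 : ℝ) < ε₂ - r)] with s hs
    have h7 := h5 (show r + s ∈ Ioo 0 ε₂ from ⟨by linarith [hs.1], by linarith [hs.2]⟩)
    have h8 : x + r * w + s * w = x + ((r + s : ℝ) : ℂ) * w := by push_cast; ring
    rw [h8]
    exact h7

private theorem N2a_left (hθ : |θ - Real.pi / 4| < 1 / 100) (hp : p ∈ Pi1) {x w : ℂ} {T ε : ℝ}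
    (hε : 0 < ε) (h : ∀ r : ℝ, 0 < r → r < ε → Rel θ (γ (T - r)) (x - r * w, w))
    (hx : Fre θ p x) : Rel θ (γ T) (x, w) := by
  obtain ⟨ε₁, hε₁, h4⟩ := N2a_iso hγ T
  set r₁ := min ε ε₁ / 2 with hr₁
  have hm : 0 < min ε ε₁ := lt_min hε hε₁
  have hr0 : 0 < r₁ := half_pos hm
  have hrε : r₁ < ε := by
    have := min_le_left ε ε₁
    rw [hr₁]; linarith
  have hrε₁ : r₁ < ε₁ := by
    have := min_le_right ε ε₁
    rw [hr₁]; linarith
  obtain ⟨c, h1, h2, -⟩ := h r₁ hr0 hrε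
  change (γ (T - r₁)).1 = frm θ c (x - r₁ * w) at h1
  change BIL.dir (γ (T - r₁)).2 = act c.1 w at h2
  set y := frm θ c x with hy
  set u := act c.1 w with hu
  have hfr : ∀ v : ℂ, ∀ r : ℝ, frm θ c (x + r * w) = y + r * u := fun _ r => frm_ray θ c x w r
  have h1' : (γ (T - r₁)).1 = y - r₁ * u := by
    have e : x - r₁ * w = x + ((-r₁ : ℝ) : ℂ) * w := by push_cast; ring
    rw [h1, e, frm_ray]
    push_cast
    ring
  have hnf : ∀ τ, T - r₁ < τ → τ < T → (γ τ).1 ∉ frontier (Tb θ p) := fun τ ha hb =>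
    h4 τ (abs_lt.2 ⟨by linarith, by linarith⟩) hb.ne
  have hpos : ∀ r : ℝ, 0 < r → r ≤ r₁ → (γ (T - r)).1 = y - r * u ∧
      (γ (T - r)).2 = (γ (T - r₁)).2 := by
    intro r ha hb
    have h5 := hγ.free (T - r₁) (T - r) (by linarith) fun τ hτ =>
      hnf τ hτ.1 (by linarith [hτ.2])
    refine ⟨?_, h5.1⟩
    rw [h5.2, h1', h2]
    push_cast
    ring
  have hlim : (γ T).1 = y := by
    have ht1 : Tendsto (fun r : ℝ => (γ (T - r)).1) (𝓝[>] 0) (𝓝 (γ T).1) := by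
      have hc : ContinuousAt (fun r : ℝ => (γ (T - r)).1) 0 :=
        (hγ.cont.comp (continuous_const.sub continuous_id)).continuousAt
      have := hc.tendsto
      simp only [sub_zero] at this
      exact this.mono_left nhdsWithin_le_nhds
    have ht2 : Tendsto (fun r : ℝ => y - (r : ℂ) * u) (𝓝[>] 0) (𝓝 y) := by
      have hc : ContinuousAt (fun r : ℝ => y - (r : ℂ) * u) 0 := by fun_prop
      have := hc.tendsto
      simp only [Complex.ofReal_zero, zero_mul, sub_zero] at this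
      exact this.mono_left nhdsWithin_le_nhds
    refine tendsto_nhds_unique ht1 (ht2.congr' ?_)
    filter_upwards [Ioo_mem_nhdsGT hr0] with r hr
    exact (hpos r hr.1 hr.2.le).1.symm
  have hRc : ∀ z ∈ Tb θ p, z ∈ Rc θ := fun z hz => hz.1
  by_cases hF : (γ T).1 ∈ frontier (Tb θ p)
  · obtain ⟨i, hi1, -, ε₃, hε₃, hi3⟩ := hγ.refl T hF
    rw [hlim] at hi1
    have hi4 : i = 0 ∨ i = 5 ∨ i = 6 ∨ i = 7 ∨ i = 8 := by
      have j2 : jt p 2 ∈ Q p := (TMN.jt_facts hp (Or.inl rfl)).2.2.2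
      have j3 : jt p 3 ∈ Q p := (TMN.jt_facts hp (Or.inr rfl)).2.2.2
      rcases N2a_cases i with h | h | h | h | h
      · subst h
        exact absurd (F2a_seg j2 (N2a_vQ hp 1) hi1) (hx c)
      · subst h
        exact absurd (F2a_seg (N2a_vQ hp 1) (N2a_vQ hp 0) hi1) (hx c)
      · subst h
        exact absurd (F2a_seg (N2a_vQ hp 0) (N2a_vQ hp 3) hi1) (hx c)
      · subst h
        exact absurd (F2a_seg (N2a_vQ hp 3) j3 hi1) (hx c)
      · exact h
    obtain ⟨e, he1, he2, he3⟩ := N2a_side (F2a_bb hθ) hp i hi4 hi1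
    have he4 := he3 u ⟨r₁, hr0, fun r hr => by
      have h6 := hpos r hr.1 hr.2.le
      have h7 : (γ (T - r)).1 ∉ frontier (Tb θ p) := hnf _ (by linarith [hr.2]) (by linarith [hr.1])
      rw [h6.1] at h7
      refine ⟨?_, fun h8 => h7 ?_⟩
      · rw [← h6.1]
        exact hRc _ (hγ.mem _)
      · rw [(TMN.polygon2 hθ hp).frontier_eq]
        exact mem_iUnion.2 ⟨i, h8⟩⟩
    have h8 : (γ T).2 = (2 : ℕ) • BIL.ang (vx θ p (i + 1) - vx θ p i) - (γ (T - r₁)).2 := by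
      set r := min r₁ (ε₃ / 2) with hr
      have hr2 : 0 < r := lt_min hr0 (half_pos hε₃)
      have hr3 : r ≤ r₁ := min_le_left _ _
      have hr4 : r ≤ ε₃ / 2 := min_le_right _ _
      have h9 := hi3 (T - r) ⟨by linarith, by linarith⟩
      rw [h9, (hpos r hr2 hr3).2]
    refine ⟨TMX.cmp c e, ?_, ?_, ?_⟩
    · show (γ T).1 = frm θ (TMX.cmp c e) x
      rw [← frm_frm, hlim, ← hy, he1]
    · show BIL.dir (γ T).2 = act (TMX.cmp c e).1 w
      rw [h8, he2, h2, hu, act_act, mul_comm e.1 c.1]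
      rfl
    · show ∀ᶠ s : ℝ in 𝓝[>] (0 : ℝ), frm θ (TMX.cmp c e) (x + s * w) ∈ Rc θ
      filter_upwards [he4] with s hs
      rw [← frm_frm, hfr 0 s, frm_ray, he1]
      exact hs
  · have h5 := hγ.free (T - r₁) T (by linarith) fun τ hτ => by
      rcases lt_or_eq_of_le hτ.2 with h6 | h6
      · exact hnf τ hτ.1 h6
      · rw [h6]; exact hF
    refine ⟨c, ?_, ?_, ?_⟩
    · exact hlim
    · show BIL.dir (γ T).2 = act c.1 w
      rw [h5.1]
      exact h2
    · show ∀ᶠ s : ℝ in 𝓝[>] (0 : ℝ), frm θ c (x + s * w) ∈ Rc θ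
      have hint : y ∈ interior (Tb θ p) := by
        rw [← hlim]
        by_contra hcon
        exact hF ⟨subset_closure (hγ.mem T), hcon⟩
      have ht : Tendsto (fun s : ℝ => y + (s : ℂ) * u) (𝓝[>] 0) (𝓝 y) := by
        have hc : ContinuousAt (fun r : ℝ => y + (r : ℂ) * u) 0 := by fun_prop
        have := hc.tendsto
        simp only [Complex.ofReal_zero, zero_mul, add_zero] at this
        exact this.mono_left nhdsWithin_le_nhds
      filter_upwards [ht.eventually (mem_interior_iff_mem_nhds.1 hint)] with s hs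
      rw [hfr 0 s]
      exact hRc _ hs

end

/-- [F2a] billiard orbits follow free segments. -/
theorem follow_free2 {θ : ℝ} (hθ : |θ - Real.pi / 4| < 1 / 100) {p : Par} (hp : p ∈ Pi1)
    {γ : ℝ → ℂ × BIL.Ang}
    (hγ : BIL.IsOrbit (Tb θ p) (vx θ p) (fun i => vx θ p (i + 1)) γ) {x w : ℂ}
    (hw : ‖w‖ = 1) {t₀ t₁ : ℝ} (h0 : Rel θ (γ t₀) (x, w))
    (hf : ∀ s : ℝ, 0 < s → s ≤ t₁ → Fre θ p (x + s * w)) :
    ∀ s : ℝ, 0 ≤ s → s ≤ t₁ → Rel θ (γ (t₀ + s)) (x + s * w, w) := by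
  by_cases ht : t₁ < 0
  · intro s h1 h2
    linarith
  push Not at ht
  set A : Set ℝ := {s | 0 ≤ s ∧ s ≤ t₁ ∧ ∀ s', 0 ≤ s' → s' ≤ s →
    Rel θ (γ (t₀ + s')) (x + s' * w, w)} with hA
  have hz : Rel θ (γ (t₀ + 0)) (x + ((0 : ℝ) : ℂ) * w, w) := by
    rw [add_zero, Complex.ofReal_zero, zero_mul, add_zero]
    exact h0
  have hA0 : (0 : ℝ) ∈ A := ⟨le_rfl, ht, fun s' ha hb => by
    have : s' = 0 := le_antisymm hb ha
    rw [this]
    exact hz⟩
  have hAb : BddAbove A := ⟨t₁, fun s hs => hs.2.1⟩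
  set S := sSup A with hS
  have hS0 : 0 ≤ S := le_csSup hAb hA0
  have hS1 : S ≤ t₁ := csSup_le ⟨0, hA0⟩ fun s hs => hs.2.1
  have hlt : ∀ s', 0 ≤ s' → s' < S → Rel θ (γ (t₀ + s')) (x + s' * w, w) := by
    intro s' ha hb
    obtain ⟨a, haA, hab⟩ := exists_lt_of_lt_csSup ⟨0, hA0⟩ hb
    exact haA.2.2 s' ha hab.le
  have hRS : Rel θ (γ (t₀ + S)) (x + S * w, w) := by
    rcases hS0.eq_or_lt with h | h
    · rw [← h]
      exact hz
    · refine N2a_left hγ hθ hp h (fun r hr1 hr2 => ?_) (hf S h hS1)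
      have h1 := hlt (S - r) (by linarith) (by linarith)
      have e1 : t₀ + S - r = t₀ + (S - r) := by ring
      have e2 : x + S * w - r * w = x + ((S - r : ℝ) : ℂ) * w := by push_cast; ring
      rw [e1, e2]
      exact h1
  have hSA : S ∈ A := ⟨hS0, hS1, fun s' ha hb => by
    rcases hb.eq_or_lt with h | h
    · rw [h]; exact hRS
    · exact hlt s' ha h⟩
  have hSt : S = t₁ := by
    by_contra hne
    have hlt' : S < t₁ := lt_of_le_of_ne hS1 hne
    obtain ⟨ε, hε, h1⟩ := N2a_right hγ hRS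
    set d := min (ε / 2) (t₁ - S) with hd
    have hd0 : 0 < d := lt_min (half_pos hε) (by linarith)
    have hd1 : d ≤ ε / 2 := min_le_left _ _
    have hd2 : d ≤ t₁ - S := min_le_right _ _
    have hmem : S + d ∈ A := by
      refine ⟨by linarith, by linarith, fun s' ha hb => ?_⟩
      rcases le_or_gt s' S with h | h
      · exact hSA.2.2 s' ha h
      · have h2 := h1 (s' - S) (by linarith) (by linarith)
        have e1 : t₀ + S + (s' - S) = t₀ + s' := by ring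
        have e2 : x + S * w + ((s' - S : ℝ) : ℂ) * w = x + s' * w := by push_cast; ring
        rw [e1, e2] at h2
        exact h2
    have := le_csSup hAb hmem
    linarith
  intro s h1 h2
  exact hSA.2.2 s h1 (by rw [hSt]; exact h2)

end TMN
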