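import Pool.Agent.TMN.Base
import Pool.Agent.TMN.F1
import Pool.Agent.TMN.F2a
import Pool.Agent.TMN.G1a
import Pool.Agent.TMN.G1b
import Pool.Agent.TMN.G2

/-! # TMN [F2b]: billiard orbits follow legs and plane paths -/

set_option autoImplicit false

open Set Filter Topology

namespace TMN

open TMX TMX.F2b

namespace F2b

/-- Visible points of the hole are in the open rectangle. -/
theorem Q_sub_Ro2 {θ : ℝ} (hθ : |θ - Real.pi / 4| < 1 / 100) {p : Par} (hp : p ∈ Pi1) {y : ℂ}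
    (hy : y ∈ Q p) (him : 0 < y.im) : y ∈ Ro θ := by
  have hb := TMN.box2 hp hy
  have h1 := abs_lt.mp hb.1
  have h2 := abs_lt.mp hb.2
  have hbb : (3 : ℝ) / 4 < bb θ := by
    have h := abs_lt.mp hθ
    have hpi := Real.pi_gt_d2
    have hpi' := Real.pi_lt_d2
    have h3 : θ < bb θ := by
      unfold bb
      apply Real.lt_tan <;> linarith [h.1, h.2]
    linarith [h.1]
  exact ⟨by linarith [h1.1], by linarith [h1.2], him, by linarith [h2.2]⟩

theorem side_idx2 (θ : ℝ) (p : Par) (s : Fin 4) :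
    ∃ i : Fin 9, vx θ p i = se p s ∧ vx θ p (i + 1) = sv p s := by
  have e : ∀ i : Fin 4, i = 0 ∨ i = 1 ∨ i = 2 ∨ i = 3 := by decide
  rcases e s with rfl | rfl | rfl | rfl
  · exact ⟨3, rfl, rfl⟩
  · exact ⟨2, rfl, rfl⟩
  · exact ⟨1, rfl, rfl⟩
  · exact ⟨4, rfl, rfl⟩

/-- Points of the open visible side. -/
theorem side_mem2 {p : Par} (hp : p ∈ Pi1) {s : Fin 4} {y : ℂ}
    (h1 : dot y (nu p s) = p.2 s) (him : 0 < y.im)
    (h2 : ∀ i, i ≠ s → dot y (nu p i) < p.2 i) :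
    y ∈ openSegment ℝ (se p s) (sv p s) := by
  obtain ⟨τ, h3, h4, h5⟩ := ((TMN.side hp s).2.2 y h1).1 ⟨him, h2⟩
  refine ⟨τ, 1 - τ, h3, by linarith, by ring, ?_⟩
  rw [h5]
  simp only [Complex.real_smul]
  push_cast
  ring

theorem dir_ang_side2 {p : Par} (hp : p ∈ Pi1) (s : Fin 4) :
    BIL.dir (BIL.ang (sv p s - se p s)) = -(Complex.I * nu p s) := by
  obtain ⟨L, hL, h⟩ := (TMN.side hp s).1
  have h' : sv p s - se p s = (L : ℂ) * -(Complex.I * nu p s) := by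
    rw [mul_neg, ← h]; ring
  have hn : ‖sv p s - se p s‖ = L := by
    rw [h', norm_mul, norm_neg, norm_mul, nu_norm, Complex.norm_I, Complex.norm_real,
      Real.norm_of_nonneg hL.le]
    ring
  have h1 := dir_ang (sv p s - se p s)
  rw [hn] at h1
  have h3 : (L : ℂ) ≠ 0 := by exact_mod_cast hL.ne'
  exact mul_left_cancel₀ h3 (h1.trans h')

end F2b

open F2b

/-- [F2b] billiard orbits follow legs. -/
theorem follow_leg2 {θ : ℝ} (hθ : |θ - Real.pi / 4| < 1 / 100) {p : Par} (hp : p ∈ Pi1)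
    {γ : ℝ → ℂ × BIL.Ang} (hγ : BIL.IsOrbit (Tb θ p) (vx θ p) (fun i => vx θ p (i + 1)) γ) {x w : ℂ}
    (hw : ‖w‖ = 1) {t₀ : ℝ} (h0 : Rel θ (γ t₀) (x, w)) {a : Lt} (ha : Good2 θ p a (x, w)) :
    Rel θ (γ (t₀ + fl θ p a (x, w))) (nx θ p a (x, w)) := by
  obtain ⟨c, k⟩ := a
  obtain ⟨⟨g1, g2, g3, g4⟩, gim⟩ := ha
  have hland : dot (nx θ p (c, k) (x, w)).1 (nu p k) = p.2 k :=
    dot_land (a := (c, k)) g1.ne
  set τ := fl θ p (c, k) (x, w) with hτ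
  set y := (nx θ p (c, k) (x, w)).1 with hy
  have hyQ : y ∈ Q p := by
    intro i
    by_cases hi : i = k
    · subst hi; exact hland.le
    · exact (g4 i hi).le
  have hyR : y ∈ Ro θ := Q_sub_Ro2 hθ hp hyQ gim
  have hyf : frm θ c (x + (τ : ℂ) * w) = y := rfl
  have hfol : ∀ s : ℝ, 0 ≤ s → s < τ → Rel θ (γ (t₀ + s)) (x + (s : ℂ) * w, w) := by
    intro s hs0 hs1
    exact TMN.follow_free2 hθ hp hγ hw h0 (t₁ := s)
      (fun u hu0 hu1 => g3 u hu0 (by linarith)) s hs0 le_rfl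
  have hcont : Tendsto (fun s : ℝ => frm θ c (x + (s : ℂ) * w)) (𝓝 τ) (𝓝 y) :=
    (cont_ray θ c x w).tendsto τ
  have hev : ∀ᶠ s : ℝ in 𝓝 τ, frm θ c (x + (s : ℂ) * w) ∈ Ro θ :=
    hcont.eventually ((Ro_isOpen θ).mem_nhds hyR)
  obtain ⟨ε, hε, hev'⟩ := Metric.eventually_nhds_iff.mp hev
  have hcell : ∀ s : ℝ, 0 ≤ s → s < τ → τ - ε < s →
      (γ (t₀ + s)).1 = frm θ c (x + (s : ℂ) * w) ∧ BIL.dir (γ (t₀ + s)).2 = act c.1 w := by
    intro s hs0 hs1 hs2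
    obtain ⟨c', e1, e2, e3⟩ := hfol s hs0 hs1
    have hin : frm θ c (x + (s : ℂ) * w) ∈ Ro θ :=
      hev' (by rw [Real.dist_eq, abs_lt]; constructor <;> linarith)
    have hcc : c' = c := cell_unique (bb_pos hθ) (rel_cell e3) hin
    subst hcc
    exact ⟨e1, e2⟩
  have hmax : max 0 (τ - ε) < τ := max_lt g2 (by linarith)
  have hpos : (γ (t₀ + τ)).1 = y := by
    have l1 : Tendsto (fun s : ℝ => (γ (t₀ + s)).1) (𝓝[<] τ) (𝓝 (γ (t₀ + τ)).1) :=
      ((hγ.cont.comp (continuous_const.add continuous_id)).tendsto τ).mono_left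
        nhdsWithin_le_nhds
    have l2 : Tendsto (fun s : ℝ => frm θ c (x + (s : ℂ) * w)) (𝓝[<] τ) (𝓝 y) :=
      hcont.mono_left nhdsWithin_le_nhds
    have l3 : (fun s : ℝ => (γ (t₀ + s)).1) =ᶠ[𝓝[<] τ]
        fun s : ℝ => frm θ c (x + (s : ℂ) * w) := by
      filter_upwards [Ioo_mem_nhdsLT hmax] with s hs
      exact (hcell s (le_of_lt (lt_of_le_of_lt (le_max_left _ _) hs.1)) hs.2
        (lt_of_le_of_lt (le_max_right _ _) hs.1)).1
    exact tendsto_nhds_unique (l1.congr' l3) l2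
  have hT := TMN.table_closure2 hθ hp
  have hfr : (γ (t₀ + τ)).1 ∈ frontier (Tb θ p) := by
    rw [hpos]
    refine ⟨subset_closure ⟨Ro_subset θ hyR, k, hland.ge⟩, ?_⟩
    rw [hT.1]
    rintro ⟨_, h⟩
    exact h hyQ
  obtain ⟨i, _, h2, ε', hε', h3⟩ := hγ.refl (t₀ + τ) hfr
  obtain ⟨i', ha', hb'⟩ := side_idx2 θ p k
  have hmem := side_mem2 hp hland gim g4
  have hii : i' = i := by
    by_contra hne
    apply h2 i' hne
    rw [hpos, ha', hb']
    exact openSegment_subset_segment _ _ _ hmem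
  subst hii
  obtain ⟨s, hs1, hs2⟩ := exists_between (show max (max 0 (τ - ε)) (τ - ε') < τ from
    max_lt hmax (by linarith))
  have hs3 : max 0 (τ - ε) < s := lt_of_le_of_lt (le_max_left _ _) hs1
  have hs4 : τ - ε' < s := lt_of_le_of_lt (le_max_right _ _) hs1
  have hs5 := (hcell s (le_of_lt (lt_of_le_of_lt (le_max_left _ _) hs3)) hs2
    (lt_of_le_of_lt (le_max_right _ _) hs3)).2
  have h4 := h3 (t₀ + s) ⟨by linarith, by linarith⟩
  have hdir : BIL.dir (γ (t₀ + τ)).2 = refl p k (act c.1 w) := by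
    rw [h4, ha', hb', sub_eq_add_neg, dir_add, dir_neg, two_nsmul, dir_add, dir_ang_side2 hp,
      hs5, refl_eq]
    linear_combination (nu p k) ^ 2 * (starRingEnd ℂ) (act c.1 w) * Complex.I_mul_I
  refine ⟨(1, (0, 0)), ?_, ?_, ?_⟩
  · rw [frm_one]; exact hpos
  · change _ = act 1 (refl p k (act c.1 w))
    rw [act_one]; exact hdir
  · have l : Tendsto (fun s : ℝ => frm θ (1, (0, 0)) (y + (s : ℂ) * (nx θ p (c, k) (x, w)).2))
        (𝓝[>] (0 : ℝ)) (𝓝 (frm θ (1, (0, 0)) (y + ((0 : ℝ) : ℂ) * (nx θ p (c, k) (x, w)).2))) :=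
      ((cont_ray θ _ _ _).tendsto 0).mono_left nhdsWithin_le_nhds
    have h5 : frm θ (1, (0, 0)) (y + ((0 : ℝ) : ℂ) * (nx θ p (c, k) (x, w)).2) ∈ Ro θ := by
      rw [frm_one]; simpa using hyR
    filter_upwards [l.eventually ((Ro_isOpen θ).mem_nhds h5)] with s hs
    exact Ro_subset θ hs

/-- [F2] billiard orbits follow plane paths. -/
theorem follow2 {θ : ℝ} (hθ : |θ - Real.pi / 4| < 1 / 100) {p : Par} (hp : p ∈ Pi1)
    {γ : ℝ → ℂ × BIL.Ang} (hγ : BIL.IsOrbit (Tb θ p) (vx θ p) (fun i => vx θ p (i + 1)) γ) {z : ℂ × ℂ}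
    (h0 : (γ 0).1 = z.1) (h1 : BIL.dir (γ 0).2 = z.2) (hz : z.1 ∈ Ro θ) (hf : Fre θ p z.1)
    {V : Set (ℂ × ℂ)} (hV : ∀ y ∈ V, y.1 ∈ Ro θ) {t : ℝ} (h : Visit2 θ p z V t) :
    ((γ t).1, BIL.dir (γ t).2) ∈ V := by
  obtain ⟨l, hl1, hl2, hl3, c, hc⟩ := h
  have hrel : Rel θ (γ 0) z := by
    refine ⟨(1, (0, 0)), ?_, ?_, ?_⟩
    · rw [frm_one]; exact h0
    · change _ = act 1 z.2
      rw [act_one]; exact h1
    · have l : Tendsto (fun s : ℝ => frm θ (1, (0, 0)) (z.1 + (s : ℂ) * z.2))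
          (𝓝[>] (0 : ℝ)) (𝓝 (frm θ (1, (0, 0)) (z.1 + ((0 : ℝ) : ℂ) * z.2))) :=
        ((cont_ray θ _ _ _).tendsto 0).mono_left nhdsWithin_le_nhds
      have h5 : frm θ (1, (0, 0)) (z.1 + ((0 : ℝ) : ℂ) * z.2) ∈ Ro θ := by
        rw [frm_one]; simpa using hz
      filter_upwards [l.eventually ((Ro_isOpen θ).mem_nhds h5)] with s hs
      exact Ro_subset θ hs
  have hn : ‖z.2‖ = 1 := by rw [← h1]; exact dir_norm _
  have key : ∀ (l : List Lt) (z : ℂ × ℂ) (t₀ : ℝ), ‖z.2‖ = 1 → Rel θ (γ t₀) z →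
      GoodL2 θ p l z → Rel θ (γ (t₀ + tim θ p l z)) (run θ p l z) ∧ ‖(run θ p l z).2‖ = 1 := by
    intro l
    induction l with
    | nil => intro z t₀ hn hr _; simp only [tim, run, add_zero]; exact ⟨hr, hn⟩
    | cons a l ih =>
      intro z t₀ hn hr hg
      obtain ⟨hg1, hg2⟩ := hg
      have hr' := follow_leg2 hθ hp hγ (x := z.1) (w := z.2) hn hr hg1
      have hn' : ‖(nx θ p a z).2‖ = 1 := by
        rw [(TMN.nx_out2 hp hg1).2.2.2]; exact hn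
      have := ih (nx θ p a z) (t₀ + fl θ p a z) hn' hr' hg2
      simp only [tim, run]
      rw [← add_assoc]
      exact this
  obtain ⟨hr, hn'⟩ := key l z 0 hn hrel hl1
  rw [zero_add] at hr
  have hfin := TMN.follow_free2 hθ hp hγ (x := (run θ p l z).1) (w := (run θ p l z).2) hn' hr
    (t₁ := t - tim θ p l z) hl3 (t - tim θ p l z) (by linarith) le_rfl
  rw [add_sub_cancel] at hfin
  obtain ⟨c', e1, e2, e3⟩ := hfin
  have hcc : c' = c := cell_unique (bb_pos hθ) (rel_cell e3) (hV _ hc)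
  subst hcc
  rw [e1, e2]
  exact hc

end TMN
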