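import Pool.Agent.TMN.Base
import Pool.Agent.TMN.G1a
import Pool.Agent.TMN.G1b
import Pool.Agent.TMN.G2
import Pool.Agent.TMN.G3

/-! # TMN: row G4 -/

set_option autoImplicit false

open Set Filter Topology

namespace TMN

open TMX

private theorem G4_cont_nu (j : Fin 4) : Continuous fun p : Par => nu p j := by
  unfold nu; fun_prop

private theorem G4_cont_supp (j : Fin 4) : Continuous fun p : Par => p.2 j := by
  fun_prop

private theorem G4_open : IsOpen Pi1 := by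
  have hn : ∀ j : Fin 4, Continuous fun p : Par => nu p j := G4_cont_nu
  have hs : ∀ j : Fin 4, Continuous fun p : Par => p.2 j := G4_cont_supp
  have hv : ∀ j : Fin 4, Continuous fun p : Par => vtx p j := by
    intro j
    unfold vtx
    have h1 := G4_cont_nu j
    have h2 := G4_cont_nu (j + 1)
    have h3 := G4_cont_supp j
    have h4 := G4_cont_supp (j + 1)
    fun_prop
  have hre : ∀ j : Fin 4, Continuous fun p : Par => (vtx p j).re :=
    fun j => Complex.continuous_re.comp (hv j)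
  have him : ∀ j : Fin 4, Continuous fun p : Par => (vtx p j).im :=
    fun j => Complex.continuous_im.comp (hv j)
  have hd : ∀ j : Fin 4, Continuous fun p : Par =>
      dot ((starRingEnd ℂ) (vtx p 2)) (nu p j) := by
    intro j
    exact continuous_dot.comp ((Complex.continuous_conj.comp (hv 2)).prodMk (hn j))
  have e : Pi1 = {p : Par | 1 / 10 < p.1} ∩ ({p : Par | p.1 < 3 / 10} ∩
      ((⋂ j, {p : Par | 0 < p.2 j + p.2 (j + 2)}) ∩
      ((⋂ j, ({p : Par | |(vtx p j).re - 1 / 4| < 1 / 50} ∩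
        {p : Par | |(vtx p j).im| < 1 / 50})) ∩
      ({p : Par | (vtx p 2).im < 0} ∩ ({p : Par | 0 < (vtx p 1).im} ∩
      ({p : Par | 0 < (vtx p 3).im} ∩
      (⋂ j, {p : Par | dot ((starRingEnd ℂ) (vtx p 2)) (nu p j) < p.2 j}))))))) := by
    ext p
    simp only [Pi1, Set.mem_inter_iff, Set.mem_iInter, Set.mem_ofPred_eq]
  rw [e]
  refine (isOpen_lt continuous_const continuous_fst).inter
    ((isOpen_lt continuous_fst continuous_const).inter
      ((isOpen_iInter_of_finite fun j => isOpen_lt continuous_const ((hs j).add (hs (j + 2)))).inter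
        ((isOpen_iInter_of_finite fun j => ?_).inter
        ((isOpen_lt (him 2) continuous_const).inter ((isOpen_lt continuous_const (him 1)).inter
        ((isOpen_lt continuous_const (him 3)).inter
        (isOpen_iInter_of_finite fun j => isOpen_lt (hd j) (hs j))))))))
  exact (isOpen_lt (((hre j).sub continuous_const).abs) continuous_const).inter
    (isOpen_lt (him j).abs continuous_const)

/-- membership in a copy is a closed condition -/
private theorem G4_closed (θ : ℝ) (c : Cp) : IsClosed {u : Par × ℂ | u.2 ∈ obs θ u.1 c} := by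
  have e : {u : Par × ℂ | u.2 ∈ obs θ u.1 c} =
      ⋂ j, {u : Par × ℂ | dot (frm θ c u.2) (nu u.1 j) ≤ u.1.2 j} := by
    ext u
    simp only [obs, Q, Set.mem_iInter, Set.mem_ofPred_eq]
  rw [e]
  refine isClosed_iInter fun j => isClosed_le ?_ ?_
  · exact continuous_dot.comp (((continuous_frm θ c).comp continuous_snd).prodMk
      ((G4_cont_nu j).comp continuous_fst))
  · exact (G4_cont_supp j).comp continuous_fst

/-- finitely many copies meet a ball -/
private theorem G4_finite {θ : ℝ} (hθ : |θ - Real.pi / 4| < 1 / 100) (R : ℝ) :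
    {c : Cp | ∃ p ∈ Pi1, ∃ y ∈ obs θ p c, ‖y‖ ≤ R}.Finite := by
  have hb : 0 < bb θ := by
    unfold bb
    have h3 := Real.pi_gt_three
    rw [abs_lt] at hθ
    exact Real.tan_pos_of_pos_of_lt_pi_div_two (by linarith) (by linarith)
  obtain ⟨N, hN⟩ := exists_nat_ge (max (R + 1) ((R + 1) / bb θ))
  have hN1 : R + 1 ≤ N := (le_max_left _ _).trans hN
  have hN2 : R + 1 ≤ N * bb θ := by
    have := (le_max_right _ _).trans hN
    rwa [div_le_iff₀ hb] at this
  refine ((Set.finite_univ (α := Sg)).prod ((Set.finite_Icc (-(N : ℤ)) N).prod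
    (Set.finite_Icc (-(N : ℤ)) N))).subset ?_
  rintro ⟨d, m⟩ ⟨p, hp, y, hy, hyR⟩
  have hbox := TMN.box2 hp (show frm θ (d, m) y ∈ Q p from hy)
  have hre : (frm θ (d, m) y).re = ((d.1 : ℤ) : ℝ) * (y.re - 2 * m.1) := by
    simp [frm, act, lat]
  have him : (frm θ (d, m) y).im = ((d.2 : ℤ) : ℝ) * (y.im - 2 * bb θ * m.2) := by
    simp [frm, act, lat]
  have hd1 : |((d.1 : ℤ) : ℝ)| = 1 := by
    rcases (sg_cases d).1 with h | h <;> simp [h]
  have hd2 : |((d.2 : ℤ) : ℝ)| = 1 := by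
    rcases (sg_cases d).2 with h | h <;> simp [h]
  have h1 : |y.re - 2 * m.1| < 1 := by
    have h := hbox.1
    rw [abs_lt] at h
    have h2 : |(frm θ (d, m) y).re| < 1 := by rw [abs_lt]; constructor <;> linarith
    rwa [hre, abs_mul, hd1, one_mul] at h2
  have h2 : |y.im - 2 * bb θ * m.2| < 1 := by
    have h := hbox.2
    rw [abs_lt] at h
    have h2 : |(frm θ (d, m) y).im| < 1 := by rw [abs_lt]; constructor <;> linarith
    rwa [him, abs_mul, hd2, one_mul] at h2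
  have h3 := (Complex.abs_re_le_norm y).trans hyR
  have h4 := (Complex.abs_im_le_norm y).trans hyR
  rw [abs_lt] at h1 h2
  rw [abs_le] at h3 h4
  have hN0 : (0 : ℝ) ≤ N := Nat.cast_nonneg N
  refine ⟨Set.mem_univ _, ⟨?_, ?_⟩, ?_, ?_⟩
  · have : (-(N : ℝ)) ≤ m.1 := by linarith
    exact_mod_cast this
  · have : (m.1 : ℝ) ≤ N := by linarith
    exact_mod_cast this
  · have : (-(N : ℝ)) ≤ m.2 := by
      by_contra hc
      push Not at hc
      have := mul_lt_mul_of_pos_right hc hb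
      linarith [mul_nonneg hN0 hb.le]
    exact_mod_cast this
  · have : (m.2 : ℝ) ≤ N := by
      by_contra hc
      push Not at hc
      have := mul_lt_mul_of_pos_right hc hb
      linarith [mul_nonneg hN0 hb.le]
    exact_mod_cast this

/-- Segments which miss the copies of a set `B` are stable. -/
private theorem G4_tube {θ : ℝ} (hθ : |θ - Real.pi / 4| < 1 / 100) {X : Type} [TopologicalSpace X]
    (π : X → Par) (x w : X → ℂ) (T : X → ℝ) {x₀ : X} (hπ : ContinuousAt π x₀)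
    (hx : ContinuousAt x x₀) (hw : ContinuousAt w x₀) (hT : ContinuousAt T x₀)
    (hp : π x₀ ∈ Pi1) (B : Set Cp)
    (hB : ∀ c ∈ B, ∀ r : ℝ, 0 ≤ r → r ≤ 1 →
      x x₀ + ((r * T x₀ : ℝ) : ℂ) * w x₀ ∉ obs θ (π x₀) c) :
    ∀ᶠ u in 𝓝 x₀, ∀ c ∈ B, ∀ r : ℝ, 0 ≤ r → r ≤ 1 →
      x u + ((r * T u : ℝ) : ℂ) * w u ∉ obs θ (π u) c := by
  have hcont : ∀ r₀ : ℝ, ContinuousAt (fun v : X × ℝ =>
      ((π v.1, x v.1 + ((v.2 * T v.1 : ℝ) : ℂ) * w v.1) : Par × ℂ)) (x₀, r₀) := by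
    intro r₀
    have h1 : ContinuousAt (fun v : X × ℝ => π v.1) (x₀, r₀) := ContinuousAt.fst' hπ
    have h2 : ContinuousAt (fun v : X × ℝ => x v.1) (x₀, r₀) := ContinuousAt.fst' hx
    have h3 : ContinuousAt (fun v : X × ℝ => w v.1) (x₀, r₀) := ContinuousAt.fst' hw
    have h4 : ContinuousAt (fun v : X × ℝ => T v.1) (x₀, r₀) := ContinuousAt.fst' hT
    have h5 : ContinuousAt (fun v : X × ℝ => ((v.2 * T v.1 : ℝ) : ℂ)) (x₀, r₀) :=
      Complex.continuous_ofReal.continuousAt.comp (continuousAt_snd.mul h4)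
    exact h1.prodMk (h2.add (h5.mul h3))
  -- a bound
  have hbd : ∀ᶠ u in 𝓝 x₀, ∀ r ∈ Icc (0 : ℝ) 1, ‖x u + ((r * T u : ℝ) : ℂ) * w u‖ <
      ‖x x₀‖ + |T x₀| * ‖w x₀‖ + 1 := by
    refine isCompact_Icc.eventually_forall_of_forall_eventually fun r₀ hr₀ => ?_
    have h1 : ContinuousAt (fun v : X × ℝ => ‖x v.1 + ((v.2 * T v.1 : ℝ) : ℂ) * w v.1‖)
        (x₀, r₀) := (continuousAt_snd.comp (hcont r₀)).norm
    refine h1.eventually_lt continuousAt_const ?_
    have h2 := norm_add_le (x x₀) (((r₀ * T x₀ : ℝ) : ℂ) * w x₀)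
    have h3 : ‖((r₀ * T x₀ : ℝ) : ℂ) * w x₀‖ ≤ |T x₀| * ‖w x₀‖ := by
      rw [norm_mul, Complex.norm_real, Real.norm_eq_abs, abs_mul, abs_of_nonneg hr₀.1]
      exact mul_le_mul_of_nonneg_right
        (mul_le_of_le_one_left (abs_nonneg _) hr₀.2) (norm_nonneg _)
    show ‖x x₀ + ((r₀ * T x₀ : ℝ) : ℂ) * w x₀‖ < _
    linarith
  have hfin := G4_finite hθ (‖x x₀‖ + |T x₀| * ‖w x₀‖ + 1)
  have hopen : ∀ᶠ u in 𝓝 x₀, π u ∈ Pi1 := hπ.eventually (G4_open.mem_nhds hp)
  have hone : ∀ c ∈ B, ∀ᶠ u in 𝓝 x₀, ∀ r ∈ Icc (0 : ℝ) 1,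
      x u + ((r * T u : ℝ) : ℂ) * w u ∉ obs θ (π u) c := by
    intro c hc
    refine isCompact_Icc.eventually_forall_of_forall_eventually fun r₀ hr₀ => ?_
    have h1 := (hcont r₀).eventually ((G4_closed θ c).isOpen_compl.mem_nhds
      (show (π x₀, x x₀ + ((r₀ * T x₀ : ℝ) : ℂ) * w x₀) ∈ _ from hB c hc r₀ hr₀.1 hr₀.2))
    exact h1
  have hall : ∀ᶠ u in 𝓝 x₀, ∀ c ∈ {c : Cp | ∃ p ∈ Pi1, ∃ y ∈ obs θ p c,
      ‖y‖ ≤ ‖x x₀‖ + |T x₀| * ‖w x₀‖ + 1}, c ∈ B → ∀ r ∈ Icc (0 : ℝ) 1,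
      x u + ((r * T u : ℝ) : ℂ) * w u ∉ obs θ (π u) c := by
    rw [Filter.eventually_all_finite hfin]
    intro c _
    by_cases hc : c ∈ B
    · filter_upwards [hone c hc] with u hu _ using hu
    · exact Filter.Eventually.of_forall fun u h => absurd h hc
  filter_upwards [hbd, hopen, hall] with u h1 h2 h3 c hc r hr0 hr1 hmem
  exact h3 c ⟨π u, h2, _, hmem, (h1 r ⟨hr0, hr1⟩).le⟩ hc r ⟨hr0, hr1⟩ hmem

private theorem G4_frm_cj (θ : ℝ) (x : ℂ) : frm θ cj x = (starRingEnd ℂ) x := by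
  apply Complex.ext <;> simp [frm, act, lat, cj]

/-- the boundary points of `Q p` on the real axis are in the sides 2 and 3 -/
private theorem G4_real {p : Par} (hp : p ∈ Pi1) {x : ℂ} (hx : x ∈ Q p) {j : Fin 4}
    (hj : dot x (nu p j) = p.2 j) (him : x.im ≤ 0) : j = 2 ∨ j = 3 := by
  obtain ⟨-, -, hn2, hn3, hn0, hn1, -, -, -, -⟩ := TMN.signs hp
  obtain ⟨-, -, -, -, -, hv1, hv3, -⟩ := hp
  have e2 : nu p 2 = -nu p 0 := nu_add_two p 0
  have e3 : nu p 3 = -nu p 1 := nu_add_two p 1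
  have hb : x.im = dot x (nu p 0) * (nu p 0).im + dot x (nu p 1) * (nu p 1).im := by
    have h := congrArg Complex.im (basis_nu p 0 x)
    simpa using h
  have q2 : -dot x (nu p 0) ≤ p.2 2 := by
    have := hx 2
    rwa [e2, dot_neg_right] at this
  have q3 : -dot x (nu p 1) ≤ p.2 3 := by
    have := hx 3
    rwa [e3, dot_neg_right] at this
  have v1 : (vtx p 1).im = p.2 1 * (nu p 1).im - p.2 2 * (nu p 0).im := by
    have : vtx p 1 = (p.2 1 : ℂ) * nu p 1 + (p.2 2 : ℂ) * nu p 2 := rfl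
    rw [this, e2]
    simp
    ring
  have v3 : (vtx p 3).im = -(p.2 3 * (nu p 1).im) + p.2 0 * (nu p 0).im := by
    have : vtx p 3 = (p.2 3 : ℂ) * nu p 3 + (p.2 0 : ℂ) * nu p 0 := rfl
    rw [this, e3]
    simp
  have e : ∀ i : Fin 4, i = 0 ∨ i = 1 ∨ i = 2 ∨ i = 3 := by decide
  rcases e j with rfl | rfl | rfl | rfl
  · exfalso
    rw [hj] at hb
    nlinarith
  · exfalso
    rw [hj] at hb
    nlinarith
  · left; rfl
  · right; rfl

/-- a state at a joint: nearby outgoing states miss the mirror image -/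
private theorem G4_joint {θ : ℝ} {p : Par} (hp : p ∈ Pi1)
    {z : ℂ × ℂ} (hs : Out2 p z.1 z.2) (hc : z.1 ∈ obs θ p cj) :
    ∀ᶠ q : Par × (ℂ × ℂ) in 𝓝 (p, z), Out2 q.1 q.2.1 q.2.2 →
      ∀ s : ℝ, 0 < s → q.2.1 + s * q.2.2 ∉ obs θ q.1 cj := by
  obtain ⟨⟨hQ, k, hk1, hk2⟩, him, hcj⟩ := hs
  have hc' : (starRingEnd ℂ) z.1 ∈ Q p := by
    have : frm θ cj z.1 ∈ Q p := hc
    rwa [G4_frm_cj] at this
  have him0 : z.1.im = 0 := by
    by_contra hne
    have hpos : 0 < z.1.im := lt_of_le_of_ne him (Ne.symm hne)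
    have h := TMN.hidden hp hc' (by rw [Complex.conj_im]; linarith) k
    rw [Complex.conj_conj, hk1] at h
    exact lt_irrefl _ h
  obtain ⟨-, k', hk1', hk2'⟩ := hcj him0
  have hsg := TMN.signs hp
  have hjt : ∀ i : Fin 4, dot z.1 (nu p i) = p.2 i → (i = 2 ∨ i = 3) ∧
      (∀ j, j ≠ i → dot z.1 (nu p j) < p.2 j) := by
    intro i hi
    have h2 := G4_real hp hQ hi him0.le
    refine ⟨h2, ?_⟩
    have hne : (nu p i).re ≠ 0 := by
      rcases h2 with rfl | rfl
      · exact ne_of_lt hsg.1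
      · exact ne_of_gt hsg.2.1
    have e : z.1 = jt p i := by
      apply Complex.ext
      · simp only [jt, Complex.ofReal_re]
        rw [eq_div_iff hne, ← hi]
        simp [dot, him0]
      · simp only [jt, Complex.ofReal_im]
        exact him0
    rw [e]
    exact (TMN.jt_facts hp h2).2.1
  obtain ⟨hk, hkj⟩ := hjt k hk1
  have hkk : k' = k := by
    by_contra hne
    exact absurd hk1' (ne_of_lt (hkj k' hne))
  rw [hkk] at hk2'
  have hkim : (nu p k).im < 0 := by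
    rcases hk with rfl | rfl
    · exact hsg.2.2.1
    · exact hsg.2.2.2.1
  have hx : Continuous fun q : Par × (ℂ × ℂ) => q.2.1 := by fun_prop
  have hw : Continuous fun q : Par × (ℂ × ℂ) => q.2.2 := by fun_prop
  have hn : ∀ j, Continuous fun q : Par × (ℂ × ℂ) => nu q.1 j :=
    fun j => (G4_cont_nu j).comp continuous_fst
  have hsu : ∀ j, Continuous fun q : Par × (ℂ × ℂ) => q.1.2 j :=
    fun j => (G4_cont_supp j).comp continuous_fst
  have hE1 : ∀ᶠ q : Par × (ℂ × ℂ) in 𝓝 (p, z), ∀ j, j ≠ k → dot q.2.1 (nu q.1 j) < q.1.2 j := by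
    rw [Filter.eventually_all]
    intro j
    by_cases hj : j = k
    · exact Filter.Eventually.of_forall fun q h => absurd hj h
    · have h1 : ContinuousAt (fun q : Par × (ℂ × ℂ) => dot q.2.1 (nu q.1 j)) (p, z) :=
        (continuous_dot.comp (hx.prodMk (hn j))).continuousAt
      filter_upwards [h1.eventually_lt (hsu j).continuousAt (hkj j hj)] with q hq _ using hq
  have hE2 : ∀ᶠ q : Par × (ℂ × ℂ) in 𝓝 (p, z),
      0 < dot ((starRingEnd ℂ) q.2.2) (nu q.1 k) := by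
    have h1 : ContinuousAt (fun q : Par × (ℂ × ℂ) =>
        dot ((starRingEnd ℂ) q.2.2) (nu q.1 k)) (p, z) :=
      (continuous_dot.comp ((Complex.continuous_conj.comp hw).prodMk (hn k))).continuousAt
    exact continuousAt_const.eventually_lt h1 hk2'
  have hE3 : ∀ᶠ q : Par × (ℂ × ℂ) in 𝓝 (p, z), (nu q.1 k).im < 0 := by
    have h1 : ContinuousAt (fun q : Par × (ℂ × ℂ) => (nu q.1 k).im) (p, z) :=
      (Complex.continuous_im.comp (hn k)).continuousAt
    exact h1.eventually_lt continuousAt_const hkim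
  filter_upwards [hE1, hE2, hE3] with q h1 h2 h3 hq s hs0 hmem
  obtain ⟨⟨-, j, hj1, -⟩, hqim, -⟩ := hq
  have hjk : j = k := by
    by_contra hne
    exact absurd hj1 (ne_of_lt (h1 j hne))
  rw [hjk] at hj1
  have hm : frm θ cj (q.2.1 + s * q.2.2) ∈ Q q.1 := hmem
  rw [G4_frm_cj] at hm
  have hm2 := hm k
  have e1 : dot ((starRingEnd ℂ) (q.2.1 + s * q.2.2)) (nu q.1 k) =
      dot q.2.1 (nu q.1 k) - 2 * (q.2.1.im * (nu q.1 k).im) +
        s * dot ((starRingEnd ℂ) q.2.2) (nu q.1 k) := by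
    simp [dot]
    ring
  rw [e1, hj1] at hm2
  have h4 : 0 < s * dot ((starRingEnd ℂ) q.2.2) (nu q.1 k) := mul_pos hs0 h2
  have h5 : q.2.1.im * (nu q.1 k).im ≤ 0 := mul_nonpos_of_nonneg_of_nonpos hqim h3.le
  linarith

/-- a final free segment is stable -/
private theorem G4_free {θ : ℝ} (hθ : |θ - Real.pi / 4| < 1 / 100) {p : Par} (hp : p ∈ Pi1)
    {z : ℂ × ℂ} (hs : Out2 p z.1 z.2 ∨ Fre θ p z.1) {V : Set (ℂ × ℂ)} (hV : IsOpen V)
    {t : ℝ} (h : VisitL2 θ p [] z V t) :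
    ∀ᶠ q : (Par × (ℂ × ℂ)) × ℝ in 𝓝 ((p, z), t),
      (Out2 q.1.1 q.1.2.1 q.1.2.2 ∨ Fre θ p z.1) → VisitL2 θ q.1.1 [] q.1.2 V q.2 := by
  obtain ⟨-, ht, hf, c, hc⟩ := h
  simp only [tim, run, sub_zero] at ht hf hc
  have hpi : Continuous fun q : (Par × (ℂ × ℂ)) × ℝ => q.1.1 := by fun_prop
  have hx : Continuous fun q : (Par × (ℂ × ℂ)) × ℝ => q.1.2.1 := by fun_prop
  have hw : Continuous fun q : (Par × (ℂ × ℂ)) × ℝ => q.1.2.2 := by fun_prop
  have hT : Continuous fun q : (Par × (ℂ × ℂ)) × ℝ => q.2 := by fun_prop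
  have htube := G4_tube hθ (fun q : (Par × (ℂ × ℂ)) × ℝ => q.1.1) (fun q => q.1.2.1)
    (fun q => q.1.2.2) (fun q => q.2) (x₀ := ((p, z), t)) hpi.continuousAt hx.continuousAt
    hw.continuousAt hT.continuousAt hp {c | z.1 ∉ obs θ p c} (by
      rintro c hc2 r hr0 hr1 hmem'
      change z.1 + ((r * t : ℝ) : ℂ) * z.2 ∈ obs θ p c at hmem'
      rcases eq_or_lt_of_le hr0 with hr0 | hr0
      · rw [← hr0, zero_mul, Complex.ofReal_zero, zero_mul, add_zero] at hmem'
        exact hc2 hmem'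
      · exact hf (r * t) (mul_pos hr0 ht) (mul_le_of_le_one_left ht.le hr1) c hmem')
  have hE1 : ∀ᶠ q : (Par × (ℂ × ℂ)) × ℝ in 𝓝 ((p, z), t), 0 < q.2 :=
    continuousAt_const.eventually_lt hT.continuousAt ht
  have hE2 : ∀ᶠ q : (Par × (ℂ × ℂ)) × ℝ in 𝓝 ((p, z), t),
      (frm θ c (q.1.2.1 + (q.2 : ℂ) * q.1.2.2), act c.1 q.1.2.2) ∈ V := by
    have h1 : Continuous fun q : (Par × (ℂ × ℂ)) × ℝ =>
        (frm θ c (q.1.2.1 + (q.2 : ℂ) * q.1.2.2), act c.1 q.1.2.2) :=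
      ((continuous_frm θ c).comp (hx.add ((Complex.continuous_ofReal.comp hT).mul hw))).prodMk
        ((continuous_act c.1).comp hw)
    exact h1.continuousAt.eventually (hV.mem_nhds hc)
  have hE3 : ∀ᶠ q : (Par × (ℂ × ℂ)) × ℝ in 𝓝 ((p, z), t), z.1 ∈ obs θ p cj →
      Out2 q.1.1 q.1.2.1 q.1.2.2 → ∀ s : ℝ, 0 < s → q.1.2.1 + s * q.1.2.2 ∉ obs θ q.1.1 cj := by
    by_cases hcj : z.1 ∈ obs θ p cj
    · rcases hs with hs | hs
      · have h1 := (continuous_fst.continuousAt (x := ((p, z), t))).eventually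
          (G4_joint hp hs hcj)
        filter_upwards [h1] with q hq _ using hq
      · exact absurd hcj (hs cj)
    · exact Filter.Eventually.of_forall fun q h => absurd h hcj
  filter_upwards [htube, hE1, hE2, hE3] with q h1 h2 h3 h4 hq
  refine ⟨trivial, ?_, ?_, c, ?_⟩
  · simpa only [tim] using h2
  · intro s hs0 hs1 c' hc'
    simp only [tim, run, sub_zero] at hs1 hc'
    by_cases hc1 : z.1 ∈ obs θ p c'
    · rcases hq with hq | hq
      · have hout : Out2 p z.1 z.2 := by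
          rcases hs with hs | hs
          · exact hs
          · exact absurd hc1 (hs c')
        have hone : z.1 ∈ obs θ p (1, (0, 0)) := by
          show frm θ (1, (0, 0)) z.1 ∈ Q p
          rw [frm_one]
          exact hout.1.1
        by_cases hc2 : c' = (1, (0, 0))
        · rw [hc2] at hc'
          have h6 : q.1.2.1 + (s : ℂ) * q.1.2.2 ∈ Q q.1.1 := by
            have h7 : frm θ (1, (0, 0)) (q.1.2.1 + (s : ℂ) * q.1.2.2) ∈ Q q.1.1 := hc'
            rwa [frm_one] at h7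
          exact out_ray hq.1 hs0 h6
        · have hcmp : TMX.cmp (1, (0, 0)) cj = cj := by
            unfold TMX.cmp cj
            ext <;> simp
          by_cases hc3 : c' = cj
          · rw [hc3] at hc1 hc'
            exact h4 hc1 hq s hs0 hc'
          · have := TMN.copies_dist2 hθ hp hc2 (by rw [hcmp]; exact hc3) hone hc1
            rw [sub_self, norm_zero] at this
            norm_num at this
      · exact hq c' hc1
    · have h8 := h1 c' hc1 (s / q.2) (by positivity) ((div_le_one h2).2 hs1)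
      rw [div_mul_cancel₀ _ (ne_of_gt h2)] at h8
      exact h8 hc'
  · simpa only [tim, run, sub_zero] using h3

private theorem G4_cons {θ : ℝ} {p : Par} {a : Lt} {l : List Lt} {z : ℂ × ℂ}
    {V : Set (ℂ × ℂ)} {t : ℝ} : VisitL2 θ p (a :: l) z V t ↔
      Good2 θ p a z ∧ VisitL2 θ p l (nx θ p a z) V (t - fl θ p a z) := by
  have e : t - (fl θ p a z + tim θ p l (nx θ p a z)) =
      t - fl θ p a z - tim θ p l (nx θ p a z) := by ring
  simp only [VisitL2, GoodL2, tim, run, e]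
  constructor
  · rintro ⟨⟨h1, h2⟩, h3, h4, h5⟩
    exact ⟨h1, h2, by linarith, h4, h5⟩
  · rintro ⟨h1, h2, h3, h4, h5⟩
    exact ⟨⟨h1, h2⟩, by linarith, h4, h5⟩

/-- [G4] stability of visits. -/
theorem visit2_open {θ : ℝ} (hθ : |θ - Real.pi / 4| < 1 / 100) {p : Par} (hp : p ∈ Pi1)
    {l : List Lt} {z : ℂ × ℂ} (hs : Out2 p z.1 z.2 ∨ Fre θ p z.1) {V : Set (ℂ × ℂ)}
    (hV : IsOpen V) {t : ℝ} (h : VisitL2 θ p l z V t) :
    ∀ᶠ q : (Par × (ℂ × ℂ)) × ℝ in 𝓝 ((p, z), t),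
      (Out2 q.1.1 q.1.2.1 q.1.2.2 ∨ Fre θ p z.1) → VisitL2 θ q.1.1 l q.1.2 V q.2 := by
  induction l generalizing z t with
  | nil => exact G4_free hθ hp hs hV h
  | cons a l ih =>
    rw [G4_cons] at h
    obtain ⟨hg, hv⟩ := h
    obtain ⟨ho, hfl, hnx⟩ := TMN.good2_open hθ hp hs hg
    have hout := (TMN.nx_out2 hp hg).1
    have hih := ih (Or.inl hout) hv
    have hc1 : ContinuousAt (fun q : (Par × (ℂ × ℂ)) × ℝ =>
        (((q.1.1, nx θ q.1.1 a q.1.2), q.2 - fl θ q.1.1 a q.1.2) : (Par × (ℂ × ℂ)) × ℝ))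
        ((p, z), t) := by
      have h1 : ContinuousAt (fun q : (Par × (ℂ × ℂ)) × ℝ => nx θ q.1.1 a q.1.2)
          ((p, z), t) := ContinuousAt.fst' (f := fun u : Par × (ℂ × ℂ) => nx θ u.1 a u.2) hnx
      have h2 : ContinuousAt (fun q : (Par × (ℂ × ℂ)) × ℝ => fl θ q.1.1 a q.1.2)
          ((p, z), t) := ContinuousAt.fst' (f := fun u : Par × (ℂ × ℂ) => fl θ u.1 a u.2) hfl
      have h3 : ContinuousAt (fun q : (Par × (ℂ × ℂ)) × ℝ => q.1.1) ((p, z), t) :=
        (continuous_fst.comp continuous_fst).continuousAt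
      exact (h3.prodMk h1).prodMk (continuousAt_snd.sub h2)
    have hE1 := hc1.eventually hih
    have hE2 : ∀ᶠ q : (Par × (ℂ × ℂ)) × ℝ in 𝓝 ((p, z), t),
        (Out2 q.1.1 q.1.2.1 q.1.2.2 ∨ Fre θ p z.1) → Good2 θ q.1.1 a q.1.2 :=
      (continuous_fst.continuousAt (x := ((p, z), t))).eventually ho
    have hE3 : ∀ᶠ q : (Par × (ℂ × ℂ)) × ℝ in 𝓝 ((p, z), t), q.1.1 ∈ Pi1 :=
      ((continuous_fst.comp continuous_fst).continuousAt (x := ((p, z), t))).eventually
        (G4_open.mem_nhds hp)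
    filter_upwards [hE1, hE2, hE3] with q h1 h2 h3 hq
    rw [G4_cons]
    exact ⟨h2 hq, h1 (Or.inl (TMN.nx_out2 h3 (h2 hq)).1)⟩

end TMN
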