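import Pool.Agent.TMN.Base
import Pool.Agent.TMN.G1a

/-! # TMN: row G6 -/

set_option autoImplicit false

open Set Filter Topology

namespace TMN

open TMX

theorem G6_tan {θ : ℝ} (hθ : |θ - Real.pi / 4| < 1 / 100) : 3 / 4 < bb θ := by
  obtain ⟨h1, h2⟩ := abs_lt.1 hθ
  have hpi := Real.pi_gt_d2
  have hpi' := Real.pi_lt_d2
  have h3 := Real.lt_tan (x := θ) (by linarith) (by linarith)
  unfold bb
  linarith

theorem G6_vtx {p : Par} (hp : p ∈ Pi1) (j : Fin 4) : vtx p j ∈ Q p := by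
  obtain ⟨-, -, hh, -⟩ := hp
  intro i
  have e : i = j ∨ i = j + 1 ∨ i = j + 2 ∨ i = j + 3 := by
    revert i j; decide
  rcases e with rfl | rfl | rfl | rfl
  · rw [dot_vtx_self]
  · rw [dot_vtx_succ]
  · rw [dot_vtx_two]; linarith [hh j]
  · rw [dot_vtx_three]
    have := hh (j + 1)
    have e : j + 1 + 2 = j + 3 := by rw [add_assoc]; rfl
    rw [e] at this
    linarith

/-- Convexity, in the form that is used. -/
theorem G6_conv {p : Par} {o y : ℂ} (ho : o ∈ Q p) (hy : y ∉ Q p) {t : ℝ} (ht : 1 ≤ t) :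
    o + (t : ℂ) * (y - o) ∉ Q p := by
  intro hz
  apply hy
  intro j
  have h1 := hz j
  have h2 := ho j
  rw [dot_add_left, dot_mul_left, dot_sub_left] at h1
  have h3 : 0 ≤ (t - 1) * (p.2 j - dot o (nu p j)) := mul_nonneg (by linarith) (by linarith)
  by_contra h4
  push Not at h4
  have h5 : 0 < t * (dot y (nu p j) - p.2 j) := mul_pos (by linarith) (by linarith)
  nlinarith

/-- `conj` of the vertex below the wall is in `Q`. -/
theorem G6_conj {θ : ℝ} {p : Par} (hp : p ∈ Pi1) : frm θ cj (vtx p 2) ∈ Q p := by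
  have e : frm θ cj (vtx p 2) = (starRingEnd ℂ) (vtx p 2) := by
    apply Complex.ext <;> simp [frm, act, lat, cj]
  rw [e]
  intro j
  exact (hp.2.2.2.2.2.2.2 j).le

theorem G6_open {θ : ℝ} (hθ : |θ - Real.pi / 4| < 1 / 100) {p : Par} (hp : p ∈ Pi1) :
    IsOpen {x : ℂ | Fre θ p x} := by
  rw [isOpen_iff_mem_nhds]
  intro x hx
  have hx' : ∀ c, x ∉ obs θ p c := hx
  by_cases h : ∃ c, ∃ y ∈ obs θ p c, ‖y - x‖ < 1 / 5
  · obtain ⟨c, y, hy, hyx⟩ := h
    have h1 : (obs θ p c)ᶜ ∈ 𝓝 x := (obs_isClosed θ p c).isOpen_compl.mem_nhds (hx' c)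
    have h2 : (obs θ p (TMX.cmp c cj))ᶜ ∈ 𝓝 x :=
      (obs_isClosed θ p (TMX.cmp c cj)).isOpen_compl.mem_nhds (hx' _)
    have h3 : Metric.ball x (1 / 5) ∈ 𝓝 x := Metric.ball_mem_nhds x (by norm_num)
    filter_upwards [h1, h2, h3] with z hz1 hz2 hz3
    intro c' hc'
    by_cases e1 : c' = c
    · exact hz1 (e1 ▸ hc')
    by_cases e2 : c' = TMX.cmp c cj
    · exact hz2 (e2 ▸ hc')
    have h4 := TMN.copies_dist2 hθ hp e1 e2 hy hc'
    have h5 : ‖y - z‖ ≤ ‖y - x‖ + ‖x - z‖ := by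
      have : y - z = (y - x) + (x - z) := by ring
      rw [this]; exact norm_add_le _ _
    have h6 : ‖x - z‖ < 1 / 5 := by
      rw [Metric.mem_ball, dist_comm, dist_eq_norm] at hz3
      exact hz3
    linarith
  · push Not at h
    have h3 : Metric.ball x (1 / 5) ∈ 𝓝 x := Metric.ball_mem_nhds x (by norm_num)
    filter_upwards [h3] with z hz3
    intro c' hc'
    have := h c' z hc'
    rw [Metric.mem_ball, dist_eq_norm] at hz3
    linarith

/-- The vertical line through `x` is free. -/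
def G6_V (θ : ℝ) (p : Par) (x : ℂ) : Prop := ∀ y : ℂ, y.re = x.re → Fre θ p y
/-- The horizontal line through `x` is free. -/
def G6_H (θ : ℝ) (p : Par) (x : ℂ) : Prop := ∀ y : ℂ, y.im = x.im → Fre θ p y

theorem G6_int (k : ℤ) : k ≤ -1 ∨ k = 0 ∨ 1 ≤ k := by omega

theorem G6_cast1 {k : ℤ} (h : k ≤ -1) : (k : ℝ) ≤ -1 := by exact_mod_cast h
theorem G6_cast2 {k : ℤ} (h : 1 ≤ k) : (1 : ℝ) ≤ (k : ℝ) := by exact_mod_cast h

/-- vertical lines: criterion -/
theorem G6_V_of {θ : ℝ} {p : Par} (hp : p ∈ Pi1) {x : ℂ}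
    (h : ∀ (d : ℤˣ) (m : ℤ), 1 / 50 ≤ |((d : ℤ) : ℝ) * (x.re - 2 * (m : ℝ)) - 1 / 4|) :
    G6_V θ p x := by
  intro y hy c hc
  have h1 := (TMN.box2 hp hc).1
  have h2 := h c.1.1 c.2.1
  change |((c.1.1 : ℤ) : ℝ) * (y.re - 2 * (c.2.1 : ℝ)) - 1 / 4| < 1 / 50 at h1
  rw [hy] at h1
  linarith

theorem G6_H_of {θ : ℝ} {p : Par} (hp : p ∈ Pi1) {x : ℂ}
    (h : ∀ (d : ℤˣ) (m : ℤ), 1 / 50 ≤ |((d : ℤ) : ℝ) * (x.im - 2 * bb θ * (m : ℝ))|) :
    G6_H θ p x := by
  intro y hy c hc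
  have h1 := (TMN.box2 hp hc).2
  have h2 := h c.1.2 c.2.2
  change |((c.1.2 : ℤ) : ℝ) * (y.im - 2 * bb θ * (c.2.2 : ℝ))| < 1 / 50 at h1
  rw [hy] at h1
  linarith

/-- base lines -/
theorem G6_V1 {θ : ℝ} {p : Par} (hp : p ∈ Pi1) {x : ℂ} (hx : x.re = 1) : G6_V θ p x := by
  apply G6_V_of hp
  intro d m
  rw [hx, le_abs]
  rcases Int.units_eq_one_or d with rfl | rfl <;>
    simp only [Units.val_one, Units.val_neg, Int.cast_one, Int.cast_neg, one_mul, neg_mul]
  · rcases G6_int m with h | h | h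
    · left; linarith [G6_cast1 h]
    · left; rw [h]; norm_num
    · right; linarith [G6_cast2 h]
  · rcases G6_int m with h | h | h
    · right; linarith [G6_cast1 h]
    · right; rw [h]; norm_num
    · left; linarith [G6_cast2 h]

theorem G6_Hb {θ : ℝ} (hθ : |θ - Real.pi / 4| < 1 / 100) {p : Par} (hp : p ∈ Pi1) {x : ℂ}
    (hx : x.im = bb θ) : G6_H θ p x := by
  have hb := G6_tan hθ
  apply G6_H_of hp
  intro d m
  rw [hx, le_abs]
  rcases Int.units_eq_one_or d with rfl | rfl <;>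
    simp only [Units.val_one, Units.val_neg, Int.cast_one, Int.cast_neg, one_mul, neg_mul]
  · rcases G6_int m with h | h | h
    · left; nlinarith [G6_cast1 h]
    · left; rw [h]; norm_num; linarith
    · right; nlinarith [G6_cast2 h]
  · rcases G6_int m with h | h | h
    · right; nlinarith [G6_cast1 h]
    · right; rw [h]; norm_num; linarith
    · left; nlinarith [G6_cast2 h]

/-- points at distance `1/5` from the vertex `2`. -/
theorem G6_far {θ : ℝ} (hθ : |θ - Real.pi / 4| < 1 / 100) {p : Par} (hp : p ∈ Pi1) {y : ℂ}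
    (hy : ‖y - vtx p 2‖ = 1 / 5) : G6_V θ p y ∨ G6_H θ p y := by
  have hb := G6_tan hθ
  obtain ⟨b1, b2⟩ := hp.2.2.2.1 2
  obtain ⟨b1, b1'⟩ := abs_lt.1 b1
  obtain ⟨b2, b2'⟩ := abs_lt.1 b2
  have h1 : |y.re - (vtx p 2).re| ≤ 1 / 5 := by
    rw [← hy, ← Complex.sub_re]; exact Complex.abs_re_le_norm _
  have h2 : |y.im - (vtx p 2).im| ≤ 1 / 5 := by
    rw [← hy, ← Complex.sub_im]; exact Complex.abs_im_le_norm _
  have h3 : 1 / 5 ≤ |y.re - (vtx p 2).re| + |y.im - (vtx p 2).im| := by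
    rw [← hy, ← Complex.sub_im, ← Complex.sub_re]
    exact Complex.norm_le_abs_re_add_abs_im _
  obtain ⟨c1, c1'⟩ := abs_le.1 h1
  obtain ⟨c2, c2'⟩ := abs_le.1 h2
  have h4 : 1 / 10 ≤ |y.re - (vtx p 2).re| ∨ 1 / 10 ≤ |y.im - (vtx p 2).im| := by
    by_contra hcon
    push Not at hcon
    linarith [hcon.1, hcon.2]
  rcases h4 with h4 | h4
  · left
    apply G6_V_of hp
    intro d m
    rw [le_abs] at h4 ⊢
    rcases Int.units_eq_one_or d with rfl | rfl <;>
      simp only [Units.val_one, Units.val_neg, Int.cast_one, Int.cast_neg, one_mul, neg_mul]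
    · rcases G6_int m with h | h | h
      · left; linarith [G6_cast1 h]
      · rw [h]; push_cast
        rcases h4 with h4 | h4
        · left; linarith
        · right; linarith
      · right; linarith [G6_cast2 h]
    · rcases G6_int m with h | h | h
      · right; linarith [G6_cast1 h]
      · right; rw [h]; push_cast; linarith
      · left; linarith [G6_cast2 h]
  · right
    apply G6_H_of hp
    intro d m
    rw [le_abs] at h4 ⊢
    rcases Int.units_eq_one_or d with rfl | rfl <;>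
      simp only [Units.val_one, Units.val_neg, Int.cast_one, Int.cast_neg, one_mul, neg_mul]
    · rcases G6_int m with h | h | h
      · left; nlinarith [G6_cast1 h]
      · rw [h]; push_cast
        rcases h4 with h4 | h4
        · left; linarith
        · right; linarith
      · right; nlinarith [G6_cast2 h]
    · rcases G6_int m with h | h | h
      · right; nlinarith [G6_cast1 h]
      · rw [h]; push_cast
        rcases h4 with h4 | h4
        · right; linarith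
        · left; linarith
      · left; nlinarith [G6_cast2 h]

theorem G6_V_frm {θ : ℝ} {p : Par} {c : Cp} {x : ℂ} (h : G6_V θ p (frm θ c x)) : G6_V θ p x := by
  intro y hy
  rw [← fre_frm θ p c]
  apply h
  change ((c.1.1 : ℤ) : ℝ) * (y.re - _) = ((c.1.1 : ℤ) : ℝ) * (x.re - _)
  rw [hy]

theorem G6_H_frm {θ : ℝ} {p : Par} {c : Cp} {x : ℂ} (h : G6_H θ p (frm θ c x)) : G6_H θ p x := by
  intro y hy
  rw [← fre_frm θ p c]
  apply h
  change ((c.1.2 : ℤ) : ℝ) * (y.im - _) = ((c.1.2 : ℤ) : ℝ) * (x.im - _)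
  rw [hy]

/-- either a line through `x` is free, or `x` is in a box. -/
theorem G6_cases {θ : ℝ} {p : Par} (hp : p ∈ Pi1) (x : ℂ) :
    G6_V θ p x ∨ G6_H θ p x ∨ ∃ c, |(frm θ c x).re - 1 / 4| < 1 / 50 ∧ |(frm θ c x).im| < 1 / 50 := by
  by_cases h1 : G6_V θ p x
  · exact Or.inl h1
  by_cases h2 : G6_H θ p x
  · exact Or.inr (Or.inl h2)
  right; right
  have h1' := mt (fun h => G6_V_of (θ := θ) hp h) h1
  have h2' := mt (fun h => G6_H_of (θ := θ) hp h) h2
  push Not at h1' h2'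
  obtain ⟨d, m, hd⟩ := h1'
  obtain ⟨e, n, he⟩ := h2'
  exact ⟨((d, e), (m, n)), hd, he⟩

/-- a free line through `x` joins `x` to the base point. -/
theorem G6_line {θ : ℝ} (hθ : |θ - Real.pi / 4| < 1 / 100) {p : Par} (hp : p ∈ Pi1) {x : ℂ}
    (h : G6_V θ p x ∨ G6_H θ p x) :
    ∃ t : Set ℂ, t ⊆ {x | Fre θ p x} ∧ x ∈ t ∧ (⟨1, bb θ⟩ : ℂ) ∈ t ∧ IsPreconnected t := by
  have cv : ∀ r : ℝ, Convex ℝ {z : ℂ | z.re = r} := by
    intro r
    exact (convex_singleton r).is_linear_preimage Complex.reLm.isLinear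
  have ch : ∀ r : ℝ, Convex ℝ {z : ℂ | z.im = r} := by
    intro r
    exact (convex_singleton r).is_linear_preimage Complex.imLm.isLinear
  rcases h with h | h
  · refine ⟨{z | z.re = x.re} ∪ {z | z.im = bb θ}, ?_, Or.inl rfl, Or.inr rfl, ?_⟩
    · rintro z (hz | hz)
      · exact h z hz
      · exact G6_Hb hθ hp (x := z) hz z rfl
    · exact IsPreconnected.union (⟨x.re, bb θ⟩ : ℂ) rfl rfl (cv _).isPreconnected
        (ch _).isPreconnected
  · refine ⟨{z | z.im = x.im} ∪ {z | z.re = 1}, ?_, Or.inl rfl, Or.inr rfl, ?_⟩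
    · rintro z (hz | hz)
      · exact h z hz
      · exact G6_V1 hp (x := z) hz z rfl
    · exact IsPreconnected.union (⟨1, x.im⟩ : ℂ) rfl rfl (ch _).isPreconnected
        (cv _).isPreconnected

/-- the ray from the vertex `2`. -/
theorem G6_ray {θ : ℝ} (hθ : |θ - Real.pi / 4| < 1 / 100) {p : Par} (hp : p ∈ Pi1) {y : ℂ}
    (hy : Fre θ p y) {t : ℝ} (ht : 1 ≤ t) (hn : t * ‖y - vtx p 2‖ ≤ 1 / 5) :
    Fre θ p (vtx p 2 + (t : ℂ) * (y - vtx p 2)) := by
  have ho : vtx p 2 ∈ obs θ p (1, (0, 0)) := by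
    change frm θ _ _ ∈ Q p
    rw [frm_one]; exact G6_vtx hp 2
  have hray : ∀ c : Cp, frm θ c (vtx p 2) ∈ Q p →
      frm θ c (vtx p 2 + (t : ℂ) * (y - vtx p 2)) ∉ Q p := by
    intro c hc
    have e : frm θ c (vtx p 2 + (t : ℂ) * (y - vtx p 2)) =
        frm θ c (vtx p 2) + (t : ℂ) * (frm θ c y - frm θ c (vtx p 2)) := by
      rw [frm_ray, frm_sub_frm]
    rw [e]
    exact G6_conv hc (hy c) ht
  intro c hc
  by_cases e1 : c = (1, (0, 0))
  · subst e1
    exact hray _ ho hc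
  by_cases e2 : c = TMX.cmp (1, (0, 0)) cj
  · subst e2
    refine hray _ ?_ hc
    rw [← frm_frm, frm_one]
    exact G6_conj hp
  have h4 := TMN.copies_dist2 hθ hp e1 e2 ho hc
  have h5 : ‖vtx p 2 - (vtx p 2 + (t : ℂ) * (y - vtx p 2))‖ = t * ‖y - vtx p 2‖ := by
    have : vtx p 2 - (vtx p 2 + (t : ℂ) * (y - vtx p 2)) = -((t : ℂ) * (y - vtx p 2)) := by ring
    rw [this, norm_neg, norm_mul, Complex.norm_real, Real.norm_eq_abs, abs_of_nonneg (by linarith)]
  rw [h5] at h4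
  linarith

/-- [G6] the complement of the obstacles is connected. -/
theorem fre_connected {θ : ℝ} (hθ : |θ - Real.pi / 4| < 1 / 100) {p : Par} (hp : p ∈ Pi1) :
    IsPreconnected {x : ℂ | Fre θ p x} ∧ IsOpen {x : ℂ | Fre θ p x} := by
  refine ⟨?_, G6_open hθ hp⟩
  apply isPreconnected_of_forall (⟨1, bb θ⟩ : ℂ)
  intro x hx
  have hx' : Fre θ p x := hx
  rcases G6_cases (θ := θ) hp x with h | h | ⟨c, h1, h2⟩
  · obtain ⟨t, a1, a2, a3, a4⟩ := G6_line hθ hp (Or.inl h)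
    exact ⟨t, a1, a3, a2, a4⟩
  · obtain ⟨t, a1, a2, a3, a4⟩ := G6_line hθ hp (Or.inr h)
    exact ⟨t, a1, a3, a2, a4⟩
  · set y := frm θ c x with hyd
    have hy : Fre θ p y := (fre_frm θ p c x).mpr hx'
    obtain ⟨b1, b2⟩ := hp.2.2.2.1 2
    have hne : y ≠ vtx p 2 := by
      intro he
      apply hy (1, (0, 0))
      change frm θ _ _ ∈ Q p
      rw [frm_one, he]; exact G6_vtx hp 2
    have hpos : 0 < ‖y - vtx p 2‖ := norm_pos_iff.mpr (sub_ne_zero.mpr hne)
    have hsm : ‖y - vtx p 2‖ < 1 / 5 := by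
      have e1 : |(y - vtx p 2).re| < 2 / 50 := by
        rw [Complex.sub_re, abs_lt]
        obtain ⟨b1, b1'⟩ := abs_lt.1 b1
        obtain ⟨h1, h1'⟩ := abs_lt.1 h1
        constructor <;> linarith
      have e2 : |(y - vtx p 2).im| < 2 / 50 := by
        rw [Complex.sub_im, abs_lt]
        obtain ⟨b2, b2'⟩ := abs_lt.1 b2
        obtain ⟨h2, h2'⟩ := abs_lt.1 h2
        constructor <;> linarith
      have e3 := Complex.norm_le_abs_re_add_abs_im (y - vtx p 2)
      linarith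
    set T : ℝ := (1 / 5) / ‖y - vtx p 2‖ with hT
    have hT1 : 1 ≤ T := by
      rw [hT, le_div_iff₀ hpos]; linarith
    have hTn : T * ‖y - vtx p 2‖ = 1 / 5 := by
      rw [hT]; field_simp
    set g : ℝ → ℂ := fun s => frm θ (inv c) (vtx p 2 + (s : ℂ) * (y - vtx p 2)) with hg
    have hgc : Continuous g := by
      apply (continuous_frm θ (inv c)).comp
      fun_prop
    have hg1 : g 1 = x := by
      simp only [hg]
      rw [Complex.ofReal_one, one_mul, add_sub_cancel, hyd, frm_inv]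
    have hgf : ∀ s ∈ Icc (1 : ℝ) T, Fre θ p (g s) := by
      intro s hs
      apply (fre_frm θ p (inv c) _).mpr
      apply G6_ray hθ hp hy hs.1
      calc s * ‖y - vtx p 2‖ ≤ T * ‖y - vtx p 2‖ :=
            mul_le_mul_of_nonneg_right hs.2 hpos.le
        _ ≤ 1 / 5 := hTn.le
    have hfar : G6_V θ p (g T) ∨ G6_H θ p (g T) := by
      have h3 : G6_V θ p (frm θ c (g T)) ∨ G6_H θ p (frm θ c (g T)) := by
        simp only [hg]
        rw [frm_inv']
        apply G6_far hθ hp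
        rw [add_sub_cancel_left, norm_mul, Complex.norm_real, Real.norm_eq_abs,
          abs_of_nonneg (by linarith), hTn]
      rcases h3 with h3 | h3
      · exact Or.inl (G6_V_frm h3)
      · exact Or.inr (G6_H_frm h3)
    obtain ⟨t, a1, a2, a3, a4⟩ := G6_line hθ hp hfar
    refine ⟨g '' Icc 1 T ∪ t, ?_, Or.inr a3, Or.inl ⟨1, ⟨le_refl _, hT1⟩, hg1⟩, ?_⟩
    · rintro z (⟨s, hs, rfl⟩ | hz)
      · exact hgf s hs
      · exact a1 hz
    · exact IsPreconnected.union (g T) ⟨T, ⟨hT1, le_refl _⟩, rfl⟩ a2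
        (isPreconnected_Icc.image g hgc.continuousOn) a4

end TMN
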