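import Pool.Agent.TMN.Base

/-! # TMN, row I2a: preservation of length and integrals of piecewise constant functions -/

set_option autoImplicit false

open Set Filter Topology MeasureTheory

namespace TMN

open TMX


private lemma I2a_fin {W : Type} {A : Set (W × ℝ)} (hA : A.Finite) (w : W) :
    {o : ℝ | (w, o) ∈ A}.Finite := by
  refine (hA.image Prod.snd).subset ?_
  intro o ho
  exact ⟨(w, o), ho, rfl⟩

/-- the part of the component `w` that is mapped into the component `w'`. -/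
private def I2a_s {W : Type} (Y : Sys W) (w w' : W) : Set ℝ :=
  {o | (w, o) ∈ Y.S \ Y.A ∧ (Y.T (w, o)).1 = w'}

private lemma I2a_open {W : Type} (Y : Sys W) (ok : Ok2 Y) (w w' : W) : IsOpen (I2a_s Y w w') := by
  rw [isOpen_iff_mem_nhds]
  rintro o ⟨ho, h1⟩
  obtain ⟨e, he, hev⟩ := ok.loc (w, o) ho
  have h2 : Tendsto (fun o' : ℝ => o' - o) (𝓝 o) (𝓝 0) := by
    have := (continuous_sub_right o).tendsto o
    simpa using this
  have h3 := h2.eventually hev
  filter_upwards [h3] with o' ho'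
  have h4 : ((w, o).1, (w, o).2 + (o' - o)) = (w, o') := by simp
  rw [h4] at ho'
  refine ⟨ho'.1, ?_⟩
  rw [ho'.2, ← h1]

private lemma I2a_deriv {W : Type} (Y : Sys W) (ok : Ok2 Y) (w : W) (o : ℝ)
    (ho : (w, o) ∈ Y.S \ Y.A) : ∃ e : ℝ, |e| = 1 ∧ HasDerivAt (fun t => (Y.T (w, t)).2) e o := by
  obtain ⟨e, he, hev⟩ := ok.loc (w, o) ho
  refine ⟨e, ?_, ?_⟩
  · rcases he with rfl | rfl <;> simp
  have h2 : Tendsto (fun o' : ℝ => o' - o) (𝓝 o) (𝓝 0) := by
    have := (continuous_sub_right o).tendsto o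
    simpa using this
  have h3 := h2.eventually hev
  have h5 : HasDerivAt (fun t : ℝ => (Y.T (w, o)).2 + e * (t - o)) e o := by
    have := (((hasDerivAt_id o).sub_const o).const_mul e).const_add ((Y.T (w, o)).2)
    simpa using this
  refine h5.congr_of_eventuallyEq ?_
  filter_upwards [h3] with o' ho'
  have h4 : ((w, o).1, (w, o).2 + (o' - o)) = (w, o') := by simp
  rw [h4] at ho'
  rw [ho'.2]

private lemma I2a_S {W : Type} (Y : Sys W) {w : W} (hw : w ∈ Y.C) :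
    {o : ℝ | (w, o) ∈ Y.S} = Ioo (Y.a w) (Y.b w) := by
  ext o
  simp only [Sys.S, mem_setOf_eq, mem_Ioo]
  exact ⟨fun h => h.2, fun h => ⟨hw, h⟩⟩

private lemma I2a_drop {W : Type} (Y : Sys W) (ok : Ok2 Y) {w : W} (hw : w ∈ Y.C)
    {A : Set (W × ℝ)} (hA : A.Finite) (F : ℝ → ℝ) :
    ∫ o in (Y.a w)..(Y.b w), F o = ∫ o in {o : ℝ | (w, o) ∈ Y.S \ A}, F o := by
  rw [intervalIntegral.integral_of_le (ok.hab w hw).le, integral_Ioc_eq_integral_Ioo]
  refine setIntegral_congr_set ?_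
  have h1 : {o : ℝ | (w, o) ∈ Y.S \ A} = Ioo (Y.a w) (Y.b w) \ {o : ℝ | (w, o) ∈ A} := by
    rw [← I2a_S Y hw]; rfl
  rw [h1]
  have h2 : volume {o : ℝ | (w, o) ∈ A} = 0 := (I2a_fin hA w).measure_zero volume
  exact (diff_null_ae_eq_self h2).symm

/-- [I2a] the system preserves length. -/
theorem pres2 {W : Type} (Y : Sys W) (ok : Ok2 Y) (g : W × ℝ → ℝ)
    (hm : ∀ w ∈ Y.C, Measurable fun o => g (w, o)) (K : ℝ) (hK : ∀ x ∈ Y.S, |g x| ≤ K) :
    ∑ w ∈ Y.C, ∫ o in (Y.a w)..(Y.b w), g (Y.T (w, o)) =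
      ∑ w ∈ Y.C, ∫ o in (Y.a w)..(Y.b w), g (w, o) := by
  classical
  -- the derivative
  choose! e he hd using fun (x : W × ℝ) (hx : x ∈ Y.S \ Y.A) => I2a_deriv Y ok x.1 x.2 hx
  have hTS : ∀ x ∈ Y.S \ Y.A, Y.T x ∈ Y.S \ Y.B := fun x hx => ok.bij.mapsTo hx
  have hsub : ∀ w w' : W, ∀ o ∈ I2a_s Y w w', (w, o) ∈ Y.S \ Y.A := fun w w' o ho => ho.1
  have hmeas : ∀ w w' : W, MeasurableSet (I2a_s Y w w') := fun w w' => (I2a_open Y ok w w').measurableSet
  have hder : ∀ w w' : W, ∀ o ∈ I2a_s Y w w',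
      HasDerivWithinAt (fun t => (Y.T (w, t)).2) (e (w, o)) (I2a_s Y w w') o :=
    fun w w' o ho => (hd (w, o) ho.1).hasDerivWithinAt
  have hinj : ∀ w w' : W, InjOn (fun t => (Y.T (w, t)).2) (I2a_s Y w w') := by
    intro w w' o ho o' ho' h
    have h1 : Y.T (w, o) = Y.T (w, o') := Prod.ext (ho.2.trans ho'.2.symm) h
    have h2 := ok.bij.injOn ho.1 ho'.1 h1
    exact (Prod.ext_iff.1 h2).2
  have himS : ∀ w w' : W, (fun t => (Y.T (w, t)).2) '' (I2a_s Y w w') ⊆ {o | (w', o) ∈ Y.S \ Y.B} := by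
    rintro w w' _ ⟨o, ho, rfl⟩
    have h1 := hTS _ ho.1
    have h2 : (w', (Y.T (w, o)).2) = Y.T (w, o) := Prod.ext ho.2.symm rfl
    simp only [mem_setOf_eq]
    rw [h2]
    exact h1
  have himM : ∀ w w' : W, MeasurableSet ((fun t => (Y.T (w, t)).2) '' (I2a_s Y w w')) := by
    intro w w'
    refine (hmeas w w').image_of_continuousOn_injOn ?_ (hinj w w')
    intro o ho
    exact (hder w w' o ho).continuousWithinAt
  -- integrability of g on measurable subsets of the components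
  have hint : ∀ w' ∈ Y.C, ∀ s : Set ℝ, MeasurableSet s → s ⊆ {o | (w', o) ∈ Y.S} →
      IntegrableOn (fun o => g (w', o)) s := by
    intro w' hw' s hs hsS
    rw [I2a_S Y hw'] at hsS
    have hfin : volume s ≠ ⊤ := by
      refine ne_top_of_le_ne_top ?_ (measure_mono hsS)
      simp
    refine Measure.integrableOn_of_bounded hfin (hm w' hw').aestronglyMeasurable (M := K) ?_
    refine (ae_restrict_iff' hs).2 (Eventually.of_forall fun o ho => ?_)
    rw [Real.norm_eq_abs]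
    refine hK (w', o) ?_
    have := hsS ho
    rw [← I2a_S Y hw'] at this
    exact this
  -- one piece
  have hpiece : ∀ w w' : W, ∫ o in I2a_s Y w w', g (Y.T (w, o)) =
      ∫ o in (fun t => (Y.T (w, t)).2) '' (I2a_s Y w w'), g (w', o) := by
    intro w w'
    rw [integral_image_eq_integral_abs_deriv_smul (hmeas w w') (hder w w') (hinj w w')]
    refine setIntegral_congr_fun (hmeas w w') fun o ho => ?_
    have h2 : (w', (Y.T (w, o)).2) = Y.T (w, o) := Prod.ext ho.2.symm rfl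
    simp only [he (w, o) ho.1, one_smul, h2]
  have hpieceI : ∀ w : W, ∀ w' ∈ Y.C, IntegrableOn (fun o => g (Y.T (w, o))) (I2a_s Y w w') := by
    intro w w' hw'
    have h1 := (integrableOn_image_iff_integrableOn_abs_deriv_smul (hmeas w w') (hder w w')
      (hinj w w') (fun o => g (w', o))).1
      (hint w' hw' _ (himM w w') ((himS w w').trans fun o ho => ho.1))
    refine h1.congr_fun (fun o ho => ?_) (hmeas w w')
    have h2 : (w', (Y.T (w, o)).2) = Y.T (w, o) := Prod.ext ho.2.symm rfl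
    simp only [he (w, o) ho.1, one_smul, h2]
  -- left side
  have hL : ∀ w ∈ Y.C, ∫ o in (Y.a w)..(Y.b w), g (Y.T (w, o)) =
      ∑ w' ∈ Y.C, ∫ o in I2a_s Y w w', g (Y.T (w, o)) := by
    intro w hw
    rw [I2a_drop Y ok hw ok.finA]
    have h1 : {o : ℝ | (w, o) ∈ Y.S \ Y.A} = ⋃ w' ∈ Y.C, I2a_s Y w w' := by
      ext o
      simp only [mem_iUnion, exists_prop]
      constructor
      · intro ho
        exact ⟨(Y.T (w, o)).1, (hTS _ ho).1.1, ho, rfl⟩
      · rintro ⟨w', -, ho⟩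
        exact ho.1
    rw [h1]
    refine integral_biUnion_finset Y.C (fun w' _ => hmeas w w') ?_ (fun w' hw' => hpieceI w w' hw')
    intro w₁ _ w₂ _ hne
    refine Set.disjoint_left.2 ?_
    rintro o ho ho'
    exact hne (ho.2.symm.trans ho'.2)
  -- right side
  have hR : ∀ w' ∈ Y.C, ∫ o in (Y.a w')..(Y.b w'), g (w', o) =
      ∑ w ∈ Y.C, ∫ o in (fun t => (Y.T (w, t)).2) '' (I2a_s Y w w'), g (w', o) := by
    intro w' hw'
    rw [I2a_drop Y ok hw' ok.finB]
    have h1 : {o : ℝ | (w', o) ∈ Y.S \ Y.B} =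
        ⋃ w ∈ Y.C, (fun t => (Y.T (w, t)).2) '' (I2a_s Y w w') := by
      refine Subset.antisymm ?_ ?_
      · intro o ho
        obtain ⟨x, hx, hxo⟩ := ok.bij.surjOn ho
        simp only [mem_iUnion, exists_prop]
        refine ⟨x.1, hx.1.1, x.2, ⟨hx, ?_⟩, ?_⟩
        · simp [hxo]
        · simp [hxo]
      · refine iUnion₂_subset fun w _ => himS w w'
    rw [h1]
    refine integral_biUnion_finset Y.C (fun w _ => himM w w') ?_
      (fun w _ => hint w' hw' _ (himM w w') ((himS w w').trans fun o ho => ho.1))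
    intro w₁ _ w₂ _ hne
    refine Set.disjoint_left.2 ?_
    rintro _ ⟨o, ho, rfl⟩ ⟨o', ho', h⟩
    have h1 : Y.T (w₂, o') = Y.T (w₁, o) := Prod.ext (ho'.2.trans ho.2.symm) h
    have h2 := ok.bij.injOn ho'.1 ho.1 h1
    exact hne (Prod.ext_iff.1 h2).1.symm
  calc ∑ w ∈ Y.C, ∫ o in (Y.a w)..(Y.b w), g (Y.T (w, o))
      = ∑ w ∈ Y.C, ∑ w' ∈ Y.C, ∫ o in I2a_s Y w w', g (Y.T (w, o)) := Finset.sum_congr rfl hL
    _ = ∑ w ∈ Y.C, ∑ w' ∈ Y.C,
          ∫ o in (fun t => (Y.T (w, t)).2) '' (I2a_s Y w w'), g (w', o) :=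
        Finset.sum_congr rfl fun w _ => Finset.sum_congr rfl fun w' _ => hpiece w w'
    _ = ∑ w' ∈ Y.C, ∑ w ∈ Y.C,
          ∫ o in (fun t => (Y.T (w, t)).2) '' (I2a_s Y w w'), g (w', o) := Finset.sum_comm
    _ = ∑ w' ∈ Y.C, ∫ o in (Y.a w')..(Y.b w'), g (w', o) :=
        Finset.sum_congr rfl fun w' hw' => (hR w' hw').symm



private lemma I2a6_const {a b : ℝ} {g : ℝ → ℝ}
    (hg : ∀ x ∈ Ioo a b, ∀ᶠ t in 𝓝 x, g t = g x) {x y : ℝ} (hx : x ∈ Ioo a b)
    (hy : y ∈ Ioo a b) : g x = g y := by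
  refine isPreconnected_Ioo.induction₂' (fun u v => g u = g v) ?_ ?_ hx hy
  · intro u hu
    refine eventually_nhdsWithin_of_eventually_nhds ?_
    filter_upwards [hg u hu] with t ht
    exact ⟨ht.symm, ht⟩
  · intro u v w _ _ _ h1 h2
    exact h1.trans h2

private lemma I2a6_one (V : AddSubgroup ℝ) (K : Set ℝ) (hKV : ∀ k ∈ K, ∀ v ∈ V, k * v ∈ V)
    (g : ℝ → ℝ) : ∀ (n : ℕ) (F : Finset ℝ), F.card = n → ∀ a b : ℝ, a < b → a ∈ V → b ∈ V →
      (∀ x ∈ F, a < x ∧ x < b ∧ x ∈ V) →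
      (∀ x, a < x → x < b → x ∉ F → g x ∈ K ∧ ∀ᶠ t in 𝓝 x, g t = g x) →
      IntervalIntegrable g volume a b ∧ ∫ o in a..b, g o ∈ V := by
  intro n
  induction n using Nat.strong_induction_on with
  | _ n ih =>
    intro F hF a b hab ha hb hFV hg
    rcases F.eq_empty_or_nonempty with rfl | ⟨c, hc⟩
    · -- constant
      obtain ⟨m, hm⟩ := exists_between hab
      have h1 : ∀ x ∈ Ioo a b, g x = g m := by
        intro x hx
        exact I2a6_const (fun u hu => (hg u hu.1 hu.2 (by simp)).2) hx ⟨hm.1, hm.2⟩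
      have h2 : ∀ᵐ x ∂volume, x ∈ Set.uIoc a b → g x = g m := by
        have h0 : ∀ᵐ x : ℝ ∂volume, x ≠ b := by
          have : volume ({b} : Set ℝ) = 0 := by simp
          exact (measure_eq_zero_iff_ae_notMem.1 this).mono fun x hx h => hx (by simp [h])
        filter_upwards [h0] with x hx hxm
        rw [uIoc_of_le hab.le] at hxm
        exact h1 x ⟨hxm.1, lt_of_le_of_ne hxm.2 hx⟩
      have h3 : ∫ o in a..b, g o = g m * (b - a) := by
        rw [intervalIntegral.integral_congr_ae h2]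
        simp [mul_comm]
      refine ⟨?_, ?_⟩
      · have hc : IntervalIntegrable (fun _ : ℝ => g m) volume a b := intervalIntegrable_const
        refine hc.congr_ae ?_
        refine (ae_restrict_iff' measurableSet_uIoc).2 ?_
        filter_upwards [h2] with x hx hxm
        exact (hx hxm).symm
      · rw [h3]
        exact hKV _ (hg m hm.1 hm.2 (by simp)).1 _ (V.sub_mem hb ha)
    · obtain ⟨hac, hcb, hcV⟩ := hFV c hc
      have hlt1 : (F.filter (· < c)).card < n := by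
        rw [← hF]
        refine Finset.card_lt_card ?_
        refine (Finset.filter_ssubset).2 ⟨c, hc, by simp⟩
      have hlt2 : (F.filter (c < ·)).card < n := by
        rw [← hF]
        refine Finset.card_lt_card ?_
        refine (Finset.filter_ssubset).2 ⟨c, hc, by simp⟩
      have h1 := ih _ hlt1 (F.filter (· < c)) rfl a c hac ha hcV
        (fun x hx => by
          have hx' := Finset.mem_filter.1 hx
          exact ⟨(hFV x hx'.1).1, hx'.2, (hFV x hx'.1).2.2⟩)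
        (fun x hax hxc hxF => hg x hax (hxc.trans hcb) fun h => hxF (Finset.mem_filter.2 ⟨h, hxc⟩))
      have h2 := ih _ hlt2 (F.filter (c < ·)) rfl c b hcb hcV hb
        (fun x hx => by
          have hx' := Finset.mem_filter.1 hx
          exact ⟨hx'.2, (hFV x hx'.1).2.1, (hFV x hx'.1).2.2⟩)
        (fun x hcx hxb hxF => hg x (hac.trans hcx) hxb fun h => hxF (Finset.mem_filter.2 ⟨h, hcx⟩))
      refine ⟨h1.1.trans h2.1, ?_⟩
      rw [← intervalIntegral.integral_add_adjacent_intervals h1.1 h2.1]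
      exact V.add_mem h1.2 h2.2

/-- [I2a] integrals of piecewise constant functions. -/
theorem int_pc2 {W : Type} (Y : Sys W) (ok : Ok2 Y) (V : AddSubgroup ℝ) (K : Set ℝ)
    (hKV : ∀ k ∈ K, ∀ v ∈ V, k * v ∈ V) (hVa : ∀ w ∈ Y.C, Y.a w ∈ V ∧ Y.b w ∈ V)
    (hVA : ∀ x ∈ Y.A, x.2 ∈ V) (g : W × ℝ → ℝ)
    (hg : ∀ x ∈ Y.S \ Y.A, ∀ᶠ t in 𝓝 (0 : ℝ), g (x.1, x.2 + t) = g x)
    (hgK : ∀ x ∈ Y.S \ Y.A, g x ∈ K) :
    ∑ w ∈ Y.C, ∫ o in (Y.a w)..(Y.b w), g (w, o) ∈ V := by
  classical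
  refine V.sum_mem fun w hw => ?_
  have hfin : {o : ℝ | (w, o) ∈ Y.A}.Finite := by
    refine (ok.finA.image Prod.snd).subset ?_
    intro o ho
    exact ⟨(w, o), ho, rfl⟩
  refine (I2a6_one V K hKV (fun o => g (w, o)) _ hfin.toFinset rfl (Y.a w) (Y.b w) (ok.hab w hw)
    (hVa w hw).1 (hVa w hw).2 ?_ ?_).2
  · intro x hx
    have hx' : (w, x) ∈ Y.A := by simpa using hx
    have h2 := ok.subA hx'
    exact ⟨h2.2.1, h2.2.2, hVA _ hx'⟩
  · intro x hax hxb hxF
    have hx' : (w, x) ∈ Y.S \ Y.A := ⟨⟨hw, hax, hxb⟩, by simpa using hxF⟩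
    refine ⟨hgK _ hx', ?_⟩
    have h2 : Tendsto (fun t : ℝ => t - x) (𝓝 x) (𝓝 0) := by
      have := (continuous_sub_right x).tendsto x
      simpa using this
    filter_upwards [h2.eventually (hg _ hx')] with t ht
    have h4 : ((w, x).1, (w, x).2 + (t - x)) = (w, t) := by simp
    rw [h4] at ht
    exact ht

end TMN
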