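import Pool.Agent.TMN.Table
import Pool.Agent.TMX.Basic

/-!
# MP_613dd8_an [TMN]: auxiliary definitions
-/

set_option autoImplicit false

open Set Filter Topology

namespace TMN

open TMX

noncomputable section

/-! ## States and paths (the copies `c` and `cmp c cj` of `Q p` overlap) -/

/-- The reflection in the bottom wall. -/
def cj : Cp := ((1, -1), (0, 0))

/-- `(x, w)` is an outgoing state: `x` is on the boundary of `Q p`, not below the real axis, and the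
ray leaves `Q p` and, if `x` is on the real axis, also the mirror image of `Q p`. -/
def Out2 (p : Par) (x w : ℂ) : Prop :=
  Out p x w ∧ 0 ≤ x.im ∧ (x.im = 0 → Out p x ((starRingEnd ℂ) w))

/-- The first obstacle on the way of `z` is the visible part of the open side `a`. -/
def Good2 (θ : ℝ) (p : Par) (a : Lt) (z : ℂ × ℂ) : Prop :=
  Good θ p a z ∧ 0 < (nx θ p a z).1.im

def GoodL2 (θ : ℝ) (p : Par) : List Lt → ℂ × ℂ → Prop
  | [], _ => True
  | a :: l, z => Good2 θ p a z ∧ GoodL2 θ p l (nx θ p a z)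

/-- The path of `z` follows `l`, then moves freely and is in `V` (after folding) at time `t`. -/
def VisitL2 (θ : ℝ) (p : Par) (l : List Lt) (z : ℂ × ℂ) (V : Set (ℂ × ℂ)) (t : ℝ) : Prop :=
  GoodL2 θ p l z ∧ tim θ p l z < t ∧
    (∀ s : ℝ, 0 < s → s ≤ t - tim θ p l z → Fre θ p ((run θ p l z).1 + s * (run θ p l z).2)) ∧
    ∃ c : Cp, (frm θ c ((run θ p l z).1 + (t - tim θ p l z : ℝ) * (run θ p l z).2),
      act c.1 (run θ p l z).2) ∈ V

def Visit2 (θ : ℝ) (p : Par) (z : ℂ × ℂ) (V : Set (ℂ × ℂ)) (t : ℝ) : Prop :=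
  ∃ l, VisitL2 θ p l z V t

/-- `v` is a vertex of the union of `Q p` and its mirror image, in the closed upper half plane, and the
ray from `v` in direction `w` leaves this union. (Rays that arrive at `v` in direction `w`:
`Vst p v (-w)`.) -/
def Vst (p : Par) (v w : ℂ) : Prop :=
  (∃ i : Fin 4, i ≠ 2 ∧ v = vtx p i ∧ ¬ (dot w (nu p i) < 0 ∧ dot w (nu p (i + 1)) < 0)) ∨
  (∃ k : Fin 4, (k = 2 ∨ k = 3) ∧ v = jt p k ∧ 0 < dot w (nu p k) ∧
    0 < dot ((starRingEnd ℂ) w) (nu p k))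

/-- The visible part of the side `s` goes from `sv p s` to `se p s`. -/
def sv (p : Par) : Fin 4 → ℂ := ![vtx p 3, vtx p 0, vtx p 1, jt p 3]
def se (p : Par) : Fin 4 → ℂ := ![vtx p 0, vtx p 1, jt p 2, vtx p 3]

/-! ## Interval exchanges with flips: weaker condition at the end points -/

/-- Base point of the end germ `g = (component, ±1)`. -/
def bs {W : Type} (Y : Sys W) (g : W × ℝ) : ℝ := open Classical in if g.2 = 1 then Y.a g.1 else Y.b g.1

/-- `T` maps the end germ `g` to the end germ `g'`. -/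
def Nx {W : Type} (Y : Sys W) (g g' : W × ℝ) : Prop :=
  ∀ᶠ t in 𝓝[>] (0 : ℝ), Y.T (g.1, bs Y g + g.2 * t) = (g'.1, bs Y g' + g'.2 * t)

/-- As `Sys.Ok`, with the condition that an end germ is not mapped to end germs forever. -/
structure Ok2 {W : Type} (Y : Sys W) : Prop where
  hab : ∀ w ∈ Y.C, Y.a w < Y.b w
  finA : Y.A.Finite
  finB : Y.B.Finite
  subA : Y.A ⊆ Y.S
  subB : Y.B ⊆ Y.S
  bij : BijOn Y.T (Y.S \ Y.A) (Y.S \ Y.B)
  loc : ∀ x ∈ Y.S \ Y.A, ∃ e : ℝ, (e = 1 ∨ e = -1) ∧ ∀ᶠ t in 𝓝 (0 : ℝ),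
    (x.1, x.2 + t) ∈ Y.S \ Y.A ∧ Y.T (x.1, x.2 + t) = ((Y.T x).1, (Y.T x).2 + e * t)
  ep : ∀ g : ℕ → W × ℝ, (∀ n, (g n).1 ∈ Y.C ∧ ((g n).2 = 1 ∨ (g n).2 = -1)) →
    ¬ ∀ n, Nx Y (g n) (g (n + 1))
  nc : ∀ y ∈ Y.B, ∀ n : ℕ, Y.T^[n] y ∉ Y.A
  conn : ∀ D : Set W, (∀ x ∈ Y.S \ Y.A, x.1 ∈ D ↔ (Y.T x).1 ∈ D) → (∃ w ∈ Y.C, w ∈ D) →
    ∀ w ∈ Y.C, w ∈ D
  neA : Y.A.Nonempty

/-! ## The section: components are pairs (direction, side) -/

/-- The point with offset `o` (in the direction `w`) on the line of the side `s`. -/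
def XS (p : Par) (w : ℂ) (s : Fin 4) (o : ℝ) : ℂ :=
  (p.2 s : ℂ) * nu p s +
    (((o - p.2 s * crs w (nu p s)) / dot w (nu p s) : ℝ) : ℂ) * (Complex.I * nu p s)

/-- The plane state of a point of the section. -/
def stt (p : Par) (x : (ℂ × Fin 4) × ℝ) : ℂ × ℂ := (XS p x.1.1 x.1.2 x.2, x.1.1)

open Classical in
/-- The letter of the first side hit (junk value if there is none). -/
def ltr2 (θ : ℝ) (p : Par) (x : (ℂ × Fin 4) × ℝ) : Lt :=
  if h : ∃ a, Good2 θ p a (stt p x) then h.choose else ((1, 0), 0)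

/-- The section map. -/
def TS (θ : ℝ) (p : Par) (x : (ℂ × Fin 4) × ℝ) : (ℂ × Fin 4) × ℝ :=
  (((nx θ p (ltr2 θ p x) (stt p x)).2, (ltr2 θ p x).2),
    crs (nx θ p (ltr2 θ p x) (stt p x)).2 (nx θ p (ltr2 θ p x) (stt p x)).1)

/-- The components of the section. -/
def CC (θ : ℝ) (p : Par) (n : ℕ) : Set (ℂ × Fin 4) := {c | c.1 ∈ DD θ n ∧ 0 < dot c.1 (nu p c.2)}

/-- The space of the section. -/
def ES (θ : ℝ) (p : Par) (n : ℕ) : Set ((ℂ × Fin 4) × ℝ) :=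
  {x | x.1 ∈ CC θ p n ∧ crs x.1.1 (sv p x.1.2) < x.2 ∧ x.2 < crs x.1.1 (se p x.1.2)}

/-- States that run into a vertex. -/
def EA (θ : ℝ) (p : Par) (n : ℕ) : Set ((ℂ × Fin 4) × ℝ) :=
  {x | x ∈ ES θ p n ∧ ∀ a, ¬ Good2 θ p a (stt p x)}

def EB (θ : ℝ) (p : Par) (n : ℕ) : Set ((ℂ × Fin 4) × ℝ) :=
  ES θ p n \ TS θ p '' (ES θ p n \ EA θ p n)

/-- Time reversal on the section. -/
def RV (p : Par) (x : (ℂ × Fin 4) × ℝ) : (ℂ × Fin 4) × ℝ :=
  ((-refl p x.1.2 x.1.1, x.1.2), crs (-refl p x.1.2 x.1.1) (XS p x.1.1 x.1.2 x.2))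

/-- Coordinate of a point of the section along its direction. -/
def bt (p : Par) (x : (ℂ × Fin 4) × ℝ) : ℝ := dot (XS p x.1.1 x.1.2 x.2) x.1.1

/-- The part of the flight time that is constant on the pieces. -/
def fs (θ : ℝ) (p : Par) (x : (ℂ × Fin 4) × ℝ) : ℝ :=
  dot (lat θ (ltr2 θ p x).1.2) x.1.1 -
    2 * p.2 (ltr2 θ p x).2 * dot (nu p (ltr2 θ p x).2) (TS θ p x).1.1

/-- Generic parameters: as `Gen`, and a second quadratic polynomial is not in `VV`. -/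
structure Gen2 (θ : ℝ) (p : Par) (n : ℕ) : Prop extends Gen θ p n where
  quad2 : (p.2 0 + p.2 2) * (p.2 1 + p.2 3) -
    (p.2 2 * (nu p 2).im + p.2 3 * (nu p 3).im) ^ 2 / (2 * Real.sin p.1 * Real.cos p.1) ∉ VV θ p

end

end TMN
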