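import Pool.Agent.TMN.Base
import Pool.Agent.TMN.Defs
import Pool.Agent.TMX.I1

/-!
(adapted from `Pool/Agent/TMX/I0.lean` and `Pool/Agent/TMX/I1.lean`)
-/

set_option autoImplicit false

open Set Filter Topology

namespace TMN

open TMX

variable {W : Type}

theorem Ok2.mapsTo {Y : Sys W} (ok : Ok2 Y) : MapsTo Y.T (Y.S \ Y.A) Y.S :=
  fun _ hx => (ok.bij.mapsTo hx).1

theorem Sys.germ_next {Y : Sys W} (ok : Ok2 Y) {g : (W × ℝ) × ℝ} (hg : Y.Gm g) : ∃ g', Y.Gm g' ∧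
      ∀ᶠ t in 𝓝[>] (0 : ℝ), gpt g t ∈ Y.S \ Y.A ∧ Y.T (gpt g t) = gpt g' t :=
  Sys.germ_next' ok.finA ok.mapsTo ok.loc hg

theorem Sys.GT_spec {Y : Sys W} (ok : Ok2 Y) {g : (W × ℝ) × ℝ} (hg : Y.Gm g) : Y.Gm (Y.GT g) ∧
      ∀ᶠ t in 𝓝[>] (0 : ℝ), gpt g t ∈ Y.S \ Y.A ∧ Y.T (gpt g t) = gpt (Y.GT g) t := by
  have h := Sys.germ_next ok hg
  unfold Sys.GT; rw [dif_pos h]; exact h.choose_spec

theorem Sys.GT_eq {Y : Sys W} (ok : Ok2 Y) {g g' : (W × ℝ) × ℝ} (hg : Y.Gm g)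
    (h : ∃ᶠ t in 𝓝[>] (0 : ℝ), Y.T (gpt g t) = gpt g' t) : Y.GT g = g' := by
  apply gpt_uniq
  apply (h.and_eventually (Sys.GT_spec ok hg).2).mono
  rintro t ⟨h1, h2⟩
  rw [← h1, h2.2]

theorem Sys.GT_iter {Y : Sys W} (ok : Ok2 Y) {g : (W × ℝ) × ℝ} (hg : Y.Gm g) (n : ℕ) :
    Y.Gm (Y.GT^[n] g) ∧ ∀ᶠ t in 𝓝[>] (0 : ℝ), (∀ k < n, Y.T^[k] (gpt g t) ∈ Y.S \ Y.A) ∧
      Y.T^[n] (gpt g t) = gpt (Y.GT^[n] g) t := by
  induction n with
  | zero => exact ⟨hg, Eventually.of_forall fun t => ⟨fun k hk => absurd hk (Nat.not_lt_zero k), rfl⟩⟩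
  | succ n ih =>
    obtain ⟨ih1, ih2⟩ := ih
    obtain ⟨h1, h2⟩ := Sys.GT_spec ok ih1
    rw [Function.iterate_succ_apply']
    refine ⟨h1, ?_⟩
    filter_upwards [ih2, h2] with t ha hb
    refine ⟨fun k hk => ?_, ?_⟩
    · rcases Nat.lt_succ_iff_lt_or_eq.mp hk with hk | rfl
      · exact ha.1 k hk
      · rw [ha.2]; exact hb.1
    · rw [Function.iterate_succ_apply', ha.2, hb.2]

/-- Regular base. -/
theorem Sys.GT_reg {Y : Sys W} (ok : Ok2 Y) {g : (W × ℝ) × ℝ} (hg : Y.Gm g) (hb : g.1 ∈ Y.S \ Y.A) :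
    (Y.GT g).1 = Y.T g.1 := by
  obtain ⟨e, he, hloc⟩ := ok.loc _ hb
  have : Y.GT g = (Y.T g.1, e * g.2) := by
    apply Sys.GT_eq ok hg
    apply Eventually.frequently
    filter_upwards [(tendsto_mul_zero g.2).eventually hloc] with t ht
    have := ht.2
    simp only [gpt] at this ⊢
    rw [this]; simp only [Prod.mk.injEq, true_and]; ring
  rw [this]

/-- A singular base has a singular image. -/
theorem Sys.GT_sing {Y : Sys W} (ok : Ok2 Y) {g : (W × ℝ) × ℝ} (hg : Y.Gm g)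
    (hb : g.1 ∉ Y.S \ Y.A) : (Y.GT g).1 ∉ Y.S \ Y.B := by
  intro hy
  obtain ⟨x', hx', hxy⟩ := ok.bij.surjOn hy
  obtain ⟨e, he, hloc⟩ := ok.loc _ hx'
  obtain ⟨h1, h2⟩ := Sys.GT_spec ok hg
  have he2 : e * e = 1 := by rcases he with he | he <;> rw [he] <;> norm_num
  have : g = (x', e * (Y.GT g).2) := by
    apply gpt_uniq'
    filter_upwards [h2, (tendsto_mul_zero (e * (Y.GT g).2)).eventually hloc] with t ha hb'
    apply ok.bij.injOn ha.1 hb'.1
    rw [ha.2]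
    have := hb'.2
    simp only [gpt] at this ⊢
    rw [this, hxy]
    simp only [Prod.mk.injEq, true_and]
    linear_combination (-(Y.GT g).2 * t) * he2
  apply hb; rw [this]; exact hx'

/-- After a base in `B` the bases are regular for ever. -/
theorem Sys.GT_B {Y : Sys W} (ok : Ok2 Y) {g : (W × ℝ) × ℝ} (hg : Y.Gm g) (hb : g.1 ∈ Y.B) (n : ℕ) :
    (Y.GT^[n] g).1 = Y.T^[n] g.1 ∧ (Y.GT^[n] g).1 ∈ Y.S \ Y.A := by
  induction n with
  | zero => exact ⟨rfl, ok.subB hb, ok.nc _ hb 0⟩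
  | succ n ih =>
    obtain ⟨ih1, ih2⟩ := ih
    have h1 := Sys.GT_reg ok (Sys.GT_iter ok hg n).1 ih2
    rw [Function.iterate_succ_apply', Function.iterate_succ_apply', h1, ih1]
    rw [ih1] at ih2
    refine ⟨rfl, (ok.mapsTo ih2), ?_⟩
    rw [← Function.iterate_succ_apply' Y.T n g.1]
    exact ok.nc _ hb (n + 1)

/-- By `ep`, some image of a germ has its base in the space. -/
theorem Sys.GT_out {Y : Sys W} (ok : Ok2 Y) {g : (W × ℝ) × ℝ} (hg : Y.Gm g) :
    ∃ n : ℕ, (Y.GT^[n] g).1 ∈ Y.S := by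
  by_contra h
  push Not at h
  have hG : ∀ n, Y.Gm (Y.GT^[n] g) := fun n => (Sys.GT_iter ok hg n).1
  have hbs : ∀ n, bs Y ((Y.GT^[n] g).1.1, (Y.GT^[n] g).2) = (Y.GT^[n] g).1.2 := by
    intro n
    obtain ⟨_, h1⟩ := Sys.gm_end (hG n) (h n)
    unfold bs
    rcases h1 with ⟨hs, ho⟩ | ⟨hs, ho⟩
    · rw [if_pos hs]; exact ho.symm
    · rw [if_neg (by simp only [hs]; norm_num)]; exact ho.symm
  apply ok.ep (fun n => ((Y.GT^[n] g).1.1, (Y.GT^[n] g).2))
  · intro n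
    exact ⟨(Sys.gm_end (hG n) (h n)).1, (hG n).1⟩
  · intro n
    change ∀ᶠ t in 𝓝[>] (0 : ℝ), Y.T ((Y.GT^[n] g).1.1,
      bs Y ((Y.GT^[n] g).1.1, (Y.GT^[n] g).2) + (Y.GT^[n] g).2 * t) =
      ((Y.GT^[n + 1] g).1.1, bs Y ((Y.GT^[n + 1] g).1.1, (Y.GT^[n + 1] g).2) +
        (Y.GT^[n + 1] g).2 * t)
    rw [hbs, hbs, Function.iterate_succ_apply']
    exact (Sys.GT_spec ok (hG n)).2.mono fun t ht => ht.2

theorem Sys.GT_to_B {Y : Sys W} (ok : Ok2 Y) {g : (W × ℝ) × ℝ} (hg : Y.Gm g)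
    (hb : g.1 ∉ Y.S \ Y.B) : ∃ n : ℕ, (Y.GT^[n] g).1 ∈ Y.B := by
  classical
  have hex := Sys.GT_out ok hg
  refine ⟨Nat.find hex, ?_⟩
  have h1 := Nat.find_spec hex
  have h2 : (Y.GT^[Nat.find hex] g).1 ∉ Y.S \ Y.B := by
    rcases hn : Nat.find hex with _ | m
    · exact hb
    · have h3 : (Y.GT^[m] g).1 ∉ Y.S := Nat.find_min hex (by omega)
      rw [Function.iterate_succ_apply']
      exact Sys.GT_sing ok (Sys.GT_iter ok hg m).1 fun h => h3 h.1
  by_contra h3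
  exact h2 ⟨h1, h3⟩

/-- Some image of a germ with a singular base has its base in `B`. -/
theorem Sys.GT_sing_B {Y : Sys W} (ok : Ok2 Y) {g : (W × ℝ) × ℝ} (hg : Y.Gm g)
    (hb : g.1 ∉ Y.S \ Y.A) : ∃ n : ℕ, (Y.GT^[n + 1] g).1 ∈ Y.B := by
  obtain ⟨n, hn⟩ := Sys.GT_to_B ok (Sys.GT_spec ok hg).1 (Sys.GT_sing ok hg hb)
  exact ⟨n, by rw [Function.iterate_succ_apply]; exact hn⟩

theorem Sys.GT_sing_reg {Y : Sys W} (ok : Ok2 Y) {g : (W × ℝ) × ℝ} (hg : Y.Gm g)
    (hb : g.1 ∉ Y.S \ Y.A) : ∃ N : ℕ, ∀ n, N ≤ n → (Y.GT^[n] g).1 ∈ Y.S \ Y.A := by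
  obtain ⟨m, hm⟩ := Sys.GT_sing_B ok hg hb
  refine ⟨m + 1, fun n hn => ?_⟩
  have := (Sys.GT_B ok (Sys.GT_iter ok hg (m + 1)).1 hm (n - (m + 1))).2
  rwa [← Function.iterate_add_apply, Nat.sub_add_cancel hn] at this

/-- End germs are germs. -/
theorem Sys.gm_bs {Y : Sys W} (hab : ∀ w ∈ Y.C, Y.a w < Y.b w) {g : W × ℝ} (hC : g.1 ∈ Y.C)
    (hs : g.2 = 1 ∨ g.2 = -1) : Y.Gm ((g.1, bs Y g), g.2) := by
  have hlt := hab g.1 hC
  refine ⟨hs, ?_⟩
  filter_upwards [Ioo_mem_nhdsGT (sub_pos.mpr hlt)] with t ht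
  refine ⟨hC, ?_, ?_⟩ <;> simp only [gpt] <;> unfold bs <;> rcases hs with hs | hs <;>
    simp only [hs] <;> norm_num <;> linarith [ht.1, ht.2]

/-! ## The inverse system -/

theorem Sys.T_inv {Y : Sys W} (ok : Ok2 Y) {y : W × ℝ} (hy : y ∈ Y.S \ Y.B) :
    Y.inv.T y ∈ Y.S \ Y.A ∧ Y.T (Y.inv.T y) = y := by
  have h : ∃ x, x ∈ Y.S \ Y.A ∧ Y.T x = y := by
    obtain ⟨x, hx, hxy⟩ := ok.bij.surjOn hy; exact ⟨x, hx, hxy⟩
  have e : Y.inv.T y = h.choose := by
    simp only [Sys.inv]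
    rw [dif_pos h]
  rw [e]; exact h.choose_spec

theorem Sys.inv_T {Y : Sys W} (ok : Ok2 Y) {x : W × ℝ} (hx : x ∈ Y.S \ Y.A) :
    Y.inv.T (Y.T x) = x := by
  obtain ⟨h1, h2⟩ := Sys.T_inv ok (ok.bij.mapsTo hx)
  exact ok.bij.injOn h1 hx h2

theorem Sys.inv_loc {Y : Sys W} (ok : Ok2 Y) : Y.inv.Loc := by
  intro y hy
  obtain ⟨h1, h2⟩ := Sys.T_inv ok hy
  obtain ⟨e, he, hloc⟩ := ok.loc _ h1
  have he2 : e * e = 1 := by rcases he with he | he <;> rw [he] <;> norm_num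
  refine ⟨e, he, ?_⟩
  have ht : Tendsto (fun t : ℝ => e * t) (𝓝 0) (𝓝 0) := by
    have := (by fun_prop : Continuous fun t : ℝ => e * t).tendsto 0
    simpa using this
  filter_upwards [ht.eventually hloc] with t h
  obtain ⟨h3, h4⟩ := h
  rw [h2] at h4
  have e1 : (y.1, y.2 + e * (e * t)) = (y.1, y.2 + t) := by
    simp only [Prod.mk.injEq, true_and]; linear_combination t * he2
  rw [e1] at h4
  rw [← h4]
  exact ⟨ok.bij.mapsTo h3, Sys.inv_T ok h3⟩

theorem Sys.inv_iter {Y : Sys W} (ok : Ok2 Y) {y : W × ℝ} (hy : y ∈ Y.S) (n : ℕ)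
    (hn : ∀ k < n, Y.inv.T^[k] y ∉ Y.B) : Y.inv.T^[n] y ∈ Y.S ∧ Y.T^[n] (Y.inv.T^[n] y) = y ∧
      (∀ k < n, Y.T^[k] (Y.inv.T^[n] y) ∈ Y.S \ Y.A) := by
  induction n with
  | zero => exact ⟨hy, rfl, fun k hk => absurd hk (Nat.not_lt_zero k)⟩
  | succ n ih =>
    obtain ⟨ih1, ih2, ih3⟩ := ih fun k hk => hn k (by omega)
    obtain ⟨h1, h2⟩ := Sys.T_inv ok ⟨ih1, hn n (by omega)⟩
    rw [Function.iterate_succ_apply' Y.inv.T]
    refine ⟨h1.1, ?_, ?_⟩
    · rw [Function.iterate_succ_apply, h2, ih2]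
    · intro k hk
      rcases k with _ | k
      · exact h1
      · rw [Function.iterate_succ_apply, h2]; exact ih3 k (by omega)

theorem Ok2.inv {Y : Sys W} (ok : Ok2 Y) : Ok2 Y.inv := by
  refine
    { hab := ok.hab
      finA := ok.finB
      finB := ok.finA
      subA := ok.subB
      subB := ok.subA
      bij := ?_
      loc := Sys.inv_loc ok
      ep := ?_
      nc := ?_
      conn := ?_
      neA := ?_ }
  · refine ⟨fun y hy => (Sys.T_inv ok hy).1, ?_, ?_⟩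
    · intro y hy y' hy' h
      rw [← (Sys.T_inv ok hy).2, ← (Sys.T_inv ok hy').2, h]
    · intro x hx
      exact ⟨Y.T x, ok.bij.mapsTo hx, Sys.inv_T ok hx⟩
  · intro g hg hN
    -- reversed arrows
    have hrev : ∀ n, Nx Y (g (n + 1)) (g n) := by
      intro n
      have h1 := Sys.gm_bs ok.hab (hg n).1 (hg n).2
      have h2 : ∀ᶠ t in 𝓝[>] (0 : ℝ), gpt ((((g n).1, bs Y (g n)), (g n).2) : (W × ℝ) × ℝ) t ∉ Y.B :=
        gpt_finite (g := (((g n).1, bs Y (g n)), (g n).2)) (hg n).2 ok.finB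
      have h3 : ∀ᶠ t in 𝓝[>] (0 : ℝ), Y.inv.T ((g n).1, bs Y (g n) + (g n).2 * t) =
        ((g (n + 1)).1, bs Y (g (n + 1)) + (g (n + 1)).2 * t) := hN n
      change ∀ᶠ t in 𝓝[>] (0 : ℝ), Y.T ((g (n + 1)).1, bs Y (g (n + 1)) + (g (n + 1)).2 * t) =
        ((g n).1, bs Y (g n) + (g n).2 * t)
      filter_upwards [h1.2, h2, h3] with t a1 a2 a3
      rw [← a3]
      exact (Sys.T_inv ok ⟨a1, a2⟩).2
    -- a repetition
    have hmaps : MapsTo g univ ((Y.C : Set W) ×ˢ ({1, -1} : Set ℝ)) := by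
      intro n _
      exact ⟨(hg n).1, (hg n).2⟩
    obtain ⟨i, _, j, _, hij, heq⟩ := Set.Infinite.exists_ne_map_eq_of_mapsTo infinite_univ hmaps
      (Y.C.finite_toSet.prod (by simp))
    have key : ∀ i j : ℕ, i < j → g i = g j → False := by
      intro i j hij heq
      set L := j - i with hL
      have hL0 : 0 < L := by omega
      apply ok.ep (fun m => g (j - m % L)) (fun m => hg _)
      intro m
      have hlt := Nat.mod_lt m hL0
      have hm : (m + 1) % L = (m % L + 1) % L := (Nat.mod_add_mod m L 1).symm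
      rcases Nat.lt_or_ge (m % L + 1) L with h | h
      · have e1 : (m + 1) % L = m % L + 1 := by rw [hm, Nat.mod_eq_of_lt h]
        have e2 : j - m % L = (j - (m + 1) % L) + 1 := by rw [e1]; omega
        change Nx Y (g (j - m % L)) (g (j - (m + 1) % L))
        rw [e2]
        exact hrev _
      · have e0 : m % L + 1 = L := by omega
        have e1 : (m + 1) % L = 0 := by rw [hm, e0, Nat.mod_self]
        have e2 : j - m % L = i + 1 := by omega
        change Nx Y (g (j - m % L)) (g (j - (m + 1) % L))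
        rw [e1, Nat.sub_zero, e2, ← heq]
        exact hrev i
    rcases lt_or_gt_of_ne hij with h | h
    · exact key i j h heq
    · exact key j i h heq.symm
  · intro y hy n
    have hy' : y ∈ Y.A := hy
    have key : ∀ n : ℕ, ∀ k ≤ n, Y.inv.T^[k] y ∉ Y.B := by
      intro n
      induction n with
      | zero =>
        intro k hk
        obtain rfl : k = 0 := by omega
        intro hB
        exact ok.nc _ hB 0 hy'
      | succ n ih =>
        intro k hk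
        obtain ⟨h1, h2, h3⟩ := Sys.inv_iter ok (ok.subA hy') k fun j hj => ih j (by omega)
        intro hB
        apply ok.nc _ hB k
        rw [h2]; exact hy'
    exact key n n le_rfl
  · intro D hD hne
    apply ok.conn D _ hne
    intro x hx
    have := hD (Y.T x) (ok.bij.mapsTo hx)
    rw [Sys.inv_T ok hx] at this
    exact this.symm
  · obtain ⟨x, hx⟩ := ok.neA
    have hg : Y.Gm (x, 1) := Y.gm_of_mem (ok.subA hx) (Or.inl rfl)
    obtain ⟨n, h⟩ := Sys.GT_sing_B ok hg (fun h => h.2 hx)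
    exact ⟨_, h⟩

/-- Iterates are affine near points with a regular orbit. -/
theorem Sys.iter_aff {Y : Sys W} (ok : Ok2 Y) (n : ℕ) (y : W × ℝ)
    (hy : ∀ k < n, Y.T^[k] y ∈ Y.S \ Y.A) : ∃ e : ℝ, (e = 1 ∨ e = -1) ∧ ∀ᶠ t in 𝓝 (0 : ℝ),
      (∀ k < n, Y.T^[k] (y.1, y.2 + t) ∈ Y.S \ Y.A) ∧
        Y.T^[n] (y.1, y.2 + t) = ((Y.T^[n] y).1, (Y.T^[n] y).2 + e * t) := by
  induction n with
  | zero => exact ⟨1, Or.inl rfl, Eventually.of_forall fun t =>
      ⟨fun k hk => absurd hk (Nat.not_lt_zero k), by simp⟩⟩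
  | succ n ih =>
    obtain ⟨e, he, h⟩ := ih fun k hk => hy k (by omega)
    obtain ⟨e', he', h'⟩ := ok.loc _ (hy n (by omega))
    refine ⟨e' * e, ?_, ?_⟩
    · rcases he with he | he <;> rcases he' with he' | he' <;> rw [he, he'] <;> norm_num
    · have ht : Tendsto (fun t : ℝ => e * t) (𝓝 0) (𝓝 0) := by
        have := (by fun_prop : Continuous fun t : ℝ => e * t).tendsto 0
        simpa using this
      filter_upwards [h, ht.eventually h'] with t h1 h2
      refine ⟨fun k hk => ?_, ?_⟩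
      · rcases Nat.lt_succ_iff_lt_or_eq.mp hk with hk | rfl
        · exact h1.1 k hk
        · rw [h1.2]; exact h2.1
      · rw [Function.iterate_succ_apply', Function.iterate_succ_apply', h1.2, h2.2]
        simp only [Prod.mk.injEq, true_and]; ring

theorem Sys.inf_mem {Y : Sys W} (ok : Ok2 Y) {x : W × ℝ} (hx : x ∈ Y.S)
    (hinf : ∀ n : ℕ, Y.T^[n] x ∉ Y.A) (n : ℕ) : Y.T^[n] x ∈ Y.S \ Y.A := by
  induction n with
  | zero => exact ⟨hx, hinf 0⟩
  | succ n ih =>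
    rw [Function.iterate_succ_apply']; refine ⟨ok.mapsTo ih, ?_⟩
    rw [← Function.iterate_succ_apply' Y.T n x]; exact hinf (n + 1)

private theorem exists_side {U : Set ℝ} {β : ℝ} (hβ : β ∈ closure U) (hn : β ∉ U) :
    ∃ s : ℝ, (s = 1 ∨ s = -1) ∧ ∃ᶠ t in 𝓝[>] (0 : ℝ), β + s * t ∈ U := by
  by_contra h
  push Not at h
  have h1 := h 1 (Or.inl rfl)
  have h2 := h (-1) (Or.inr rfl)
  obtain ⟨δ₁, hδ₁, h1⟩ := mem_nhdsGT_iff_exists_Ioo_subset.mp h1
  obtain ⟨δ₂, hδ₂, h2⟩ := mem_nhdsGT_iff_exists_Ioo_subset.mp h2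
  have hδ₁' : (0 : ℝ) < δ₁ := hδ₁
  have hδ₂' : (0 : ℝ) < δ₂ := hδ₂
  obtain ⟨o, ho, hd⟩ := Metric.mem_closure_iff.mp hβ (min δ₁ δ₂) (lt_min hδ₁' hδ₂')
  rw [Real.dist_eq, lt_min_iff] at hd
  rcases lt_trichotomy o β with hlt | heq | hgt
  · rw [abs_of_pos (by linarith)] at hd
    have := h2 (show β - o ∈ Ioo 0 δ₂ from ⟨by linarith, hd.2⟩)
    apply this
    have e : β + -1 * (β - o) = o := by ring
    rw [e]; exact ho
  · exact hn (heq ▸ ho)
  · rw [abs_of_neg (by linarith)] at hd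
    have := h1 (show o - β ∈ Ioo 0 δ₁ from ⟨by linarith, by linarith [hd.1]⟩)
    apply this
    have e : β + 1 * (o - β) = o := by ring
    rw [e]; exact ho

/-- No periodic points. -/
theorem Sys.aper {Y : Sys W} (ok : Ok2 Y) {x : W × ℝ} (hx : x ∈ Y.S) (hinf : ∀ n : ℕ, Y.T^[n] x ∉ Y.A)
    {p : ℕ} (hp : 0 < p) : Y.T^[p] x ≠ x := by
  intro hper
  have hmem := Sys.inf_mem ok hx hinf
  set q := p + p with hq
  have hq0 : 0 < q := by omega
  set P : ℝ → Prop := fun o => (∀ k < q, Y.T^[k] (x.1, o) ∈ Y.S \ Y.A) ∧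
    Y.T^[q] (x.1, o) = (x.1, o) with hP
  set U : Set ℝ := {o | ∀ᶠ o' in 𝓝 o, P o'} with hU
  have hUP : ∀ o ∈ U, P o := fun o ho => Eventually.self_of_nhds ho
  have hshift : ∀ o : ℝ, (∀ᶠ t in 𝓝 (0 : ℝ), P (o + t)) → o ∈ U := by
    intro o ho
    rw [hU, Set.mem_ofPred_eq, ← map_add_left_nhds_zero o]
    exact ho
  have hopen : IsOpen U := isOpen_setOfPred_eventually_nhds
  have hne : x.2 ∈ U := by
    apply hshift
    obtain ⟨e, he, h⟩ := Sys.iter_aff ok p x (fun k _ => hmem k)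
    rw [hper] at h
    have ht : Tendsto (fun t : ℝ => e * t) (𝓝 0) (𝓝 0) := by
      have := (by fun_prop : Continuous fun t : ℝ => e * t).tendsto 0
      simpa using this
    have he2 : e * e = 1 := by rcases he with he | he <;> rw [he] <;> norm_num
    filter_upwards [h, ht.eventually h] with t h1 h2
    refine ⟨fun k hk => ?_, ?_⟩
    · by_cases hkp : k < p
      · exact h1.1 k hkp
      · have e1 : k = (k - p) + p := by omega
        rw [e1, Function.iterate_add_apply, h1.2]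
        exact h2.1 _ (by omega)
    · rw [hq, Function.iterate_add_apply, h1.2, h2.2]
      simp only [Prod.mk.injEq, true_and]; linear_combination t * he2
  have hclosed : IsClosed U := by
    apply isClosed_of_closure_subset
    intro β hβ
    by_contra hn
    obtain ⟨s, hs, hfr⟩ := exists_side hβ hn
    set g : (W × ℝ) × ℝ := ((x.1, β), s) with hg
    have hfrP : ∃ᶠ t in 𝓝[>] (0 : ℝ), P (β + s * t) := hfr.mono fun t ht => hUP _ ht
    have hGm : Y.Gm g := Sys.gm_of_freq hs (hfrP.mono fun t ht => (ht.1 0 hq0).1)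
    obtain ⟨hq1, hq2⟩ := Sys.GT_iter ok hGm q
    have hfix : Y.GT^[q] g = g := by
      apply gpt_uniq
      apply (hfrP.and_eventually hq2).mono
      rintro t ⟨h1, h2⟩
      rw [← h2.2]; exact h1.2
    by_cases hreg : ∀ k < q, (Y.GT^[k] g).1 ∈ Y.S \ Y.A
    · have hb : ∀ k ≤ q, (Y.GT^[k] g).1 = Y.T^[k] (x.1, β) := by
        intro k
        induction k with
        | zero => intro _; rfl
        | succ k ih =>
          intro hk
          rw [Function.iterate_succ_apply', Function.iterate_succ_apply',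
            Sys.GT_reg ok (Sys.GT_iter ok hGm k).1 (hreg k (by omega)), ih (by omega)]
      have h1 : ∀ k < q, Y.T^[k] (x.1, β) ∈ Y.S \ Y.A := fun k hk => by
        rw [← hb k hk.le]; exact hreg k hk
      have h2 : Y.T^[q] (x.1, β) = (x.1, β) := by rw [← hb q le_rfl, hfix]
      obtain ⟨e, he, h⟩ := Sys.iter_aff ok q (x.1, β) h1
      rw [h2] at h
      have he1 : e = 1 := by
        obtain ⟨t, ⟨ha, hb'⟩, ht⟩ := ((hfrP.and_eventually
          ((tendsto_mul_zero s).eventually h)).and_eventually self_mem_nhdsWithin).exists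
        have ht' : (0 : ℝ) < t := ht
        have h3 := ha.2
        have h4 := hb'.2
        simp only at h4
        rw [h3] at h4
        simp only [Prod.mk.injEq, true_and] at h4
        have hst : s * t ≠ 0 := by
          apply mul_ne_zero _ ht'.ne'
          rcases hs with hs | hs <;> rw [hs] <;> norm_num
        have : (e - 1) * (s * t) = 0 := by linarith
        rcases mul_eq_zero.mp this with h | h
        · linarith
        · exact absurd h hst
      apply hn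
      apply hshift
      filter_upwards [h] with t ht
      refine ⟨ht.1, ?_⟩
      have := ht.2
      rw [he1, one_mul] at this
      exact this
    · push Not at hreg
      obtain ⟨k, hk, hsing⟩ := hreg
      have hGk := (Sys.GT_iter ok hGm k).1
      obtain ⟨N, hN⟩ := Sys.GT_sing_reg ok hGk hsing
      have hfixm : Y.GT^[q * N] g = g := by
        rw [Function.iterate_mul]
        exact Function.iterate_fixed hfix N
      have := hN (q * N) (Nat.le_mul_of_pos_left N hq0)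
      rw [← Function.iterate_add_apply, Nat.add_comm, Function.iterate_add_apply, hfixm] at this
      exact hsing this
  have huniv : U = univ := by
    rcases isClopen_iff.mp ⟨hclosed, hopen⟩ with h | h
    · rw [h] at hne; exact absurd hne (notMem_empty _)
    · exact h
  have hb : Y.b x.1 ∈ U := by rw [huniv]; exact mem_univ _
  have := ((hUP _ hb).1 0 hq0).1.2.2
  exact lt_irrefl _ this

theorem Sys.inf_inj {Y : Sys W} (ok : Ok2 Y) {x : W × ℝ} (hx : x ∈ Y.S)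
    (hinf : ∀ n : ℕ, Y.T^[n] x ∉ Y.A) {n m : ℕ} (h : Y.T^[n] x = Y.T^[m] x) : n = m := by
  have key : ∀ n m : ℕ, n < m → Y.T^[n] x ≠ Y.T^[m] x := by
    intro n m hnm h
    have hn := Sys.inf_mem ok hx hinf n
    apply Sys.aper ok hn.1 (fun k => by rw [← Function.iterate_add_apply]; exact hinf _)
      (p := m - n) (by omega)
    rw [← Function.iterate_add_apply, show m - n + n = m by omega, ← h]
  rcases lt_trichotomy n m with h1 | h1 | h1
  · exact absurd h (key n m h1)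
  · exact h1
  · exact absurd h.symm (key m n h1)

/-- One-sided gaps of an invariant set reach `A`. -/
theorem Sys.gap {Y : Sys W} (ok : Ok2 Y) {E : Set (W × ℝ)}
    (hE : ∀ x ∈ Y.S \ Y.A, x ∈ E ↔ Y.T x ∈ E) {x : W × ℝ} (hx : x ∈ Y.S) (hxE : x ∈ E)
    {s l : ℝ} (hs : s = 1 ∨ s = -1) (hl : 0 < l)
    (hgap : ∀ t, 0 < t → t < l → (x.1, x.2 + s * t) ∈ Y.S \ E) : ∃ n : ℕ, Y.T^[n] x ∈ Y.A := by
  by_contra hinf
  push Not at hinf
  have hmem := Sys.inf_mem ok hx hinf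
  set g : (W × ℝ) × ℝ := (x, s) with hg
  have hGm : Y.Gm g := Y.gm_of_mem hx hs
  set G : ℕ → (W × ℝ) × ℝ := fun n => Y.GT^[n] g with hG
  have hGs : ∀ n, G (n + 1) = Y.GT (G n) := fun n => Function.iterate_succ_apply' _ _ _
  have hGg : ∀ n, Y.Gm (G n) := fun n => (Sys.GT_iter ok hGm n).1
  have hbase : ∀ n, (G n).1 = Y.T^[n] x := by
    intro n
    induction n with
    | zero => rfl
    | succ n ih =>
      rw [hGs, Function.iterate_succ_apply', Sys.GT_reg ok (hGg n) (by rw [ih]; exact hmem n), ih]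
  have hEn : ∀ n, (G n).1 ∈ E := by
    intro n
    induction n with
    | zero => exact hxE
    | succ n ih =>
      rw [hbase, Function.iterate_succ_apply', ← hE _ (hmem n), ← hbase]; exact ih
  have hreg : ∀ n, (G n).1 ∈ Y.S \ Y.A := fun n => by rw [hbase]; exact hmem n
  set Q : ℕ → ℝ → Prop := fun n l => 0 < l ∧ ∀ t, 0 < t → t < l → gpt (G n) t ∈ Y.S \ E with hQ
  -- push forward
  have push : ∀ n l, Q n l → (∀ t, 0 < t → t < l → gpt (G n) t ∉ Y.A) → Q (n + 1) l := by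
    rintro n l ⟨hl, h⟩ hA
    obtain ⟨y, e, he, h0, hev⟩ := Sys.Loc.line ok.loc (hGg n).1 (t₀ := 0)
      (by rw [gpt_zero]; exact hreg n)
    have hall := aff_ext (fun t => Y.T (gpt (G n) t)) isPreconnected_Ico (I := Ico 0 l)
      (fun t₀ ht₀ => by
        obtain ⟨y', e', _, _, h'⟩ := Sys.Loc.line ok.loc (hGg n).1 (t₀ := t₀) (by
          rcases ht₀.1.lt_or_eq with h1 | h1
          · exact ⟨(h t₀ h1 ht₀.2).1, hA t₀ h1 ht₀.2⟩
          · rw [← h1, gpt_zero]; exact hreg n)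
        exact ⟨y', e', h'.mono fun t ht => ht.2⟩) (left_mem_Ico.mpr hl)
          (hev.mono fun t ht => ht.2)
    have hGT : G (n + 1) = (y, e) := by
      rw [hGs]
      apply Sys.GT_eq ok (hGg n)
      apply Eventually.frequently
      filter_upwards [Ioo_mem_nhdsGT hl] with t ht
      exact hall t ⟨ht.1.le, ht.2⟩
    refine ⟨hl, fun t h0 h1 => ?_⟩
    have e1 : gpt (G (n + 1)) t = Y.T (gpt (G n) t) := by
      rw [hGT, hall t ⟨h0.le, h1⟩]; rfl
    have hm : gpt (G n) t ∈ Y.S \ Y.A := ⟨(h t h0 h1).1, hA t h0 h1⟩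
    rw [e1]
    exact ⟨ok.mapsTo hm, fun hc => (h t h0 h1).2 ((hE _ hm).mpr hc)⟩
  -- positive gaps for all `n`
  have hpos : ∀ n, ∃ l, Q n l := by
    intro n
    induction n with
    | zero => exact ⟨l, hl, hgap⟩
    | succ n ih =>
      obtain ⟨l, hl, h⟩ := ih
      obtain ⟨δ, hδ, hsub⟩ := mem_nhdsGT_iff_exists_Ioo_subset.mp (gpt_finite (hGg n).1 ok.finA)
      have hδ' : (0 : ℝ) < δ := hδ
      refine ⟨min l δ, push n _ ⟨lt_min hl hδ', fun t h0 h1 => h t h0 (h1.trans_le (min_le_left _ _))⟩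
        fun t h0 h1 => hsub ⟨h0, h1.trans_le (min_le_right _ _)⟩⟩
  -- two gaps with the same side
  have key : ∀ n m : ℕ, n ≠ m → ∀ l, Q m l → (G n).2 = (G m).2 → ∀ t, 0 ≤ t → t < l →
      (G n).1 = gpt (G m) t → False := by
    intro n m hnm l hQm h2 t h0 h1 heq
    rcases h0.lt_or_eq with h0 | h0
    · have := (hQm.2 t h0 h1).2
      rw [← heq] at this
      exact this (hEn n)
    · rw [← h0, gpt_zero, hbase, hbase] at heq
      exact hnm (Sys.inf_inj ok hx hinf heq)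
  -- finitely many bad `n`
  set Bad : Set ℕ := {n | ∃ l, Q n l ∧ ∃ t, 0 < t ∧ t < l ∧ gpt (G n) t ∈ Y.A} with hBad
  have hfinBad : Bad.Finite := by
    by_contra hinfin
    have hch : ∀ n, ∃ c : ℝ, n ∈ Bad → ∃ l, Q n l ∧ 0 < c ∧ c < l ∧ gpt (G n) c ∈ Y.A := by
      intro n
      by_cases hn : n ∈ Bad
      · obtain ⟨l, hQn, t, h0, h1, h2⟩ := hn
        exact ⟨t, fun _ => ⟨l, hQn, h0, h1, h2⟩⟩
      · exact ⟨0, fun h => absurd h hn⟩
    choose c hc using hch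
    have hmaps : MapsTo (fun n => (gpt (G n) (c n), (G n).2)) Bad (Y.A ×ˢ ({1, -1} : Set ℝ)) := by
      intro n hn
      obtain ⟨l, _, _, _, h⟩ := hc n hn
      exact ⟨h, (hGg n).1⟩
    obtain ⟨n, hn, m, hm, hnm, heq⟩ := Set.Infinite.exists_ne_map_eq_of_mapsTo hinfin hmaps
      (ok.finA.prod (by simp))
    simp only [Prod.mk.injEq] at heq
    obtain ⟨h1, h2⟩ := heq
    obtain ⟨ln, hQn, hcn0, hcn1, _⟩ := hc n hn
    obtain ⟨lm, hQm, hcm0, hcm1, _⟩ := hc m hm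
    simp only [gpt, Prod.mk.injEq] at h1
    rcases le_total (c n) (c m) with hle | hle
    · apply key n m hnm lm hQm h2 (c m - c n) (by linarith) (by linarith)
      refine Prod.ext (show _ = (G m).1.1 from h1.1) ?_
      simp only [gpt]
      rw [← h2]; rw [← h2] at h1; linarith [h1.2]
    · apply key m n hnm.symm ln hQn h2.symm (c n - c m) (by linarith) (by linarith)
      refine Prod.ext (show _ = (G n).1.1 from h1.1.symm) ?_
      simp only [gpt]
      rw [← h2] at h1; linarith [h1.2]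
  obtain ⟨N, hN⟩ := hfinBad.bddAbove
  obtain ⟨l₀, hl₀⟩ := hpos (N + 1)
  have hall : ∀ n, Q (N + 1 + n) l₀ := by
    intro n
    induction n with
    | zero => exact hl₀
    | succ n ih =>
      apply push _ _ ih
      intro t h0 h1 hA
      have : N + 1 + n ∈ Bad := ⟨l₀, ih, t, h0, h1, hA⟩
      have := hN this
      omega
  have hmaps : MapsTo (fun n : ℕ => ((G (N + 1 + n)).1.1, ((G (N + 1 + n)).2,
      ⌊(G (N + 1 + n)).1.2 / l₀⌋))) univ
      (⋃ w ∈ Y.C, ({w} : Set W) ×ˢ (({1, -1} : Set ℝ) ×ˢ Icc ⌊Y.a w / l₀⌋ ⌊Y.b w / l₀⌋)) := by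
    intro n _
    have hS := (hreg (N + 1 + n)).1
    simp only [mem_iUnion]
    refine ⟨_, hS.1, rfl, (hGg _).1, ?_, ?_⟩
    · exact Int.floor_le_floor (by have := hS.2.1; have := hl₀.1; gcongr)
    · exact Int.floor_le_floor (by have := hS.2.2; have := hl₀.1; gcongr)
  obtain ⟨n, _, m, _, hnm, heq⟩ := Set.Infinite.exists_ne_map_eq_of_mapsTo infinite_univ hmaps
    (Set.Finite.biUnion Y.C.finite_toSet fun w _ =>
      (Set.finite_singleton w).prod ((by simp : ({1, -1} : Set ℝ).Finite).prod (Set.finite_Icc _ _)))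
  simp only [Prod.mk.injEq] at heq
  obtain ⟨h1, h2, h3⟩ := heq
  have hl0 := hl₀.1
  have hdist : |(G (N + 1 + n)).1.2 - (G (N + 1 + m)).1.2| < l₀ := by
    have := Int.abs_sub_lt_one_of_floor_eq_floor h3
    rw [← sub_div, abs_div, abs_of_pos hl0, div_lt_one hl0] at this
    exact this
  have hss : (G (N + 1 + m)).2 * (G (N + 1 + m)).2 = 1 := by
    rcases (hGg (N + 1 + m)).1 with h | h <;> rw [h] <;> norm_num
  have habs : |(G (N + 1 + m)).2| = 1 := by
    rcases (hGg (N + 1 + m)).1 with h | h <;> rw [h] <;> norm_num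
  set d := (G (N + 1 + m)).2 * ((G (N + 1 + n)).1.2 - (G (N + 1 + m)).1.2) with hd
  have hdabs : |d| < l₀ := by rw [hd, abs_mul, habs, one_mul]; exact hdist
  obtain ⟨hda, hdb⟩ := abs_lt.mp hdabs
  rcases le_total 0 d with h0 | h0
  · apply key (N + 1 + n) (N + 1 + m) (by omega) l₀ (hall m) h2 d h0 hdb
    refine Prod.ext (show _ = (G (N + 1 + m)).1.1 from h1) ?_
    simp only [gpt, hd]
    linear_combination (-((G (N + 1 + n)).1.2 - (G (N + 1 + m)).1.2)) * hss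
  · apply key (N + 1 + m) (N + 1 + n) (by omega) l₀ (hall n) h2.symm (-d) (by linarith) (by linarith)
    refine Prod.ext (show _ = (G (N + 1 + n)).1.1 from h1.symm) ?_
    simp only [gpt, hd, h2]
    linear_combination ((G (N + 1 + n)).1.2 - (G (N + 1 + m)).1.2) * hss

/-- A one-sided gap of a set which is closed in the space. -/
private theorem exists_gap (Y : Sys W) {E : Set (W × ℝ)}
    (hcl : ∀ y ∈ Y.S, (∀ ε > 0, ∃ z ∈ E, z.1 = y.1 ∧ |z.2 - y.2| < ε) → y ∈ E)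
    {w : W} {o o' : ℝ} (h : (w, o) ∈ E) (hS : (w, o) ∈ Y.S) (h' : (w, o') ∈ Y.S)
    (hn : (w, o') ∉ E) : ∃ x ∈ E, x ∈ Y.S ∧
      ∃ s l : ℝ, (s = 1 ∨ s = -1) ∧ 0 < l ∧ ∀ t, 0 < t → t < l → (x.1, x.2 + s * t) ∈ Y.S \ E := by
  obtain ⟨hw, ha1, hb1⟩ := hS
  obtain ⟨_, ha2, hb2⟩ := h'
  simp only at ha1 hb1 ha2 hb2
  set K : Set ℝ := {r | r ∈ uIcc o o' ∧ (w, r) ∈ E} with hK
  have hbet : ∀ r ∈ uIcc o o', (w, r) ∈ Y.S := by
    intro r hr
    rcases le_total o o' with hle | hle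
    · rw [uIcc_of_le hle] at hr; exact ⟨hw, by simp only; linarith [hr.1], by simp only; linarith [hr.2]⟩
    · rw [uIcc_of_ge hle] at hr; exact ⟨hw, by simp only; linarith [hr.1], by simp only; linarith [hr.2]⟩
  have hKc : IsCompact K := by
    apply isCompact_uIcc.of_isClosed_subset _ (fun r hr => hr.1 : K ⊆ uIcc o o')
    apply isClosed_of_closure_subset
    intro r hr
    have hr1 : r ∈ uIcc o o' := by
      have := closure_mono (fun r hr => hr.1 : K ⊆ uIcc o o') hr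
      rwa [isCompact_uIcc.isClosed.closure_eq] at this
    refine ⟨hr1, hcl _ (hbet r hr1) fun ε hε => ?_⟩
    obtain ⟨r', hr', hd⟩ := Metric.mem_closure_iff.mp hr ε hε
    exact ⟨(w, r'), hr'.2, rfl, by rw [Real.dist_eq, abs_sub_comm] at hd; exact hd⟩
  have hoK : o ∈ K := ⟨left_mem_uIcc, h⟩
  rcases lt_trichotomy o o' with hlt | heq | hgt
  · have hα := hKc.sSup_mem ⟨o, hoK⟩
    set α := sSup K with hαdef
    have h1 : α ∈ uIcc o o' := hα.1
    rw [uIcc_of_le hlt.le] at h1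
    have h2 : α < o' := lt_of_le_of_ne h1.2 (fun h => hn (h ▸ hα.2))
    refine ⟨(w, α), hα.2, hbet _ hα.1, 1, o' - α, Or.inl rfl, by linarith, fun t h3 h4 => ?_⟩
    have h5 : α + 1 * t ∈ uIcc o o' := by
      rw [uIcc_of_le hlt.le]; exact ⟨by linarith [h1.1], by linarith⟩
    refine ⟨hbet _ h5, fun hc => ?_⟩
    have : α + 1 * t ≤ α := le_csSup hKc.bddAbove ⟨h5, hc⟩
    linarith
  · exact absurd (heq ▸ h) hn
  · have hα := hKc.sInf_mem ⟨o, hoK⟩
    set α := sInf K with hαdef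
    have h1 : α ∈ uIcc o o' := hα.1
    rw [uIcc_of_ge hgt.le] at h1
    have h2 : o' < α := lt_of_le_of_ne h1.1 (fun h => hn (h ▸ hα.2))
    refine ⟨(w, α), hα.2, hbet _ hα.1, -1, α - o', Or.inr rfl, by linarith, fun t h3 h4 => ?_⟩
    have h5 : α + -1 * t ∈ uIcc o o' := by
      rw [uIcc_of_ge hgt.le]; exact ⟨by linarith, by linarith [h1.2]⟩
    refine ⟨hbet _ h5, fun hc => ?_⟩
    have : α ≤ α + -1 * t := csInf_le hKc.bddBelow ⟨h5, hc⟩
    linarith

/-- The closed invariant sets of the system fill the components that they meet. -/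
theorem Sys.fill {Y : Sys W} (ok : Ok2 Y) {E : Set (W × ℝ)}
    (hE : ∀ x ∈ Y.S \ Y.A, x ∈ E ↔ Y.T x ∈ E)
    (hcl : ∀ y ∈ Y.S, (∀ ε > 0, ∃ z ∈ E, z.1 = y.1 ∧ |z.2 - y.2| < ε) → y ∈ E)
    (hne : ∃ x ∈ Y.S, x ∈ E) : Y.S ⊆ E := by
  have key : ∀ (w : W) (o o' : ℝ), (w, o) ∈ E → (w, o) ∈ Y.S → (w, o') ∈ Y.S → (w, o') ∈ E := by
    intro w o o' h hS h'
    by_contra hn
    obtain ⟨x, hxE, hxS, s, l, hs, hl, hgap⟩ := exists_gap Y hcl h hS h' hn
    obtain ⟨n, hn⟩ := Sys.gap ok hE hxS hxE hs hl hgap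
    have hE' : ∀ y ∈ Y.inv.S \ Y.inv.A, y ∈ E ↔ Y.inv.T y ∈ E := by
      intro y hy
      obtain ⟨h1, h2⟩ := Sys.T_inv ok hy
      have := hE _ h1
      rw [h2] at this
      exact this.symm
    have hex : ∃ m : ℕ, Y.inv.T^[m] x ∈ Y.B := Sys.gap ok.inv hE' hxS hxE hs hl hgap
    classical
    have hm := Nat.find_spec hex
    have hmin : ∀ k < Nat.find hex, Y.inv.T^[k] x ∉ Y.B := fun k hk => Nat.find_min hex hk
    obtain ⟨h1, h2, h3⟩ := Sys.inv_iter ok hxS _ hmin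
    apply ok.nc _ hm (n + Nat.find hex)
    rw [Function.iterate_add_apply, h2]; exact hn
  have hD : ∀ x ∈ Y.S \ Y.A, x.1 ∈ {w | ∃ o, (w, o) ∈ E ∧ (w, o) ∈ Y.S} ↔
      (Y.T x).1 ∈ {w | ∃ o, (w, o) ∈ E ∧ (w, o) ∈ Y.S} := by
    intro x hx
    constructor
    · rintro ⟨o, h1, h2⟩
      exact ⟨(Y.T x).2, (hE x hx).mp (key x.1 o x.2 h1 h2 hx.1), ok.mapsTo hx⟩
    · rintro ⟨o, h1, h2⟩
      exact ⟨x.2, (hE x hx).mpr (key (Y.T x).1 o (Y.T x).2 h1 h2 (ok.mapsTo hx)), hx.1⟩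
  obtain ⟨x, hxS, hxE⟩ := hne
  have hall := ok.conn _ hD ⟨x.1, hxS.1, x.2, hxE, hxS⟩
  intro y hy
  obtain ⟨o, h1, h2⟩ := hall y.1 hy.1
  exact key y.1 o y.2 h1 h2 hy

/-- [I1] Keane with flips: infinite forward orbits are dense. -/
theorem dense (Y : Sys W) (ok : Ok2 Y) (x : W × ℝ) (hx : x ∈ Y.S)
    (hinf : ∀ n : ℕ, Y.T^[n] x ∉ Y.A) (y : W × ℝ) (hy : y ∈ Y.S) (ε : ℝ) (hε : 0 < ε) :
    ∃ n : ℕ, (Y.T^[n] x).1 = y.1 ∧ |(Y.T^[n] x).2 - y.2| < ε := by
  have hmem := Sys.inf_mem ok hx hinf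
  set E : Set (W × ℝ) := {y | y ∈ Y.S ∧ ∀ ε > 0, ∀ N : ℕ, ∃ n ≥ N,
    (Y.T^[n] x).1 = y.1 ∧ |(Y.T^[n] x).2 - y.2| < ε} with hE
  have hcl : ∀ y ∈ Y.S, (∀ ε > 0, ∃ z ∈ E, z.1 = y.1 ∧ |z.2 - y.2| < ε) → y ∈ E := by
    intro y hy h
    refine ⟨hy, fun ε hε N => ?_⟩
    obtain ⟨z, hz, h1, h2⟩ := h (ε / 2) (by linarith)
    obtain ⟨n, hn, h3, h4⟩ := hz.2 (ε / 2) (by linarith) N
    refine ⟨n, hn, h3.trans h1, ?_⟩
    have := abs_sub_le (Y.T^[n] x).2 z.2 y.2
    linarith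
  have hEi : ∀ z ∈ Y.S \ Y.A, z ∈ E ↔ Y.T z ∈ E := by
    intro z hz
    obtain ⟨e, he, hloc⟩ := ok.loc z hz
    obtain ⟨δ, hδ, hloc⟩ := Metric.eventually_nhds_iff.mp hloc
    have he2 : e * e = 1 := by rcases he with he | he <;> rw [he] <;> norm_num
    have heabs : |e| = 1 := by rcases he with he | he <;> rw [he] <;> norm_num
    constructor
    · rintro ⟨_, h⟩
      refine ⟨ok.mapsTo hz, fun ε hε N => ?_⟩
      obtain ⟨n, hn, h1, h2⟩ := h (min δ ε) (lt_min hδ hε) N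
      rw [lt_min_iff] at h2
      have := (hloc (y := (Y.T^[n] x).2 - z.2) (by rw [Real.dist_eq]; simpa using h2.1)).2
      have e1 : (z.1, z.2 + ((Y.T^[n] x).2 - z.2)) = Y.T^[n] x := Prod.ext h1.symm (by simp)
      rw [e1] at this
      refine ⟨n + 1, by omega, ?_, ?_⟩
      · rw [Function.iterate_succ_apply', this]
      · rw [Function.iterate_succ_apply', this]
        simp only [add_sub_cancel_left]
        rw [abs_mul, heabs, one_mul]; exact h2.2
    · rintro ⟨_, h⟩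
      refine ⟨hz.1, fun ε hε N => ?_⟩
      obtain ⟨n, hn, h1, h2⟩ := h (min δ ε) (lt_min hδ hε) (N + 1)
      rw [lt_min_iff] at h2
      obtain ⟨k, rfl⟩ : ∃ k, n = k + 1 := ⟨n - 1, by omega⟩
      set t := e * ((Y.T^[k + 1] x).2 - (Y.T z).2) with ht
      have htabs : |t| = |(Y.T^[k + 1] x).2 - (Y.T z).2| := by rw [ht, abs_mul, heabs, one_mul]
      obtain ⟨h3, h4⟩ := hloc (y := t) (by rw [Real.dist_eq, sub_zero, htabs]; exact h2.1)
      have e1 : Y.T (z.1, z.2 + t) = Y.T (Y.T^[k] x) := by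
        rw [h4, ← Function.iterate_succ_apply' Y.T k x]
        refine Prod.ext h1.symm ?_
        simp only [ht]
        linear_combination ((Y.T^[k + 1] x).2 - (Y.T z).2) * he2
      have e2 := ok.bij.injOn h3 (hmem k) e1
      refine ⟨k, by omega, ?_, ?_⟩
      · rw [← e2]
      · rw [← e2]; simp only [add_sub_cancel_left]; rw [htabs]; exact h2.2
  have hne : ∃ z ∈ Y.S, z ∈ E := by
    -- a component that is visited infinitely often
    obtain ⟨w, hw, hfr⟩ : ∃ w ∈ Y.C, ∃ᶠ n in atTop, (Y.T^[n] x).1 = w := by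
      by_contra h
      push Not at h
      have h1 : ∀ᶠ n in atTop, ∀ w ∈ Y.C, ¬ (Y.T^[n] x).1 = w := by
        rw [Filter.eventually_all_finset]
        intro w hw
        exact h w hw
      obtain ⟨n, hn⟩ := h1.exists
      exact hn _ (hmem n).1.1 rfl
    obtain ⟨φ, hφ, hφw⟩ := Filter.extraction_of_frequently_atTop hfr
    have hcp : IsCompact (Icc (Y.a w) (Y.b w)) := isCompact_Icc
    obtain ⟨o, ho, ψ, hψ, hlim⟩ := hcp.tendsto_subseq (x := fun n => (Y.T^[φ n] x).2) (fun n => by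
      have := (hmem (φ n)).1
      obtain ⟨_, h1, h2⟩ := this
      rw [hφw n] at h1 h2
      exact ⟨h1.le, h2.le⟩)
    have hχ : StrictMono (φ ∘ ψ) := hφ.comp hψ
    set χ := φ ∘ ψ with hχdef
    have hχw : ∀ n, (Y.T^[χ n] x).1 = w := fun n => hφw (ψ n)
    have hlim' : Tendsto (fun n => (Y.T^[χ n] x).2) atTop (𝓝 o) := hlim
    -- the next points near an end point
    have hnext : ∀ (m : ℕ) (y : W × ℝ) (e s : ℝ), y ∈ Y.S → (e = 1 ∨ e = -1) → (s = 1 ∨ s = -1) →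
        (∀ n, 0 < s * ((Y.T^[χ n] x).2 - o)) →
        (∀ᶠ t in 𝓝[>] (0 : ℝ), Y.T^[m] (w, o + s * t) = (y.1, y.2 + e * t)) → y ∈ E := by
      intro m y e s hy he hs hpos hev
      have hss : s * s = 1 := by rcases hs with h | h <;> rw [h] <;> norm_num
      have heabs : |e| = 1 := by rcases he with he | he <;> rw [he] <;> norm_num
      have ht : Tendsto (fun n => s * ((Y.T^[χ n] x).2 - o)) atTop (𝓝[>] 0) := by
        apply tendsto_nhdsWithin_of_tendsto_nhds_of_eventually_within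
        · have := (hlim'.sub_const o).const_mul s
          simpa using this
        · exact Eventually.of_forall hpos
      refine ⟨hy, fun ε hε N => ?_⟩
      have hsmall : ∀ᶠ t in 𝓝[>] (0 : ℝ), t < ε := by
        filter_upwards [Ioo_mem_nhdsGT hε] with t ht using ht.2
      obtain ⟨n, hn, hN⟩ := (((ht.eventually (hev.and hsmall))).and (eventually_ge_atTop N)).exists
      refine ⟨m + χ n, ?_, ?_⟩
      · have := hχ.id_le n
        simp only [id] at this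
        omega
      · have e1 : (w, o + s * (s * ((Y.T^[χ n] x).2 - o))) = Y.T^[χ n] x := by
          refine Prod.ext (hχw n).symm ?_
          simp only
          linear_combination ((Y.T^[χ n] x).2 - o) * hss
        have h1 := hn.1
        rw [e1] at h1
        rw [Function.iterate_add_apply, h1]
        refine ⟨rfl, ?_⟩
        simp only [add_sub_cancel_left]
        rw [abs_mul, heabs, one_mul, abs_of_pos (hpos n)]
        exact hn.2
    have hχS : ∀ n, Y.a w < (Y.T^[χ n] x).2 ∧ (Y.T^[χ n] x).2 < Y.b w := by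
      intro n
      obtain ⟨_, h1, h2⟩ := (hmem (χ n)).1
      rw [hχw n] at h1 h2
      exact ⟨h1, h2⟩
    rcases ho.1.lt_or_eq with h1 | h1
    · rcases ho.2.lt_or_eq with h2 | h2
      · refine ⟨(w, o), ⟨hw, h1, h2⟩, ⟨hw, h1, h2⟩, fun ε hε N => ?_⟩
        obtain ⟨M, hM⟩ := Metric.tendsto_atTop.mp hlim' ε hε
        have hd := hM (max N M) (le_max_right _ _)
        rw [Real.dist_eq] at hd
        exact ⟨χ (max N M), (le_max_left _ _).trans (hχ.id_le _), hχw _, hd⟩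
      · have hg := Sys.gm_bs ok.hab (g := (w, -1)) hw (Or.inr rfl)
        have hb0 : bs Y (w, -1) = o := by unfold bs; rw [if_neg (by norm_num), h2]
        rw [hb0] at hg
        obtain ⟨m, hm⟩ := Sys.GT_out ok hg
        obtain ⟨k1, k2⟩ := Sys.GT_iter ok hg m
        exact ⟨_, hm, hnext m _ (Y.GT^[m] ((w, o), -1)).2 (-1) hm k1.1 (Or.inr rfl) (fun n => by
          have := (hχS n).2; rw [h2]; linarith) (k2.mono fun t ht => ht.2)⟩
    · have hg := Sys.gm_bs ok.hab (g := (w, 1)) hw (Or.inl rfl)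
      have hb0 : bs Y (w, 1) = o := by unfold bs; rw [if_pos rfl, h1]
      rw [hb0] at hg
      obtain ⟨m, hm⟩ := Sys.GT_out ok hg
      obtain ⟨k1, k2⟩ := Sys.GT_iter ok hg m
      exact ⟨_, hm, hnext m _ (Y.GT^[m] ((w, o), 1)).2 1 hm k1.1 (Or.inl rfl) (fun n => by
        have := (hχS n).1; rw [← h1]; linarith) (k2.mono fun t ht => ht.2)⟩
  have hfill := Sys.fill ok hEi hcl hne hy
  obtain ⟨n, _, h1, h2⟩ := hfill.2 ε hε 0
  exact ⟨n, h1, h2⟩

/-- [I2] the same for the inverse: preimages of `A` are dense. -/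
theorem dense_back (Y : Sys W) (ok : Ok2 Y) (y : W × ℝ) (hy : y ∈ Y.S) (ε : ℝ)
    (hε : 0 < ε) : ∃ x ∈ Y.S, ∃ n : ℕ, (∀ k < n, Y.T^[k] x ∉ Y.A) ∧ Y.T^[n] x ∈ Y.A ∧
      x.1 = y.1 ∧ |x.2 - y.2| < ε := by
  obtain ⟨a, ha⟩ := ok.neA
  have hnc := ok.inv.nc a ha
  obtain ⟨n, h1, h2⟩ := dense Y.inv ok.inv a (ok.subA ha) hnc y hy ε hε
  obtain ⟨h3, h4, h5⟩ := Sys.inv_iter ok (ok.subA ha) n fun k _ => hnc k
  exact ⟨_, h3, n, fun k hk => (h5 k hk).2, by rw [h4]; exact ha, h1, h2⟩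

end TMN
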