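import Pool.Agent.TMN.Base
import Pool.Agent.TMN.I2c
import Pool.Agent.TMX.I5ab

/-!
-/

set_option autoImplicit false

open Set Filter Topology

namespace TMN

open TMX TMX.Ger

variable {W : Type} {Y : Sys W}

theorem pre2 (ok : Ok2 Y) : Pre Y where
  hab := ok.hab
  finA := ok.finA
  finB := ok.finB
  subA := ok.subA
  subB := ok.subB
  bij := ok.bij
  loc := by
    intro x hx
    obtain ⟨e, he, h⟩ := ok.loc x hx
    obtain ⟨δ, hδ, h'⟩ := ev0.1 h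
    exact ⟨e, he, δ, hδ, h'⟩

theorem B_ne2 (ok : Ok2 Y) : ∃ y, y ∈ Y.B := ok.inv.neA

/-- after a base in `B` all bases are good -/
theorem stay2 (ok : Ok2 Y) {X : ℕ → W × ℝ} {σ : ℕ → ℝ} (G : GS Y X σ) {n : ℕ} (h : X n ∈ Y.B)
    (m : ℕ) : X (n + m) ∈ Y.S \ Y.A ∧ X (n + m) = Y.T^[m] (X n) := by
  induction m with
  | zero => exact ⟨⟨ok.subB h, ok.nc _ h 0⟩, rfl⟩
  | succ m ih =>
    have h1 := G.next (pre2 ok) ih.1
    have h2 : X (n + (m + 1)) = Y.T^[m + 1] (X n) := by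
      rw [← add_assoc, h1, ih.2, Function.iterate_succ_apply']
    refine ⟨⟨?_, ?_⟩, h2⟩
    · rw [← add_assoc, h1]
      exact (ok.bij.mapsTo ih.1).1
    · rw [h2]
      exact ok.nc _ h _

/-- a sequence of germs returns to the space -/
theorem out2 (ok : Ok2 Y) {X : ℕ → W × ℝ} {σ : ℕ → ℝ} (G : GS Y X σ) (n : ℕ) :
    ∃ m : ℕ, X (n + m) ∈ Y.S := by
  by_contra h
  push Not at h
  have hc : ∀ m, (X (n + m)).1 ∈ Y.C ∧ bs Y ((X (n + m)).1, σ (n + m)) = (X (n + m)).2 := by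
    intro m
    rcases (G.dir (n + m)).cases with h1 | ⟨hC, hs, h1⟩ | ⟨hC, hs, h1⟩
    · exact absurd h1 (h m)
    · refine ⟨hC, ?_⟩
      unfold bs
      rw [if_pos hs]
      exact h1.symm
    · refine ⟨hC, ?_⟩
      unfold bs
      rw [if_neg (by simp only [hs]; norm_num)]
      exact h1.symm
  apply ok.ep (fun m => ((X (n + m)).1, σ (n + m)))
  · intro m
    exact ⟨(hc m).1, (G.dir (n + m)).1⟩
  · intro m
    change ∀ᶠ t in 𝓝[>] (0 : ℝ), Y.T ((X (n + m)).1,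
      bs Y ((X (n + m)).1, σ (n + m)) + σ (n + m) * t) =
      ((X (n + (m + 1))).1, bs Y ((X (n + (m + 1))).1, σ (n + (m + 1))) + σ (n + (m + 1)) * t)
    rw [(hc m).2, (hc (m + 1)).2]
    obtain ⟨δ, hδ, h1⟩ := G.gm (n + m)
    exact ev1.2 ⟨δ, hδ, fun t ht htd => (h1 t ht htd).2⟩

/-- after a bad base all bases are eventually good -/
theorem evgood2 (ok : Ok2 Y) {X : ℕ → W × ℝ} {σ : ℕ → ℝ} (G : GS Y X σ) {n : ℕ}
    (h : X n ∉ Y.S \ Y.A) : ∃ N : ℕ, ∀ m, N ≤ m → X m ∈ Y.S \ Y.A := by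
  classical
  have P := pre2 ok
  have hex := out2 ok G (n + 1)
  have h1 := Nat.find_spec hex
  have h2 : X (n + 1 + Nat.find hex) ∉ Y.S \ Y.B := by
    rcases hn : Nat.find hex with _ | m
    · exact (G.gm n).bad P (G.dir (n + 1)).1 h
    · have h3 : X (n + 1 + m) ∉ Y.S := Nat.find_min hex (by omega)
      exact (G.gm (n + 1 + m)).bad P (G.dir (n + 1 + m + 1)).1 fun h => h3 h.1
  have h3 : X (n + 1 + Nat.find hex) ∈ Y.B := by
    by_contra h4
    exact h2 ⟨h1, h4⟩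
  refine ⟨n + 1 + Nat.find hex, fun m hm => ?_⟩
  have h4 := (stay2 ok G h3 (m - (n + 1 + Nat.find hex))).1
  rwa [Nat.add_sub_cancel' hm] at h4

/-- every element of the subshift is eventually the code of an infinite orbit -/
theorem om_orbit (ok : Ok2 Y) {ω : ℕ → W × ℝ} (hω : ω ∈ Y.Om) :
    ∃ m : ℕ, ∃ z ∈ Y.S, (∀ n : ℕ, Y.T^[n] z ∉ Y.A) ∧
      ∀ k : ℕ, Y.lt (Y.T^[k] z) = ω (m + k) := by
  have P := pre2 ok
  have hne : ∀ M, (Cy Y ω M).Nonempty := by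
    intro M
    obtain ⟨x, hx, h⟩ := hω M
    exact ⟨x, hx, h⟩
  set w := (ω 0).1 with hw
  have hfst : ∀ M, ∀ x ∈ Cy Y ω (M + 1), x.1 = w := by
    intro M x hx
    have := (hx.2 0 (by omega)).2
    rw [hw, ← this]
    rfl
  -- a point in the closure of all cylinders
  obtain ⟨o, ho⟩ : ∃ o : ℝ, ∀ M, o ∈ closure {u | (w, u) ∈ Cy Y ω (M + 1)} := by
    have h1 := IsCompact.nonempty_iInter_of_sequence_nonempty_isCompact_isClosed
      (fun M => closure {u | (w, u) ∈ Cy Y ω (M + 1)}) ?_ ?_ ?_ ?_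
    · obtain ⟨o, ho⟩ := h1
      exact ⟨o, fun M => Set.mem_iInter.1 ho M⟩
    · intro M
      exact closure_mono fun u hu => Cy_mono (by omega) hu
    · intro M
      obtain ⟨x, hx⟩ := hne (M + 1)
      refine ⟨x.2, subset_closure ?_⟩
      have : (w, x.2) = x := Prod.ext (hfst M x hx).symm rfl
      change (w, x.2) ∈ Cy Y ω (M + 1)
      rw [this]
      exact hx
    · apply (isCompact_Icc (a := Y.a w) (b := Y.b w)).of_isClosed_subset isClosed_closure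
      apply closure_minimal _ isClosed_Icc
      intro u hu
      exact ⟨hu.1.2.1.le, hu.1.2.2.le⟩
    · intro M
      exact isClosed_closure
  set z : W × ℝ := (w, o) with hz
  have hcl : ∀ M, ∀ ε > 0, ∃ t : ℝ, |t| < ε ∧ sh z t ∈ Cy Y ω (M + 1) := by
    intro M ε hε
    obtain ⟨u, hu, hd⟩ := Metric.mem_closure_iff.1 (ho M) ε hε
    refine ⟨u - o, by rw [← Real.dist_eq, dist_comm]; exact hd, ?_⟩
    have : sh z (u - o) = (w, u) := Prod.ext rfl (by rw [sh_snd]; ring)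
    rw [this]
    exact hu
  by_cases hall : ∀ M, z ∈ Cy Y ω (M + 1)
  · refine ⟨0, z, (hall 0).1, fun n => ((hall n).2 n (by omega)).1, fun k => ?_⟩
    rw [zero_add]
    exact ((hall k).2 k (by omega)).2
  push Not at hall
  obtain ⟨M0, hM0⟩ := hall
  -- the side
  obtain ⟨s, hs, t0, ht0, h0⟩ : ∃ s : ℝ, Sn s ∧ ∃ t0 > 0, sh z (s * t0) ∈ Cy Y ω (M0 + 1) := by
    obtain ⟨t, _, ht⟩ := hcl M0 1 one_pos
    rcases lt_trichotomy t 0 with h | h | h
    · exact ⟨-1, Or.inr rfl, -t, by linarith, by rwa [neg_one_mul, neg_neg]⟩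
    · rw [h, sh_zero] at ht
      exact absurd ht hM0
    · exact ⟨1, Or.inl rfl, t, h, by rwa [one_mul]⟩
  have hside : ∀ M, M0 ≤ M → ∀ t : ℝ, sh z t ∈ Cy Y ω (M + 1) → 0 < s * t := by
    intro M hM t ht
    by_contra hcon
    push Not at hcon
    have h1 : sh z (s * (s * t)) ∈ Cy Y ω (M0 + 1) := by
      rw [hs.mm]
      exact Cy_mono (by omega) ht
    have h2 := Cy_conv P hs h1 h0 hcon ht0.le
    rw [mul_zero, sh_zero] at h2
    exact hM0 h2
  have hin : ∀ M, ∃ δ > 0, ∀ t : ℝ, 0 < t → t < δ → sh z (s * t) ∈ Cy Y ω (M + 1) := by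
    have : ∀ M, M0 ≤ M → ∃ δ > 0, ∀ t : ℝ, 0 < t → t < δ → sh z (s * t) ∈ Cy Y ω (M + 1) := by
      intro M hM
      obtain ⟨u, _, hu⟩ := hcl M 1 one_pos
      have hu0 := hside M hM u hu
      refine ⟨s * u, hu0, ?_⟩
      intro t ht htu
      obtain ⟨v, hv, hv'⟩ := hcl M t ht
      have hv0 := hside M hM v hv'
      have e1 : sh z (s * (s * u)) ∈ Cy Y ω (M + 1) := by rw [hs.mm]; exact hu
      have e2 : sh z (s * (s * v)) ∈ Cy Y ω (M + 1) := by rw [hs.mm]; exact hv'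
      refine Cy_conv P hs e2 e1 ?_ htu.le
      rw [← hs.abs] at hv
      exact (le_of_lt (lt_of_le_of_lt (le_abs_self _) hv))
    intro M
    obtain ⟨δ, hδ, h⟩ := this (max M M0) (le_max_right _ _)
    refine ⟨δ, hδ, fun t ht htd => Cy_mono ?_ (h t ht htd)⟩
    have := le_max_left M M0
    omega
  have hdir : Dir Y z s := by
    obtain ⟨δ, hδ, h⟩ := hin 0
    exact ⟨hs, δ, hδ, fun t ht htd => (h t ht htd).1⟩
  obtain ⟨X, σ, hX0, hσ0, G⟩ := exists_GS P hdir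
  obtain ⟨m, hm⟩ : ∃ m, ∀ k, m ≤ k → X k ∈ Y.S \ Y.A := by
    by_cases hall : ∀ k, X k ∈ Y.S \ Y.A
    · exact ⟨0, fun k _ => hall k⟩
    · push Not at hall
      obtain ⟨n, hn⟩ := hall
      exact evgood2 ok G hn
  have hit : ∀ k, Y.T^[k] (X m) = X (m + k) :=
    fun k => (G.iter P fun j _ => hm _ (by omega)).symm
  refine ⟨m, X m, (hm m le_rfl).1, fun n => by rw [hit]; exact (hm _ (by omega)).2, ?_⟩
  intro k
  rw [hit]
  obtain ⟨δ1, hδ1, h1⟩ := lt_loc P (hm (m + k) (by omega))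
  obtain ⟨δ2, hδ2, h2⟩ := G.step (m + k)
  obtain ⟨δ3, hδ3, h3⟩ := hin (m + k)
  have hp : 0 < min δ1 (min δ2 δ3) := lt_min hδ1 (lt_min hδ2 hδ3)
  have a1 : min δ1 (min δ2 δ3) ≤ δ1 := min_le_left _ _
  have a2 : min δ1 (min δ2 δ3) ≤ δ2 := le_trans (min_le_right _ _) (min_le_left _ _)
  have a3 : min δ1 (min δ2 δ3) ≤ δ3 := le_trans (min_le_right _ _) (min_le_right _ _)
  set t := min δ1 (min δ2 δ3) / 2 with ht
  have ht0 : 0 < t := by linarith
  have k1 := h1 (σ (m + k) * t) (by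
    rw [(G.dir _).1.abs, abs_of_pos ht0]; linarith)
  have k2 := (h2 t ht0 (by linarith)).2
  have k3 := ((h3 t ht0 (by linarith)).2 (m + k) (by omega)).2
  rw [hX0, hσ0] at k2
  rw [← k1, ← k2, k3]

/-- locally constant functions are functions of the letter -/
theorem lt_const {W : Type} (Y : Sys W) (ok : Ok2 Y) (f : W × ℝ → ℝ)
    (hf : ∀ x ∈ Y.S \ Y.A, ∀ᶠ t in 𝓝 (0 : ℝ), f (x.1, x.2 + t) = f x)
    {x y : W × ℝ} (hx : x ∈ Y.S \ Y.A) (hy : y ∈ Y.S \ Y.A) (h : Y.lt x = Y.lt y) :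
    f x = f y := by
  have P := pre2 ok
  have key : ∀ x y : W × ℝ, x ∈ Y.S \ Y.A → y ∈ Y.S \ Y.A → Y.lt x = Y.lt y → x.2 ≤ y.2 →
      f x = f y := by
    intro x y hx hy h hxy
    obtain ⟨h1, h2⟩ := lt_sep1 P hx hy h
    have h3 := (isPreconnected_Icc (a := x.2) (b := y.2)).induction₂
      (fun u v => f (x.1, u) = f (x.1, v)) (by
        intro u hu
        have h4 := hf (x.1, u) (h2 u hu.1 hu.2)
        obtain ⟨δ, hδ, h4⟩ := ev0.1 h4
        apply mem_nhdsWithin_of_mem_nhds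
        rw [Metric.mem_nhds_iff]
        refine ⟨δ, hδ, ?_⟩
        intro v hv
        rw [Metric.mem_ball, Real.dist_eq] at hv
        have h5 := h4 (v - u) hv
        have h6 : (x.1, u + (v - u)) = (x.1, v) := by rw [add_sub_cancel]
        change f (x.1, u) = f (x.1, v)
        rw [← h6]
        exact h5.symm) (fun a b c _ _ _ k1 k2 => k1.trans k2) (fun a b _ _ k => k.symm)
      (left_mem_Icc.2 hxy) (right_mem_Icc.2 hxy)
    have h4 : y = (x.1, y.2) := Prod.ext h1.symm rfl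
    rw [h4]
    exact h3
  rcases le_total x.2 y.2 with h1 | h1
  · exact key x y hx hy h h1
  · exact (key y x hy hx h.symm h1).symm

/-- the subshift is minimal -/
theorem om_min {W : Type} (Y : Sys W) (ok : Ok2 Y) {ω η : ℕ → W × ℝ} (hω : ω ∈ Y.Om)
    (hη : η ∈ Y.Om) (N : ℕ) : ∃ n : ℕ, ∀ k < N, ω (n + k) = η k := by
  have P := pre2 ok
  obtain ⟨m, z, hz, hzA, hzω⟩ := om_orbit ok hω
  obtain ⟨y, hy, h⟩ := hη N
  obtain ⟨δ, hδ, h1⟩ := cyl_open P hy (N := N) fun k hk => (h k hk).1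
  obtain ⟨n, h2, h3⟩ := dense Y ok z hz hzA y hy δ hδ
  refine ⟨m + n, ?_⟩
  intro k hk
  have h4 := h1 _ h3 k hk
  rw [sh_diff h2.symm, (h k hk).2, ← Function.iterate_add_apply, hzω] at h4
  rw [← h4]
  congr 1
  omega

/-- small cylinders -/
theorem cyl_small {W : Type} (Y : Sys W) (ok : Ok2 Y) {y : W × ℝ} (hy : y ∈ Y.S) {ε : ℝ}
    (hε : 0 < ε) : ∃ N : ℕ, ∃ x ∈ Y.Inf, ∀ x' ∈ Y.Inf, (∀ k < N, Y.cd x' k = Y.cd x k) →
      x'.1 = y.1 ∧ |x'.2 - y.2| < ε := by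
  have P := pre2 ok
  -- a ball in the space
  set r := min ε (min (y.2 - Y.a y.1) (Y.b y.1 - y.2)) with hr
  have hr0 : 0 < r := lt_min hε (lt_min (by linarith [hy.2.1]) (by linarith [hy.2.2]))
  have r1 : r ≤ ε := min_le_left _ _
  have r2 : r ≤ y.2 - Y.a y.1 := le_trans (min_le_right _ _) (min_le_left _ _)
  have r3 : r ≤ Y.b y.1 - y.2 := le_trans (min_le_right _ _) (min_le_right _ _)
  have hS : ∀ t : ℝ, |t| < r → sh y t ∈ Y.S := by
    intro t ht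
    rw [abs_lt] at ht
    refine ⟨hy.1, ?_, ?_⟩
    · rw [sh_fst, sh_snd]; linarith
    · rw [sh_fst, sh_snd]; linarith
  -- two preimages of `A`
  obtain ⟨p, hp, i, hpi, hpA, hp1, hp2⟩ := dense_back Y ok (sh y (-(r / 2)))
    (hS _ (by rw [abs_neg, abs_of_pos (by linarith)]; linarith)) (r / 4) (by linarith)
  obtain ⟨q, hq, j, hqj, hqA, hq1, hq2⟩ := dense_back Y ok (sh y (r / 2))
    (hS _ (by rw [abs_of_pos (by linarith)]; linarith)) (r / 4) (by linarith)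
  rw [sh_fst] at hp1 hq1
  rw [sh_snd, abs_lt] at hp2 hq2
  -- an infinite orbit between them
  obtain ⟨β, hβ⟩ := B_ne2 ok
  obtain ⟨n, hn1, hn2⟩ := dense Y ok β (ok.subB hβ) (ok.nc β hβ) y hy (r / 4) (by linarith)
  rw [abs_lt] at hn2
  set x := Y.T^[n] β with hx
  have hxS : x ∈ Y.S := iter_mem P (ok.subB hβ) fun k _ => ok.nc β hβ k
  have hxI : x ∈ Y.Inf := by
    refine ⟨hxS, fun k => ?_⟩
    rw [hx, ← Function.iterate_add_apply]
    exact ok.nc β hβ _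
  refine ⟨max i j + 1, x, hxI, ?_⟩
  intro x' hx' hcd
  have h1 : x'.1 = y.1 := by
    have h2 := hcd 0 (by omega)
    have h3 : (Y.cd x' 0).1 = (Y.cd x 0).1 := by rw [h2]
    exact h3.trans hn1
  refine ⟨h1, ?_⟩
  -- the cylinder
  have key : ∀ (z : W × ℝ) (m : ℕ) (s : ℝ), Sn s → m ≤ max i j → z.1 = y.1 → Y.T^[m] z ∈ Y.A →
      0 ≤ s * (x.2 - z.2) → s * (x'.2 - z.2) ≤ 0 → False := by
    intro z m s hs hm hz1 hzA h2 h3
    have hxC : x ∈ Cy Y (Y.cd x) (m + 1) := ⟨hxS, fun k _ => ⟨hxI.2 k, rfl⟩⟩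
    have hxC' : x' ∈ Cy Y (Y.cd x) (m + 1) := ⟨hx'.1, fun k hk => ⟨hx'.2 k, hcd k (by omega)⟩⟩
    have e1 : x = sh z (s * (s * (x.2 - z.2))) := by
      rw [hs.mm, sh_diff (by rw [hz1, hn1])]
    have e2 : x' = sh z (s * (s * (x'.2 - z.2))) := by
      rw [hs.mm, sh_diff (by rw [hz1, h1])]
    have h4 : sh z (s * (s * (x.2 - z.2))) ∈ Cy Y (Y.cd x) (m + 1) := e1 ▸ hxC
    have h5 : sh z (s * (s * (x'.2 - z.2))) ∈ Cy Y (Y.cd x) (m + 1) := e2 ▸ hxC'
    have h6 := Cy_conv P hs h5 h4 h3 h2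
    rw [mul_zero, sh_zero] at h6
    exact (h6.2 m (by omega)).1 hzA
  rw [abs_lt]
  constructor
  · by_contra hcon
    push Not at hcon
    exact key p i 1 (Or.inl rfl) (le_max_left _ _) hp1 hpA (by linarith) (by linarith)
  · by_contra hcon
    push Not at hcon
    exact key q j (-1) (Or.inr rfl) (le_max_right _ _) hq1 hqA (by linarith) (by linarith)

end TMN
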