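import Pool.Agent.TMN.Base
import Pool.Agent.TMN.F1
import Pool.Agent.TMN.F2b

/-! # TMN [M1]: from boxes of plane phase points to the flow -/

set_option autoImplicit false

open MeasureTheory Set Filter Topology

namespace TMN

open TMX

theorem m1_lift_ne {θ : ℝ} (hθ : |θ - Real.pi / 4| < 1 / 100) {p : Par} (hp : p ∈ Pi1)
    {U : Set (ℂ × BIL.Ang)} (hU : IsOpen U) (hne : (U ∩ Tb θ p ×ˢ univ).Nonempty) :
    ∃ z ∈ q5_lift θ p U, z.1 ∈ Ro θ ∧ z.1 ∉ Q p ∧ ‖z.2‖ = 1 := by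
  obtain ⟨⟨x, α⟩, hxU, hxP, -⟩ := hne
  obtain ⟨-, hcl, -⟩ := TMN.table_closure2 hθ hp
  have hx := hcl hxP
  have hV : {y : ℂ | (y, α) ∈ U} ∈ 𝓝 x := by
    have hc : Continuous fun y : ℂ => (y, α) := by fun_prop
    exact (hU.preimage hc).mem_nhds hxU
  obtain ⟨y, hyU, hy1, hy2⟩ := mem_closure_iff_nhds.mp hx _ hV
  refine ⟨(y, BIL.dir α), ⟨⟨hy1, hy2⟩, ?_, ?_⟩, hy1, hy2, q5_dir_norm α⟩
  · intro h
    have := q5_dir_norm α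
    rw [show BIL.dir α = 0 from h] at this
    norm_num at this
  · change (y, BIL.ang (BIL.dir α)) ∈ U
    rw [q5_ang_dir]; exact hyU

theorem m1_frontier {θ : ℝ} (hθ : |θ - Real.pi / 4| < 1 / 100) {p : Par} (hp : p ∈ Pi1) {x : ℂ}
    (h1 : x ∈ Ro θ) (h2 : x ∉ Q p) : x ∉ frontier (Tb θ p) ∧ x ∈ Tb θ p := by
  obtain ⟨hint, -, -⟩ := TMN.table_closure2 hθ hp
  have hx : x ∈ interior (Tb θ p) := by rw [hint]; exact ⟨h1, h2⟩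
  exact ⟨fun h => h.2 hx, interior_subset hx⟩

/-- One orbit. -/
theorem m1_orbit {θ : ℝ} (hθ : |θ - Real.pi / 4| < 1 / 100) {p : Par} (hp : p ∈ Pi1)
    {γ : ℝ → ℂ × BIL.Ang} (hγ : BIL.IsOrbit (Tb θ p) (vx θ p) (fun i => vx θ p (i + 1)) γ)
    {U V : Set (ℂ × BIL.Ang)} {y w : ℂ} (h0 : (γ 0).1 = y) (h1 : BIL.dir (γ 0).2 = w)
    (hy : y ∈ Ro θ) (hf : Fre θ p y) {t₁ t₂ : ℝ}
    (hU : Visit2 θ p (y, -w) (rev (q5_lift θ p U)) t₁)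
    (hV : Visit2 θ p (y, w) (q5_lift θ p V) t₂) : γ (-t₁) ∈ U ∧ γ t₂ ∈ V := by
  have hyQ : y ∉ Q p := by
    intro h
    apply hf (1, (0, 0))
    change frm θ (1, (0, 0)) y ∈ Q p
    rw [frm_one]; exact h
  constructor
  · obtain ⟨γ', hγ', hpos, hdir⟩ := rev_orbit hγ
    have a0 : (γ' 0).1 = y := by rw [hpos]; simpa using h0
    have a1 : BIL.dir (γ' 0).2 = -w := by
      rw [hdir 0, neg_zero, h1]
      rw [neg_zero, h0]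
      exact (m1_frontier hθ hp hy hyQ).1
    have hR : ∀ z ∈ rev (q5_lift θ p U), z.1 ∈ Ro θ := fun z hz => hz.1.1
    have key := TMN.follow2 (z := (y, -w)) hθ hp hγ' a0 a1 hy hf hR hU
    have key' : ((γ' t₁).1, -BIL.dir (γ' t₁).2) ∈ q5_lift θ p U := key
    have hin : (γ (-t₁)).1 ∈ Ro θ ∧ (γ (-t₁)).1 ∉ Q p := by
      rw [← hpos]; exact key'.1
    rw [hpos, hdir t₁ (m1_frontier hθ hp hin.1 hin.2).1, neg_neg] at key'
    exact q5_mem key'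
  · have hR : ∀ z ∈ q5_lift θ p V, z.1 ∈ Ro θ := fun z hz => hz.1.1
    exact q5_mem (TMN.follow2 (z := (y, w)) hθ hp hγ h0 h1 hy hf hR hV)

theorem topmixq_of_boxes2 {θ : ℝ} (hθ : |θ - Real.pi / 4| < 1 / 100) {p : Par} (hp : p ∈ Pi1)
    (h : ∀ U V : Set (ℂ × ℂ), IsOpen U → IsOpen V →
      (∃ z ∈ U, z.1 ∈ Ro θ ∧ z.1 ∉ Q p ∧ ‖z.2‖ = 1) →
      (∃ z ∈ V, z.1 ∈ Ro θ ∧ z.1 ∉ Q p ∧ ‖z.2‖ = 1) →
      ∃ T c : ℝ, 0 < T ∧ 0 < c ∧ ∀ t ≥ T, ∃ (y : ℂ) (α r δ₁ δ₂ t₁ t₂ : ℝ), 0 < r ∧ 0 < δ₁ ∧ 0 < δ₂ ∧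
        δ₂ < 1 ∧ 0 < t₁ ∧ 0 < t₂ ∧ t₁ + t₂ = t ∧ c / t ^ 3 ≤ r * δ₁ * δ₂ ∧
        ∀ (y' w : ℂ) (α' : ℝ), |dot (zz θ) (y' - y)| < r → |crs (zz θ) (y' - y)| < δ₁ →
          |α' - α| < δ₂ → w = Complex.exp (α' * Complex.I) →
          y' ∈ Ro θ ∧ Fre θ p y' ∧ Visit2 θ p (y', -w) (rev U) t₁ ∧ Visit2 θ p (y', w) V t₂) :
    TopMixQ (Tb θ p) (vx θ p) (fun i => vx θ p (i + 1)) := by
  intro φ hφ U V hU hV hUne hVne
  have hP : BIL.IsPolygon (Tb θ p) (vx θ p) (fun i => vx θ p (i + 1)) := TMN.polygon2 hθ hp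
  obtain ⟨-, -, hM0, hMT⟩ := BIL.vol_ne hP
  set M : ENNReal := (volume : Measure (ℂ × BIL.Ang)) (Tb θ p ×ˢ univ) with hM
  obtain ⟨T, c, hT, hc, hbox⟩ := h (q5_lift θ p U) (q5_lift θ p V) (q5_lift_open θ p hU)
    (q5_lift_open θ p hV) (m1_lift_ne hθ hp hU hUne) (m1_lift_ne hθ hp hV hVne)
  have hMr : 0 < M.toReal := ENNReal.toReal_pos hM0 hMT
  refine ⟨T, 4 * c / M.toReal, hT, by positivity, fun t ht => ?_⟩
  have ht0 : 0 < t := lt_of_lt_of_le hT ht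
  obtain ⟨y, α, r, δ₁, δ₂, t₁, t₂, hr, h1, h2, h21, ht1, ht2, htt, hcle, hB⟩ := hbox t ht
  -- the box
  set R : Set ℂ := {x : ℂ | |dot (zz θ) (x - y)| < r ∧ |crs (zz θ) (x - y)| < δ₁} with hR
  set J : Set BIL.Ang := {u : BIL.Ang | ∃ α' : ℝ, |α' - α| < δ₂ ∧ u = (α' : BIL.Ang)} with hJ
  have hsub : R ×ˢ J ⊆ Tb θ p ×ˢ univ := by
    rintro ⟨x, u⟩ ⟨⟨hx1, hx2⟩, α', hα, -⟩
    obtain ⟨b1, b2, -, -⟩ := hB x _ α' hx1 hx2 hα rfl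
    refine ⟨(m1_frontier hθ hp b1 fun hq => b2 (1, (0, 0)) ?_).2, mem_univ _⟩
    change frm θ (1, (0, 0)) x ∈ Q p
    rw [frm_one]; exact hq
  have hvol : ENNReal.ofReal (4 * r * δ₁) * ENNReal.ofReal δ₂ ≤
      (volume : Measure (ℂ × BIL.Ang)) (R ×ˢ J) := by
    rw [Measure.volume_eq_prod, Measure.prod_prod, q5_area θ y hr h1]
    exact mul_le_mul_right (q5_arc α h2 h21) _
  have hliou : ENNReal.ofReal (4 * c / M.toReal / t ^ 3) ≤ BIL.liou (Tb θ p) (R ×ˢ J) := by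
    unfold BIL.liou
    rw [ProbabilityTheory.cond, Measure.smul_apply, smul_eq_mul]
    have e1 : ((volume : Measure (ℂ × BIL.Ang)).restrict (Tb θ p ×ˢ univ)) (R ×ˢ J) =
        (volume : Measure (ℂ × BIL.Ang)) (R ×ˢ J) := by
      apply Measure.restrict_eq_self
      exact hsub
    rw [e1, ← hM]
    calc ENNReal.ofReal (4 * c / M.toReal / t ^ 3)
        ≤ ENNReal.ofReal ((M⁻¹).toReal * (4 * r * δ₁ * δ₂)) := by
          apply ENNReal.ofReal_le_ofReal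
          rw [ENNReal.toReal_inv]
          have e2 : 4 * c / M.toReal / t ^ 3 = (M.toReal)⁻¹ * (4 * (c / t ^ 3)) := by
            field_simp
          rw [e2]
          apply mul_le_mul_of_nonneg_left _ (by positivity)
          linarith
      _ = M⁻¹ * (ENNReal.ofReal (4 * r * δ₁) * ENNReal.ofReal δ₂) := by
          rw [ENNReal.ofReal_mul ENNReal.toReal_nonneg,
            ENNReal.ofReal_toReal (ENNReal.inv_ne_top.2 hM0),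
            ENNReal.ofReal_mul (by positivity)]
      _ ≤ M⁻¹ * (volume : Measure (ℂ × BIL.Ang)) (R ×ˢ J) := by gcongr
  -- almost every point of the box
  have hae : ∀ᵐ z ∂(BIL.liou (Tb θ p)), z ∈ R ×ˢ J → φ (-t₁) z ∈ U ∧ φ t₂ z ∈ V := by
    filter_upwards [hφ.orbit, hφ.zero] with z hz hz0
    rintro ⟨⟨hx1, hx2⟩, α', hα, hu⟩
    obtain ⟨b1, b2, b3, b4⟩ := hB z.1 _ α' hx1 hx2 hα rfl
    refine m1_orbit (γ := fun t => φ t z) hθ hp hz (y := z.1)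
      (w := Complex.exp (α' * Complex.I)) (by rw [hz0]) ?_ b1 b2 b3 b4
    rw [hz0, hu, q5_dir_coe]
  have hE : MeasurableSet (U ∩ (φ t) ⁻¹' V) :=
    hU.measurableSet.inter ((hφ.mp t).measurable hV.measurableSet)
  rw [← (hφ.mp (-t₁)).measure_preimage hE.nullMeasurableSet]
  refine le_trans hliou (measure_mono_ae ?_)
  filter_upwards [hae, hφ.add t (-t₁)] with z hz hz2 hzB
  obtain ⟨k1, k2⟩ := hz hzB
  refine ⟨k1, ?_⟩
  change φ t (φ (-t₁) z) ∈ V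
  rw [← hz2]
  have e : t + -t₁ = t₂ := by linarith
  rw [e]; exact k2

end TMN
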