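import Pool.Agent.TMN.Base
import Pool.Agent.TMN.G1b

set_option autoImplicit false

open Set Filter Topology

namespace TMN

open TMX

private theorem S1_line (p : Par) (w : ℂ) (s : Fin 4) (hs : 0 < dot w (nu p s)) (o : ℝ) :
    dot (XS p w s o) (nu p s) = p.2 s ∧ crs w (XS p w s o) = o := by
  have h1 : dot (nu p s) (nu p s) = 1 := by rw [dot_self, nu_norm]; norm_num
  constructor
  · unfold XS
    rw [dot_add_left, dot_mul_left, dot_mul_left, dot_I_mul, crs_self, h1]; ring
  · unfold XS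
    rw [crs_add_right, crs_mul_right, crs_mul_right, crs_mul_I]
    field_simp
    ring

private theorem S1_inv (p : Par) (w : ℂ) (s : Fin 4) (hs : 0 < dot w (nu p s)) (x : ℂ)
    (hx : dot x (nu p s) = p.2 s) : XS p w s (crs w x) = x := by
  have hd := decomp (nu_norm p s) x
  have hx' : dot (nu p s) x = p.2 s := by rw [dot_comm]; exact hx
  rw [hx'] at hd
  have hd2 : x = ((p.2 s : ℝ) : ℂ) * nu p s + ((crs (nu p s) x : ℝ) : ℂ) * (Complex.I * nu p s) := by
    calc x = (((p.2 s : ℝ) : ℂ) + (crs (nu p s) x : ℂ) * Complex.I) * nu p s := hd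
      _ = _ := by ring
  have hc : crs w x = p.2 s * crs w (nu p s) + crs (nu p s) x * dot w (nu p s) := by
    conv_lhs => rw [hd2]
    rw [crs_add_right, crs_mul_right, crs_mul_right, crs_mul_I]
  have hq : (crs w x - p.2 s * crs w (nu p s)) / dot w (nu p s) = crs (nu p s) x := by
    rw [hc]; field_simp; ring
  unfold XS
  rw [hq]
  exact hd2.symm

theorem XS_facts {p : Par} (hp : p ∈ Pi1) {w : ℂ} (hn : ‖w‖ = 1) {s : Fin 4}
    (hs : 0 < dot w (nu p s)) :
    crs w (sv p s) < crs w (se p s) ∧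
    (∀ o, dot (XS p w s o) (nu p s) = p.2 s ∧ crs w (XS p w s o) = o) ∧
    (∀ o, crs w (sv p s) < o → o < crs w (se p s) → 0 < (XS p w s o).im ∧
      (∀ j, j ≠ s → dot (XS p w s o) (nu p j) < p.2 j) ∧ Out2 p (XS p w s o) w) ∧
    (∀ x, dot x (nu p s) = p.2 s → XS p w s (crs w x) = x) ∧
    (∀ x, dot x (nu p s) = p.2 s → 0 < x.im → (∀ j, j ≠ s → dot x (nu p j) < p.2 j) →
      crs w (sv p s) < crs w x ∧ crs w x < crs w (se p s)) := by
  obtain ⟨⟨L, hL, hLe⟩, hsv, hiff⟩ := TMN.side hp s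
  have hse : se p s = sv p s + (L : ℂ) * (Complex.I * nu p s) := by rw [← hLe]; ring
  have hcse : crs w (se p s) = crs w (sv p s) + L * dot w (nu p s) := by
    rw [hse, crs_add_right, crs_mul_right, crs_mul_I]
  have hLd : 0 < L * dot w (nu p s) := mul_pos hL hs
  have hcτ : ∀ τ : ℝ, crs w (sv p s + (τ : ℂ) * (se p s - sv p s)) =
      crs w (sv p s) + τ * (L * dot w (nu p s)) := by
    intro τ
    rw [hLe, crs_add_right, crs_mul_right, crs_mul_right, crs_mul_I]
  have hdτ : ∀ τ : ℝ, dot (sv p s + (τ : ℂ) * (se p s - sv p s)) (nu p s) = p.2 s := by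
    intro τ
    rw [hLe, dot_add_left, dot_mul_left, dot_mul_left, dot_I_mul, crs_self, hsv]; ring
  refine ⟨by linarith, fun o => S1_line p w s hs o, ?_, fun x hx => S1_inv p w s hs x hx, ?_⟩
  · intro o h1 h2
    have hτ0 : 0 < (o - crs w (sv p s)) / (L * dot w (nu p s)) := div_pos (by linarith) hLd
    have hτ1 : (o - crs w (sv p s)) / (L * dot w (nu p s)) < 1 := by
      rw [div_lt_one hLd]; linarith
    have hxo : XS p w s o = sv p s +
        (((o - crs w (sv p s)) / (L * dot w (nu p s)) : ℝ) : ℂ) * (se p s - sv p s) := by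
      have h3 := S1_inv p w s hs _ (hdτ ((o - crs w (sv p s)) / (L * dot w (nu p s))))
      rw [hcτ] at h3
      have h4 : crs w (sv p s) + (o - crs w (sv p s)) / (L * dot w (nu p s)) *
          (L * dot w (nu p s)) = o := by
        rw [div_mul_cancel₀ _ hLd.ne']; ring
      rw [h4] at h3
      exact h3
    obtain ⟨him, hj⟩ := (hiff (XS p w s o) (S1_line p w s hs o).1).2 ⟨_, hτ0, hτ1, hxo⟩
    refine ⟨him, hj, ⟨⟨?_, s, (S1_line p w s hs o).1, hs⟩, him.le, fun h0 => ?_⟩⟩
    · intro j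
      by_cases hjs : j = s
      · subst hjs; exact (S1_line p w j hs o).1.le
      · exact (hj j hjs).le
    · exact absurd h0 him.ne'
  · intro x hx him hj
    obtain ⟨τ, h0, h1, hxe⟩ := (hiff x hx).1 ⟨him, hj⟩
    rw [hxe, hcτ, hcse]
    constructor
    · nlinarith
    · nlinarith

end TMN
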