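import Pool.Agent.TMN.Base

set_option autoImplicit false

open Set Filter Topology

namespace TMN

open TMX

namespace S2

/-- The hole contains a ball. -/
theorem ball_in_Q {p : Par} (hp : p ∈ Pi1) :
    ∃ q0 : ℂ, ∃ δ : ℝ, 0 < δ ∧ ∀ q : ℂ, ‖q - q0‖ < δ → q ∈ Q p := by
  have h0 := hp.2.2.1 0
  have h1 := hp.2.2.1 1
  have e2 : (0 : Fin 4) + 2 = 2 := rfl
  have e3 : (1 : Fin 4) + 2 = 3 := rfl
  rw [e2] at h0
  rw [e3] at h1
  refine ⟨((1 / 2 : ℝ) : ℂ) * (vtx p 0 + vtx p 2), min ((p.2 0 + p.2 2) / 2) ((p.2 1 + p.2 3) / 2),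
    lt_min (by linarith) (by linarith), ?_⟩
  intro q hq
  have hq0 := lt_of_lt_of_le hq (min_le_left _ _)
  have hq1 := lt_of_lt_of_le hq (min_le_right _ _)
  set q0 : ℂ := ((1 / 2 : ℝ) : ℂ) * (vtx p 0 + vtx p 2) with hq0d
  have key : ∀ j, dot q (nu p j) ≤ dot q0 (nu p j) + ‖q - q0‖ := by
    intro j
    have e : dot q (nu p j) = dot q0 (nu p j) + dot (q - q0) (nu p j) := by
      rw [dot_sub_left]; ring
    have h2 := abs_dot_le (q - q0) (nu p j)
    rw [nu_norm, mul_one] at h2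
    have h3 := le_abs_self (dot (q - q0) (nu p j))
    linarith
  have d0 : dot q0 (nu p 0) = (p.2 0 - p.2 2) / 2 := by
    have a := dot_vtx_self p 0
    have b : dot (vtx p 2) (nu p 0) = -p.2 2 := dot_vtx_two p 2
    rw [hq0d, dot_mul_left, dot_add_left, a, b]; ring
  have d1 : dot q0 (nu p 1) = (p.2 1 - p.2 3) / 2 := by
    have a : dot (vtx p 0) (nu p 1) = p.2 1 := dot_vtx_succ p 0
    have b : dot (vtx p 2) (nu p 1) = -p.2 3 := dot_vtx_three p 2
    rw [hq0d, dot_mul_left, dot_add_left, a, b]; ring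
  have d2 : dot q0 (nu p 2) = (p.2 2 - p.2 0) / 2 := by
    have a : dot (vtx p 0) (nu p 2) = -p.2 0 := dot_vtx_two p 0
    have b := dot_vtx_self p 2
    rw [hq0d, dot_mul_left, dot_add_left, a, b]; ring
  have d3 : dot q0 (nu p 3) = (p.2 3 - p.2 1) / 2 := by
    have a : dot (vtx p 0) (nu p 3) = -p.2 1 := dot_vtx_three p 0
    have b : dot (vtx p 2) (nu p 3) = p.2 3 := dot_vtx_succ p 2
    rw [hq0d, dot_mul_left, dot_add_left, a, b]; ring
  have k0 := key 0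
  have k1 := key 1
  have k2 := key 2
  have k3 := key 3
  rw [d0] at k0
  rw [d1] at k1
  rw [d2] at k2
  rw [d3] at k3
  intro j
  fin_cases j
  · change dot q (nu p 0) ≤ p.2 0; linarith
  · change dot q (nu p 1) ≤ p.2 1; linarith
  · change dot q (nu p 2) ≤ p.2 2; linarith
  · change dot q (nu p 3) ≤ p.2 3; linarith

end S2

open TMX.S2

/-- [S2] bounded flights. -/
theorem bounded2 {θ : ℝ} (hθ : |θ - Real.pi / 4| < 1 / 100) (hz : Transcendental ℚ (zz θ))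
    {p : Par} (hp : p ∈ Pi1) {n : ℕ} (g : Gen2 θ p n) :
    ∃ L : ℝ, ∀ w ∈ DD θ n, ∀ x : ℂ, (Out2 p x w ∨ ¬ Spc θ w) →
      ∃ t : ℝ, 1 ≤ t ∧ t ≤ L ∧ ∃ c, x + t * w ∈ obs θ p c := by
  have hb := bb_pos_of hθ
  obtain ⟨q0, δ, hδ, hball⟩ := TMN.S2.ball_in_Q hp
  have key : ∀ w : ℂ, ∃ L : ℝ, w ∈ DD θ n → ∀ x : ℂ, (Out2 p x w ∨ ¬ Spc θ w) →
      ∃ t : ℝ, 1 ≤ t ∧ t ≤ L ∧ ∃ c, x + t * w ∈ obs θ p c := by
    intro w
    by_cases hw : w ∈ DD θ n
    swap
    · exact ⟨0, fun h => absurd h hw⟩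
    have hn : ‖w‖ = 1 := (DD_ops hz g.toGen hw).1
    by_cases hs : Spc θ w
    · refine ⟨ell θ, fun _ x hx => ?_⟩
      have hout : Out2 p x w := by
        rcases hx with h | h
        · exact h
        · exact absurd hs h
      obtain ⟨m, hm⟩ := spc_lat hθ hs
      refine ⟨ell θ, one_le_ell hθ, le_refl _, (1, m), ?_⟩
      change act 1 (x + (ell θ : ℂ) * w - lat θ m) ∈ Q p
      rw [act_one, hm, add_sub_cancel_right]
      exact hout.1.1
    · have hirr : ∀ m : ℤ × ℤ, m ≠ 0 → crs w (lat θ m) ≠ 0 := by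
        intro m hm h
        exact hs (lat_special hz hw hm h).1
      obtain ⟨L, hL⟩ := lat_uniform hb hn hirr δ hδ
      refine ⟨L, fun _ x _ => ?_⟩
      obtain ⟨m, h1, h2, h3⟩ := hL (q0 - x)
      refine ⟨dot w (lat θ m + (q0 - x)), h2, h3, (1, m), ?_⟩
      change act 1 (x + (dot w (lat θ m + (q0 - x)) : ℂ) * w - lat θ m) ∈ Q p
      rw [act_one]
      apply hball
      have hd := decomp hn (lat θ m + (q0 - x))
      have e : x + (dot w (lat θ m + (q0 - x)) : ℂ) * w - lat θ m - q0 =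
          -((crs w (lat θ m + (q0 - x)) : ℂ) * (Complex.I * w)) := by
        linear_combination (-1 : ℂ) * hd
      rw [e, norm_neg, norm_mul, norm_mul, Complex.norm_I, hn, Complex.norm_real,
        Real.norm_eq_abs]
      simpa using h1
  choose f hf using key
  obtain ⟨L, hL⟩ := ((DD_finite θ n).image f).bddAbove
  refine ⟨L, fun w hw x hx => ?_⟩
  obtain ⟨t, ht1, ht2, c, hc⟩ := hf w hw x hx
  exact ⟨t, ht1, ht2.trans (hL ⟨w, hw, rfl⟩), c, hc⟩

end TMN
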