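import Pool.Agent.TMN.Base
import Pool.Agent.TMN.G1a
import Pool.Agent.TMN.G1b

/-! # TMN: row S3, the first touched copy -/

set_option autoImplicit false

open Set Filter Topology

namespace TMN

open TMX

namespace S3

/-- The frame of the partner copy. -/
theorem frm_cj (θ : ℝ) (c : Cp) (x : ℂ) : frm θ (TMX.cmp c cj) x = (starRingEnd ℂ) (frm θ c x) := by
  rw [← frm_frm]
  apply Complex.ext <;> simp [frm, act, lat, cj]

theorem act_cj (c : Cp) (x : ℂ) : act (TMX.cmp c cj).1 x = (starRingEnd ℂ) (act c.1 x) := by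
  apply Complex.ext <;> simp [act, TMX.cmp, cj]

theorem conj_add_mul (y v : ℂ) (r : ℝ) :
    (starRingEnd ℂ) (y + (r : ℂ) * v) = (starRingEnd ℂ) y + (r : ℂ) * (starRingEnd ℂ) v := by
  rw [map_add, map_mul, Complex.conj_ofReal]

theorem conj_eq_self {y : ℂ} (h : y.im = 0) : (starRingEnd ℂ) y = y := by
  apply Complex.ext <;> simp [h]

/-- A real boundary point of the hole is a joint. -/
theorem real_joint {p : Par} (hp : p ∈ Pi1) {y : ℂ} (hy : y ∈ Q p) (him : y.im = 0) {j : Fin 4}
    (hj : dot y (nu p j) = p.2 j) : (j = 2 ∨ j = 3) ∧ y = jt p j := by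
  obtain ⟨s2, s3, _, _, s0i, s1i, _⟩ := TMN.signs hp
  have v1 : 0 < (vtx p 1).im := hp.2.2.2.2.2.1
  have v3 : 0 < (vtx p 3).im := hp.2.2.2.2.2.2.1
  have n2 : nu p 2 = -nu p 0 := nu_add_two p 0
  have n3 : nu p 3 = -nu p 1 := nu_add_two p 1
  have b := basis_nu p 0 y
  have b1 : (0 : Fin 4) + 1 = 1 := rfl
  rw [b1] at b
  have hbim : y.im = dot y (nu p 0) * (nu p 0).im + dot y (nu p 1) * (nu p 1).im := by
    have := congrArg Complex.im b
    simpa using this
  have e1 : (vtx p 1).im = p.2 1 * (nu p 1).im - p.2 2 * (nu p 0).im := by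
    have : vtx p 1 = (p.2 1 : ℂ) * nu p 1 + (p.2 2 : ℂ) * nu p 2 := rfl
    rw [this, n2]
    simp
    ring
  have e3 : (vtx p 3).im = p.2 0 * (nu p 0).im - p.2 3 * (nu p 1).im := by
    have : vtx p 3 = (p.2 3 : ℂ) * nu p 3 + (p.2 0 : ℂ) * nu p 0 := rfl
    rw [this, n3]
    simp
    ring
  have h2 : -p.2 2 ≤ dot y (nu p 0) := by
    have := hy 2
    rw [n2, dot_neg_right] at this
    linarith
  have h3 : -p.2 3 ≤ dot y (nu p 1) := by
    have := hy 3
    rw [n3, dot_neg_right] at this
    linarith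
  have hcase : j = 2 ∨ j = 3 := by
    have : j = 0 ∨ j = 1 ∨ j = 2 ∨ j = 3 :=
      (by decide : ∀ j : Fin 4, j = 0 ∨ j = 1 ∨ j = 2 ∨ j = 3) j
    rcases this with h | h | h | h
    · exfalso
      rw [h] at hj
      rw [hj] at hbim
      have := mul_le_mul_of_nonneg_right h3 s1i.le
      linarith
    · exfalso
      rw [h] at hj
      rw [hj] at hbim
      have := mul_le_mul_of_nonneg_right h2 s0i.le
      linarith
    · exact Or.inl h
    · exact Or.inr h
  refine ⟨hcase, ?_⟩
  have hre : (nu p j).re ≠ 0 := by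
    rcases hcase with h | h
    · rw [h]; exact ne_of_lt s2
    · rw [h]; exact ne_of_gt s3
  have hj' : y.re * (nu p j).re = p.2 j := by
    have := hj
    unfold dot at this
    rw [him] at this
    linarith
  have hyre : y.re = p.2 j / (nu p j).re := by
    rw [eq_div_iff hre, hj']
  unfold jt
  apply Complex.ext
  · rw [Complex.ofReal_re, hyre]
  · rw [Complex.ofReal_im, him]

end S3

open S3

/-- [S3] the first touched copy: a good letter or a vertex. -/
theorem first_touch2 {θ : ℝ} (hθ : |θ - Real.pi / 4| < 1 / 100) {p : Par} (hp : p ∈ Pi1)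
    {x w : ℂ} (hn : ‖w‖ = 1) (hw : ∀ d j, dot (act d w) (nu p j) ≠ 0)
    (hs : Out2 p x w ∨ Fre θ p x) {L : ℝ} (hL : ∃ t : ℝ, 0 < t ∧ t ≤ L ∧ ∃ c, x + t * w ∈ obs θ p c) :
    (∃ a, Good2 θ p a (x, w) ∧ fl θ p a (x, w) ≤ L) ∨
    ∃ (c : Cp) (t : ℝ), 0 < t ∧ t ≤ L ∧ FreeSeg θ p x w t ∧
      Vst p (frm θ c (x + t * w)) (-act c.1 w) := by
  obtain ⟨tL, htL0, htL, cL, hcL⟩ := hL
  set H : Set ℝ := {t | 0 < t ∧ ∃ c, x + (t : ℂ) * w ∈ obs θ p c} with hH
  have hne : H.Nonempty := ⟨tL, htL0, cL, hcL⟩
  have hbd : BddBelow H := ⟨0, fun t ht => ht.1.le⟩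
  set τ := sInf H with hτ
  have hτ0 : 0 ≤ τ := le_csInf hne fun t ht => ht.1.le
  have hτL : τ ≤ L := (csInf_le hbd ⟨htL0, cL, hcL⟩).trans htL
  obtain ⟨t1, ht1, ht1'⟩ := exists_lt_of_csInf_lt hne (show sInf H < τ + 2 / 5 by linarith)
  obtain ⟨ht10, c1, hc1⟩ := ht1
  have hτt1 : τ ≤ t1 := csInf_le hbd ⟨ht10, c1, hc1⟩
  -- all near hits are hits of the copy c1 or of its partner
  have hsame : ∀ t ∈ H, t < τ + 2 / 5 →
      x + (t : ℂ) * w ∈ obs θ p c1 ∪ obs θ p (TMX.cmp c1 cj) := by
    intro t ht htlt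
    obtain ⟨ht0, c', hc'⟩ := ht
    have hτt : τ ≤ t := csInf_le hbd ⟨ht0, c', hc'⟩
    by_cases hcc : c' = c1
    · left; rw [← hcc]; exact hc'
    · by_cases hcc2 : c' = TMX.cmp c1 cj
      · right; rw [← hcc2]; exact hc'
      exfalso
      have h1 := TMN.copies_dist2 hθ hp hcc hcc2 hc1 hc'
      have h2 : x + (t1 : ℂ) * w - (x + (t : ℂ) * w) = ((t1 - t : ℝ) : ℂ) * w := by
        push_cast; ring
      rw [h2, norm_mul, hn, mul_one, Complex.norm_real, Real.norm_eq_abs] at h1
      have h3 : |t1 - t| < 2 / 5 := by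
        rw [abs_lt]; constructor <;> linarith
      linarith
  have hclosed : IsClosed {t : ℝ | x + (t : ℂ) * w ∈ obs θ p c1 ∪ obs θ p (TMX.cmp c1 cj)} :=
    ((obs_isClosed θ p c1).union (obs_isClosed θ p (TMX.cmp c1 cj))).preimage
      (by fun_prop : Continuous fun t : ℝ => x + (t : ℂ) * w)
  have hτU : x + (τ : ℂ) * w ∈ obs θ p c1 ∪ obs θ p (TMX.cmp c1 cj) := by
    have : τ ∈ closure {t : ℝ | x + (t : ℂ) * w ∈ obs θ p c1 ∪ obs θ p (TMX.cmp c1 cj)} := by
      rw [Metric.mem_closure_iff]
      intro ε hε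
      obtain ⟨t, ht, htlt⟩ := exists_lt_of_csInf_lt hne
        (show sInf H < τ + min ε (2 / 5) by
          have : 0 < min ε (2 / 5) := lt_min hε (by norm_num)
          linarith)
      have hτt : τ ≤ t := csInf_le hbd ht
      refine ⟨t, hsame t ht (by linarith [min_le_right ε (2 / 5 : ℝ)]), ?_⟩
      rw [dist_comm, Real.dist_eq, abs_of_nonneg (by linarith)]
      linarith [min_le_left ε (2 / 5 : ℝ)]
    rwa [hclosed.closure_eq] at this
  obtain ⟨c, hτc⟩ : ∃ c, x + (τ : ℂ) * w ∈ obs θ p c := by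
    rcases hτU with h | h
    · exact ⟨_, h⟩
    · exact ⟨_, h⟩
  have hτpos : 0 < τ := by
    rcases lt_or_eq_of_le hτ0 with h | h
    · exact h
    · exfalso
      rcases hs with hs | hs
      · obtain ⟨hout, hxim, hxr⟩ := hs
        have hx0 : x ∈ obs θ p (1, (0, 0)) := by
          change frm θ (1, (0, 0)) x ∈ Q p
          rw [frm_one]; exact hout.1
        -- every hit before time 2/5 is a hit of the mirror image
        have hcj : ∀ t ∈ H, t < 2 / 5 → (starRingEnd ℂ) x + (t : ℂ) * (starRingEnd ℂ) w ∈ Q p := by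
          intro t ht htlt
          obtain ⟨ht0, c', hc'⟩ := ht
          have h1 : c' = (1, (0, 0)) ∨ c' = TMX.cmp (1, (0, 0)) cj := by
            by_contra hcon
            rw [not_or] at hcon
            have h1 := TMN.copies_dist2 hθ hp hcon.1 hcon.2 hx0 hc'
            have h2 : x - (x + (t : ℂ) * w) = ((-t : ℝ) : ℂ) * w := by
              push_cast; ring
            rw [h2, norm_mul, hn, mul_one, Complex.norm_real, Real.norm_eq_abs, abs_neg,
              abs_of_pos ht0] at h1
            linarith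
          rcases h1 with h1 | h1
          · exfalso
            rw [h1] at hc'
            change frm θ (1, (0, 0)) (x + (t : ℂ) * w) ∈ Q p at hc'
            rw [frm_one] at hc'
            exact out_ray hout ht0 hc'
          · rw [h1] at hc'
            change frm θ (TMX.cmp (1, (0, 0)) cj) (x + (t : ℂ) * w) ∈ Q p at hc'
            rw [frm_cj, frm_one, conj_add_mul] at hc'
            exact hc'
        rcases lt_or_eq_of_le hxim with hpos | h0
        · -- by closedness the mirror image of `x` is in the hole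
          have hclosed2 : IsClosed {t : ℝ | (starRingEnd ℂ) x + (t : ℂ) * (starRingEnd ℂ) w ∈ Q p} :=
            (Q_isClosed p).preimage
              (by fun_prop : Continuous fun t : ℝ => (starRingEnd ℂ) x + (t : ℂ) * (starRingEnd ℂ) w)
          have h0c : (0 : ℝ) ∈ closure
              {t : ℝ | (starRingEnd ℂ) x + (t : ℂ) * (starRingEnd ℂ) w ∈ Q p} := by
            rw [Metric.mem_closure_iff]
            intro ε hε
            obtain ⟨t, ht, htlt⟩ := exists_lt_of_csInf_lt hne
              (show sInf H < min ε (2 / 5) by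
                have : 0 < min ε (2 / 5) := lt_min hε (by norm_num)
                rw [← hτ, ← h]; exact this)
            refine ⟨t, hcj t ht (htlt.trans_le (min_le_right _ _)), ?_⟩
            rw [dist_comm, Real.dist_eq, sub_zero, abs_of_pos ht.1]
            exact htlt.trans_le (min_le_left _ _)
          rw [hclosed2.closure_eq] at h0c
          have hq : (starRingEnd ℂ) x ∈ Q p := by
            have := h0c
            simp only [mem_setOf_eq, Complex.ofReal_zero, zero_mul, add_zero] at this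
            exact this
          have hneg : ((starRingEnd ℂ) x).im < 0 := by
            rw [Complex.conj_im]; linarith
          obtain ⟨_, j, hj1, _⟩ := hout
          have := TMN.hidden hp hq hneg j
          rw [Complex.conj_conj, hj1] at this
          exact lt_irrefl _ this
        · obtain ⟨t, ht, htlt⟩ := exists_lt_of_csInf_lt hne
            (show sInf H < 2 / 5 by rw [← hτ, ← h]; norm_num)
          have h2 := hcj t ht htlt
          rw [conj_eq_self h0.symm] at h2
          exact out_ray (hxr h0.symm) ht.1 h2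
      · rw [← h] at hτc
        simp only [Complex.ofReal_zero, zero_mul, add_zero] at hτc
        exact hs c hτc
  have hfree : FreeSeg θ p x w τ := by
    intro s hs0 hsτ c' hc'
    exact absurd (csInf_le hbd ⟨hs0, c', hc'⟩) (not_le.mpr hsτ)
  set v := act c.1 w with hv
  set y := frm θ c (x + (τ : ℂ) * w) with hy
  have hyQ : y ∈ Q p := hτc
  have hout : ∀ r : ℝ, 0 < r → r < τ → y - (r : ℂ) * v ∉ Q p := by
    intro r hr0 hrτ hq
    apply hfree (τ - r) (by linarith) (by linarith) c
    change frm θ c (x + ((τ - r : ℝ) : ℂ) * w) ∈ Q p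
    have : frm θ c (x + ((τ - r : ℝ) : ℂ) * w) = y - (r : ℂ) * v := by
      rw [hy, frm_ray, frm_ray, hv]; push_cast; ring
    rw [this]; exact hq
  have hout' : ∀ r : ℝ, 0 < r → r < τ →
      (starRingEnd ℂ) y - (r : ℂ) * (starRingEnd ℂ) v ∉ Q p := by
    intro r hr0 hrτ hq
    apply hfree (τ - r) (by linarith) (by linarith) (TMX.cmp c cj)
    change frm θ (TMX.cmp c cj) (x + ((τ - r : ℝ) : ℂ) * w) ∈ Q p
    have : frm θ (TMX.cmp c cj) (x + ((τ - r : ℝ) : ℂ) * w) =
        (starRingEnd ℂ) y - (r : ℂ) * (starRingEnd ℂ) v := by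
      rw [frm_cj, hy, frm_ray, frm_ray, hv, conj_add_mul, conj_add_mul]; push_cast; ring
    rw [this]; exact hq
  -- the touched point is not below the real axis
  have hyim : 0 ≤ y.im := by
    by_contra hlt
    push Not at hlt
    have hin := TMN.hidden hp hyQ hlt
    obtain ⟨j, hj1, _⟩ := TMX.S3.arrive_side (p := p) (y := (starRingEnd ℂ) y)
      (v := (starRingEnd ℂ) v) (fun j => (hin j).le)
      (fun j => by
        have := hw (TMX.cmp c cj).1 j
        rw [act_cj] at this
        exact this) hτpos hout'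
    have := hin j
    rw [hj1] at this
    exact lt_irrefl _ this
  obtain ⟨j, hj1, hj2⟩ := TMX.S3.arrive_side hyQ (fun j => hw c.1 j) hτpos hout
  rcases lt_or_eq_of_le hyim with hpos | h0
  · by_cases hall : ∀ i, i ≠ j → dot y (nu p i) < p.2 i
    · left
      have hfl : fl θ p (c, j) (x, w) = τ := by
        have h1 : dot y (nu p j) = dot (frm θ c x) (nu p j) + τ * dot v (nu p j) := by
          rw [hy, frm_ray, dot_add_left, dot_mul_left]
        change (p.2 j - dot (frm θ c x) (nu p j)) / dot v (nu p j) = τ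
        rw [div_eq_iff (ne_of_lt hj2)]
        linarith
      have hnx : (nx θ p (c, j) (x, w)).1 = y := by
        simp only [nx]; rw [hfl]
      refine ⟨(c, j), ⟨⟨hj2, ?_, ?_, ?_⟩, ?_⟩, ?_⟩
      · rw [hfl]; exact hτpos
      · rw [hfl]; exact hfree
      · intro i hi
        rw [hnx]; exact hall i hi
      · rw [hnx]; exact hpos
      · rw [hfl]; exact hτL
    · right
      push Not at hall
      obtain ⟨i, hij, hi⟩ := hall
      have hi' : dot y (nu p i) = p.2 i := le_antisymm (hyQ i) hi
      have hcase : i = j + 1 ∨ i = j + 2 ∨ i = j + 3 := by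
        exact (by decide : ∀ i j : Fin 4, i ≠ j → i = j + 1 ∨ i = j + 2 ∨ i = j + 3) i j hij
      have hne2 : ∀ k : Fin 4, y = vtx p k → k ≠ 2 := by
        intro k hk hk2
        rw [hk2] at hk
        have := hp.2.2.2.2.1
        rw [← hk] at this
        linarith
      rcases hcase with h | h | h
      · have hyv : y = vtx p j := by
          rw [basis_nu p j y, hj1, ← h, hi', h]; rfl
        refine ⟨c, τ, hτpos, hτL, hfree, Or.inl ⟨j, hne2 j hyv, hyv, fun hh => ?_⟩⟩
        rw [dot_neg_left] at hh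
        linarith [hh.1]
      · exfalso
        rw [h, dot_add_two, hj1] at hi'
        have := hp.2.2.1 j
        linarith
      · have e : j + 3 + 1 = j := (by decide : ∀ j : Fin 4, j + 3 + 1 = j) j
        have hyv : y = vtx p (j + 3) := by
          rw [h] at hi'
          rw [basis_nu p (j + 3) y, hi', e, hj1, vtx, e]
        refine ⟨c, τ, hτpos, hτL, hfree, Or.inl ⟨j + 3, hne2 _ hyv, hyv, fun hh => ?_⟩⟩
        rw [e, dot_neg_left, dot_neg_left] at hh
        linarith [hh.2]
  · right
    obtain ⟨hk, hyk⟩ := real_joint hp hyQ h0.symm hj1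
    have hcy : (starRingEnd ℂ) y = y := conj_eq_self h0.symm
    obtain ⟨j', hj1', hj2'⟩ := TMX.S3.arrive_side (p := p) (y := (starRingEnd ℂ) y)
      (v := (starRingEnd ℂ) v) (by rw [hcy]; exact hyQ)
      (fun j => by
        have := hw (TMX.cmp c cj).1 j
        rw [act_cj] at this
        exact this) hτpos hout'
    have hjj : j' = j := by
      by_contra hcon
      have := (TMN.jt_facts hp hk).2.1 j' hcon
      rw [← hyk] at this
      rw [hcy] at hj1'
      linarith
    rw [hjj] at hj2'
    refine ⟨c, τ, hτpos, hτL, hfree, Or.inr ⟨j, hk, hyk, ?_, ?_⟩⟩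
    · rw [dot_neg_left]; linarith
    · rw [map_neg, dot_neg_left]; linarith

end TMN
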