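import Pool.Agent.TMN.Base
import Pool.Agent.TMN.G1a
import Pool.Agent.TMN.G1b
import Pool.Agent.TMN.S1
import Pool.Agent.TMN.S2
import Pool.Agent.TMN.S3

/-! # TMN [S4]: the set `EA` is finite -/

set_option autoImplicit false

open Set Filter Topology

namespace TMN

open TMX

theorem s4_norm {x : ℂ} (h1 : |x.re - 1 / 4| < 1 / 50) (h2 : |x.im| < 1 / 50) : ‖x‖ ≤ 1 := by
  rw [abs_lt] at h1 h2
  have h3 : |x.re| ≤ 3 / 10 := by rw [abs_le]; constructor <;> linarith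
  have h4 : |x.im| ≤ 1 / 10 := by rw [abs_le]; constructor <;> linarith
  exact (Complex.norm_le_abs_re_add_abs_im x).trans (by linarith)

theorem s4_vst {p : Par} (hp : p ∈ Pi1) {v w : ℂ} (h : Vst p v w) :
    v ∈ range (vtx p) ∪ range (jt p) ∧ ‖v‖ ≤ 1 := by
  rcases h with ⟨i, -, rfl, -⟩ | ⟨k, hk, rfl, -, -⟩
  · exact ⟨Or.inl ⟨i, rfl⟩, s4_norm (hp.2.2.2.1 i).1 (hp.2.2.2.1 i).2⟩
  · have h1 := TMN.box2 hp (TMN.jt_facts hp hk).2.2.2
    exact ⟨Or.inr ⟨k, rfl⟩, s4_norm h1.1 h1.2⟩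

/-- [S4] -/
theorem finEA {θ : ℝ} (hθ : |θ - Real.pi / 4| < 1 / 100) (hz : Transcendental ℚ (zz θ))
    {p : Par} (hp : p ∈ Pi1) {n : ℕ} (g : Gen2 θ p n) : (EA θ p n).Finite := by
  have hb := TMX.S4.bb_pos_of hθ
  obtain ⟨L, hL⟩ := TMN.bounded2 hθ hz hp g
  have hV : (range (vtx p) ∪ range (jt p)).Finite := (Set.toFinite _).union (Set.toFinite _)
  have hF : ((DD θ n) ×ˢ ((Set.univ : Set (Fin 4)) ×ˢ ((Set.univ : Set Sg) ×ˢ
      ({m : ℤ × ℤ | ‖lat θ m‖ ≤ L + 2} ×ˢ (range (vtx p) ∪ range (jt p)))))).Finite :=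
    (DD_finite θ n).prod ((Set.toFinite _).prod ((Set.toFinite _).prod
      ((TMX.S4.lat_finite hb (L + 2)).prod hV)))
  apply (hF.image fun q : ℂ × (Fin 4 × (Sg × ((ℤ × ℤ) × ℂ))) =>
    ((q.1, q.2.1), crs q.1 (frm θ (inv (q.2.2.1, q.2.2.2.1)) q.2.2.2.2))).subset
  rintro ⟨⟨w, s⟩, o⟩ ⟨⟨⟨hw, hws⟩, ho1, ho2⟩, hgood⟩
  change w ∈ DD θ n at hw
  change 0 < dot w (nu p s) at hws
  change crs w (sv p s) < o at ho1
  change o < crs w (se p s) at ho2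
  change ∀ a, ¬ Good2 θ p a (XS p w s o, w) at hgood
  obtain ⟨hn, -, -, hact, -, hne⟩ := DD_ops hz g.toGen hw
  have hne' : ∀ d j, dot (act d w) (nu p j) ≠ 0 := fun d j =>
    (DD_ops hz g.toGen (hact d)).2.2.2.2.2 j
  obtain ⟨-, h2, h3, -, -⟩ := TMN.XS_facts hp hn hws
  obtain ⟨-, hXo⟩ := h2 o
  obtain ⟨-, -, hXout⟩ := h3 o ho1 ho2
  obtain ⟨t, ht1, htL, c0, hc0⟩ := hL w hw (XS p w s o) (Or.inl hXout)
  rcases TMN.first_touch2 hθ hp hn hne' (Or.inl hXout)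
    ⟨t, by linarith, htL, c0, hc0⟩ with ⟨a, ha, -⟩ | ⟨c, r, hr0, hrL, -, hv⟩
  · exact absurd ha (hgood a)
  · obtain ⟨hv1, hv2⟩ := s4_vst hp hv
    refine ⟨(w, (s, (c.1, (c.2, frm θ c (XS p w s o + (r : ℂ) * w))))),
      ⟨hw, ⟨Set.mem_univ _, ⟨Set.mem_univ _, ⟨?_, hv1⟩⟩⟩⟩, ?_⟩
    · change ‖lat θ c.2‖ ≤ L + 2
      have h1 : ‖XS p w s o‖ ≤ 1 := by
        obtain ⟨h1, h2⟩ := TMN.box2 hp hXout.1.1
        exact s4_norm h1 h2
      have h3 : ‖XS p w s o + (r : ℂ) * w - lat θ c.2‖ ≤ 1 := by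
        rw [← norm_act c.1]; exact hv2
      have h4 : ‖XS p w s o + (r : ℂ) * w‖ ≤ 1 + r := by
        apply (norm_add_le _ _).trans
        rw [norm_mul, hn, Complex.norm_real, Real.norm_eq_abs, abs_of_pos hr0, mul_one]
        linarith
      have h5 : lat θ c.2 = (XS p w s o + (r : ℂ) * w) -
          (XS p w s o + (r : ℂ) * w - lat θ c.2) := by ring
      rw [h5]
      apply (norm_sub_le _ _).trans
      linarith
    · change ((w, s), crs w (frm θ (inv (c.1, c.2)) (frm θ c (XS p w s o + (r : ℂ) * w)))) =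
        ((w, s), o)
      have e : ((c.1, c.2) : Cp) = c := rfl
      rw [e, frm_inv, crs_add_right, crs_mul_right, crs_self, mul_zero, add_zero, hXo]

end TMN
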