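import Pool.Agent.TMN.Base
import Pool.Agent.TMN.G2
import Pool.Agent.TMN.G3
import Pool.Agent.TMN.S1

/-! # TMN [S5]: the section map is a local isometry -/

set_option autoImplicit false

open Set Filter Topology

namespace TMN

open TMX

namespace S5

/-- The letter of a point of `ES \ EA` is good. -/
theorem ltr_good {θ : ℝ} {p : Par} {n : ℕ} {x : (ℂ × Fin 4) × ℝ} (hx : x ∈ ES θ p n \ EA θ p n) :
    Good2 θ p (ltr2 θ p x) (stt p x) := by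
  have h : ∃ a, Good2 θ p a (stt p x) := by
    by_contra hne
    push Not at hne
    exact hx.2 ⟨hx.1, hne⟩
  have e : ltr2 θ p x = h.choose := by
    unfold ltr2; rw [dif_pos h]
  rw [e]; exact h.choose_spec

/-- A good letter of a point of `ES` is the letter of the point. -/
theorem ltr_eq {θ : ℝ} (hθ : |θ - Real.pi / 4| < 1 / 100) {p : Par} (hp : p ∈ Pi1) {n : ℕ}
    {x : (ℂ × Fin 4) × ℝ} (hx : x ∈ ES θ p n) {a : Lt} (ha : Good2 θ p a (stt p x)) :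
    x ∈ ES θ p n \ EA θ p n ∧ ltr2 θ p x = a := by
  have h1 : x ∈ ES θ p n \ EA θ p n := ⟨hx, fun h => h.2 a ha⟩
  exact ⟨h1, TMN.good2_unique hθ hp (ltr_good h1) ha⟩

/-- Component of the image. -/
theorem TS_fst {θ : ℝ} {p : Par} (x : (ℂ × Fin 4) × ℝ) :
    (TS θ p x).1 = (refl p (ltr2 θ p x).2 (act (ltr2 θ p x).1.1 x.1.1), (ltr2 θ p x).2) := rfl

theorem TS_fst1 {θ : ℝ} {p : Par} (x : (ℂ × Fin 4) × ℝ) :
    (TS θ p x).1.1 = refl p (ltr2 θ p x).2 (act (ltr2 θ p x).1.1 x.1.1) := rfl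

theorem TS_main {θ : ℝ} (hz : Transcendental ℚ (zz θ))
    {p : Par} (hp : p ∈ Pi1) {n : ℕ} (g : Gen2 θ p n) {x : (ℂ × Fin 4) × ℝ}
    (hx : x ∈ ES θ p n \ EA θ p n) :
    TS θ p x ∈ ES θ p n ∧
    (TS θ p x).2 = -sdet (ltr2 θ p x).1.1 * (x.2 - crs x.1.1 (lat θ (ltr2 θ p x).1.2)) +
      2 * p.2 (ltr2 θ p x).2 * crs (TS θ p x).1.1 (nu p (ltr2 θ p x).2) ∧
    nx θ p (ltr2 θ p x) (stt p x) = stt p (TS θ p x) ∧
    fl θ p (ltr2 θ p x) (stt p x) = bt p (TS θ p x) - bt p x + fs θ p x := by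
  have hg := ltr_good hx
  obtain ⟨hout, hland, hdir, hnorm⟩ := TMN.nx_out2 hp hg
  obtain ⟨hw1, -, -, hact, -, -⟩ := DD_ops hz g.toGen hx.1.1.1
  obtain ⟨-, -, -, -, hrefl, -⟩ := DD_ops hz g.toGen (hact (ltr2 θ p x).1.1)
  have hw' : (TS θ p x).1.1 ∈ DD θ n := hrefl _
  obtain ⟨hn', -, -, -, -, -⟩ := DD_ops hz g.toGen hw'
  have hdir' : 0 < dot (TS θ p x).1.1 (nu p (ltr2 θ p x).2) := hdir
  obtain ⟨-, -, -, hXS, hrng⟩ := TMN.XS_facts hp hn' hdir'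
  have e2 : (TS θ p x).2 = crs (TS θ p x).1.1 (nx θ p (ltr2 θ p x) (stt p x)).1 := rfl
  have hr := hrng _ hland hg.2 hg.1.2.2.2
  rw [← e2] at hr
  have hX : XS p (TS θ p x).1.1 (ltr2 θ p x).2 (TS θ p x).2 =
      (nx θ p (ltr2 θ p x) (stt p x)).1 := by
    rw [e2]; exact hXS _ hland
  -- the starting point
  obtain ⟨-, hc0, -, -, -⟩ := TMN.XS_facts hp hw1 hx.1.1.2
  have hc : crs x.1.1 (XS p x.1.1 x.1.2 x.2) = x.2 := (hc0 x.2).2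
  have hnx1 : (nx θ p (ltr2 θ p x) (stt p x)).1 =
      act (ltr2 θ p x).1.1 (XS p x.1.1 x.1.2 x.2 + (fl θ p (ltr2 θ p x) (stt p x) : ℂ) * x.1.1 -
        lat θ (ltr2 θ p x).1.2) := rfl
  have hww : dot x.1.1 x.1.1 = 1 := by rw [dot_self, hw1]; norm_num
  have hdw : dot (act (ltr2 θ p x).1.1 x.1.1) (nu p (ltr2 θ p x).2) =
      -dot (TS θ p x).1.1 (nu p (ltr2 θ p x).2) := by
    rw [TS_fst1, dot_refl_nu, neg_neg]
  have hrx : refl p (ltr2 θ p x).2 (nx θ p (ltr2 θ p x) (stt p x)).1 =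
      (nx θ p (ltr2 θ p x) (stt p x)).1 -
        ((2 * p.2 (ltr2 θ p x).2 : ℝ) : ℂ) * nu p (ltr2 θ p x).2 := by
    unfold TMX.refl; rw [hland]
  refine ⟨⟨⟨hw', hdir'⟩, hr.1, hr.2⟩, ?_, ?_, ?_⟩
  · have h1 : crs (TS θ p x).1.1 (nx θ p (ltr2 θ p x) (stt p x)).1 =
        -crs (act (ltr2 θ p x).1.1 x.1.1)
          (refl p (ltr2 θ p x).2 (nx θ p (ltr2 θ p x) (stt p x)).1) := by
      rw [← crs_refl p (ltr2 θ p x).2, refl_refl]; rfl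
    have h2 : crs (act (ltr2 θ p x).1.1 x.1.1) (nx θ p (ltr2 θ p x) (stt p x)).1 =
        sdet (ltr2 θ p x).1.1 * (x.2 - crs x.1.1 (lat θ (ltr2 θ p x).1.2)) := by
      rw [hnx1, crs_act, crs_sub_right, crs_add_right, crs_mul_right, crs_self, hc]; ring
    have h3 : crs (act (ltr2 θ p x).1.1 x.1.1) (nu p (ltr2 θ p x).2) =
        crs (TS θ p x).1.1 (nu p (ltr2 θ p x).2) := by
      rw [TS_fst1, refl_crs_nu]
    rw [e2, h1, hrx, crs_sub_right, crs_mul_right, h2, h3]; ring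
  · apply Prod.ext
    · exact hX.symm
    · rfl
  · have h1 : dot (TS θ p x).1.1 (nx θ p (ltr2 θ p x) (stt p x)).1 =
        dot (act (ltr2 θ p x).1.1 x.1.1)
          (refl p (ltr2 θ p x).2 (nx θ p (ltr2 θ p x) (stt p x)).1) := by
      rw [TS_fst1, dot_refl_left]
    have h2 : dot (act (ltr2 θ p x).1.1 x.1.1) (nx θ p (ltr2 θ p x) (stt p x)).1 =
        bt p x + fl θ p (ltr2 θ p x) (stt p x) - dot x.1.1 (lat θ (ltr2 θ p x).1.2) := by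
      rw [hnx1, dot_act, dot_sub_right, dot_add_right, dot_mul_right, hww]
      unfold bt
      rw [dot_comm x.1.1 (XS p x.1.1 x.1.2 x.2)]; ring
    have hb : bt p (TS θ p x) = dot (TS θ p x).1.1 (nx θ p (ltr2 θ p x) (stt p x)).1 := by
      change dot (XS p (TS θ p x).1.1 (ltr2 θ p x).2 (TS θ p x).2) (TS θ p x).1.1 = _
      rw [hX, dot_comm]
    rw [hrx, dot_sub_right, dot_mul_right, h2, hdw] at h1
    rw [hb, h1]
    unfold fs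
    rw [dot_comm (lat θ (ltr2 θ p x).1.2) x.1.1, dot_comm (nu p (ltr2 θ p x).2) (TS θ p x).1.1]
    ring

theorem continuous_XS (p : Par) (w : ℂ) (s : Fin 4) : Continuous fun o : ℝ => XS p w s o := by
  unfold XS
  fun_prop

end S5

open S5 in
/-- [S5] the section map is a local isometry. -/
theorem TS_loc {θ : ℝ} (hθ : |θ - Real.pi / 4| < 1 / 100) (hz : Transcendental ℚ (zz θ))
    {p : Par} (hp : p ∈ Pi1) {n : ℕ} (g : Gen2 θ p n) {x : (ℂ × Fin 4) × ℝ}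
    (hx : x ∈ ES θ p n \ EA θ p n) :
    TS θ p x ∈ ES θ p n ∧
    (∀ᶠ t in 𝓝 (0 : ℝ), (x.1, x.2 + t) ∈ ES θ p n \ EA θ p n ∧
      ltr2 θ p (x.1, x.2 + t) = ltr2 θ p x ∧
      TS θ p (x.1, x.2 + t) = ((TS θ p x).1, (TS θ p x).2 - sdet (ltr2 θ p x).1.1 * t)) ∧
    (TS θ p x).2 = -sdet (ltr2 θ p x).1.1 * (x.2 - crs x.1.1 (lat θ (ltr2 θ p x).1.2)) +
      2 * p.2 (ltr2 θ p x).2 * crs (TS θ p x).1.1 (nu p (ltr2 θ p x).2) ∧
    (TS θ p x).1 = (refl p (ltr2 θ p x).2 (act (ltr2 θ p x).1.1 x.1.1), (ltr2 θ p x).2) ∧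
    Good2 θ p (ltr2 θ p x) (stt p x) ∧
    nx θ p (ltr2 θ p x) (stt p x) = stt p (TS θ p x) ∧
    fl θ p (ltr2 θ p x) (stt p x) = bt p (TS θ p x) - bt p x + fs θ p x := by
  obtain ⟨hS, hf2, hnx, hfl⟩ := TS_main hz hp g hx
  have hg := ltr_good hx
  refine ⟨hS, ?_, hf2, TS_fst x, hg, hnx, hfl⟩
  obtain ⟨hw1, -, -, -, -, -⟩ := DD_ops hz g.toGen hx.1.1.1
  obtain ⟨-, -, hE, -, -⟩ := TMN.XS_facts hp hw1 hx.1.1.2
  have hout : Out2 p (stt p x).1 (stt p x).2 := (hE x.2 hx.1.2.1 hx.1.2.2).2.2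
  have hadd : Tendsto (fun t : ℝ => x.2 + t) (𝓝 0) (𝓝 x.2) := by
    have : Tendsto (fun t : ℝ => x.2 + t) (𝓝 0) (𝓝 (x.2 + 0)) :=
      (continuous_const.add continuous_id).tendsto 0
    simpa using this
  have hXt : Tendsto (fun t : ℝ => XS p x.1.1 x.1.2 (x.2 + t)) (𝓝 0)
      (𝓝 (XS p x.1.1 x.1.2 x.2)) :=
    ((continuous_XS p x.1.1 x.1.2).tendsto x.2).comp hadd
  have hq : Tendsto (fun t : ℝ => (p, (XS p x.1.1 x.1.2 (x.2 + t), x.1.1))) (𝓝 0)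
      (𝓝 (p, (XS p x.1.1 x.1.2 x.2, x.1.1))) :=
    tendsto_const_nhds.prodMk_nhds (hXt.prodMk_nhds tendsto_const_nhds)
  obtain ⟨hop, -, -⟩ := TMN.good2_open hθ hp (z := (XS p x.1.1 x.1.2 x.2, x.1.1))
    (Or.inl hout) hg
  have hev := hq.eventually hop
  have hI : ∀ᶠ t in 𝓝 (0 : ℝ), x.2 + t ∈ Ioo (crs x.1.1 (sv p x.1.2)) (crs x.1.1 (se p x.1.2)) :=
    hadd.eventually (Ioo_mem_nhds hx.1.2.1 hx.1.2.2)
  filter_upwards [hev, hI] with t ht hIt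
  have houtt : Out2 p (XS p x.1.1 x.1.2 (x.2 + t)) x.1.1 := (hE (x.2 + t) hIt.1 hIt.2).2.2
  have hgt : Good2 θ p (ltr2 θ p x) (XS p x.1.1 x.1.2 (x.2 + t), x.1.1) := ht (Or.inl houtt)
  have hSt : ((x.1, x.2 + t) : (ℂ × Fin 4) × ℝ) ∈ ES θ p n := ⟨hx.1.1, hIt.1, hIt.2⟩
  obtain ⟨hSA, hl⟩ := ltr_eq hθ hp hSt hgt
  refine ⟨hSA, hl, ?_⟩
  obtain ⟨-, hf2t, -, -⟩ := TS_main hz hp g hSA
  have h1 : (TS θ p (x.1, x.2 + t)).1 = (TS θ p x).1 := by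
    rw [TS_fst, TS_fst, hl]
  apply Prod.ext
  · exact h1
  · rw [hf2t, h1, hl]
    change _ = (TS θ p x).2 - sdet (ltr2 θ p x).1.1 * t
    rw [hf2]
    ring

end TMN
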