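import Pool.Agent.TMN.A3
import Pool.Agent.TMN.Base
import Pool.Agent.TMN.G1a
import Pool.Agent.TMN.G1b
import Pool.Agent.TMN.G2
import Pool.Agent.TMN.G3
import Pool.Agent.TMN.S1
import Pool.Agent.TMN.S2
import Pool.Agent.TMN.S3
import Pool.Agent.TMN.S4
import Pool.Agent.TMN.S5

/-! # TMN S10: end germs are not mapped to end germs forever -/

set_option autoImplicit false

open Set Filter Topology

namespace TMN

open TMX

private theorem S10_im {p : Par} (hp : p ∈ Pi1) {i : Fin 4} (hi : i ≠ 2) : 0 < (vtx p i).im := by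
  have h0 := (TMN.signs hp).2.2.2.2.2.2.1
  have h1 := hp.2.2.2.2.2.1
  have h3 := hp.2.2.2.2.2.2.1
  fin_cases i
  · exact h0
  · exact h1
  · exact absurd rfl hi
  · exact h3

private theorem S10_vQ {p : Par} (hp : p ∈ Pi1) (i : Fin 4) : vtx p i ∈ Q p := by
  intro j
  have hj : j = i ∨ j = i + 1 ∨ j = i + 2 ∨ j = i + 3 := by
    clear hp
    revert j i; decide
  rcases hj with rfl | rfl | rfl | rfl
  · rw [dot_vtx_self]
  · rw [dot_vtx_succ]
  · rw [dot_vtx_two]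
    have := hp.2.2.1 i; linarith
  · rw [dot_vtx_three]
    have h1 := hp.2.2.1 (i + 1)
    have e : i + 1 + 2 = i + 3 := by rw [add_assoc]; rfl
    rw [e] at h1; linarith

/-- the end points of the visible sides -/
private theorem S10_end (p : Par) (s : Fin 4) (e : ℂ) (he : e = sv p s ∨ e = se p s) :
    (∃ i : Fin 4, i ≠ 2 ∧ (s = i ∨ s = i + 1) ∧ e = vtx p i) ∨
      ((s = 2 ∨ s = 3) ∧ e = jt p s) := by
  fin_cases s
  · rcases he with rfl | rfl
    · exact Or.inl ⟨3, by decide, by decide, rfl⟩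
    · exact Or.inl ⟨0, by decide, by decide, rfl⟩
  · rcases he with rfl | rfl
    · exact Or.inl ⟨0, by decide, by decide, rfl⟩
    · exact Or.inl ⟨1, by decide, by decide, rfl⟩
  · rcases he with rfl | rfl
    · exact Or.inl ⟨1, by decide, by decide, rfl⟩
    · exact Or.inr ⟨by decide, rfl⟩
  · rcases he with rfl | rfl
    · exact Or.inr ⟨by decide, rfl⟩
    · exact Or.inl ⟨3, by decide, by decide, rfl⟩

private theorem S10_line {p : Par} (hp : p ∈ Pi1) (s : Fin 4) :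
    dot (sv p s) (nu p s) = p.2 s ∧ dot (se p s) (nu p s) = p.2 s := by
  obtain ⟨⟨L, -, hL⟩, h1, -⟩ := TMN.side hp s
  refine ⟨h1, ?_⟩
  have h2 : se p s = sv p s + (L : ℂ) * (Complex.I * nu p s) := by rw [← hL]; ring
  rw [h2, dot_add_left, dot_mul_left, dot_I_mul, crs_self, h1]; ring

private theorem S10_bs (θ : ℝ) (p : Par) (n : ℕ) (γ : (ℂ × Fin 4) × ℝ)
    (hγ : γ.2 = 1 ∨ γ.2 = -1) :
    γ.2 = 1 ∧ bs (TMN.sys2 θ p n) γ = crs γ.1.1 (sv p γ.1.2) ∨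
      γ.2 = -1 ∧ bs (TMN.sys2 θ p n) γ = crs γ.1.1 (se p γ.1.2) := by
  rcases hγ with h | h
  · refine Or.inl ⟨h, ?_⟩
    unfold bs
    rw [if_pos h]; rfl
  · refine Or.inr ⟨h, ?_⟩
    unfold bs
    rw [if_neg (by rw [h]; norm_num)]; rfl

/-- the base point of a germ is an end point of the visible side -/
private theorem S10_base {θ : ℝ} (hz : Transcendental ℚ (zz θ)) {p : Par} (hp : p ∈ Pi1)
    {n : ℕ} (g : Gen2 θ p n) {γ : (ℂ × Fin 4) × ℝ}
    (hγ : γ.1 ∈ CC θ p n ∧ (γ.2 = 1 ∨ γ.2 = -1)) :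
    XS p γ.1.1 γ.1.2 (bs (TMN.sys2 θ p n) γ) = sv p γ.1.2 ∨
      XS p γ.1.1 γ.1.2 (bs (TMN.sys2 θ p n) γ) = se p γ.1.2 := by
  have hn := (DD_ops hz g.toGen hγ.1.1).1
  obtain ⟨-, -, -, h4, -⟩ := TMN.XS_facts hp hn hγ.1.2
  rcases S10_bs θ p n γ hγ.2 with ⟨-, h⟩ | ⟨-, h⟩
  · left; rw [h]; exact h4 _ (S10_line hp _).1
  · right; rw [h]; exact h4 _ (S10_line hp _).2

private theorem S10_cXS (p : Par) (w : ℂ) (s : Fin 4) : Continuous fun o : ℝ => XS p w s o := by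
  unfold XS
  fun_prop

private theorem S10_cfl (θ : ℝ) (p : Par) (a : Lt) (w : ℂ) :
    Continuous fun x : ℂ => fl θ p a (x, w) := by
  have h1 : Continuous fun x : ℂ => dot (frm θ a.1 x) (nu p a.2) :=
    continuous_dot.comp ((continuous_frm θ a.1).prodMk continuous_const)
  have h2 : (fun x : ℂ => fl θ p a (x, w)) = fun x : ℂ =>
      (p.2 a.2 - dot (frm θ a.1 x) (nu p a.2)) / dot (act a.1.1 w) (nu p a.2) := rfl
  rw [h2]
  exact (continuous_const.sub h1).div_const _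

private theorem S10_cld (θ : ℝ) (p : Par) (a : Lt) (w : ℂ) :
    Continuous fun x : ℂ => x + ((fl θ p a (x, w) : ℝ) : ℂ) * w :=
  continuous_id.add ((Complex.continuous_ofReal.comp (S10_cfl θ p a w)).mul continuous_const)

private theorem S10_cnx (θ : ℝ) (p : Par) (a : Lt) (w : ℂ) :
    Continuous fun x : ℂ => (nx θ p a (x, w)).1 := by
  unfold nx
  exact (continuous_frm θ a.1).comp (S10_cld θ p a w)

/-- the points of a germ converge to the base point -/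
private theorem S10_tend (p : Par) (w : ℂ) (s : Fin 4) (o σ : ℝ) :
    Tendsto (fun t : ℝ => XS p w s (o + σ * t)) (𝓝[>] (0 : ℝ)) (𝓝 (XS p w s o)) := by
  have h1 : Continuous fun t : ℝ => XS p w s (o + σ * t) :=
    (S10_cXS p w s).comp (by fun_prop)
  have h2 := h1.tendsto 0
  simp only [mul_zero, add_zero] at h2
  exact h2.mono_left nhdsWithin_le_nhds

/-- the points of a germ are in the section -/
private theorem S10_ES {θ : ℝ} (hz : Transcendental ℚ (zz θ)) {p : Par} (hp : p ∈ Pi1)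
    {n : ℕ} (g : Gen2 θ p n) {γ : (ℂ × Fin 4) × ℝ}
    (hγ : γ.1 ∈ CC θ p n ∧ (γ.2 = 1 ∨ γ.2 = -1)) :
    ∀ᶠ t in 𝓝[>] (0 : ℝ), (γ.1, bs (TMN.sys2 θ p n) γ + γ.2 * t) ∈ ES θ p n := by
  have hn := (DD_ops hz g.toGen hγ.1.1).1
  obtain ⟨hab, -⟩ := TMN.XS_facts hp hn hγ.1.2
  have hpos : ∀ᶠ t in 𝓝[>] (0 : ℝ), 0 < t := self_mem_nhdsWithin
  have ht0 : Tendsto (fun t : ℝ => bs (TMN.sys2 θ p n) γ + γ.2 * t) (𝓝[>] (0 : ℝ))
      (𝓝 (bs (TMN.sys2 θ p n) γ)) := by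
    have hc : Continuous fun t : ℝ => bs (TMN.sys2 θ p n) γ + γ.2 * t := by fun_prop
    have := hc.tendsto 0
    simp only [mul_zero, add_zero] at this
    exact this.mono_left nhdsWithin_le_nhds
  rcases S10_bs θ p n γ hγ.2 with ⟨h1, h⟩ | ⟨h1, h⟩
  · have := ht0.eventually_lt_const (u := crs γ.1.1 (se p γ.1.2)) (by rw [h]; exact hab)
    filter_upwards [this, hpos] with t ht htp
    refine ⟨hγ.1, ?_, ht⟩
    change _ < bs (TMN.sys2 θ p n) γ + γ.2 * t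
    rw [h, h1]; linarith
  · have := ht0.eventually_const_lt (u := crs γ.1.1 (sv p γ.1.2)) (by rw [h]; exact hab)
    filter_upwards [this, hpos] with t ht htp
    refine ⟨hγ.1, ht, ?_⟩
    change bs (TMN.sys2 θ p n) γ + γ.2 * t < _
    rw [h, h1]; linarith

/-- from the letter to the image germ -/
private theorem S10_img {θ : ℝ} (hθ : |θ - Real.pi / 4| < 1 / 100)
    (hz : Transcendental ℚ (zz θ)) {p : Par} (hp : p ∈ Pi1)
    {n : ℕ} (g : Gen2 θ p n) {γ γ' : (ℂ × Fin 4) × ℝ} (hγ' : γ'.1 ∈ CC θ p n)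
    (hN : Nx (TMN.sys2 θ p n) γ γ') {a : Lt}
    (ha : ∀ᶠ t in 𝓝[>] (0 : ℝ),
      Good2 θ p a (stt p (γ.1, bs (TMN.sys2 θ p n) γ + γ.2 * t))) :
    γ'.1 = (refl p a.2 (act a.1.1 γ.1.1), a.2) ∧
      XS p γ'.1.1 γ'.1.2 (bs (TMN.sys2 θ p n) γ') =
        (nx θ p a (XS p γ.1.1 γ.1.2 (bs (TMN.sys2 θ p n) γ), γ.1.1)).1 := by
  have hT : ∀ᶠ t in 𝓝[>] (0 : ℝ),
      (((refl p a.2 (act a.1.1 γ.1.1), a.2),
        crs (refl p a.2 (act a.1.1 γ.1.1))
          (nx θ p a (XS p γ.1.1 γ.1.2 (bs (TMN.sys2 θ p n) γ + γ.2 * t), γ.1.1)).1) :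
            (ℂ × Fin 4) × ℝ) = (γ'.1, bs (TMN.sys2 θ p n) γ' + γ'.2 * t) := by
    filter_upwards [hN, ha] with t h1 h2
    rw [← h1]
    change _ = TS θ p (γ.1, bs (TMN.sys2 θ p n) γ + γ.2 * t)
    have h3 : ltr2 θ p (γ.1, bs (TMN.sys2 θ p n) γ + γ.2 * t) = a := by
      have hex : ∃ a, Good2 θ p a (stt p (γ.1, bs (TMN.sys2 θ p n) γ + γ.2 * t)) := ⟨a, h2⟩
      unfold ltr2
      rw [dif_pos hex]
      exact TMN.good2_unique hθ hp hex.choose_spec h2
    unfold TS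
    rw [h3]; rfl
  have h1 : γ'.1 = (refl p a.2 (act a.1.1 γ.1.1), a.2) := by
    obtain ⟨t, ht⟩ := hT.exists
    exact (congrArg Prod.fst ht).symm
  refine ⟨h1, ?_⟩
  have h2 : bs (TMN.sys2 θ p n) γ' = crs (refl p a.2 (act a.1.1 γ.1.1))
      (nx θ p a (XS p γ.1.1 γ.1.2 (bs (TMN.sys2 θ p n) γ), γ.1.1)).1 := by
    have l1 : Tendsto (fun t : ℝ => bs (TMN.sys2 θ p n) γ' + γ'.2 * t) (𝓝[>] (0 : ℝ))
        (𝓝 (bs (TMN.sys2 θ p n) γ')) := by
      have hc : Continuous fun t : ℝ => bs (TMN.sys2 θ p n) γ' + γ'.2 * t := by fun_prop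
      have := hc.tendsto 0
      simp only [mul_zero, add_zero] at this
      exact this.mono_left nhdsWithin_le_nhds
    have l2 : Tendsto (fun t : ℝ => crs (refl p a.2 (act a.1.1 γ.1.1))
        (nx θ p a (XS p γ.1.1 γ.1.2 (bs (TMN.sys2 θ p n) γ + γ.2 * t), γ.1.1)).1)
        (𝓝[>] (0 : ℝ)) (𝓝 (crs (refl p a.2 (act a.1.1 γ.1.1))
          (nx θ p a (XS p γ.1.1 γ.1.2 (bs (TMN.sys2 θ p n) γ), γ.1.1)).1)) := by
      have hc : Continuous fun x : ℂ => crs (refl p a.2 (act a.1.1 γ.1.1))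
          (nx θ p a (x, γ.1.1)).1 :=
        continuous_crs.comp (continuous_const.prodMk (S10_cnx θ p a _))
      exact (hc.tendsto _).comp (S10_tend p _ _ _ _)
    refine tendsto_nhds_unique_of_eventuallyEq l1 l2 ?_
    filter_upwards [hT] with t ht
    exact (congrArg Prod.snd ht).symm
  have hne : dot (act a.1.1 γ.1.1) (nu p a.2) ≠ 0 := by
    obtain ⟨t, ht⟩ := ha.exists
    exact ht.1.1.ne
  have hon : dot (nx θ p a (XS p γ.1.1 γ.1.2 (bs (TMN.sys2 θ p n) γ), γ.1.1)).1 (nu p a.2) =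
      p.2 a.2 := dot_land (z := (_, γ.1.1)) hne
  have hn := (DD_ops hz g.toGen hγ'.1).1
  obtain ⟨-, -, -, h4, -⟩ := TMN.XS_facts hp hn hγ'.2
  rw [h2]
  have e1 : γ'.1.1 = refl p a.2 (act a.1.1 γ.1.1) := congrArg Prod.fst h1
  have e2 : γ'.1.2 = a.2 := congrArg Prod.snd h1
  rw [e1, e2] at h4 ⊢
  exact h4 _ hon

/-- an image germ does not have a base point in the open side -/
private theorem S10_no {θ : ℝ} (hz : Transcendental ℚ (zz θ)) {p : Par} (hp : p ∈ Pi1)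
    {n : ℕ} (g : Gen2 θ p n) {γ : (ℂ × Fin 4) × ℝ}
    (hγ : γ.1 ∈ CC θ p n ∧ (γ.2 = 1 ∨ γ.2 = -1)) {x : ℂ}
    (hx : XS p γ.1.1 γ.1.2 (bs (TMN.sys2 θ p n) γ) = x) (him : 0 < x.im)
    (hj : ∀ j, j ≠ γ.1.2 → dot x (nu p j) < p.2 j) : False := by
  have hn := (DD_ops hz g.toGen hγ.1.1).1
  obtain ⟨-, -, -, -, h5⟩ := TMN.XS_facts hp hn hγ.1.2
  rcases S10_base hz hp g hγ with h | h
  · rw [hx] at h
    obtain ⟨h6, -⟩ := h5 x (by rw [h]; exact (S10_line hp _).1) him hj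
    rw [h] at h6
    exact lt_irrefl _ h6
  · rw [hx] at h
    obtain ⟨-, h6⟩ := h5 x (by rw [h]; exact (S10_line hp _).2) him hj
    rw [h] at h6
    exact lt_irrefl _ h6

/-- the step for outgoing states -/
private theorem S10_step {θ : ℝ} (hθ : |θ - Real.pi / 4| < 1 / 100)
    (hz : Transcendental ℚ (zz θ)) {p : Par} (hp : p ∈ Pi1)
    {n : ℕ} (g : Gen2 θ p n) {γ γ' : (ℂ × Fin 4) × ℝ}
    (hγ : γ.1 ∈ CC θ p n ∧ (γ.2 = 1 ∨ γ.2 = -1))
    (hγ' : γ'.1 ∈ CC θ p n ∧ (γ'.2 = 1 ∨ γ'.2 = -1))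
    (hN : Nx (TMN.sys2 θ p n) γ γ') {v : ℂ}
    (hv : XS p γ.1.1 γ.1.2 (bs (TMN.sys2 θ p n) γ) = v)
    (ho : Out2 p v γ.1.1) (hst : Vst p v γ.1.1) :
    ∃ (i : Fin 4) (m : ℤ × ℤ) (t : ℝ), i ≠ 2 ∧ v = vtx p i ∧ Spc θ γ.1.1 ∧ 0 < t ∧
      (t : ℂ) * γ.1.1 = lat θ m ∧ FreeSeg θ p v γ.1.1 t := by
  obtain ⟨hn, -, -, hact, -, hne⟩ := DD_ops hz g.toGen hγ.1.1
  have hnea : ∀ d j, dot (act d γ.1.1) (nu p j) ≠ 0 := fun d =>
    (DD_ops hz g.toGen (hact d)).2.2.2.2.2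
  obtain ⟨L, hL⟩ := TMN.bounded2 hθ hz hp g
  have hft := TMN.first_touch2 hθ hp (x := v) hn hnea (Or.inl ho) (L := L) (by
    obtain ⟨t, t1, t2, c, hc⟩ := hL γ.1.1 hγ.1.1 v (Or.inl ho)
    exact ⟨t, by linarith, t2, c, hc⟩)
  rcases hft with ⟨a, ha, -⟩ | ⟨c, t, ht, -, hfree, harr⟩
  · exfalso
    have hop := (TMN.good2_open hθ hp (z := (v, γ.1.1)) (Or.inl ho) ha).1
    have hT : Tendsto (fun t : ℝ => ((p, (XS p γ.1.1 γ.1.2
        (bs (TMN.sys2 θ p n) γ + γ.2 * t), γ.1.1)) : Par × (ℂ × ℂ)))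
        (𝓝[>] (0 : ℝ)) (𝓝 (p, (v, γ.1.1))) := by
      have h1 := S10_tend p γ.1.1 γ.1.2 (bs (TMN.sys2 θ p n) γ) γ.2
      rw [hv] at h1
      exact tendsto_const_nhds.prodMk_nhds (h1.prodMk_nhds tendsto_const_nhds)
    have hev : ∀ᶠ t in 𝓝[>] (0 : ℝ),
        Good2 θ p a (stt p (γ.1, bs (TMN.sys2 θ p n) γ + γ.2 * t)) := by
      filter_upwards [hT.eventually hop, S10_ES hz hp g hγ] with t ht hI
      obtain ⟨-, -, h3, -⟩ := TMN.XS_facts hp hn hγ.1.2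
      exact ht (Or.inl (h3 _ hI.2.1 hI.2.2).2.2)
    obtain ⟨h1, h2⟩ := S10_img hθ hz hp g hγ'.1 hN hev
    rw [hv] at h2
    refine S10_no hz hp g hγ' h2 ha.2 ?_
    rw [h1]
    exact ha.1.2.2.2
  · obtain ⟨-, h2, h3, h4, i, hi, h5⟩ := TMN.nosc2 hθ hz hp g hγ.1.1 hst (l := []) trivial ht harr
    exact ⟨i, c.2, t, hi, h5, h3, ht, h4, hfree⟩

/-- germs at vertices are outgoing -/
private theorem S10_vout {p : Par} (hp : p ∈ Pi1) {s i : Fin 4} (hi : i ≠ 2)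
    (hs : s = i ∨ s = i + 1) {w : ℂ} (hw : 0 < dot w (nu p s)) :
    Out2 p (vtx p i) w ∧ Vst p (vtx p i) w := by
  have him := S10_im hp hi
  refine ⟨⟨⟨S10_vQ hp i, s, ?_, hw⟩, him.le, fun h => absurd h him.ne'⟩, Or.inl ⟨i, hi, rfl, ?_⟩⟩
  · rcases hs with rfl | rfl
    · exact dot_vtx_self p _
    · exact dot_vtx_succ p i
  · rintro ⟨h1, h2⟩
    rcases hs with rfl | rfl
    · exact lt_asymm hw h1
    · exact lt_asymm hw h2

/-- reflections of special directions are not special -/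
private theorem S10_spc {θ : ℝ} (hz : Transcendental ℚ (zz θ)) {p : Par}
    {n : ℕ} (g : Gen θ p n) {w : ℂ} (hs : Spc θ w) (j : Fin 4) : ¬ Spc θ (refl p j w) := by
  have hroot := s11d_root g
  set ζ : ℂ := nu p 0 ^ 2 with hζ
  have hn2 : 2 ^ n = 2 * 2 ^ (n - 1) := by
    rw [← pow_succ']; congr 1; have := g.two; omega
  have hn4 : 2 ^ (n - 1) = 2 * 2 ^ (n - 2) := by
    rw [← pow_succ']; congr 1; have := g.two; omega
  have hpos : 0 < 2 ^ (n - 2) := by positivity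
  have hζ1 : ζ ^ 2 ^ n = 1 := hroot.pow_eq_one
  have hζn : ζ ≠ 1 ∧ ζ ≠ -1 := by
    have h2 : ζ ^ (2 * 1) ≠ 1 := hroot.pow_ne_one_of_pos_of_lt (by omega) (by omega)
    refine ⟨fun h3 => h2 ?_, fun h3 => h2 ?_⟩
    · rw [h3, one_pow]
    · rw [h3]; norm_num
  have hn0 : 2 ^ n ≠ 0 := by positivity
  have hev : Even (2 ^ n) := (Nat.even_pow.2 ⟨even_two, by have := g.two; omega⟩)
  -- the reflections are `± ζ conj w`
  have hr : ∃ r : ℂ, (r = 1 ∨ r = -1) ∧ refl p j w = r * (ζ * (starRingEnd ℂ) w) := by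
    have hr0 : refl p 0 w = (-1) * (ζ * (starRingEnd ℂ) w) := by rw [refl_eq]; ring
    have h1 : ∀ i : Fin 4, refl p (i + 1) w = -refl p i w := fun i => refl_succ p i w
    have e1 := h1 0
    have e2 := h1 1
    have e3 := h1 2
    fin_cases j
    · exact ⟨-1, Or.inr rfl, hr0⟩
    · refine ⟨1, Or.inl rfl, ?_⟩
      change refl p (0 + 1) w = _
      rw [e1, hr0]; ring
    · refine ⟨-1, Or.inr rfl, ?_⟩
      change refl p (1 + 1) w = _
      rw [e2]
      change -refl p (0 + 1) w = _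
      rw [e1, hr0]; ring
    · refine ⟨1, Or.inl rfl, ?_⟩
      change refl p (2 + 1) w = _
      rw [e3]
      change -refl p (1 + 1) w = _
      rw [e2]
      change - -refl p (0 + 1) w = _
      rw [e1, hr0]; ring
  obtain ⟨r, hr1, hr⟩ := hr
  intro h4
  rw [hr] at h4
  have h5 : ∃ e s : ℂ, (e = zz θ ∨ e = (starRingEnd ℂ) (zz θ)) ∧ (s = 1 ∨ s = -1) ∧
      (starRingEnd ℂ) w = s * e := by
    rcases hs with hs | hs | hs | hs
    · exact ⟨_, 1, Or.inr rfl, Or.inl rfl, by rw [hs, one_mul]⟩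
    · exact ⟨_, -1, Or.inr rfl, Or.inr rfl, by rw [hs]; simp⟩
    · exact ⟨_, 1, Or.inl rfl, Or.inl rfl, by rw [hs]; simp⟩
    · exact ⟨_, -1, Or.inl rfl, Or.inr rfl, by rw [hs]; simp⟩
  obtain ⟨e, s, he, hs1, hw1⟩ := h5
  obtain ⟨q, hq1, hq⟩ : ∃ q : ℂ, (q = 1 ∨ q = -1) ∧ r * s = q := by
    refine ⟨r * s, ?_, rfl⟩
    rcases hr1 with rfl | rfl <;> rcases hs1 with rfl | rfl
    · left; norm_num
    · right; norm_num
    · right; norm_num
    · left; norm_num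
  have h6 : r * (ζ * (starRingEnd ℂ) w) = (q * ζ) * e := by rw [hw1, ← hq]; ring
  rw [h6] at h4
  have h7 : (q * ζ) ^ 2 ^ n = 1 := by
    rw [mul_pow, hζ1, mul_one]
    rcases hq1 with rfl | rfl
    · rw [one_pow]
    · exact hev.neg_one_pow
  rcases s11d_spc hz he h7 h4 with h8 | h8 <;> rcases hq1 with rfl | rfl
  · exact hζn.1 (by linear_combination h8)
  · exact hζn.2 (by linear_combination -h8)
  · exact hζn.2 (by linear_combination h8)
  · exact hζn.1 (by linear_combination -h8)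

/-- the letter is constant on a germ -/
private theorem S10_letter {θ : ℝ} (hθ : |θ - Real.pi / 4| < 1 / 100)
    (hz : Transcendental ℚ (zz θ)) {p : Par} (hp : p ∈ Pi1)
    {n : ℕ} (g : Gen2 θ p n) {γ : (ℂ × Fin 4) × ℝ}
    (hγ : γ.1 ∈ CC θ p n ∧ (γ.2 = 1 ∨ γ.2 = -1)) :
    ∃ a, ∀ᶠ t in 𝓝[>] (0 : ℝ), Good2 θ p a (stt p (γ.1, bs (TMN.sys2 θ p n) γ + γ.2 * t)) := by
  set o : ℝ := bs (TMN.sys2 θ p n) γ with ho
  have hne : γ.2 ≠ 0 := by
    rcases hγ.2 with h | h <;> rw [h] <;> norm_num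
  have hE : ∀ᶠ t in 𝓝[>] (0 : ℝ), (γ.1, o + γ.2 * t) ∉ EA θ p n := by
    have hfin : {t : ℝ | (γ.1, o + γ.2 * t) ∈ EA θ p n}.Finite := by
      refine Set.Finite.preimage ?_ (TMN.finEA hθ hz hp g)
      intro t _ t' _ h
      have h1 := congrArg Prod.snd h
      have h2 : γ.2 * t = γ.2 * t' := by
        have h3 : o + γ.2 * t = o + γ.2 * t' := h1
        linarith
      exact mul_left_cancel₀ hne h2
    have h1 : ∀ᶠ t in 𝓝[≠] (0 : ℝ), t ∉ {t : ℝ | (γ.1, o + γ.2 * t) ∈ EA θ p n} := by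
      have h2 : ({t : ℝ | (γ.1, o + γ.2 * t) ∈ EA θ p n} \ {0}).Finite := hfin.subset sdiff_subset
      have h3 := h2.isClosed.isOpen_compl.mem_nhds (x := (0 : ℝ)) (by simp)
      rw [eventually_nhdsWithin_iff]
      filter_upwards [h3] with t ht htn htm
      exact ht ⟨htm, htn⟩
    exact h1.filter_mono (nhdsWithin_mono _ fun t ht => ne_of_gt ht)
  obtain ⟨ε, hε, hsub⟩ := mem_nhdsGT_iff_exists_Ioo_subset.1 (hE.and (S10_ES hz hp g hγ))
  have hmem : ∀ t ∈ Ioo (0 : ℝ) ε, (γ.1, o + γ.2 * t) ∈ ES θ p n \ EA θ p n := fun t ht =>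
    ⟨(hsub ht).2, (hsub ht).1⟩
  have hε0 : (0 : ℝ) < ε := hε
  have hconst : ∀ t ∈ Ioo (0 : ℝ) ε, ∀ t' ∈ Ioo (0 : ℝ) ε,
      ltr2 θ p (γ.1, o + γ.2 * t) = ltr2 θ p (γ.1, o + γ.2 * t') := by
    intro t ht t' ht'
    refine isPreconnected_Ioo.induction₂
      (fun t t' => ltr2 θ p (γ.1, o + γ.2 * t) = ltr2 θ p (γ.1, o + γ.2 * t')) ?_ ?_ ?_ ht ht'
    · intro r hr
      obtain ⟨-, h1, -⟩ := TMN.TS_loc hθ hz hp g (hmem r hr)
      have h2 : Tendsto (fun u : ℝ => γ.2 * (u - r)) (𝓝[Ioo (0 : ℝ) ε] r) (𝓝 0) := by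
        have hc : Continuous fun u : ℝ => γ.2 * (u - r) := by fun_prop
        have := hc.tendsto r
        simp only [sub_self, mul_zero] at this
        exact this.mono_left nhdsWithin_le_nhds
      filter_upwards [h2.eventually h1] with u hu
      have h3 := hu.2.1
      have h4 : o + γ.2 * r + γ.2 * (u - r) = o + γ.2 * u := by ring
      change ltr2 θ p (γ.1, o + γ.2 * r + γ.2 * (u - r)) = _ at h3
      rw [h4] at h3
      exact h3.symm
    · intro a b c _ _ _ h1 h2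
      exact h1.trans h2
    · intro a b _ _ h
      exact h.symm
  refine ⟨ltr2 θ p (γ.1, o + γ.2 * (ε / 2)), ?_⟩
  filter_upwards [Ioo_mem_nhdsGT hε0] with t ht
  obtain ⟨-, -, -, -, h1, -⟩ := TMN.TS_loc hθ hz hp g (hmem t ht)
  rw [hconst t ht (ε / 2) ⟨by linarith, by linarith⟩] at h1
  exact h1

/-- a visible vertex is not in the partner copy -/
private theorem S10_hid {p : Par} (hp : p ∈ Pi1) {i : Fin 4} (hi : i ≠ 2) {θ : ℝ} :
    frm θ cj (vtx p i) ∉ Q p := by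
  intro h
  have h1 : frm θ cj (vtx p i) = (starRingEnd ℂ) (vtx p i) := by
    apply Complex.ext <;> simp [frm, act, lat, cj]
  rw [h1] at h
  have h2 : ((starRingEnd ℂ) (vtx p i)).im < 0 := by
    rw [Complex.conj_im]
    have := S10_im hp hi; linarith
  have h3 := TMN.hidden hp h h2 i
  rw [Complex.conj_conj, dot_vtx_self] at h3
  exact lt_irrefl _ h3

/-- the step for special directions at vertices -/
private theorem S10_vert {θ : ℝ} (hθ : |θ - Real.pi / 4| < 1 / 100)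
    (hz : Transcendental ℚ (zz θ)) {p : Par} (hp : p ∈ Pi1)
    {n : ℕ} (g : Gen2 θ p n) {γ γ' : (ℂ × Fin 4) × ℝ}
    (hγ : γ.1 ∈ CC θ p n ∧ (γ.2 = 1 ∨ γ.2 = -1))
    (hγ' : γ'.1 ∈ CC θ p n ∧ (γ'.2 = 1 ∨ γ'.2 = -1))
    (hN : Nx (TMN.sys2 θ p n) γ γ') {i : Fin 4} (hi : i ≠ 2)
    (hv : XS p γ.1.1 γ.1.2 (bs (TMN.sys2 θ p n) γ) = vtx p i)
    (hs : Spc θ γ.1.1) {m : ℤ × ℤ} {t₀ : ℝ} (ht₀ : 0 < t₀)
    (hm : (t₀ : ℂ) * γ.1.1 = lat θ m) (hf : FreeSeg θ p (vtx p i) γ.1.1 t₀) :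
    XS p γ'.1.1 γ'.1.2 (bs (TMN.sys2 θ p n) γ') = vtx p i ∧ ¬ Spc θ γ'.1.1 := by
  have hn := (DD_ops hz g.toGen hγ.1.1).1
  obtain ⟨a, ha⟩ := S10_letter hθ hz hp g hγ
  obtain ⟨h1, h2⟩ := S10_img hθ hz hp g hγ'.1 hN ha
  rw [hv] at h2
  set w : ℂ := γ.1.1 with hw
  have hx : Tendsto (fun t : ℝ => XS p w γ.1.2 (bs (TMN.sys2 θ p n) γ + γ.2 * t))
      (𝓝[>] (0 : ℝ)) (𝓝 (vtx p i)) := by
    have := S10_tend p w γ.1.2 (bs (TMN.sys2 θ p n) γ) γ.2
    rwa [hv] at this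
  have hout : ∀ᶠ t in 𝓝[>] (0 : ℝ),
      Out2 p (XS p w γ.1.2 (bs (TMN.sys2 θ p n) γ + γ.2 * t)) w := by
    obtain ⟨-, -, h3, -⟩ := TMN.XS_facts hp hn hγ.1.2
    filter_upwards [S10_ES hz hp g hγ] with t hI
    exact (h3 _ hI.2.1 hI.2.2).2.2
  set T : ℝ := fl θ p a (vtx p i, w) with hT
  have hfl : Tendsto (fun t : ℝ => fl θ p a
      (XS p w γ.1.2 (bs (TMN.sys2 θ p n) γ + γ.2 * t), w)) (𝓝[>] (0 : ℝ)) (𝓝 T) :=
    ((S10_cfl θ p a w).tendsto _).comp hx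
  -- the flight time is at most `t₀`
  have hle : ∀ᶠ t in 𝓝[>] (0 : ℝ),
      fl θ p a (XS p w γ.1.2 (bs (TMN.sys2 θ p n) γ + γ.2 * t), w) ≤ t₀ := by
    filter_upwards [ha, hout] with t h3 h4
    by_contra h5
    rw [not_le] at h5
    refine h3.1.2.2.1 t₀ ht₀ h5 ((1 : Sg), m) ?_
    change frm θ ((1 : Sg), m) (XS p w γ.1.2 (bs (TMN.sys2 θ p n) γ + γ.2 * t) +
      (t₀ : ℂ) * w) ∈ Q p
    simp only [frm, act_one]
    rw [hm, add_sub_cancel_right]
    exact h4.1.1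
  have hT1 : T ≤ t₀ := le_of_tendsto hfl hle
  have hT0 : 0 ≤ T := by
    apply ge_of_tendsto hfl
    filter_upwards [ha] with t h3
    exact h3.1.2.1.le
  have hmemT : vtx p i + (T : ℂ) * w ∈ obs θ p a.1 := by
    apply (obs_isClosed θ p a.1).mem_of_tendsto (((S10_cld θ p a w).tendsto _).comp hx)
    filter_upwards [ha] with t h3
    exact G2_mem h3.1
  have hTt : T = t₀ := by
    rcases hT0.eq_or_lt with h3 | h3
    · exfalso
      rw [← h3, Complex.ofReal_zero, zero_mul, add_zero] at hmemT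
      have h4 : vtx p i ∈ obs θ p ((1 : Sg), ((0 : ℤ), (0 : ℤ))) := by
        change frm θ _ (vtx p i) ∈ Q p
        rw [frm_one]; exact S10_vQ hp i
      by_cases e1 : a.1 = ((1 : Sg), ((0 : ℤ), (0 : ℤ)))
      · obtain ⟨t, h5, h6⟩ := (ha.and hout).exists
        have h7 := G2_mem h5.1
        rw [e1] at h7
        change frm θ _ _ ∈ Q p at h7
        rw [frm_one] at h7
        exact out_ray h6.1 h5.1.2.1 h7
      · by_cases e2 : a.1 = TMX.cmp ((1 : Sg), ((0 : ℤ), (0 : ℤ))) cj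
        · rw [e2] at hmemT
          change frm θ _ _ ∈ Q p at hmemT
          rw [← frm_frm, frm_one] at hmemT
          exact S10_hid hp hi hmemT
        · have h5 := TMN.copies_dist2 hθ hp e1 e2 h4 hmemT
          norm_num at h5
    · rcases hT1.eq_or_lt with h4 | h4
      · exact h4
      · exact absurd hmemT (hf T h3 h4 a.1)
  rw [hTt] at hmemT
  have hmem1 : vtx p i + (t₀ : ℂ) * w ∈ obs θ p ((1 : Sg), m) := by
    change frm θ ((1 : Sg), m) _ ∈ Q p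
    simp only [frm, act_one]
    rw [hm, add_sub_cancel_right]
    exact S10_vQ hp i
  have ha1 : a.1 = ((1 : Sg), m) := by
    by_contra e1
    by_cases e2 : a.1 = TMX.cmp ((1 : Sg), m) cj
    · rw [e2] at hmemT
      change frm θ _ _ ∈ Q p at hmemT
      rw [← frm_frm] at hmemT
      have e3 : frm θ ((1 : Sg), m) (vtx p i + (t₀ : ℂ) * w) = vtx p i := by
        simp only [frm, act_one]
        rw [hm, add_sub_cancel_right]
      rw [e3] at hmemT
      exact S10_hid hp hi hmemT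
    · have h5 := TMN.copies_dist2 hθ hp e1 e2 hmem1 hmemT
      norm_num at h5
  constructor
  · rw [h2]
    change frm θ a.1 (vtx p i + ((fl θ p a (vtx p i, w) : ℝ) : ℂ) * w) = _
    rw [← hT, hTt, ha1]
    simp only [frm, act_one]
    rw [hm, add_sub_cancel_right]
  · have e1 : γ'.1.1 = refl p a.2 w := by
      have := congrArg Prod.fst h1
      rw [this, ha1]
      simp only [act_one]
    rw [e1]
    exact S10_spc hz g.toGen hs a.2

/-- the step at joints when the partner copy is hit at once -/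
private theorem S10_joint {θ : ℝ} (hθ : |θ - Real.pi / 4| < 1 / 100) {p : Par} (hp : p ∈ Pi1)
    {k : Fin 4} (hk : k = 2 ∨ k = 3) {w : ℂ} (hn : ‖w‖ = 1) (hw : 0 < dot w (nu p k))
    (hw' : dot ((starRingEnd ℂ) w) (nu p k) < 0) :
    (∀ᶠ x in 𝓝 (jt p k), dot x (nu p k) = p.2 k → x ∈ Q p → 0 < x.im →
      Good2 θ p (cj, k) (x, w)) ∧
    (nx θ p (cj, k) (jt p k, w)).1 = jt p k ∧ act cj.1 w = (starRingEnd ℂ) w := by
  have hfr : ∀ x : ℂ, frm θ cj x = (starRingEnd ℂ) x := fun x => by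
    apply Complex.ext <;> simp [frm, act, lat, cj]
  have hac : ∀ x : ℂ, act cj.1 x = (starRingEnd ℂ) x := fun x => s11d_act_conj x
  obtain ⟨j1, j2, j3, j4⟩ := TMN.jt_facts hp hk
  have hnuim : (nu p k).im < 0 := by
    obtain ⟨-, -, s2, s3, -⟩ := TMN.signs hp
    rcases hk with rfl | rfl
    · exact s2
    · exact s3
  have hjc : (starRingEnd ℂ) (jt p k) = jt p k := by
    apply Complex.ext
    · exact Complex.conj_re _
    · rw [Complex.conj_im, j3]; norm_num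
  have hflj : fl θ p (cj, k) (jt p k, w) = 0 := by
    change (p.2 k - dot (frm θ cj (jt p k)) (nu p k)) / _ = 0
    rw [hfr, hjc, j1, sub_self, zero_div]
  have hnxj : (nx θ p (cj, k) (jt p k, w)).1 = jt p k := by
    change frm θ cj (jt p k + ((fl θ p (cj, k) (jt p k, w) : ℝ) : ℂ) * w) = _
    rw [hflj, hfr, Complex.ofReal_zero, zero_mul, add_zero, hjc]
  refine ⟨?_, hnxj, hac w⟩
  have c1 : ∀ᶠ x in 𝓝 (jt p k), fl θ p (cj, k) (x, w) < 2 / 5 := by
    apply (S10_cfl θ p (cj, k) w).continuousAt.eventually_lt continuousAt_const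
    simp only [hflj]; norm_num
  have c2 : ∀ᶠ x in 𝓝 (jt p k), ∀ j, j ≠ k →
      dot (nx θ p (cj, k) (x, w)).1 (nu p j) < p.2 j := by
    rw [eventually_all]
    intro j
    by_cases hj : j = k
    · exact Eventually.of_forall fun x h => absurd hj h
    · have cdot : Continuous fun x : ℂ => dot (nx θ p (cj, k) (x, w)).1 (nu p j) :=
        continuous_dot.comp ((S10_cnx θ p _ w).prodMk continuous_const)
      have h1 : ∀ᶠ x in 𝓝 (jt p k), dot (nx θ p (cj, k) (x, w)).1 (nu p j) < p.2 j := by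
        apply cdot.continuousAt.eventually_lt continuousAt_const
        simp only [hnxj]; exact j2 j hj
      filter_upwards [h1] with x hx _
      exact hx
  filter_upwards [c1, c2] with x c1 c2 hxk hxQ him
  -- the offset of the conjugate point
  have hdc : dot ((starRingEnd ℂ) x) (nu p k) = p.2 k - 2 * x.im * (nu p k).im := by
    rw [← hxk]
    simp only [dot, Complex.conj_re, Complex.conj_im]; ring
  have hfl : fl θ p (cj, k) (x, w) * dot ((starRingEnd ℂ) w) (nu p k) =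
      2 * x.im * (nu p k).im := by
    change (p.2 k - dot (frm θ cj x) (nu p k)) / dot (act cj.1 w) (nu p k) * _ = _
    rw [hfr, hac, div_mul_cancel₀ _ hw'.ne, hdc]; ring
  have hfl0 : 0 < fl θ p (cj, k) (x, w) := by
    by_contra h
    rw [not_lt] at h
    have h1 : 0 ≤ fl θ p (cj, k) (x, w) * dot ((starRingEnd ℂ) w) (nu p k) :=
      mul_nonneg_of_nonpos_of_nonpos h hw'.le
    have h2 : x.im * (nu p k).im < 0 := mul_neg_of_pos_of_neg him hnuim
    rw [hfl] at h1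
    linarith
  have hout : Out p x w := ⟨hxQ, k, hxk, hw⟩
  refine ⟨⟨?_, hfl0, ?_, c2⟩, ?_⟩
  · change dot (act cj.1 w) (nu p k) < 0
    rw [hac]; exact hw'
  · intro u hu0 hu1 c hc
    change x + (u : ℂ) * w ∈ obs θ p c at hc
    change u < fl θ p (cj, k) (x, w) at hu1
    by_cases e1 : c = ((1 : Sg), ((0 : ℤ), (0 : ℤ)))
    · rw [e1] at hc
      change frm θ _ _ ∈ Q p at hc
      rw [frm_one] at hc
      exact out_ray hout hu0 hc
    · by_cases e2 : c = TMX.cmp ((1 : Sg), ((0 : ℤ), (0 : ℤ))) cj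
      · rw [e2] at hc
        change frm θ _ _ ∈ Q p at hc
        rw [← frm_frm, frm_one, frm_ray, hfr, hac] at hc
        have h1 := hc k
        rw [dot_add_left, dot_mul_left, hdc] at h1
        have h2 : (fl θ p (cj, k) (x, w) - u) * dot ((starRingEnd ℂ) w) (nu p k) < 0 :=
          mul_neg_of_pos_of_neg (sub_pos.mpr hu1) hw'
        rw [sub_mul, hfl] at h2
        linarith
      · have h1 : x ∈ obs θ p ((1 : Sg), ((0 : ℤ), (0 : ℤ))) := by
          change frm θ _ x ∈ Q p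
          rw [frm_one]; exact hxQ
        have h2 := TMN.copies_dist2 hθ hp e1 e2 h1 hc
        have h3 : x - (x + (u : ℂ) * w) = ((-u : ℝ) : ℂ) * w := by push_cast; ring
        rw [h3, norm_mul, hn, Complex.norm_real, Real.norm_eq_abs, abs_neg, abs_of_pos hu0] at h2
        linarith
  · change 0 < (frm θ cj (x + ((fl θ p (cj, k) (x, w) : ℝ) : ℂ) * w)).im
    rw [frm_ray, hfr, hac]
    have h1 : ((starRingEnd ℂ) x + ((fl θ p (cj, k) (x, w) : ℝ) : ℂ) * (starRingEnd ℂ) w).im =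
        -x.im - fl θ p (cj, k) (x, w) * w.im := by
      simp [Complex.mul_im]; ring
    rw [h1]
    -- multiply by the negative number `conj w . nu`
    have h2 : (-x.im - fl θ p (cj, k) (x, w) * w.im) * dot ((starRingEnd ℂ) w) (nu p k) =
        -(x.im * dot w (nu p k)) := by
      have h3 : dot w (nu p k) =
          dot ((starRingEnd ℂ) w) (nu p k) + 2 * w.im * (nu p k).im := by
        simp only [dot, Complex.conj_re, Complex.conj_im]; ring
      rw [h3]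
      linear_combination (-w.im) * hfl
    have h3 : 0 < x.im * dot w (nu p k) := mul_pos him hw
    by_contra h4
    rw [not_lt] at h4
    have h5 := mul_nonneg_of_nonpos_of_nonpos h4 hw'.le
    rw [h2] at h5
    linarith

/-- [S10] end germs are not mapped to end germs forever. -/
theorem ends {θ : ℝ} (hθ : |θ - Real.pi / 4| < 1 / 100) (hz : Transcendental ℚ (zz θ))
    {p : Par} (hp : p ∈ Pi1) {n : ℕ} (g : Gen2 θ p n) (γ : ℕ → (ℂ × Fin 4) × ℝ)
    (hγ : ∀ k, (γ k).1 ∈ CC θ p n ∧ ((γ k).2 = 1 ∨ (γ k).2 = -1)) :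
    ¬ ∀ k, Nx (TMN.sys2 θ p n) (γ k) (γ (k + 1)) := by
  intro hN
  have hb : ∀ k, (∃ i : Fin 4, i ≠ 2 ∧ ((γ k).1.2 = i ∨ (γ k).1.2 = i + 1) ∧
      XS p (γ k).1.1 (γ k).1.2 (bs (TMN.sys2 θ p n) (γ k)) = vtx p i) ∨
      (((γ k).1.2 = 2 ∨ (γ k).1.2 = 3) ∧
        XS p (γ k).1.1 (γ k).1.2 (bs (TMN.sys2 θ p n) (γ k)) = jt p (γ k).1.2) := fun k =>
    S10_end p _ _ (S10_base hz hp g (hγ k))
  -- no vertex germ
  have hnv : ∀ k (i : Fin 4), i ≠ 2 →
      XS p (γ k).1.1 (γ k).1.2 (bs (TMN.sys2 θ p n) (γ k)) ≠ vtx p i := by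
    -- nonspecial directions
    have hns : ∀ k (i : Fin 4), i ≠ 2 →
        XS p (γ k).1.1 (γ k).1.2 (bs (TMN.sys2 θ p n) (γ k)) = vtx p i →
        ∃ (m : ℤ × ℤ) (t : ℝ), Spc θ (γ k).1.1 ∧ 0 < t ∧ (t : ℂ) * (γ k).1.1 = lat θ m ∧
          FreeSeg θ p (vtx p i) (γ k).1.1 t := by
      intro k i hi h
      rcases hb k with ⟨i', hi', h1, h2⟩ | ⟨h1, h2⟩
      · have h3 := S10_vout hp hi' h1 (hγ k).1.2
        rw [← h2, h] at h3
        obtain ⟨-, m, t, -, -, h4, h5, h6, h7⟩ :=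
          S10_step hθ hz hp g (hγ k) (hγ (k + 1)) (hN k) h h3.1 h3.2
        exact ⟨m, t, h4, h5, h6, h7⟩
      · exfalso
        have h3 := S10_im hp hi
        rw [← h, h2, (TMN.jt_facts hp h1).2.2.1] at h3
        exact lt_irrefl _ h3
    intro k i hi h
    obtain ⟨m, t, h1, h2, h3, h4⟩ := hns k i hi h
    obtain ⟨h5, h6⟩ := S10_vert hθ hz hp g (hγ k) (hγ (k + 1)) (hN k) hi h h1 h2 h3 h4
    obtain ⟨-, -, h7, -⟩ := hns (k + 1) i hi h5
    exact h6 h7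
  -- all germs are joint germs
  have hj : ∀ k, ((γ k).1.2 = 2 ∨ (γ k).1.2 = 3) ∧
      XS p (γ k).1.1 (γ k).1.2 (bs (TMN.sys2 θ p n) (γ k)) = jt p (γ k).1.2 := by
    intro k
    rcases hb k with ⟨i, hi, -, h2⟩ | h
    · exact absurd h2 (hnv k i hi)
    · exact h
  have hstep : ∀ k, (γ (k + 1)).1.2 = (γ k).1.2 ∧
      (γ (k + 1)).1.1.re = (γ k).1.1.re -
        2 * dot ((starRingEnd ℂ) (γ k).1.1) (nu p (γ k).1.2) * (nu p (γ k).1.2).re ∧
      dot ((starRingEnd ℂ) (γ k).1.1) (nu p (γ k).1.2) < 0 := by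
    intro k
    obtain ⟨h1, h2⟩ := hj k
    obtain ⟨hn, -, -, hact, -, -⟩ := DD_ops hz g.toGen (hγ k).1.1
    obtain ⟨j1, j2, j3, j4⟩ := TMN.jt_facts hp h1
    have hne : dot ((starRingEnd ℂ) (γ k).1.1) (nu p (γ k).1.2) ≠ 0 := by
      have h3 := (DD_ops hz g.toGen (hact (1, -1))).2.2.2.2.2 (γ k).1.2
      rwa [s11d_act_conj] at h3
    rcases lt_or_gt_of_ne hne with h3 | h3
    · obtain ⟨h4, h5, h6⟩ := S10_joint hθ hp h1 hn (hγ k).1.2 h3
      have hx := S10_tend p (γ k).1.1 (γ k).1.2 (bs (TMN.sys2 θ p n) (γ k)) (γ k).2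
      rw [h2] at hx
      have hev : ∀ᶠ t in 𝓝[>] (0 : ℝ), Good2 θ p (cj, (γ k).1.2)
          (stt p ((γ k).1, bs (TMN.sys2 θ p n) (γ k) + (γ k).2 * t)) := by
        obtain ⟨-, x2, x3, -⟩ := TMN.XS_facts hp hn (hγ k).1.2
        filter_upwards [hx.eventually h4, S10_ES hz hp g (hγ k)] with t ht hI
        obtain ⟨y1, y2, y3⟩ := x3 _ hI.2.1 hI.2.2
        exact ht (x2 _).1 y3.1.1 y1
      obtain ⟨h7, -⟩ := S10_img hθ hz hp g (hγ (k + 1)).1 (hN k) hev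
      refine ⟨by rw [h7], ?_, h3⟩
      rw [h7]
      change (refl p (γ k).1.2 (act cj.1 (γ k).1.1)).re = _
      rw [h6]
      unfold TMX.refl
      rw [Complex.sub_re, Complex.re_ofReal_mul, Complex.conj_re]
    · exfalso
      have hout : Out2 p (jt p (γ k).1.2) (γ k).1.1 :=
        ⟨⟨j4, _, j1, (hγ k).1.2⟩, j3.ge, fun _ => ⟨j4, _, j1, h3⟩⟩
      have hst : Vst p (jt p (γ k).1.2) (γ k).1.1 := Or.inr ⟨_, h1, rfl, (hγ k).1.2, h3⟩
      obtain ⟨i, -, -, hi, h4, -⟩ :=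
        S10_step hθ hz hp g (hγ k) (hγ (k + 1)) (hN k) h2 hout hst
      have h5 := S10_im hp hi
      rw [← h4, j3] at h5
      exact lt_irrefl _ h5
  -- the joint is constant
  have hk : ∀ k, (γ k).1.2 = (γ 0).1.2 := by
    intro k
    induction k with
    | zero => rfl
    | succ k ih => rw [(hstep k).1, ih]
  have hre : (nu p (γ 0).1.2).re ≠ 0 := by
    obtain ⟨s0, s1, -⟩ := TMN.signs hp
    rcases (hj 0).1 with h | h
    · rw [h]; exact s0.ne
    · rw [h]; exact s1.ne'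
  have hmono : StrictMono fun k => (γ k).1.1.re / (nu p (γ 0).1.2).re := by
    apply strictMono_nat_of_lt_succ
    intro k
    obtain ⟨-, h1, h2⟩ := hstep k
    rw [hk k] at h1 h2
    rw [h1, sub_div, mul_div_assoc, div_self hre]
    linarith
  have hinj : Function.Injective fun k => (γ k).1.1 := by
    intro k k' h
    apply hmono.injective
    change (γ k).1.1 = (γ k').1.1 at h
    change (γ k).1.1.re / _ = (γ k').1.1.re / _
    rw [h]
  have hfin : (Set.range fun k => (γ k).1.1).Finite := (DD_finite θ n).subset (by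
    rintro _ ⟨k, rfl⟩
    exact (hγ k).1.1)
  exact Set.infinite_range_of_injective hinj hfin

end TMN
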