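import Pool.Agent.TMN.A3
import Pool.Agent.TMN.Base
import Pool.Agent.TMN.G2
import Pool.Agent.TMN.G3
import Pool.Agent.TMN.G6
import Pool.Agent.TMN.S1
import Pool.Agent.TMN.S2
import Pool.Agent.TMN.S3
import Pool.Agent.TMX.A4

/-! # TMN S11a: the components of the directions `act d w` and the landing components have one value -/

set_option autoImplicit false

open Set Filter Topology

namespace TMN

open TMX

theorem s11a_spc_neg {θ : ℝ} {w : ℂ} (h : Spc θ (-w)) : Spc θ w := by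
  rcases h with h | h | h | h
  · exact Or.inr (Or.inl (by rw [← h, neg_neg]))
  · exact Or.inl (neg_injective h)
  · exact Or.inr (Or.inr (Or.inr (by rw [← h, neg_neg])))
  · exact Or.inr (Or.inr (Or.inl (neg_injective h)))

theorem s11a_spc_conj {θ : ℝ} {w : ℂ} (h : Spc θ ((starRingEnd ℂ) w)) : Spc θ w := by
  have h0 : w = (starRingEnd ℂ) ((starRingEnd ℂ) w) := (Complex.conj_conj w).symm
  rcases h with h | h | h | h
  · exact Or.inr (Or.inr (Or.inl (by rw [h0, h])))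
  · exact Or.inr (Or.inr (Or.inr (by rw [h0, h, map_neg])))
  · exact Or.inl (by rw [h0, h, Complex.conj_conj])
  · exact Or.inr (Or.inl (by rw [h0, h, map_neg, Complex.conj_conj]))

theorem s11a_spc_act {θ : ℝ} {w : ℂ} (hs : ¬ Spc θ w) (d : Sg) : ¬ Spc θ (act d w) := by
  intro h
  apply hs
  rcases sg_cases d with ⟨h1 | h1, h2 | h2⟩
  · have e : act d w = w := by
      apply Complex.ext <;> simp [act, h1, h2]
    rwa [e] at h
  · have e : act d w = (starRingEnd ℂ) w := by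
      apply Complex.ext <;> simp [act, h1, h2]
    rw [e] at h
    exact s11a_spc_conj h
  · have e : act d w = -(starRingEnd ℂ) w := by
      apply Complex.ext <;> simp [act, h1, h2]
    rw [e] at h
    exact s11a_spc_conj (s11a_spc_neg h)
  · have e : act d w = -w := by
      apply Complex.ext <;> simp [act, h1, h2]
    rw [e] at h
    exact s11a_spc_neg h

/-- the value of a free point: the landing component of the forward ray or the departure component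
of the backward ray is in `D` -/
def s11a_V (θ : ℝ) (p : Par) (D : Set (ℂ × Fin 4)) (w x : ℂ) : Prop :=
  (∃ a : Lt, Good2 θ p a (x, w) ∧ (refl p a.2 (act a.1.1 w), a.2) ∈ D) ∨
    ∃ a : Lt, Good2 θ p a (x, -w) ∧ (act a.1.1 w, a.2) ∈ D

theorem s11a_cmp (c d : Cp) (v : ℂ) : act (cmp (inv c) d).1 (act c.1 v) = act d.1 v := by
  have h1 := frm_sub_frm 0 (cmp (inv c) d) (frm 0 c v) (frm 0 c 0)
  have h2 : frm 0 c v - frm 0 c 0 = act c.1 v := by
    rw [frm_sub_frm, sub_zero]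
  rw [h2, ← frm_frm, ← frm_frm, frm_inv, frm_inv, frm_sub_frm, sub_zero] at h1
  exact h1.symm

section
variable {θ : ℝ} (hθ : |θ - Real.pi / 4| < 1 / 100) (hz : Transcendental ℚ (zz θ))
    {p : Par} (hp : p ∈ Pi1) {n : ℕ} (g : Gen2 θ p n) (D : Set (ℂ × Fin 4))
    (hD : ∀ x ∈ ES θ p n \ EA θ p n, x.1 ∈ D ↔ (TS θ p x).1 ∈ D) {w : ℂ} (hw : w ∈ DD θ n)

include hθ hz hp g hw

include hD in
theorem s11a_agree {x : ℂ} (hx : Fre θ p x) {a b : Lt} (ha : Good2 θ p a (x, w))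
    (hb : Good2 θ p b (x, -w)) :
    ((act b.1.1 w, b.2) ∈ D ↔ (refl p a.2 (act a.1.1 w), a.2) ∈ D) := by
  obtain ⟨hn, _, _, hd, _, _⟩ := DD_ops hz g.toGen hw
  set t := fl θ p a (x, w) with ht
  set t' := fl θ p b (x, -w) with ht'
  have ht0 : 0 < t := ha.1.2.1
  have ht0' : 0 < t' := hb.1.2.1
  set v := act b.1.1 w with hv
  have hvD : v ∈ DD θ n := hd _
  have hvn : ‖v‖ = 1 := by rw [hv, norm_act, hn]
  -- the departure point
  set y := (nx θ p b (x, -w)).1 with hy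
  have hy1 : y = frm θ b.1 (x + (t' : ℂ) * (-w)) := rfl
  obtain ⟨_, hys, _, _⟩ := TMN.nx_out2 hp hb
  have hyim : 0 < y.im := hb.2
  have hyj : ∀ j, j ≠ b.2 → dot y (nu p j) < p.2 j := hb.1.2.2.2
  have hvs : 0 < dot v (nu p b.2) := by
    have h1 : dot (act b.1.1 (-w)) (nu p b.2) < 0 := hb.1.1
    rw [act_neg, dot_neg_left] at h1
    linarith
  -- the landing point
  set y1 := (nx θ p a (x, w)).1 with hy1'
  have hy11 : y1 = frm θ a.1 (x + (t : ℂ) * w) := rfl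
  obtain ⟨_, hys1, _, _⟩ := TMN.nx_out2 hp ha
  set u := act a.1.1 (-w) with hu
  have hus : 0 < dot u (nu p a.2) := by
    have h1 : dot (act a.1.1 w) (nu p a.2) < 0 := ha.1.1
    rw [hu, act_neg, dot_neg_left]
    linarith
  have hfs : FreeSeg θ p y1 u (t + t') := by
    rw [hy11, hu, freeSeg_frm]
    intro s s0 s1
    have e : x + (t : ℂ) * w + (s : ℂ) * (-w) = x + ((t - s : ℝ) : ℂ) * w := by
      push_cast; ring
    have e' : x + (t : ℂ) * w + (s : ℂ) * (-w) = x + ((s - t : ℝ) : ℂ) * (-w) := by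
      push_cast; ring
    rcases lt_trichotomy s t with h | h | h
    · rw [e]
      exact ha.1.2.2.1 (t - s) (by linarith) (by linarith)
    · rw [e, h, sub_self]
      have e2 : x + ((0 : ℝ) : ℂ) * w = x := by simp
      rw [e2]
      exact hx
    · rw [e']
      exact hb.1.2.2.1 (s - t) (by linarith) (by linarith)
  have hrev := (TMN.rev_leg2 (θ := θ) hys1 ha.1.2.2.2 ha.2 hus (cmp (inv a.1) b.1)
    (add_pos ht0 ht0') hfs).1
  have e1 : frm θ (cmp (inv a.1) b.1) (y1 + ((t + t' : ℝ) : ℂ) * u) = y := by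
    rw [hy11, hu, ← frm_ray, ← frm_frm, frm_inv, hy1]
    congr 1
    push_cast; ring
  have e2 : -act (cmp (inv a.1) b.1).1 u = v := by
    rw [hu, s11a_cmp, act_neg, neg_neg]
  rw [e1, e2] at hrev
  obtain ⟨_, _, _, x4, x5⟩ := TMN.XS_facts hp hvn hvs
  have hX1 : ((v, b.2), crs v y) ∈ ES θ p n := ⟨⟨hvD, hvs⟩, x5 y hys hyim hyj⟩
  have hst : stt p ((v, b.2), crs v y) = (y, v) := by
    unfold stt
    simp only
    rw [x4 y hys]
  have hG : Good2 θ p (inv (cmp (inv a.1) b.1), a.2) (stt p ((v, b.2), crs v y)) := by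
    rw [hst]; exact hrev
  have hX2 : ((v, b.2), crs v y) ∉ EA θ p n := fun h => h.2 _ hG
  have hex : ∃ a, Good2 θ p a (stt p ((v, b.2), crs v y)) := ⟨_, hG⟩
  have hl : ltr2 θ p ((v, b.2), crs v y) = (inv (cmp (inv a.1) b.1), a.2) := by
    unfold ltr2
    rw [dif_pos hex]
    exact TMN.good2_unique hθ hp hex.choose_spec hG
  have h := hD _ ⟨hX1, hX2⟩
  have e3 : (TS θ p ((v, b.2), crs v y)).1 = (refl p a.2 (act a.1.1 w), a.2) := by
    unfold TS
    rw [hl, hst]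
    change (refl p a.2 (act (inv (cmp (inv a.1) b.1)).1 v), a.2) = _
    have e4 : act (inv (cmp (inv a.1) b.1)).1 v = act a.1.1 w := by
      rw [inv_fst, hv, ← s11a_cmp a.1 b.1 w, act_self]
    rw [e4]
  rw [e3] at h
  exact h

include hD in
theorem s11a_fwd {x : ℂ} (hx : Fre θ p x) {a : Lt} (ha : Good2 θ p a (x, w)) :
    (s11a_V θ p D w x ↔ (refl p a.2 (act a.1.1 w), a.2) ∈ D) := by
  constructor
  · rintro (⟨a', ha', h⟩ | ⟨b, hb, h⟩)
    · rwa [TMN.good2_unique hθ hp ha ha']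
    · exact (s11a_agree hθ hz hp g D hD hw hx ha hb).1 h
  · intro h
    exact Or.inl ⟨a, ha, h⟩

include hD in
theorem s11a_bwd {x : ℂ} (hx : Fre θ p x) {b : Lt} (hb : Good2 θ p b (x, -w)) :
    (s11a_V θ p D w x ↔ (act b.1.1 w, b.2) ∈ D) := by
  constructor
  · rintro (⟨a, ha, h⟩ | ⟨b', hb', h⟩)
    · exact (s11a_agree hθ hz hp g D hD hw hx ha hb).2 h
    · rwa [TMN.good2_unique hθ hp hb hb']
  · intro h
    exact Or.inr ⟨b, hb, h⟩

/-- one of the two rays of a free point is good -/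
theorem s11a_one (hs : ¬ Spc θ w) {x : ℂ} (hx : Fre θ p x) :
    (∃ a, Good2 θ p a (x, w)) ∨ ∃ a, Good2 θ p a (x, -w) := by
  obtain ⟨hn, hneg, _, hd, _, _⟩ := DD_ops hz g.toGen hw
  obtain ⟨L, hL⟩ := TMN.bounded2 hθ hz hp g
  have hsn : ¬ Spc θ (-w) := fun h => hs (s11a_spc_neg h)
  have hdn := (DD_ops hz g.toGen hneg).2.2.2.1
  obtain ⟨t1, a1, a2, a3⟩ := hL w hw x (Or.inr hs)
  obtain ⟨t2, b1, b2, b3⟩ := hL (-w) hneg x (Or.inr hsn)
  rcases TMN.first_touch2 hθ hp hn (fun d j => (DD_ops hz g.toGen (hd d)).2.2.2.2.2 j) (Or.inr hx)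
    ⟨t1, by linarith, a2, a3⟩ with ⟨a, ha, _⟩ | ⟨c, t, ht, _, _, hV⟩
  · exact Or.inl ⟨a, ha⟩
  rcases TMN.first_touch2 hθ hp (by rw [norm_neg, hn])
    (fun d j => (DD_ops hz g.toGen (hdn d)).2.2.2.2.2 j) (Or.inr hx)
    ⟨t2, by linarith, b2, b3⟩ with ⟨a, ha, _⟩ | ⟨c', t', ht', _, _, hV'⟩
  · exact Or.inr ⟨a, ha⟩
  exfalso
  rw [act_neg, neg_neg] at hV'
  have e1 : frm θ (cmp (inv c') c) (frm θ c' (x + (t' : ℂ) * (-w)) +
      ((t' + t : ℝ) : ℂ) * act c'.1 w) = frm θ c (x + (t : ℂ) * w) := by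
    rw [← frm_ray, ← frm_frm, frm_inv]
    congr 1
    push_cast; ring
  have e2 : act (cmp (inv c') c).1 (act c'.1 w) = act c.1 w := s11a_cmp c' c w
  have hN := TMN.nosc2 hθ hz hp g (hd c'.1) hV' (l := []) trivial (c := cmp (inv c') c)
    (t := t' + t) (by linarith) (by
      change Vst p (frm θ (cmp (inv c') c) (frm θ c' (x + (t' : ℂ) * (-w)) +
        ((t' + t : ℝ) : ℂ) * act c'.1 w)) (-act (cmp (inv c') c).1 (act c'.1 w))
      rw [e1, e2]
      exact hV)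
  exact s11a_spc_act hs c'.1 hN.2.2.1

include hD in
theorem s11a_loc (hs : ¬ Spc θ w) {x : ℂ} (hx : Fre θ p x) :
    ∀ᶠ x' in 𝓝 x, Fre θ p x' → (s11a_V θ p D w x' ↔ s11a_V θ p D w x) := by
  have hc : ∀ v : ℂ, Tendsto (fun x' : ℂ => ((p, (x', v)) : Par × (ℂ × ℂ))) (𝓝 x)
      (𝓝 (p, (x, v))) := fun v => by
    have h1 : Continuous fun x' : ℂ => ((p, (x', v)) : Par × (ℂ × ℂ)) := by fun_prop
    exact h1.tendsto x
  rcases s11a_one hθ hz hp g hw hs hx with ⟨a, ha⟩ | ⟨a, ha⟩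
  · have h := (hc w).eventually (TMN.good2_open hθ hp (Or.inr hx) ha).1
    filter_upwards [h] with x' h1 hx'
    have h2 : Good2 θ p a (x', w) := h1 (Or.inr hx)
    rw [s11a_fwd hθ hz hp g D hD hw hx' h2, s11a_fwd hθ hz hp g D hD hw hx ha]
  · have h := (hc (-w)).eventually (TMN.good2_open hθ hp (Or.inr hx) ha).1
    filter_upwards [h] with x' h1 hx'
    have h2 : Good2 θ p a (x', -w) := h1 (Or.inr hx)
    rw [s11a_bwd hθ hz hp g D hD hw hx' h2, s11a_bwd hθ hz hp g D hD hw hx ha]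

include hD in
theorem s11a_const (hs : ¬ Spc θ w) : ∃ τ : Prop, ∀ x, Fre θ p x → (s11a_V θ p D w x ↔ τ) := by
  obtain ⟨hF, hO⟩ := TMN.fre_connected hθ hp
  refine ⟨∃ x, Fre θ p x ∧ s11a_V θ p D w x, fun x hx => ⟨fun h => ⟨x, hx, h⟩, ?_⟩⟩
  rintro ⟨x0, hx0, h0⟩
  by_contra h1
  have hU : ∀ W : Prop, IsOpen {x : ℂ | Fre θ p x ∧ (s11a_V θ p D w x ↔ W)} := by
    intro W
    rw [isOpen_iff_mem_nhds]
    rintro y ⟨hy, hyW⟩
    filter_upwards [s11a_loc hθ hz hp g D hD hw hs hy, hO.mem_nhds hy] with x' h2 h3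
    exact ⟨h3, (h2 h3).trans hyW⟩
  have h2 := hF _ _ (hU True) (hU False) (by
    intro y hy
    by_cases h : s11a_V θ p D w y
    · exact Or.inl ⟨hy, by simp [h]⟩
    · exact Or.inr ⟨hy, by simp [h]⟩) ⟨x0, hx0, hx0, by simp [h0]⟩ ⟨x, hx, hx, by simp [h1]⟩
  obtain ⟨y, _, ⟨_, h3⟩, ⟨_, h4⟩⟩ := h2
  exact (h3.symm.trans h4).1 trivial

omit hw in
/-- a free point on the ray from the middle of the side `s` -/
theorem s11a_mid {v : ℂ} (hv : v ∈ DD θ n) {s : Fin 4} (hvs : 0 < dot v (nu p s)) (d : Sg) :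
    ∃ x, Fre θ p x ∧ Good2 θ p (inv (d, (0, 0)), s) (x, -act d v) := by
  obtain ⟨hn, _, _, hd, _, _⟩ := DD_ops hz g.toGen hv
  obtain ⟨x1, x2, x3, _, _⟩ := TMN.XS_facts hp hn hvs
  set o := (crs v (sv p s) + crs v (se p s)) / 2 with ho
  obtain ⟨him, hj, hout⟩ := x3 o (by rw [ho]; linarith) (by rw [ho]; linarith)
  have hys := (x2 o).1
  obtain ⟨L, hL⟩ := TMN.bounded2 hθ hz hp g
  obtain ⟨t1, a1, a2, a3⟩ := hL v hv _ (Or.inl hout)
  have hT : ∃ T : ℝ, 0 < T ∧ FreeSeg θ p (XS p v s o) v T := by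
    rcases TMN.first_touch2 hθ hp hn (fun d j => (DD_ops hz g.toGen (hd d)).2.2.2.2.2 j)
      (Or.inl hout) ⟨t1, by linarith, a2, a3⟩ with ⟨a, ha, _⟩ | ⟨c, t, ht, _, hf, _⟩
    · exact ⟨_, ha.1.2.1, ha.1.2.2.1⟩
    · exact ⟨t, ht, hf⟩
  obtain ⟨T, hT0, hT1⟩ := hT
  have hf : FreeSeg θ p (XS p v s o) v (T / 2) := fun r r0 r1 => hT1 r r0 (by linarith)
  refine ⟨frm θ (d, (0, 0)) (XS p v s o + ((T / 2 : ℝ) : ℂ) * v), ?_, ?_⟩
  · rw [fre_frm]
    exact hT1 (T / 2) (by linarith) (by linarith)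
  · exact (TMN.rev_leg2 (θ := θ) hys hj him hvs (d, (0, 0)) (by linarith) hf).1

include hD in
/-- [S11a] -/
theorem class_const (hs : ¬ Spc θ w) : ∃ τ : Prop,
    (∀ d s, 0 < dot (act d w) (nu p s) → ((act d w, s) ∈ D ↔ τ)) ∧
      ∀ d s, dot (act d w) (nu p s) < 0 → ((refl p s (act d w), s) ∈ D ↔ τ) := by
  obtain ⟨_, _, _, hd, _, _⟩ := DD_ops hz g.toGen hw
  obtain ⟨τ, hτ⟩ := s11a_const hθ hz hp g D hD hw hs
  refine ⟨τ, fun d s h => ?_, fun d s h => ?_⟩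
  · obtain ⟨x, hx, hG⟩ := s11a_mid hθ hz hp g (hd d) h d
    rw [act_self] at hG
    have h1 := s11a_bwd hθ hz hp g D hD hw hx hG
    exact h1.symm.trans (hτ x hx)
  · have hneg := (DD_ops hz g.toGen (hd d)).2.1
    obtain ⟨x, hx, hG⟩ := s11a_mid hθ hz hp g hneg (s := s) (by rw [dot_neg_left]; linarith) d
    rw [act_neg, act_self, neg_neg] at hG
    have h1 := s11a_fwd hθ hz hp g D hD hw hx hG
    exact h1.symm.trans (hτ x hx)

end

end TMN
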