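import Pool.Agent.TMN.Base
import Pool.Agent.TMN.S11a
import Pool.Agent.TMX.S11d

/-! # TMN: connectivity of the section from `class_const` -/

set_option autoImplicit false

open Set Filter Topology

namespace TMN

open TMX

theorem s11b_spc_neg {θ : ℝ} {w : ℂ} (h : Spc θ (-w)) : Spc θ w := by
  rcases h with h | h | h | h
  · exact Or.inr (Or.inl (by rw [← h, neg_neg]))
  · exact Or.inl (neg_injective h)
  · exact Or.inr (Or.inr (Or.inr (by rw [← h, neg_neg])))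
  · exact Or.inr (Or.inr (Or.inl (neg_injective h)))

theorem s11b_spc_conj {θ : ℝ} {w : ℂ} (h : Spc θ ((starRingEnd ℂ) w)) : Spc θ w := by
  have h0 : w = (starRingEnd ℂ) ((starRingEnd ℂ) w) := (Complex.conj_conj w).symm
  rcases h with h | h | h | h
  · exact Or.inr (Or.inr (Or.inl (by rw [h0, h])))
  · exact Or.inr (Or.inr (Or.inr (by rw [h0, h, map_neg])))
  · exact Or.inl (by rw [h0, h, Complex.conj_conj])
  · exact Or.inr (Or.inl (by rw [h0, h, map_neg, Complex.conj_conj]))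

theorem s11b_act_neg (w : ℂ) : act (-1, -1) w = -w := by
  apply Complex.ext <;> simp [act]

theorem s11b_spc_act {θ : ℝ} {w : ℂ} (hs : ¬ Spc θ w) (d : Sg) : ¬ Spc θ (act d w) := by
  intro h
  apply hs
  rcases sg_cases d with ⟨h1 | h1, h2 | h2⟩
  · have e : act d w = w := by
      apply Complex.ext <;> simp [act, h1, h2]
    rwa [e] at h
  · have e : act d w = (starRingEnd ℂ) w := by
      apply Complex.ext <;> simp [act, h1, h2]
    rw [e] at h
    exact s11b_spc_conj h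
  · have e : act d w = -(starRingEnd ℂ) w := by
      apply Complex.ext <;> simp [act, h1, h2]
    rw [e] at h
    exact s11b_spc_conj (s11b_spc_neg h)
  · have e : act d w = -w := by
      apply Complex.ext <;> simp [act, h1, h2]
    rw [e] at h
    exact s11b_spc_neg h

/-- powers of `ζ` -/
theorem s11b_pm {θ : ℝ} {p : Par} {n : ℕ} (g : Gen θ p n) :
    (∀ j : ℕ, 0 < j → j < 2 ^ (n - 1) → (nu p 0 ^ 2) ^ j ≠ 1 ∧ (nu p 0 ^ 2) ^ j ≠ -1) ∧
      (nu p 0 ^ 2) ^ 2 ^ (n - 1) = -1 := by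
  have hroot := s11d_root g
  have hn2 : 2 ^ n = 2 * 2 ^ (n - 1) := by
    rw [← pow_succ']; congr 1; have := g.two; omega
  have hζ1 : (nu p 0 ^ 2) ^ 2 ^ n = 1 := hroot.pow_eq_one
  have hn0 : 0 < 2 ^ (n - 1) := by positivity
  refine ⟨?_, ?_⟩
  · intro j h0 h1
    have h2 : (nu p 0 ^ 2) ^ (2 * j) ≠ 1 :=
      hroot.pow_ne_one_of_pos_of_lt (by omega) (by omega)
    refine ⟨fun h3 => h2 ?_, fun h3 => h2 ?_⟩
    · rw [mul_comm, pow_mul, h3, one_pow]
    · rw [mul_comm, pow_mul, h3]; norm_num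
  · have h1 : (nu p 0 ^ 2) ^ 2 ^ (n - 1) * (nu p 0 ^ 2) ^ 2 ^ (n - 1) = 1 := by
      rw [← pow_add, ← two_mul, ← hn2, hζ1]
    rcases mul_self_eq_one_iff.1 h1 with h2 | h2
    · exact absurd h2 (hroot.pow_ne_one_of_pos_of_lt (by positivity) (by omega))
    · exact h2

theorem s11b_r0 (p : Par) (w : ℂ) : refl p 0 w = -(nu p 0 ^ 2 * (starRingEnd ℂ) w) := by
  rw [refl_eq]; ring

/-- the reflection of a special direction is not special -/
theorem s11b_spc_refl0 {θ : ℝ} (hz : Transcendental ℚ (zz θ)) {p : Par} {n : ℕ} (g : Gen θ p n)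
    {w : ℂ} (hs : Spc θ w) : ¬ Spc θ (refl p 0 w) := by
  intro h4
  have hζ1 : (nu p 0 ^ 2) ^ 2 ^ n = 1 := (s11d_root g).pow_eq_one
  have hn4 : 2 ^ (n - 1) = 2 * 2 ^ (n - 2) := by
    rw [← pow_succ']; congr 1; have := g.two; omega
  have hpos : 0 < 2 ^ (n - 2) := by positivity
  have hζn : nu p 0 ^ 2 ≠ 1 ∧ nu p 0 ^ 2 ≠ -1 := by
    have := (s11b_pm g).1 1 one_pos (by omega)
    rwa [pow_one] at this
  rw [s11b_r0] at h4
  have h5 : ∃ e s : ℂ, (e = zz θ ∨ e = (starRingEnd ℂ) (zz θ)) ∧ (s = 1 ∨ s = -1) ∧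
      (starRingEnd ℂ) w = s * e := by
    rcases hs with hs | hs | hs | hs
    · exact ⟨_, 1, Or.inr rfl, Or.inl rfl, by rw [hs, one_mul]⟩
    · exact ⟨_, -1, Or.inr rfl, Or.inr rfl, by rw [hs]; simp⟩
    · exact ⟨_, 1, Or.inl rfl, Or.inl rfl, by rw [hs]; simp⟩
    · exact ⟨_, -1, Or.inl rfl, Or.inr rfl, by rw [hs]; simp⟩
  obtain ⟨e, s, he, hs1, hw1⟩ := h5
  have h6 : -(nu p 0 ^ 2 * (starRingEnd ℂ) w) = (-(nu p 0 ^ 2 * s)) * e := by rw [hw1]; ring
  rw [h6] at h4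
  have hev : Even (2 ^ n) := (Nat.even_pow.2 ⟨even_two, by have := g.two; omega⟩)
  have h7 : (-(nu p 0 ^ 2 * s)) ^ 2 ^ n = 1 := by
    rw [hev.neg_pow, mul_pow, hζ1, one_mul]
    rcases hs1 with rfl | rfl
    · rw [one_pow]
    · exact hev.neg_one_pow
  rcases s11d_spc hz he h7 h4 with h8 | h8 <;> rcases hs1 with rfl | rfl
  · exact hζn.2 (by linear_combination -h8)
  · exact hζn.1 (by linear_combination h8)
  · exact hζn.1 (by linear_combination -h8)
  · exact hζn.2 (by linear_combination h8)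

theorem s11b_spc_refl {θ : ℝ} (hz : Transcendental ℚ (zz θ)) {p : Par} {n : ℕ} (g : Gen θ p n)
    {w : ℂ} (hs : Spc θ w) (j : Fin 4) : ¬ Spc θ (refl p j w) := by
  have h0 := s11b_spc_refl0 hz g hs
  have hstep : ∀ i : Fin 4, ¬ Spc θ (refl p i w) → ¬ Spc θ (refl p (i + 1) w) := by
    intro i hi h
    rw [refl_succ] at h
    exact hi (s11b_spc_neg h)
  have h1 := hstep 0 h0
  have h2 := hstep 1 h1
  have h3 := hstep 2 h2
  fin_cases j
  · exact h0
  · exact h1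
  · exact h2
  · exact h3

/-- the nonspecial directions form one class -/
theorem s11b_circ {θ : ℝ} (hz : Transcendental ℚ (zz θ)) {p : Par} {n : ℕ} (g : Gen θ p n)
    (τ : ℂ → Prop) (hneg : ∀ w ∈ DD θ n, ¬ Spc θ w → (τ w ↔ τ (-w)))
    (hconj : ∀ w ∈ DD θ n, ¬ Spc θ w → (τ w ↔ τ ((starRingEnd ℂ) w)))
    (hstep : ∀ w ∈ DD θ n, ¬ Spc θ w → ¬ Spc θ (nu p 0 ^ 2 * w) →
      (τ w ↔ τ (nu p 0 ^ 2 * w))) :
    ∀ w ∈ DD θ n, ¬ Spc θ w → (τ w ↔ τ (nu p 0 ^ 2 * zz θ)) := by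
  have hroot := s11d_root g
  obtain ⟨hpm, hhalf⟩ := s11b_pm g
  set ζ : ℂ := nu p 0 ^ 2 with hζ
  have hζ1 : ζ ^ 2 ^ n = 1 := hroot.pow_eq_one
  have hn2 : 2 ^ n = 2 * 2 ^ (n - 1) := by
    rw [← pow_succ']; congr 1; have := g.two; omega
  have hn4 : 2 ^ (n - 1) = 2 * 2 ^ (n - 2) := by
    rw [← pow_succ']; congr 1; have := g.two; omega
  have hpos : 0 < 2 ^ (n - 2) := by positivity
  have hzp : ∀ j : ℕ, (ζ ^ j) ^ 2 ^ n = 1 := fun j => by
    rw [← pow_mul, mul_comm, pow_mul, hζ1, one_pow]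
  have hcirc : ∀ e : ℂ, (e = zz θ ∨ e = (starRingEnd ℂ) (zz θ)) → ∀ u : ℂ, u ^ 2 ^ n = 1 →
      ¬ Spc θ (u * e) → (τ (u * e) ↔ τ (ζ * e)) := by
    intro e he
    have hns : ∀ j : ℕ, 0 < j → j < 2 ^ (n - 1) → ¬ Spc θ (ζ ^ j * e) := by
      intro j h0 h1 h5
      rcases s11d_spc hz he (hzp j) h5 with h6 | h6
      · exact (hpm j h0 h1).1 h6
      · exact (hpm j h0 h1).2 h6
    have h4 : ∀ j : ℕ, j + 1 < 2 ^ (n - 1) → (τ (ζ ^ (j + 1) * e) ↔ τ (ζ * e)) := by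
      intro j
      induction j with
      | zero => intro _; rw [zero_add, pow_one]
      | succ j ih =>
        intro h5
        have h6 : ζ * (ζ ^ (j + 1) * e) = ζ ^ (j + 1 + 1) * e := by ring
        have h7 := hstep _ (s11d_mem he (hzp (j + 1))) (hns (j + 1) (by omega) (by omega))
          (by rw [h6]; exact hns (j + 1 + 1) (by omega) h5)
        rw [h6] at h7
        rw [← h7]
        exact ih (by omega)
    intro u hu hsp
    obtain ⟨i, hi, rfl⟩ := hroot.eq_pow_of_pow_eq_one hu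
    have hi0 : i ≠ 0 := by
      rintro rfl
      apply hsp
      rw [pow_zero, one_mul]
      rcases he with rfl | rfl
      · exact Or.inl rfl
      · exact Or.inr (Or.inr (Or.inl rfl))
    rcases lt_trichotomy i (2 ^ (n - 1)) with h7 | h7 | h7
    · have h8 := h4 (i - 1) (by omega)
      rwa [Nat.sub_add_cancel (by omega)] at h8
    · exfalso
      apply hsp
      rw [h7, hhalf]
      rcases he with rfl | rfl
      · exact Or.inr (Or.inl (by ring))
      · exact Or.inr (Or.inr (Or.inr (by ring)))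
    · obtain ⟨m, rfl⟩ : ∃ m, i = 2 ^ (n - 1) + (m + 1) := ⟨i - 2 ^ (n - 1) - 1, by omega⟩
      have h8 : m + 1 < 2 ^ (n - 1) := by omega
      have h9 : ζ ^ (2 ^ (n - 1) + (m + 1)) * e = -(ζ ^ (m + 1) * e) := by
        rw [pow_add, hhalf]; ring
      rw [h9, ← hneg _ (s11d_mem he (hzp (m + 1))) (hns (m + 1) (by omega) h8)]
      exact h4 m h8
  have hlink : τ (ζ * (starRingEnd ℂ) (zz θ)) ↔ τ (ζ * zz θ) := by
    have h3 := s11d_mem (θ := θ) (n := n) (e := zz θ) (Or.inl rfl) hζ1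
    have hζn : ζ ≠ 1 ∧ ζ ≠ -1 := by
      have := hpm 1 one_pos (by omega)
      rwa [pow_one] at this
    have h4 : ¬ Spc θ (ζ * zz θ) := by
      intro h5
      rcases s11d_spc hz (Or.inl rfl) hζ1 h5 with h6 | h6
      · exact hζn.1 h6
      · exact hζn.2 h6
    have h5 := hconj _ h3 h4
    have h6 : ¬ Spc θ ((starRingEnd ℂ) (ζ * zz θ)) := fun h => h4 (s11b_spc_conj h)
    rw [map_mul] at h5 h6
    have h7 : ((starRingEnd ℂ) ζ) ^ 2 ^ n = 1 := by rw [← map_pow, hζ1, map_one]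
    rw [h5]
    exact (hcirc _ (Or.inr rfl) _ h7 h6).symm
  intro w hw hs
  obtain ⟨e, u, he, hu, rfl⟩ := s11d_of_mem hw
  rw [hcirc e he u hu hs]
  rcases he with rfl | rfl
  · exact Iff.rfl
  · exact hlink

/-- [S11b] connectivity from `class_const`. -/
theorem conn2 {θ : ℝ} (hθ : |θ - Real.pi / 4| < 1 / 100) (hz : Transcendental ℚ (zz θ))
    {p : Par} (hp : p ∈ Pi1) {n : ℕ} (g : Gen2 θ p n) (D : Set (ℂ × Fin 4))
    (hD : ∀ x ∈ ES θ p n \ EA θ p n, x.1 ∈ D ↔ (TS θ p x).1 ∈ D) (h : ∃ c ∈ CC θ p n, c ∈ D) :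
    ∀ c ∈ CC θ p n, c ∈ D := by
  have hops := fun {w : ℂ} (hw : w ∈ DD θ n) => DD_ops hz g.toGen hw
  have hex : ∀ w ∈ DD θ n, ∃ s, 0 < dot w (nu p s) := by
    intro w hw
    rcases lt_or_gt_of_ne ((hops hw).2.2.2.2.2 0) with h1 | h1
    · refine ⟨0 + 2, ?_⟩
      rw [dot_add_two]
      linarith
    · exact ⟨0, h1⟩
  set τ : ℂ → Prop := fun w => ∃ s, 0 < dot w (nu p s) ∧ (w, s) ∈ D with hτ
  have key : ∀ w ∈ DD θ n, ¬ Spc θ w →
      (∀ d s, 0 < dot (act d w) (nu p s) → ((act d w, s) ∈ D ↔ τ w)) ∧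
      ∀ d s, dot (act d w) (nu p s) < 0 → ((refl p s (act d w), s) ∈ D ↔ τ w) := by
    intro w hw hs
    obtain ⟨t, h1, h2⟩ := TMN.class_const hθ hz hp g D hD hw hs
    have ht : τ w ↔ t := by
      constructor
      · rintro ⟨s, h3, h4⟩
        have h5 := h1 1 s
        rw [act_one] at h5
        exact (h5 h3).1 h4
      · intro h3
        obtain ⟨s, h4⟩ := hex w hw
        have h5 := h1 1 s
        rw [act_one] at h5
        exact ⟨s, h4, (h5 h4).2 h3⟩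
    exact ⟨fun d s h3 => (h1 d s h3).trans ht.symm, fun d s h3 => (h2 d s h3).trans ht.symm⟩
  have hτ1 : ∀ w ∈ DD θ n, ¬ Spc θ w → ∀ s, 0 < dot w (nu p s) → ((w, s) ∈ D ↔ τ w) := by
    intro w hw hs s h1
    have h2 := (key w hw hs).1 1 s
    rw [act_one] at h2
    exact h2 h1
  have hact : ∀ w ∈ DD θ n, ¬ Spc θ w → ∀ d, (τ w ↔ τ (act d w)) := by
    intro w hw hs d
    have hw' := (hops hw).2.2.2.1 d
    obtain ⟨s, h1⟩ := hex _ hw'
    rw [← (key w hw hs).1 d s h1, ← hτ1 _ hw' (s11b_spc_act hs d) s h1]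
  have hrefl : ∀ w ∈ DD θ n, ¬ Spc θ w → ∀ s, ¬ Spc θ (refl p s w) → (τ w ↔ τ (refl p s w)) := by
    intro w hw hs s hs'
    have hw' := (hops hw).2.2.2.2.1 s
    rcases lt_or_gt_of_ne ((hops hw).2.2.2.2.2 s) with h1 | h1
    · have h2 := (key w hw hs).2 1 s
      rw [act_one] at h2
      have h3 : 0 < dot (refl p s w) (nu p s) := by rw [dot_refl_nu]; linarith
      rw [← h2 h1, ← hτ1 _ hw' hs' s h3]
    · have h2 := (key w hw hs).2 (-1, -1) s
      rw [s11b_act_neg, dot_neg_left, refl_neg] at h2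
      have h3 := (key _ hw' hs').1 (-1, -1) s
      rw [s11b_act_neg, dot_neg_left, dot_refl_nu] at h3
      rw [← h2 (by linarith), ← h3 (by linarith)]
  have hneg : ∀ w ∈ DD θ n, ¬ Spc θ w → (τ w ↔ τ (-w)) := by
    intro w hw hs
    have h1 := hact w hw hs (-1, -1)
    rwa [s11b_act_neg] at h1
  have hconj : ∀ w ∈ DD θ n, ¬ Spc θ w → (τ w ↔ τ ((starRingEnd ℂ) w)) := by
    intro w hw hs
    have h1 := hact w hw hs (1, -1)
    rwa [s11d_act_conj] at h1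
  have hstep : ∀ w ∈ DD θ n, ¬ Spc θ w → ¬ Spc θ (nu p 0 ^ 2 * w) →
      (τ w ↔ τ (nu p 0 ^ 2 * w)) := by
    intro w hw hs hs'
    have hw1 : (starRingEnd ℂ) w ∈ DD θ n := by
      have h1 := (hops hw).2.2.2.1 (1, -1)
      rwa [s11d_act_conj] at h1
    have hs1 : ¬ Spc θ ((starRingEnd ℂ) w) := fun h1 => hs (s11b_spc_conj h1)
    have hr : refl p 0 ((starRingEnd ℂ) w) = -(nu p 0 ^ 2 * w) := by
      rw [s11b_r0, Complex.conj_conj]
    have hs2 : ¬ Spc θ (refl p 0 ((starRingEnd ℂ) w)) := by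
      rw [hr]
      exact fun h1 => hs' (s11b_spc_neg h1)
    have h2 := hrefl _ hw1 hs1 0 hs2
    have h3 : refl p 0 ((starRingEnd ℂ) w) ∈ DD θ n := (hops hw1).2.2.2.2.1 0
    have h4 := hneg _ h3 hs2
    rw [h4, hr, neg_neg] at h2
    rw [hconj w hw hs, h2]
  have hall := s11b_circ hz g.toGen τ hneg hconj hstep
  have hfin : ∀ c ∈ CC θ p n, (c ∈ D ↔ τ (nu p 0 ^ 2 * zz θ)) := by
    rintro ⟨w, s⟩ ⟨hw, hpos⟩
    by_cases hs : Spc θ w
    · have hw' := (hops hw).2.2.2.2.1 s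
      have hs' := s11b_spc_refl hz g.toGen hs s
      have h2 := (key _ hw' hs').2 1 s
      rw [act_one, refl_refl, dot_refl_nu] at h2
      have hpos' : 0 < dot w (nu p s) := hpos
      exact (h2 (by linarith)).trans (hall _ hw' hs')
    · exact (hτ1 w hw hs s hpos).trans (hall w hw hs)
  obtain ⟨c₀, h1, h2⟩ := h
  intro c hc
  rw [hfin c hc, ← hfin c₀ h1]
  exact h2

end TMN
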