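import Pool.Agent.TMN.Base
import Pool.Agent.TMN.G2
import Pool.Agent.TMN.S1
import Pool.Agent.TMN.S5

/-! # TMN [S6]: time reversal on the section -/

set_option autoImplicit false

open Set Filter Topology

namespace TMN

open TMX

theorem s6_good {θ : ℝ} {p : Par} {n : ℕ} {x : (ℂ × Fin 4) × ℝ} (hx : x ∈ ES θ p n \ EA θ p n) :
    Good2 θ p (ltr2 θ p x) (stt p x) := by
  have h : ∃ a, Good2 θ p a (stt p x) := by
    by_contra hne
    push Not at hne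
    exact hx.2 ⟨hx.1, hne⟩
  have e : ltr2 θ p x = h.choose := by
    unfold ltr2; rw [dif_pos h]
  rw [e]; exact h.choose_spec

/-- A good letter of a point of `ES` is the letter of the point. -/
theorem s6_eq {θ : ℝ} (hθ : |θ - Real.pi / 4| < 1 / 100) {p : Par} (hp : p ∈ Pi1) {n : ℕ}
    {x : (ℂ × Fin 4) × ℝ} (hx : x ∈ ES θ p n) {a : Lt} (ha : Good2 θ p a (stt p x)) :
    x ∈ ES θ p n \ EA θ p n ∧ ltr2 θ p x = a := by
  have h1 : x ∈ ES θ p n \ EA θ p n := ⟨hx, fun h => h.2 a ha⟩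
  exact ⟨h1, TMN.good2_unique hθ hp (s6_good h1) ha⟩

theorem s6_RV {θ : ℝ} (hz : Transcendental ℚ (zz θ)) {p : Par} (hp : p ∈ Pi1) {n : ℕ}
    (g : Gen2 θ p n) {x : (ℂ × Fin 4) × ℝ} (hx : x ∈ ES θ p n) :
    RV p x ∈ ES θ p n ∧ RV p (RV p x) = x ∧
      XS p (RV p x).1.1 (RV p x).1.2 (RV p x).2 = XS p x.1.1 x.1.2 x.2 := by
  obtain ⟨⟨w, s⟩, o⟩ := x
  obtain ⟨⟨hw, hws⟩, ho1, ho2⟩ := hx
  change w ∈ DD θ n at hw
  change 0 < dot w (nu p s) at hws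
  change crs w (sv p s) < o at ho1
  change o < crs w (se p s) at ho2
  obtain ⟨hn, -, -, -, hrefl, -⟩ := DD_ops hz g.toGen hw
  obtain ⟨-, hw', -, -, -, -⟩ := DD_ops hz g.toGen (hrefl s)
  obtain ⟨hn', -, -, -, -, -⟩ := DD_ops hz g.toGen hw'
  have hws' : 0 < dot (-TMX.refl p s w) (nu p s) := by
    rw [dot_neg_left, dot_refl_nu, neg_neg]; exact hws
  obtain ⟨-, hX2, hX3, -, -⟩ := TMN.XS_facts hp hn hws
  obtain ⟨-, -, -, hX4, hX5⟩ := TMN.XS_facts hp hn' hws'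
  obtain ⟨hd, hc⟩ := hX2 o
  obtain ⟨him, hj, -⟩ := hX3 o ho1 ho2
  have e1 : RV p ((w, s), o) = ((-TMX.refl p s w, s), crs (-TMX.refl p s w) (XS p w s o)) := rfl
  have e2 : XS p (-TMX.refl p s w) s (crs (-TMX.refl p s w) (XS p w s o)) = XS p w s o :=
    hX4 _ hd
  obtain ⟨h1, h2⟩ := hX5 _ hd him hj
  refine ⟨⟨⟨hw', hws'⟩, h1, h2⟩, ?_, ?_⟩
  · rw [e1]
    change ((-TMX.refl p s (-TMX.refl p s w), s), crs (-TMX.refl p s (-TMX.refl p s w))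
      (XS p (-TMX.refl p s w) s (crs (-TMX.refl p s w) (XS p w s o)))) = ((w, s), o)
    rw [e2, refl_neg, refl_refl, neg_neg, hc]
  · exact e2

/-- [S6] time reversal: `RV` is an involution of the section, `T (RV (T x)) = RV x`; hence `T` is
injective and the points that are not in the image are the reversed points of `EA`. -/
theorem RV_facts {θ : ℝ} (hθ : |θ - Real.pi / 4| < 1 / 100) (hz : Transcendental ℚ (zz θ))
    {p : Par} (hp : p ∈ Pi1) {n : ℕ} (g : Gen2 θ p n) :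
    (∀ x ∈ ES θ p n, RV p x ∈ ES θ p n ∧ RV p (RV p x) = x ∧
      XS p (RV p x).1.1 (RV p x).1.2 (RV p x).2 = XS p x.1.1 x.1.2 x.2) ∧
    (∀ x ∈ ES θ p n \ EA θ p n, RV p (TS θ p x) ∈ ES θ p n \ EA θ p n ∧
      TS θ p (RV p (TS θ p x)) = RV p x) ∧
    InjOn (TS θ p) (ES θ p n \ EA θ p n) ∧ EB θ p n = RV p '' EA θ p n := by
  have key : ∀ x ∈ ES θ p n \ EA θ p n, RV p (TS θ p x) ∈ ES θ p n \ EA θ p n ∧
      TS θ p (RV p (TS θ p x)) = RV p x := by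
    intro x hx
    obtain ⟨hS, -, -, hfst, hg, hnx, -⟩ := TMN.TS_loc hθ hz hp g hx
    obtain ⟨hRS, -, hRX⟩ := s6_RV hz hp g hS
    obtain ⟨hw1, -, -, -, -, -⟩ := DD_ops hz g.toGen hx.1.1.1
    obtain ⟨-, hX2, hX3, -, -⟩ := TMN.XS_facts hp hw1 hx.1.1.2
    obtain ⟨hd, -⟩ := hX2 x.2
    obtain ⟨him, hj, -⟩ := hX3 x.2 hx.1.2.1 hx.1.2.2
    obtain ⟨r1, -, r3⟩ := TMN.rev_leg2 (θ := θ) hd hj him hx.1.1.2 (ltr2 θ p x).1
      hg.1.2.1 hg.1.2.2.1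
    have e1 : stt p (RV p (TS θ p x)) = (frm θ (ltr2 θ p x).1
        (XS p x.1.1 x.1.2 x.2 + (fl θ p (ltr2 θ p x) (stt p x) : ℂ) * x.1.1),
        -act (ltr2 θ p x).1.1 x.1.1) := by
      apply Prod.ext
      · change XS p (RV p (TS θ p x)).1.1 (RV p (TS θ p x)).1.2 (RV p (TS θ p x)).2 = _
        rw [hRX]
        exact (congrArg Prod.fst hnx).symm
      · change -TMX.refl p (TS θ p x).1.2 (TS θ p x).1.1 = -act (ltr2 θ p x).1.1 x.1.1
        rw [hfst]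
        change -TMX.refl p (ltr2 θ p x).2 (TMX.refl p (ltr2 θ p x).2
          (act (ltr2 θ p x).1.1 x.1.1)) = _
        rw [refl_refl]
    rw [← e1] at r1 r3
    obtain ⟨hEA, hl⟩ := s6_eq hθ hp hRS r1
    refine ⟨hEA, ?_⟩
    generalize RV p (TS θ p x) = y at *
    unfold TS
    rw [hl, r3]
    rfl
  refine ⟨fun x hx => s6_RV hz hp g hx, key, ?_, ?_⟩
  · intro x hx y hy hxy
    have h1 := (key x hx).2
    have h2 := (key y hy).2
    rw [hxy, h2] at h1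
    rw [← (s6_RV hz hp g hx.1).2.1, ← h1, (s6_RV hz hp g hy.1).2.1]
  · ext y
    constructor
    · rintro ⟨hy, hy'⟩
      obtain ⟨h1, h2, -⟩ := s6_RV hz hp g hy
      refine ⟨RV p y, ?_, h2⟩
      by_contra hne
      have h3 : RV p y ∈ ES θ p n \ EA θ p n := ⟨h1, hne⟩
      obtain ⟨h4, h5⟩ := key _ h3
      rw [h2] at h5
      exact hy' ⟨_, h4, h5⟩
    · rintro ⟨x, hx, rfl⟩
      obtain ⟨h1, h2, -⟩ := s6_RV hz hp g hx.1
      refine ⟨h1, ?_⟩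
      rintro ⟨z, hz', hzx⟩
      obtain ⟨h4, -⟩ := key z hz'
      rw [hzx, h2] at h4
      exact h4.2 hx

end TMN
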