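import Pool.Agent.TMN.Base
import Pool.Agent.TMN.S5

set_option autoImplicit false

open Set Filter Topology

namespace TMN

open TMX

/-- the letter of a state outside `EA` is good -/
theorem s8_good2 {θ : ℝ} {p : Par} {n : ℕ} {x : (ℂ × Fin 4) × ℝ} (hx : x ∈ ES θ p n) (hA : x ∉ EA θ p n) :
    Good2 θ p (ltr2 θ p x) (stt p x) := by
  have h : ∃ a, Good2 θ p a (stt p x) := by
    by_contra hne
    exact hA ⟨hx, fun a ha => hne ⟨a, ha⟩⟩
  unfold ltr2
  rw [dif_pos h]
  exact h.choose_spec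

/-- [S8] finite orbits of the section are paths. -/
theorem iter_run2 {θ : ℝ} (hθ : |θ - Real.pi / 4| < 1 / 100) (hz : Transcendental ℚ (zz θ))
    {p : Par} (hp : p ∈ Pi1) {n : ℕ} (g : Gen2 θ p n) {x : (ℂ × Fin 4) × ℝ} (hx : x ∈ ES θ p n)
    (m : ℕ) (hm : ∀ k < m, (TS θ p)^[k] x ∉ EA θ p n) :
    ∃ l : List Lt, l.length = m ∧ GoodL2 θ p l (stt p x) ∧
      run θ p l (stt p x) = stt p ((TS θ p)^[m] x) ∧ (TS θ p)^[m] x ∈ ES θ p n ∧
      tim θ p l (stt p x) = bt p ((TS θ p)^[m] x) - bt p x +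
        ∑ k ∈ Finset.range m, fs θ p ((TS θ p)^[k] x) := by
  induction m generalizing x with
  | zero =>
    refine ⟨[], rfl, trivial, rfl, hx, ?_⟩
    rw [Function.iterate_zero, id_eq, Finset.range_zero, Finset.sum_empty, sub_self, add_zero]
    rfl
  | succ m ih =>
    have h0 : x ∉ EA θ p n := by
      have := hm 0 (Nat.succ_pos m)
      rwa [Function.iterate_zero, id_eq] at this
    obtain ⟨h1, -, -, -, -, hnx, hfl⟩ := TMN.TS_loc hθ hz hp g ⟨hx, h0⟩
    obtain ⟨l, hl, hgl, hrun, hmem, htim⟩ := ih h1 (fun k hk => by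
      have := hm (k + 1) (by omega)
      rwa [Function.iterate_succ_apply] at this)
    refine ⟨ltr2 θ p x :: l, by rw [List.length_cons, hl], ⟨s8_good2 hx h0, ?_⟩, ?_, ?_, ?_⟩
    · rw [hnx]
      exact hgl
    · change run θ p l (nx θ p (ltr2 θ p x) (stt p x)) = _
      rw [hnx, hrun, Function.iterate_succ_apply]
    · rw [Function.iterate_succ_apply]
      exact hmem
    · change fl θ p (ltr2 θ p x) (stt p x) + tim θ p l (nx θ p (ltr2 θ p x) (stt p x)) = _
      rw [hnx, htim, hfl, Finset.sum_range_succ', Function.iterate_zero, id_eq, Function.iterate_succ_apply]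
      simp only [Function.iterate_succ_apply]
      ring

end TMN
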