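import Pool.Agent.TMN.A3
import Pool.Agent.TMN.Base
import Pool.Agent.TMN.G1a
import Pool.Agent.TMN.G2
import Pool.Agent.TMN.S1
import Pool.Agent.TMN.S2
import Pool.Agent.TMN.S3
import Pool.Agent.TMN.S6
import Pool.Agent.TMN.S8

/-! # TMN [S9]: no connections; the exceptional set is not empty -/

set_option autoImplicit false

open Set Filter Topology

namespace TMN

open TMX

/-- A state of the exceptional set runs into a vertex. -/
theorem s9_EA {θ : ℝ} (hθ : |θ - Real.pi / 4| < 1 / 100) (hz : Transcendental ℚ (zz θ))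
    {p : Par} (hp : p ∈ Pi1) {n : ℕ} (g : Gen2 θ p n) {y : (ℂ × Fin 4) × ℝ} (h : y ∈ EA θ p n) :
    ∃ (c : Cp) (t : ℝ), 0 < t ∧ FreeSeg θ p (stt p y).1 (stt p y).2 t ∧
      Vst p (frm θ c ((stt p y).1 + t * (stt p y).2)) (-act c.1 (stt p y).2) := by
  obtain ⟨hS, hA⟩ := h
  obtain ⟨⟨hD, hd⟩, h1, h2⟩ := hS
  obtain ⟨hn, -, -, hact, -, -⟩ := DD_ops hz g.toGen hD
  obtain ⟨-, -, hX, -, -⟩ := TMN.XS_facts hp hn hd
  obtain ⟨-, -, hout⟩ := hX y.2 h1 h2
  obtain ⟨L, hL⟩ := TMN.bounded2 hθ hz hp g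
  obtain ⟨t, ht1, htL, c, hc⟩ := hL y.1.1 hD (XS p y.1.1 y.1.2 y.2) (Or.inl hout)
  have hne' : ∀ d j, dot (act d y.1.1) (nu p j) ≠ 0 := fun d j =>
    (DD_ops hz g.toGen (hact d)).2.2.2.2.2 j
  rcases TMN.first_touch2 hθ hp hn hne' (Or.inl hout)
    (L := L) ⟨t, by linarith, htL, c, hc⟩ with ⟨a, ha, -⟩ | ⟨c', t', ht', -, hfr, hv⟩
  · exact absurd ha (hA a)
  · exact ⟨c', t', ht', hfr, hv⟩

/-- Landing points of rays from vertices have infinite orbits. -/
theorem s9_land {θ : ℝ} (hθ : |θ - Real.pi / 4| < 1 / 100) (hz : Transcendental ℚ (zz θ))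
    {p : Par} (hp : p ∈ Pi1) {n : ℕ} (g : Gen2 θ p n) {v w : ℂ} {a : Lt}
    {y : (ℂ × Fin 4) × ℝ} (hw : w ∈ DD θ n) (hv : Vst p v w) (ha : Good2 θ p a (v, w))
    (hy : y ∈ ES θ p n) (hnx : nx θ p a (v, w) = stt p y) (m : ℕ) :
    (TS θ p)^[m] y ∉ EA θ p n := by
  classical
  intro hm0
  have hex : ∃ m, (TS θ p)^[m] y ∈ EA θ p n := ⟨m, hm0⟩
  obtain ⟨m, hm, hmin⟩ : ∃ m, (TS θ p)^[m] y ∈ EA θ p n ∧
      ∀ k < m, (TS θ p)^[k] y ∉ EA θ p n :=
    ⟨Nat.find hex, Nat.find_spec hex, fun k hk => Nat.find_min hex hk⟩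
  obtain ⟨l, -, hgl, hrun, -, -⟩ := TMN.iter_run2 hθ hz hp g hy m hmin
  obtain ⟨c, t, ht, -, hend⟩ := s9_EA hθ hz hp g hm
  have hgl' : GoodL2 θ p (a :: l) (v, w) := by
    refine ⟨ha, ?_⟩
    rw [hnx]; exact hgl
  have hrun' : run θ p (a :: l) (v, w) = stt p ((TS θ p)^[m] y) := by
    rw [← hrun, ← hnx]; rfl
  obtain ⟨hl, -⟩ := TMN.nosc2 hθ hz hp g hw hv hgl' ht (c := c)
    (by rw [hrun']; exact hend)
  exact absurd hl (by simp)

theorem s9_EB {θ : ℝ} (hθ : |θ - Real.pi / 4| < 1 / 100) (hz : Transcendental ℚ (zz θ))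
    {p : Par} (hp : p ∈ Pi1) {n : ℕ} (g : Gen2 θ p n) {y : (ℂ × Fin 4) × ℝ} (hy : y ∈ EB θ p n)
    (m : ℕ) : (TS θ p)^[m] y ∉ EA θ p n := by
  obtain ⟨hR, -, -, hEB⟩ := TMN.RV_facts hθ hz hp g
  rw [hEB] at hy
  obtain ⟨x, hx, rfl⟩ := hy
  obtain ⟨hRS, -, hRX⟩ := hR x hx.1
  obtain ⟨c, t, ht, hfr, hv⟩ := s9_EA hθ hz hp g hx
  obtain ⟨⟨hD, hd⟩, h1, h2⟩ := hx.1
  obtain ⟨hn, -, -, hact, -, -⟩ := DD_ops hz g.toGen hD
  obtain ⟨-, hX0, hX, -, -⟩ := TMN.XS_facts hp hn hd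
  obtain ⟨him, hj, -⟩ := hX x.2 h1 h2
  obtain ⟨hg, -, hnx⟩ := TMN.rev_leg2 (hX0 x.2).1 hj him hd c ht hfr
  have hu : -act c.1 x.1.1 ∈ DD θ n := (DD_ops hz g.toGen (hact c.1)).2.1
  refine s9_land hθ hz hp g hu hv hg hRS ?_ m
  refine hnx.trans ?_
  change _ = (XS p (RV p x).1.1 (RV p x).1.2 (RV p x).2, (RV p x).1.1)
  rw [hRX]
  rfl

theorem s9_neA {θ : ℝ} (hθ : |θ - Real.pi / 4| < 1 / 100) (hz : Transcendental ℚ (zz θ))
    {p : Par} (hp : p ∈ Pi1) {n : ℕ} (g : Gen2 θ p n) : (EA θ p n).Nonempty := by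
  classical
  -- a nonspecial direction that leaves the upper vertex
  have hzD : zz θ ∈ DD θ n := by
    left
    rw [Complex.mul_conj, Complex.normSq_eq_norm_sq, zz_norm]
    norm_num
  have hzz : zz θ * (starRingEnd ℂ) (zz θ) = 1 := by
    rw [Complex.mul_conj, Complex.normSq_eq_norm_sq, zz_norm]
    norm_num
  have hz0 : zz θ ≠ 0 := by
    intro h
    rw [h] at hzz
    simp at hzz
  have hIz : ∀ e : ℂ, e = 1 ∨ e = -1 → ¬ Spc θ (e * (Complex.I * zz θ)) := by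
    intro e he hsp
    have hee : e * e = 1 := by rcases he with rfl | rfl <;> norm_num
    have hI : Complex.I ^ 2 = -1 := Complex.I_sq
    have key : (zz θ) ^ 4 = 1 ∨ (zz θ) ^ 2 = 0 := by
      rcases hsp with h | h | h | h
      · right
        have h2 : (e * (Complex.I * zz θ)) ^ 2 = (zz θ) ^ 2 := by rw [h]
        have h3 : (e * (Complex.I * zz θ)) ^ 2 = -(zz θ) ^ 2 := by
          have : (e * (Complex.I * zz θ)) ^ 2 = (e * e) * (Complex.I ^ 2) * (zz θ) ^ 2 := by ring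
          rw [this, hee, hI]; ring
        rw [h2] at h3
        linear_combination (1 / 2 : ℂ) * h3
      · right
        have h2 : (e * (Complex.I * zz θ)) ^ 2 = (zz θ) ^ 2 := by rw [h]; ring
        have h3 : (e * (Complex.I * zz θ)) ^ 2 = -(zz θ) ^ 2 := by
          have : (e * (Complex.I * zz θ)) ^ 2 = (e * e) * (Complex.I ^ 2) * (zz θ) ^ 2 := by ring
          rw [this, hee, hI]; ring
        rw [h2] at h3
        linear_combination (1 / 2 : ℂ) * h3
      · left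
        have h2 : (e * (Complex.I * zz θ)) * zz θ = 1 := by rw [h, mul_comm]; exact hzz
        have h3 : ((e * (Complex.I * zz θ)) * zz θ) ^ 2 = -(zz θ) ^ 4 := by
          have : ((e * (Complex.I * zz θ)) * zz θ) ^ 2 = (e * e) * (Complex.I ^ 2) * (zz θ) ^ 4 := by
            ring
          rw [this, hee, hI]; ring
        rw [h2] at h3
        have h4 : ((zz θ) ^ 4) ^ 2 = 1 := by
          have : (zz θ) ^ 4 = -1 := by linear_combination h3
          rw [this]; norm_num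
        exfalso
        apply hz
        refine ⟨Polynomial.X ^ 8 - 1, ?_, ?_⟩
        · exact Polynomial.X_pow_sub_C_ne_zero (by norm_num) (1 : ℚ)
        · simp only [map_sub, map_pow, Polynomial.aeval_X, map_one]
          linear_combination h4
      · left
        have h2 : (e * (Complex.I * zz θ)) * zz θ = -1 := by
          rw [h]; linear_combination (-1 : ℂ) * hzz
        have h3 : ((e * (Complex.I * zz θ)) * zz θ) ^ 2 = -(zz θ) ^ 4 := by
          have : ((e * (Complex.I * zz θ)) * zz θ) ^ 2 = (e * e) * (Complex.I ^ 2) * (zz θ) ^ 4 := by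
            ring
          rw [this, hee, hI]; ring
        rw [h2] at h3
        have h4 : ((zz θ) ^ 4) ^ 2 = 1 := by
          have : (zz θ) ^ 4 = -1 := by linear_combination h3
          rw [this]; norm_num
        exfalso
        apply hz
        refine ⟨Polynomial.X ^ 8 - 1, ?_, ?_⟩
        · exact Polynomial.X_pow_sub_C_ne_zero (by norm_num) (1 : ℚ)
        · simp only [map_sub, map_pow, Polynomial.aeval_X, map_one]
          linear_combination h4
    rcases key with h | h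
    · apply hz
      refine ⟨Polynomial.X ^ 4 - 1, ?_, ?_⟩
      · exact Polynomial.X_pow_sub_C_ne_zero (by norm_num) (1 : ℚ)
      · simp only [map_sub, map_pow, Polynomial.aeval_X, map_one]
        linear_combination h
    · exact hz0 (pow_eq_zero_iff (two_ne_zero) |>.mp h)
  obtain ⟨w, hw, hws, hwd⟩ : ∃ w, w ∈ DD θ n ∧ ¬ Spc θ w ∧ 0 < dot w (nu p 0) := by
    have hI := (DD_ops hz g.toGen hzD).2.2.1
    have hne := (DD_ops hz g.toGen hI).2.2.2.2.2 0
    rcases lt_or_gt_of_ne hne with h | h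
    · refine ⟨-(Complex.I * zz θ), (DD_ops hz g.toGen hI).2.1, ?_, ?_⟩
      · have := hIz (-1) (Or.inr rfl)
        rwa [neg_one_mul] at this
      · rw [dot_neg_left]; linarith
    · refine ⟨Complex.I * zz θ, hI, ?_, h⟩
      have := hIz 1 (Or.inl rfl)
      rwa [one_mul] at this
  obtain ⟨hn, -, -, hact, -, hne⟩ := DD_ops hz g.toGen hw
  set v := vtx p 0 with hvdef
  have hsig := TMN.signs hp
  have hvim : 0 < v.im := hsig.2.2.2.2.2.2.1
  have hvQ : v ∈ Q p := by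
    have hpos : ∀ j, 0 < p.2 j + p.2 (j + 2) := hp.2.2.1
    have hvv : ∀ j, dot (vtx p 0) (nu p j) ≤ p.2 j := by
      intro j
      have c0 := dot_vtx_self p 0
      have c1 := dot_vtx_succ p 0
      have c2 := dot_vtx_two p 0
      have c3 := dot_vtx_three p 0
      have h0 := hpos 0
      have h1 := hpos 1
      fin_cases j
      · exact c0.le
      · exact c1.le
      · change dot (vtx p 0) (nu p (0 + 2)) ≤ p.2 (0 + 2)
        rw [c2]; linarith
      · change dot (vtx p 0) (nu p (0 + 3)) ≤ p.2 (0 + 3)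
        rw [c3]
        have : p.2 (1 + 2) = p.2 (0 + 3) := rfl
        have e1 : p.2 (0 + 1) = p.2 1 := rfl
        rw [e1, ← this]; linarith
    exact hvv
  have hvst : Vst p v w := Or.inl ⟨0, by decide, rfl, fun h => absurd h.1 (not_lt.mpr hwd.le)⟩
  have hvout : Out2 p v w :=
    ⟨⟨hvQ, 0, dot_vtx_self p 0, hwd⟩, hvim.le, fun h => absurd h hvim.ne'⟩
  obtain ⟨L, hL⟩ := TMN.bounded2 hθ hz hp g
  obtain ⟨t, ht1, htL, c, hc⟩ := hL w hw v (Or.inl hvout)
  have hne' : ∀ d j, dot (act d w) (nu p j) ≠ 0 := fun d j =>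
    (DD_ops hz g.toGen (hact d)).2.2.2.2.2 j
  obtain ⟨a, ha⟩ : ∃ a, Good2 θ p a (v, w) := by
    rcases TMN.first_touch2 hθ hp hn hne' (Or.inl hvout)
      (L := L) ⟨t, by linarith, htL, c, hc⟩ with ⟨a, ha, -⟩ | ⟨c', t', ht', -, -, hv'⟩
    · exact ⟨a, ha⟩
    · exfalso
      obtain ⟨-, -, hsp, -⟩ := TMN.nosc2 hθ hz hp g hw hvst (l := []) trivial ht' (c := c') hv'
      exact hws hsp
  obtain ⟨⟨hd, hfl, hfree, hside⟩, him⟩ := ha
  clear hc ht1 htL c t
  set t := fl θ p a (v, w) with htdef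
  set x' := (nx θ p a (v, w)).1 with hx'def
  have hx' : x' = frm θ a.1 (v + t * w) := rfl
  set u := -act a.1.1 w with hudef
  have huD : u ∈ DD θ n := (DD_ops hz g.toGen (hact a.1.1)).2.1
  obtain ⟨hun, -, -, -, -, hune⟩ := DD_ops hz g.toGen huD
  have hland : dot x' (nu p a.2) = p.2 a.2 := dot_land (ne_of_lt hd)
  have hud : 0 < dot u (nu p a.2) := by
    rw [hudef, dot_neg_left]
    have : dot (act a.1.1 w) (nu p a.2) < 0 := hd
    linarith
  obtain ⟨-, -, -, hXe, hXb⟩ := TMN.XS_facts hp hun hud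
  have hXx : XS p u a.2 (crs u x') = x' := hXe x' hland
  obtain ⟨hb1, hb2⟩ := hXb x' hland him hside
  have hback : ∀ s : ℝ, x' + (s : ℂ) * u = frm θ a.1 (v + ((t - s : ℝ) : ℂ) * w) := by
    intro s
    rw [hx', hudef, frm_ray, frm_ray]
    push_cast; ring
  have hfree' : FreeSeg θ p x' u t := by
    intro s hs0 hs1
    have := hfree (t - s) (by linarith) (by linarith)
    have h2 : Fre θ p (frm θ a.1 (v + ((t - s : ℝ) : ℂ) * w)) :=
      (fre_frm θ p a.1 _).mpr this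
    rw [← hback] at h2
    exact h2
  have hend : frm θ (inv a.1) (x' + (t : ℂ) * u) = v := by
    rw [hback, frm_inv]
    push_cast; ring
  refine ⟨((u, a.2), crs u x'), ⟨⟨huD, hud⟩, hb1, hb2⟩, ?_⟩
  intro b hb
  have hb' : Good2 θ p b (x', u) := by
    change Good2 θ p b (XS p u a.2 (crs u x'), u) at hb
    rwa [hXx] at hb
  obtain ⟨⟨hbd, hbfl, hbfree, hbside⟩, hbim⟩ := hb'
  have hbx0 : (nx θ p b (x', u)).1 = frm θ b.1 (x' + (fl θ p b (x', u) : ℂ) * u) := rfl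
  have hbQ : (nx θ p b (x', u)).1 ∈ Q p := by
    intro j
    by_cases hj : j = b.2
    · rw [hj, dot_land (ne_of_lt hbd)]
    · exact (hbside j hj).le
  obtain ⟨htt, hcc⟩ := TMN.touch_unique2 hθ hp hfl hbfl hfree' hbfree
    (c := inv a.1) (c' := b.1)
    (by change frm θ (inv a.1) _ ∈ Q p; rw [hend]; exact hvQ) hbQ
  rcases hcc with hcc | hcc
  · have hbx : (nx θ p b (x', u)).1 = vtx p 0 := by
      rw [hbx0, ← htt, hcc]
      exact hend
    by_cases h0 : b.2 = 0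
    · have h1 : (1 : Fin 4) ≠ b.2 := by rw [h0]; decide
      have h2 := hbside 1 h1
      rw [hbx] at h2
      have h3 : dot (vtx p 0) (nu p (0 + 1)) = p.2 (0 + 1) := dot_vtx_succ p 0
      exact absurd h3 (ne_of_lt h2)
    · have h2 := hbside 0 (Ne.symm h0)
      rw [hbx] at h2
      exact absurd (dot_vtx_self p 0) (ne_of_lt h2)
  · have hbx : (nx θ p b (x', u)).1 = frm θ cj v := by
      rw [hbx0, ← htt, hcc, ← frm_frm, hend]
    rw [hbx] at hbim
    have h3 : (frm θ cj v).im = -v.im := by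
      simp [frm, cj, act, lat]
    rw [h3] at hbim
    linarith

/-- [S9] states that are landing points of rays from vertices have infinite orbits; `EB` consists of
such states; `EA` is nonempty. -/
theorem no_conn {θ : ℝ} (hθ : |θ - Real.pi / 4| < 1 / 100) (hz : Transcendental ℚ (zz θ))
    {p : Par} (hp : p ∈ Pi1) {n : ℕ} (g : Gen2 θ p n) :
    (∀ (v w : ℂ) (a : Lt) (y : (ℂ × Fin 4) × ℝ), w ∈ DD θ n → Vst p v w → Good2 θ p a (v, w) →
      y ∈ ES θ p n → nx θ p a (v, w) = stt p y → ∀ m, (TS θ p)^[m] y ∉ EA θ p n) ∧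
    (∀ y ∈ EB θ p n, ∀ m, (TS θ p)^[m] y ∉ EA θ p n) ∧ (EA θ p n).Nonempty :=
  ⟨fun _ _ _ _ hw hv ha hy hnx m => s9_land hθ hz hp g hw hv ha hy hnx m,
    fun _ hy m => s9_EB hθ hz hp g hy m, s9_neA hθ hz hp g⟩

end TMN
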