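import Pool.Agent.TMN.Base
import Pool.Agent.TMN.S1
import Pool.Agent.TMN.S10
import Pool.Agent.TMN.S11b
import Pool.Agent.TMN.S4
import Pool.Agent.TMN.S5
import Pool.Agent.TMN.S6
import Pool.Agent.TMN.S9

/-! # TMN S11c: the system of the section satisfies `Ok2` -/

set_option autoImplicit false

open Set Filter Topology

namespace TMN

open TMX

theorem s11c_S (θ : ℝ) (p : Par) (n : ℕ) : (TMN.sys2 θ p n).S = ES θ p n := by
  ext x
  change x.1 ∈ (TMN.CC_finite θ p n).toFinset ∧ crs x.1.1 (sv p x.1.2) < x.2 ∧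
    x.2 < crs x.1.1 (se p x.1.2) ↔ _
  rw [Set.Finite.mem_toFinset]
  rfl

/-- [S11c] -/
theorem sys2_ok {θ : ℝ} (hθ : |θ - Real.pi / 4| < 1 / 100) (hz : Transcendental ℚ (zz θ))
    {p : Par} (hp : p ∈ Pi1) {n : ℕ} (g : Gen2 θ p n) : Ok2 (TMN.sys2 θ p n) := by
  have hC : ∀ c, c ∈ (TMN.sys2 θ p n).C ↔ c ∈ CC θ p n := fun c =>
    Set.Finite.mem_toFinset (TMN.CC_finite θ p n)
  have hS := s11c_S θ p n
  constructor
  · intro c hc
    rw [hC] at hc
    have h1 := (DD_ops hz g.toGen hc.1).1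
    exact (TMN.XS_facts hp h1 hc.2).1
  · exact TMN.finEA hθ hz hp g
  · have h1 := (TMN.RV_facts hθ hz hp g).2.2.2
    change (EB θ p n).Finite
    rw [h1]
    exact (TMN.finEA hθ hz hp g).image _
  · intro x hx
    rw [hS]
    exact hx.1
  · intro x hx
    rw [hS]
    exact hx.1
  · rw [hS]
    refine ⟨?_, (TMN.RV_facts hθ hz hp g).2.2.1, ?_⟩
    · intro x hx
      exact ⟨(TMN.TS_loc hθ hz hp g hx).1, fun h => h.2 ⟨x, hx, rfl⟩⟩
    · intro y hy
      by_contra h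
      exact hy.2 ⟨hy.1, h⟩
  · intro x hx
    rw [hS] at hx ⊢
    obtain ⟨-, h1, -⟩ := TMN.TS_loc hθ hz hp g hx
    refine ⟨-sdet (ltr2 θ p x).1.1, ?_, ?_⟩
    · rcases sdet_cases (ltr2 θ p x).1.1 with h | h <;> rw [h]
      · exact Or.inr rfl
      · exact Or.inl (by norm_num)
    · filter_upwards [h1] with t ht
      refine ⟨ht.1, ?_⟩
      have h2 := ht.2.2
      change TS θ p (x.1, x.2 + t) = ((TS θ p x).1, (TS θ p x).2 + -sdet (ltr2 θ p x).1.1 * t)
      rw [h2]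
      congr 1
      ring
  · intro γ hγ
    exact TMN.ends hθ hz hp g γ fun k => ⟨(hC _).mp (hγ k).1, (hγ k).2⟩
  · exact (TMN.no_conn hθ hz hp g).2.1
  · intro D hD h
    rw [hS] at hD
    obtain ⟨c, hc, hcD⟩ := h
    intro c' hc'
    exact TMN.conn2 hθ hz hp g D hD ⟨c, (hC c).mp hc, hcD⟩ c' ((hC c').mp hc')
  · exact (TMN.no_conn hθ hz hp g).2.2

end TMN
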