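import Pool.Agent.TMN.Base
import Pool.Agent.TMN.S1
import Pool.Agent.TMN.S2
import Pool.Agent.TMN.S3

/-! # TMN, row S12: the numbers of the section are in `VV` -/

set_option autoImplicit false

open Set Filter Topology

namespace TMN

open TMX

theorem inVV2_jt {θ : ℝ} {p : Par} {n : ℕ} (g : Gen θ p n) {w : ℂ} (hw : inVV_CK θ w)
    (k : Fin 4) : crs w (jt p k) ∈ VV θ p := by
  have e : crs w (jt p k) = (-(w.im) / (nu p k).re) * p.2 k := by
    unfold crs jt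
    rw [Complex.ofReal_re, Complex.ofReal_im]
    ring
  rw [e]
  exact inVV_smul ((KK θ).div_mem ((KK θ).neg_mem hw.2) (inVV_nu g k).1) (inVV_h p k)

theorem inVV2_sv {θ : ℝ} {p : Par} {n : ℕ} (g : Gen θ p n) {w : ℂ} (hw : inVV_CK θ w)
    (s : Fin 4) : crs w (sv p s) ∈ VV θ p := by
  have e : ∀ i : Fin 4, i = 0 ∨ i = 1 ∨ i = 2 ∨ i = 3 := by decide
  rcases e s with rfl | rfl | rfl | rfl
  · exact inVV_vtx g hw 3
  · exact inVV_vtx g hw 0
  · exact inVV_vtx g hw 1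
  · exact inVV2_jt g hw 3

theorem inVV2_se {θ : ℝ} {p : Par} {n : ℕ} (g : Gen θ p n) {w : ℂ} (hw : inVV_CK θ w)
    (s : Fin 4) : crs w (se p s) ∈ VV θ p := by
  have e : ∀ i : Fin 4, i = 0 ∨ i = 1 ∨ i = 2 ∨ i = 3 := by decide
  rcases e s with rfl | rfl | rfl | rfl
  · exact inVV_vtx g hw 0
  · exact inVV_vtx g hw 1
  · exact inVV2_jt g hw 2
  · exact inVV_vtx g hw 3

theorem inVV2_vst {θ : ℝ} {p : Par} {n : ℕ} (g : Gen θ p n) {u v w : ℂ} (hw : inVV_CK θ w)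
    (h : Vst p v u) : crs w v ∈ VV θ p := by
  rcases h with ⟨i, -, rfl, -⟩ | ⟨k, -, rfl, -⟩
  · exact inVV_vtx g hw i
  · exact inVV2_jt g hw k

/-- [S12] the numbers of the section are in `VV`. -/
theorem inVV2 {θ : ℝ} (hθ : |θ - Real.pi / 4| < 1 / 100) (hz : Transcendental ℚ (zz θ))
    {p : Par} (hp : p ∈ Pi1) {n : ℕ} (g : Gen2 θ p n) :
    (∀ w ∈ DD θ n, ∀ s, crs w (sv p s) ∈ VV θ p ∧ crs w (se p s) ∈ VV θ p) ∧
    (∀ x ∈ EA θ p n, x.2 ∈ VV θ p) ∧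
    (∀ w ∈ DD θ n, ∀ j, dot w (nu p j) ∈ KK θ ∧ crs w (nu p j) ∈ KK θ) ∧
    (∀ w ∈ DD θ n, ∀ m, dot (lat θ m) w ∈ KK θ ∧ crs w (lat θ m) ∈ KK θ) ∧
    ell θ ∈ KK θ := by
  refine ⟨?_, ?_, ?_, ?_, ?_⟩
  · intro w hw s
    exact ⟨inVV2_sv g.toGen (inVV_DD hw) s, inVV2_se g.toGen (inVV_DD hw) s⟩
  · rintro ⟨⟨w, s⟩, o⟩ ⟨⟨⟨hw, hws⟩, ho1, ho2⟩, hno⟩
    change w ∈ DD θ n at hw
    change 0 < dot w (nu p s) at hws
    change crs w (sv p s) < o at ho1
    change o < crs w (se p s) at ho2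
    change o ∈ VV θ p
    have hc := inVV_DD hw
    obtain ⟨hn, -, -, hact, -, hdot⟩ := DD_ops hz g.toGen hw
    have hdot' : ∀ d j, dot (act d w) (nu p j) ≠ 0 := by
      intro d j
      exact (DD_ops hz g.toGen (hact d)).2.2.2.2.2 j
    obtain ⟨-, hX, hX2, -, -⟩ := TMN.XS_facts hp hn hws
    have hout := (hX2 o ho1 ho2).2.2
    have hcrs := (hX o).2
    obtain ⟨L, hL⟩ := TMN.bounded2 hθ hz hp g
    obtain ⟨t, ht1, ht2, c, hct⟩ := hL w hw (XS p w s o) (Or.inl hout)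
    rcases TMN.first_touch2 hθ hp hn hdot' (Or.inl hout)
      ⟨t, by linarith, ht2, c, hct⟩ with ⟨a, ha, -⟩ | ⟨c, t, -, -, -, he⟩
    · exact absurd ha (hno a)
    · set v := frm θ c (XS p w s o + (t : ℂ) * w) with hv
      have e1 : o = crs w (XS p w s o + (t : ℂ) * w) := by
        rw [crs_add_right, crs_mul_right, crs_self, hcrs]; ring
      have e2 : XS p w s o + (t : ℂ) * w = act c.1 v + lat θ c.2 := by
        rw [hv, frm, act_self]; ring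
      have e3 : crs w (act c.1 v) = sdet c.1 * crs (act c.1 w) v := by
        rw [← crs_act, act_self]
      rw [e1, e2, crs_add_right, e3]
      apply inVV_add
      · apply inVV_smul _ (inVV2_vst g.toGen (inVV_act hc c.1) he)
        exact (KK θ).mul_mem ((KK θ).intCast_mem _) ((KK θ).intCast_mem _)
      · exact inVV_K p (inVV_crs hc (inVV_lat θ c.2))
  · intro w hw j
    exact ⟨inVV_dot (inVV_DD hw) (inVV_nu g.toGen j), inVV_crs (inVV_DD hw) (inVV_nu g.toGen j)⟩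
  · intro w hw m
    exact ⟨inVV_dot (inVV_lat θ m) (inVV_DD hw), inVV_crs (inVV_DD hw) (inVV_lat θ m)⟩
  · unfold ell
    have h2 : (2 : ℝ) ∈ KK θ := by
      exact ofNat_mem (KK θ) 2
    exact (KK θ).div_mem h2 (inVV_cos θ)

end TMN
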