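import Pool.Agent.TMN.Base
import Pool.Agent.TMN.I2a
import Pool.Agent.TMN.S11c

/-! # TMN S13a: the integral of the second part of `fs` -/

set_option autoImplicit false

open Set Filter Topology MeasureTheory

namespace TMN

open TMX

namespace S13a

/-- the function of the landing state; it depends only on the component -/
noncomputable def gg (p : Par) (y : (ℂ × Fin 4) × ℝ) : ℝ := 2 * p.2 y.1.2 * dot (nu p y.1.2) y.1.1

theorem gg_bound (p : Par) {y : (ℂ × Fin 4) × ℝ} (hy : ‖y.1.1‖ = 1) : |gg p y| ≤ 2 * ∑ j, |p.2 j| := by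
  unfold gg
  rw [abs_mul, abs_mul, abs_two]
  have h1 : |dot (nu p y.1.2) y.1.1| ≤ 1 := by
    have := abs_dot_le (nu p y.1.2) y.1.1
    rw [nu_norm, hy] at this
    linarith
  have h2 : |p.2 y.1.2| ≤ ∑ j, |p.2 j| :=
    Finset.single_le_sum (f := fun j => |p.2 j|) (fun j _ => abs_nonneg _) (Finset.mem_univ y.1.2)
  have h3 : 0 ≤ |p.2 y.1.2| := abs_nonneg _
  have h4 : 0 ≤ |dot (nu p y.1.2) y.1.1| := abs_nonneg _
  nlinarith

/-- the lengths of the visible parts of the sides -/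
noncomputable def LL (p : Par) : Fin 4 → ℝ :=
  ![p.2 1 + p.2 3, p.2 0 + p.2 2, p.2 1 - p.2 2 * Real.sin p.1 / Real.cos p.1,
    p.2 0 - p.2 3 * Real.cos p.1 / Real.sin p.1]

theorem sin_pos' {p : Par} (hp : p ∈ Pi1) : 0 < Real.sin p.1 := by
  refine Real.sin_pos_of_pos_of_lt_pi (by linarith [hp.1]) ?_
  linarith [hp.2.1, Real.pi_gt_three]

theorem cos_pos' {p : Par} (hp : p ∈ Pi1) : 0 < Real.cos p.1 := by
  refine Real.cos_pos_of_mem_Ioo ⟨?_, ?_⟩
  · linarith [hp.1, Real.pi_gt_three]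
  · linarith [hp.2.1, Real.pi_gt_three]

theorem nu0 (p : Par) : nu p 0 = ⟨Real.cos p.1, Real.sin p.1⟩ := by
  apply Complex.ext
  · simp [nu]
  · simp [nu]

theorem nu1 (p : Par) : nu p 1 = ⟨-Real.sin p.1, Real.cos p.1⟩ := by
  have h := nu_succ p 0
  rw [zero_add, nu0] at h
  rw [h]
  apply Complex.ext <;> simp

theorem nu2 (p : Par) : nu p 2 = ⟨-Real.cos p.1, -Real.sin p.1⟩ := by
  have h := nu_add_two p 0
  rw [zero_add, nu0] at h
  rw [h]
  apply Complex.ext <;> simp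

theorem nu3 (p : Par) : nu p 3 = ⟨Real.sin p.1, -Real.cos p.1⟩ := by
  have h := nu_add_three p 0
  rw [zero_add, nu0] at h
  rw [h]
  apply Complex.ext <;> simp

theorem len {p : Par} (hp : p ∈ Pi1) (w : ℂ) (s : Fin 4) :
    crs w (se p s) - crs w (sv p s) = LL p s * dot w (nu p s) := by
  have hs := (sin_pos' hp).ne'
  have hc := (cos_pos' hp).ne'
  have h1 := Real.sin_sq_add_cos_sq p.1
  have e : ∀ i : Fin 4, i = 0 ∨ i = 1 ∨ i = 2 ∨ i = 3 := by decide
  have r7 : (1 : Fin 4) + 1 = 2 := rfl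
  have r8 : (2 : Fin 4) + 1 = 3 := rfl
  have r9 : (3 : Fin 4) + 1 = 0 := rfl
  rcases e s with rfl | rfl | rfl | rfl
  · have h2 := crs_vtx_sub p w 3
    change crs w (vtx p 0) - crs w (vtx p 3) = (p.2 3 + p.2 1) * dot w (nu p 0) at h2
    change crs w (vtx p 0) - crs w (vtx p 3) = (p.2 1 + p.2 3) * dot w (nu p 0)
    rw [h2]
    ring
  · have h2 := crs_vtx_sub p w 0
    change crs w (vtx p 1) - crs w (vtx p 0) = (p.2 0 + p.2 2) * dot w (nu p 1) at h2
    exact h2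
  · change crs w (jt p 2) - crs w (vtx p 1) = (p.2 1 - p.2 2 * Real.sin p.1 / Real.cos p.1) * dot w (nu p 2)
    unfold vtx jt
    rw [r7, nu1, nu2]
    simp only [crs, dot, Complex.ofReal_re, Complex.ofReal_im, Complex.add_re, Complex.add_im, Complex.mul_re, Complex.mul_im]
    field_simp
    linear_combination (-(w.im * p.2 2)) * h1
  · change crs w (vtx p 3) - crs w (jt p 3) = (p.2 0 - p.2 3 * Real.cos p.1 / Real.sin p.1) * dot w (nu p 3)
    unfold vtx jt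
    rw [r9, nu3, nu0]
    simp only [crs, dot, Complex.ofReal_re, Complex.ofReal_im, Complex.add_re, Complex.add_im, Complex.mul_re, Complex.mul_im]
    field_simp
    linear_combination (-(w.im * p.2 3)) * h1

/-- a sum over the components -/
theorem sum_CC {θ : ℝ} (p : Par) (n : ℕ) (F : Fin 4 → ℝ) :
    ∑ c ∈ (TMN.CC_finite θ p n).toFinset, F c.2 * dot c.1 (nu p c.2) ^ 2 =
      ∑ s : Fin 4, F s * ∑ w ∈ (DD_finite θ n).toFinset, (max 0 (dot w (nu p s))) ^ 2 := by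
  have h1 : (TMN.CC_finite θ p n).toFinset =
      ((DD_finite θ n).toFinset ×ˢ (Finset.univ : Finset (Fin 4))).filter fun c => 0 < dot c.1 (nu p c.2) := by
    ext c
    rw [Set.Finite.mem_toFinset, Finset.mem_filter, Finset.mem_product, Set.Finite.mem_toFinset]
    exact ⟨fun h => ⟨⟨h.1, Finset.mem_univ _⟩, h.2⟩, fun h => ⟨h.1.1, h.2⟩⟩
  rw [h1, Finset.sum_filter, Finset.sum_product, Finset.sum_comm]
  refine Finset.sum_congr rfl fun s _ => ?_
  rw [Finset.mul_sum]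
  refine Finset.sum_congr rfl fun w _ => ?_
  split_ifs with h
  · rw [max_eq_right h.le]
  · rw [max_eq_left (not_lt.1 h)]
    ring

end S13a

open S13a in
/-- [S13a] the integral of the second part of `fs`. -/
theorem int_hit2 {θ : ℝ} (hθ : |θ - Real.pi / 4| < 1 / 100) (hz : Transcendental ℚ (zz θ))
    {p : Par} (hp : p ∈ Pi1) {n : ℕ} (g : Gen2 θ p n) :
    ∑ c ∈ (TMN.CC_finite θ p n).toFinset, ∫ o in (crs c.1 (sv p c.2))..(crs c.1 (se p c.2)),
      2 * p.2 (ltr2 θ p (c, o)).2 * dot (nu p (ltr2 θ p (c, o)).2) (TS θ p (c, o)).1.1 =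
      ((DD_finite θ n).toFinset.card : ℝ) * ((p.2 0 + p.2 2) * (p.2 1 + p.2 3) -
        (p.2 2 * (nu p 2).im + p.2 3 * (nu p 3).im) ^ 2 /
          (2 * Real.sin p.1 * Real.cos p.1)) := by
  have hpres := TMN.pres2 (TMN.sys2 θ p n) (TMN.sys2_ok hθ hz hp g) (gg p)
    (fun w _ => (measurable_const : Measurable fun _ : ℝ => 2 * p.2 w.2 * dot (nu p w.2) w.1)) (2 * ∑ j, |p.2 j|) (by
      intro x hx
      have hx1 : x.1 ∈ CC θ p n := (TMN.CC_finite θ p n).mem_toFinset.mp hx.1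
      exact gg_bound p (DD_ops hz g.toGen hx1.1).1)
  change ∑ c ∈ (TMN.CC_finite θ p n).toFinset, ∫ o in (crs c.1 (sv p c.2))..(crs c.1 (se p c.2)),
      gg p (TS θ p (c, o)) = ∑ c ∈ (TMN.CC_finite θ p n).toFinset,
      ∫ _ in (crs c.1 (sv p c.2))..(crs c.1 (se p c.2)), 2 * p.2 c.2 * dot (nu p c.2) c.1 at hpres
  change ∑ c ∈ (TMN.CC_finite θ p n).toFinset, ∫ o in (crs c.1 (sv p c.2))..(crs c.1 (se p c.2)),
      gg p (TS θ p (c, o)) = _
  rw [hpres]
  have h1 : ∀ c ∈ (TMN.CC_finite θ p n).toFinset,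
      (∫ _ in (crs c.1 (sv p c.2))..(crs c.1 (se p c.2)), 2 * p.2 c.2 * dot (nu p c.2) c.1) =
      (fun s : Fin 4 => 2 * p.2 s * LL p s) c.2 * dot c.1 (nu p c.2) ^ 2 := by
    intro c _
    rw [intervalIntegral.integral_const, smul_eq_mul, len hp, dot_comm (nu p c.2) c.1]
    ring
  rw [Finset.sum_congr rfl h1]
  refine (sum_CC (θ := θ) p n (fun s : Fin 4 => 2 * p.2 s * LL p s)).trans ?_
  simp_rw [DD_sum hz g.toGen]
  have hs := (sin_pos' hp).ne'
  have hc := (cos_pos' hp).ne'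
  have h2 := Real.sin_sq_add_cos_sq p.1
  rw [Fin.sum_univ_four]
  change 2 * p.2 0 * (p.2 1 + p.2 3) * _ + 2 * p.2 1 * (p.2 0 + p.2 2) * _ +
    2 * p.2 2 * (p.2 1 - p.2 2 * Real.sin p.1 / Real.cos p.1) * _ +
    2 * p.2 3 * (p.2 0 - p.2 3 * Real.cos p.1 / Real.sin p.1) * _ = _
  rw [nu2, nu3]
  change _ = _ * (_ - (p.2 2 * (-Real.sin p.1) + p.2 3 * (-Real.cos p.1)) ^ 2 / _)
  field_simp
  ring

end TMN
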