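import Pool.Agent.TMN.Base
import Pool.Agent.TMN.I2a
import Pool.Agent.TMN.S11c
import Pool.Agent.TMN.S12
import Pool.Agent.TMN.S13a
import Pool.Agent.TMN.S4
import Pool.Agent.TMN.S5

/-! # TMN S13b: the integral of the constant part of the flight time -/

set_option autoImplicit false

open Set Filter Topology MeasureTheory

namespace TMN

open TMX

/-- [S13b] the integral of `fs`. -/
theorem int_fs {θ : ℝ} (hθ : |θ - Real.pi / 4| < 1 / 100) (hz : Transcendental ℚ (zz θ))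
    {p : Par} (hp : p ∈ Pi1) {n : ℕ} (g : Gen2 θ p n) :
    ∃ v ∈ VV θ p, ∑ c ∈ (TMN.CC_finite θ p n).toFinset,
      ∫ o in (crs c.1 (sv p c.2))..(crs c.1 (se p c.2)), fs θ p (c, o) =
      v - ((DD_finite θ n).toFinset.card : ℝ) * ((p.2 0 + p.2 2) * (p.2 1 + p.2 3) -
        (p.2 2 * (nu p 2).im + p.2 3 * (nu p 3).im) ^ 2 /
          (2 * Real.sin p.1 * Real.cos p.1)) := by
  obtain ⟨hV1, hV2, -, hV4, -⟩ := TMN.inVV2 hθ hz hp g
  have hC : ∀ w, w ∈ (TMN.sys2 θ p n).C ↔ w ∈ CC θ p n := fun w =>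
    (TMN.CC_finite θ p n).mem_toFinset
  have hS : (TMN.sys2 θ p n).S = ES θ p n := by
    ext x
    constructor
    · intro h
      exact ⟨(hC _).1 h.1, h.2⟩
    · intro h
      exact ⟨(hC _).2 h.1, h.2⟩
  have ok := TMN.sys2_ok hθ hz hp g
  set g₁ : (ℂ × Fin 4) × ℝ → ℝ := fun x => dot (lat θ (ltr2 θ p x).1.2) x.1.1 with hg₁
  set g₂ : (ℂ × Fin 4) × ℝ → ℝ := fun x =>
    2 * p.2 (ltr2 θ p x).2 * dot (nu p (ltr2 θ p x).2) (TS θ p x).1.1 with hg₂
  have hloc : ∀ x ∈ ES θ p n \ EA θ p n, ∀ᶠ t in 𝓝 (0 : ℝ),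
      g₁ (x.1, x.2 + t) = g₁ x ∧ g₂ (x.1, x.2 + t) = g₂ x := by
    intro x hx
    obtain ⟨-, h1, -⟩ := TMN.TS_loc hθ hz hp g hx
    filter_upwards [h1] with t ht
    obtain ⟨-, h2, h3⟩ := ht
    simp only [hg₁, hg₂, h2, h3, and_self]
  have hint : ∀ c ∈ CC θ p n, ∀ h : (ℂ × Fin 4) × ℝ → ℝ, (∀ x ∈ ES θ p n \ EA θ p n,
      ∀ᶠ t in 𝓝 (0 : ℝ), h (x.1, x.2 + t) = h x) →
      IntervalIntegrable (fun o => h (c, o)) volume (crs c.1 (sv p c.2)) (crs c.1 (se p c.2)) := by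
    intro c hc h hh
    have hfin : ((EA θ p n).image Prod.snd).Finite := (TMN.finEA hθ hz hp g).image _
    refine s13c_int hfin.toFinset _ _ (ok.hab c ((hC c).2 hc)).le fun o ho hoA => ?_
    have hx : (c, o) ∈ ES θ p n \ EA θ p n := by
      refine ⟨⟨hc, ho.1, ho.2⟩, fun hA => hoA ?_⟩
      rw [Set.Finite.mem_toFinset]
      exact ⟨(c, o), hA, rfl⟩
    have h1 := hh _ hx
    have h2 : Tendsto (fun t : ℝ => t - o) (𝓝 o) (𝓝 0) := by
      have : Tendsto (fun t : ℝ => t - o) (𝓝 o) (𝓝 (o - o)) := tendsto_id.sub_const o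
      rwa [sub_self] at this
    filter_upwards [h2.eventually h1] with t ht
    have h3 : o + (t - o) = t := by ring
    simpa only [h3] using ht
  have hi1 : ∀ c ∈ CC θ p n, IntervalIntegrable (fun o => g₁ (c, o)) volume
      (crs c.1 (sv p c.2)) (crs c.1 (se p c.2)) :=
    fun c hc => hint c hc g₁ fun x hx => (hloc x hx).mono fun _ h => h.1
  have hi2 : ∀ c ∈ CC θ p n, IntervalIntegrable (fun o => g₂ (c, o)) volume
      (crs c.1 (sv p c.2)) (crs c.1 (se p c.2)) :=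
    fun c hc => hint c hc g₂ fun x hx => (hloc x hx).mono fun _ h => h.2
  refine ⟨∑ c ∈ (TMN.CC_finite θ p n).toFinset,
    ∫ o in (crs c.1 (sv p c.2))..(crs c.1 (se p c.2)), g₁ (c, o), ?_, ?_⟩
  · have h1 := TMN.int_pc2 (TMN.sys2 θ p n) ok (s13c_V θ p) (KK θ : Set ℝ)
      (fun k hk v hv => s13c_mul hk hv) (fun c hc => hV1 c.1 ((hC c).1 hc).1 c.2) hV2 g₁
      (by
        rw [hS]
        exact fun x hx => (hloc x hx).mono fun _ h => h.1)
      (by
        rw [hS]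
        exact fun x hx => (hV4 x.1.1 hx.1.1.1 _).1)
    exact h1
  · rw [← TMN.int_hit2 hθ hz hp g, ← Finset.sum_sub_distrib]
    refine Finset.sum_congr rfl fun c hc => ?_
    rw [Set.Finite.mem_toFinset] at hc
    exact intervalIntegral.integral_sub (hi1 c hc) (hi2 c hc)

end TMN
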