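import Pool.Agent.TMN.Base
import Pool.Agent.TMN.G4
import Pool.Agent.TMN.G6
import Pool.Agent.TMN.S1
import Pool.Agent.TMN.S2
import Pool.Agent.TMN.S3

/-! # TMN [S14]: aiming -/

set_option autoImplicit false

open Set Filter Topology

namespace TMN

open TMX

theorem s14_continuous_XS (p : Par) (w : ℂ) (s : Fin 4) : Continuous fun o => XS p w s o := by
  unfold XS
  fun_prop

/-- the case of a good backward letter -/
theorem s14_good2 {θ : ℝ} (hθ : |θ - Real.pi / 4| < 1 / 100) (hz : Transcendental ℚ (zz θ))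
    {p : Par} (hp : p ∈ Pi1) {n : ℕ} (g : Gen2 θ p n) {v x : ℂ} (hv : v ∈ DD θ n)
    (hx : Fre θ p x) {V : Set (ℂ × ℂ)} (hV : IsOpen V) (hxV : (x, v) ∈ V)
    {a : Lt} (ha : Good2 θ p a (x, -v)) :
    ∃ y ∈ ES θ p n, ∃ τ ε : ℝ, 0 < ε ∧ ∀ y' ∈ ES θ p n, y'.1 = y.1 → |y'.2 - y.2| < ε →
      VisitL2 θ p [] (stt p y') V τ := by
  obtain ⟨hn, -, -, hact, -, -⟩ := DD_ops hz g.toGen hv
  have hwD : act a.1.1 v ∈ DD θ n := hact a.1.1
  obtain ⟨hnw, -, -, -, -, -⟩ := DD_ops hz g.toGen hwD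
  obtain ⟨⟨hneg, hτ, hfree, hj⟩, him⟩ := ha
  have hland : dot (nx θ p a (x, -v)).1 (nu p a.2) = p.2 a.2 := dot_land hneg.ne
  set τ := fl θ p a (x, -v) with hτd
  have hy0 : (nx θ p a (x, -v)).1 = frm θ a.1 (x + (τ : ℂ) * (-v)) := rfl
  rw [hy0] at hland him
  simp only [hy0] at hj
  change dot (act a.1.1 (-v)) (nu p a.2) < 0 at hneg
  rw [act_neg, dot_neg_left] at hneg
  change FreeSeg θ p x (-v) τ at hfree
  set w := act a.1.1 v with hwd
  set y0 := frm θ a.1 (x + (τ : ℂ) * (-v)) with hy0d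
  have hpos : 0 < dot w (nu p a.2) := by linarith
  have hq : y0 ∈ Q p := by
    intro j
    by_cases h : j = a.2
    · rw [h]; exact hland.le
    · exact (hj j h).le
  have hout : Out2 p y0 w := ⟨⟨hq, a.2, hland, hpos⟩, him.le, fun h => absurd h him.ne'⟩
  obtain ⟨-, -, f3, f4, f5⟩ := TMN.XS_facts hp hnw hpos
  obtain ⟨s1, s2⟩ := f5 y0 hland him hj
  have u3 : XS p w a.2 (crs w y0) = y0 := f4 y0 hland
  have ray : ∀ s : ℝ, y0 + (s : ℂ) * w = frm θ a.1 (x + ((τ - s : ℝ) : ℂ) * (-v)) := by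
    intro s
    rw [hy0d, hwd, ← frm_ray]
    congr 1
    push_cast
    ring
  have hvis : VisitL2 θ p [] (y0, w) V τ := by
    refine ⟨trivial, hτ, ?_, ?_⟩
    · intro s h0 h1
      change Fre θ p (y0 + (s : ℂ) * w)
      change s ≤ τ - 0 at h1
      rw [ray s, fre_frm]
      rcases lt_or_eq_of_le (show s ≤ τ by linarith) with h | h
      · exact hfree (τ - s) (by linarith) (by linarith)
      · rw [h, sub_self, Complex.ofReal_zero, zero_mul, add_zero]; exact hx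
    · refine ⟨inv a.1, ?_⟩
      change (frm θ (inv a.1) (y0 + ((τ - 0 : ℝ) : ℂ) * w), act (inv a.1).1 w) ∈ V
      rw [ray (τ - 0), sub_zero, sub_self, Complex.ofReal_zero, zero_mul, add_zero, frm_inv,
        inv_fst, hwd, act_self]
      exact hxV
  have hop := TMN.visit2_open hθ hp (l := []) (z := (y0, w)) (Or.inl hout) hV hvis
  have hcb : Tendsto (fun o : ℝ => (((p, (XS p w a.2 o, w)), τ) : (Par × (ℂ × ℂ)) × ℝ))
      (𝓝 (crs w y0)) (𝓝 ((p, (y0, w)), τ)) := by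
    have h1 : Tendsto (fun o => XS p w a.2 o) (𝓝 (crs w y0)) (𝓝 y0) := by
      have := (s14_continuous_XS p w a.2).tendsto (crs w y0)
      rwa [u3] at this
    exact (tendsto_const_nhds.prodMk_nhds (h1.prodMk_nhds tendsto_const_nhds)).prodMk_nhds
      tendsto_const_nhds
  have hev := hcb.eventually hop
  rw [Metric.eventually_nhds_iff] at hev
  obtain ⟨ε, hε, hev⟩ := hev
  refine ⟨((w, a.2), crs w y0), ⟨⟨hwD, hpos⟩, s1, s2⟩, τ, ε, hε, ?_⟩
  rintro ⟨⟨w', s'⟩, o'⟩ ⟨hw', ho1, ho2⟩ he hlt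
  change (w', s') = (w, a.2) at he
  obtain ⟨rfl, rfl⟩ : w' = w ∧ s' = a.2 := by simpa using he
  change |o' - crs w y0| < ε at hlt
  change crs w (sv p a.2) < o' at ho1
  change o' < crs w (se p a.2) at ho2
  change VisitL2 θ p [] (XS p w a.2 o', w) V τ
  exact hev (y := o') (by rw [Real.dist_eq]; exact hlt) (Or.inl (f3 o' ho1 ho2).2.2)

/-- [S14] near every plane phase point there is a state of the section whose flight passes there. -/
theorem aim2 {θ : ℝ} (hθ : |θ - Real.pi / 4| < 1 / 100) (hz : Transcendental ℚ (zz θ))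
    {p : Par} (hp : p ∈ Pi1) {n : ℕ} (g : Gen2 θ p n) {v x : ℂ} (hv : v ∈ DD θ n)
    (hs : ¬ Spc θ v) (hx : Fre θ p x) {V : Set (ℂ × ℂ)} (hV : IsOpen V) (hxV : (x, v) ∈ V) :
    ∃ y ∈ ES θ p n, ∃ τ ε : ℝ, 0 < ε ∧ ∀ y' ∈ ES θ p n, y'.1 = y.1 → |y'.2 - y.2| < ε →
      VisitL2 θ p [] (stt p y') V τ := by
  obtain ⟨hn, hnv, -, -, -, -⟩ := DD_ops hz g.toGen hv
  have hvv : crs v (Complex.I * v) = 1 := by
    rw [crs_mul_I, dot_self, hn]; norm_num
  -- good offsets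
  set Bad : Set ℝ := (Set.range fun q : Cp × Fin 4 =>
    crs v (frm θ (inv q.1) (vtx p q.2)) - crs v x) ∪
    (Set.range fun q : Cp × Fin 4 => crs v (frm θ (inv q.1) (jt p q.2)) - crs v x) with hBad
  have hcount : Bad.Countable := (Set.countable_range _).union (Set.countable_range _)
  have hdense : Dense Badᶜ := hcount.dense_compl ℝ
  have hc : Continuous fun η : ℝ => x + (η : ℂ) * (Complex.I * v) := by fun_prop
  have hO : IsOpen {η : ℝ | x + (η : ℂ) * (Complex.I * v) ∈ {x | Fre θ p x} ∧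
      (x + (η : ℂ) * (Complex.I * v), v) ∈ V} := by
    refine ((TMN.fre_connected hθ hp).2.preimage hc).inter (hV.preimage ?_)
    exact hc.prodMk continuous_const
  obtain ⟨η, ⟨hη1, hη2⟩, hη3⟩ := hdense.inter_open_nonempty _ hO
    ⟨0, by simpa using hx, by simpa using hxV⟩
  set x' := x + (η : ℂ) * (Complex.I * v) with hx'
  obtain ⟨L, hL⟩ := TMN.bounded2 hθ hz hp g
  obtain ⟨t, ht1, ht2, c, hcc⟩ := hL (-v) hnv x' (Or.inr fun h => hs (s14_spc_neg h))
  have hw : ∀ d j, dot (act d (-v)) (nu p j) ≠ 0 := by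
    intro d j
    obtain ⟨-, -, -, hd, -, -⟩ := DD_ops hz g.toGen hnv
    exact (DD_ops hz g.toGen (hd d)).2.2.2.2.2 j
  have key : ∀ (c : Cp) (t : ℝ) (u : ℂ), frm θ c (x' + t * -v) = u →
      crs v (frm θ (inv c) u) - crs v x = η := by
    intro c t u hu
    rw [← hu, frm_inv, crs_add_right, crs_mul_right, crs_neg_right, crs_self, hx',
      crs_add_right, crs_mul_right, hvv]
    ring
  rcases TMN.first_touch2 hθ hp (x := x') (w := -v) (by rw [norm_neg, hn]) hw (Or.inr hη1)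
    ⟨t, by linarith, ht2, c, hcc⟩ with ⟨a, ha, -⟩ | ⟨c, t, ht0, htL, hfr, hv1⟩
  · exact s14_good2 hθ hz hp g hv hη1 hV hη2 ha
  · exfalso
    apply hη3
    rcases hv1 with ⟨i, -, h1, -⟩ | ⟨k, -, h1, -⟩
    · exact Or.inl ⟨(c, i), key c t _ h1⟩
    · exact Or.inr ⟨(c, k), key c t _ h1⟩

end TMN
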