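import Pool.Agent.TMN.A3
import Pool.Agent.TMN.Base
import Pool.Agent.TMN.C1
import Pool.Agent.TMN.G2
import Pool.Agent.TMN.I2b
import Pool.Agent.TMN.S1
import Pool.Agent.TMN.S11c
import Pool.Agent.TMN.S12
import Pool.Agent.TMN.S13b
import Pool.Agent.TMN.S14
import Pool.Agent.TMN.S2
import Pool.Agent.TMN.S3
import Pool.Agent.TMN.S5
import Pool.Agent.TMN.S8
import Pool.Agent.TMN.S9

/-! # TMN [S15]: visits of the separatrix -/

set_option autoImplicit false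

open Set Filter Topology

namespace TMN

open TMX

/-- The direction of the separatrix is not special. -/
theorem s15n_nspc {θ : ℝ} (hz : Transcendental ℚ (zz θ)) {p : Par} {n : ℕ} (g : Gen θ p n) :
    ¬ Spc θ (sepm θ p).2 := by
  intro h
  have hr := s11d_root g
  have hn2 : 2 ^ n = 2 * 2 ^ (n - 1) := by
    rw [← pow_succ']; congr 1; have := g.two; omega
  have hn4 : 2 ^ (n - 1) = 2 * 2 ^ (n - 2) := by
    rw [← pow_succ']; congr 1; have := g.two; omega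
  have e1 : (sepm θ p).2 = (-(nu p 0) ^ 2) * (starRingEnd ℂ) (zz θ) := by
    change -refl p 1 (zz θ) = _
    have e2 : nu p 1 = Complex.I * nu p 0 := nu_succ p 0
    rw [refl_eq, e2, mul_pow, Complex.I_sq]; ring
  rw [e1] at h
  have hu : (-(nu p 0) ^ 2) ^ 2 ^ n = 1 := by
    rw [Even.neg_pow (by rw [hn2]; exact even_two_mul _), hr.pow_eq_one]
  have h2 : (nu p 0 ^ 2) ^ 2 = 1 := by
    rcases s11d_spc hz (Or.inr rfl) hu h with h1 | h1
    · linear_combination (nu p 0 ^ 2 - 1) * (-h1)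
    · linear_combination (nu p 0 ^ 2 + 1) * (-h1)
  have h3 := hr.dvd_of_pow_eq_one 2 h2
  have h4 := Nat.le_of_dvd (by norm_num) h3
  have h5 : 0 < 2 ^ (n - 2) := by positivity
  omega

/-- The first leg of the separatrix. -/
theorem s15n_start {θ : ℝ} (hθ : |θ - Real.pi / 4| < 1 / 100) (hz : Transcendental ℚ (zz θ))
    {p : Par} (hp : p ∈ Pi1) {n : ℕ} (g : Gen2 θ p n) :
    ∃ (a : Lt) (y : (ℂ × Fin 4) × ℝ), Good2 θ p a (sepm θ p) ∧ y ∈ ES θ p n ∧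
      nx θ p a (sepm θ p) = stt p y ∧ ∀ m, (TS θ p)^[m] y ∉ EA θ p n := by
  obtain ⟨ho, hn, h1, h2⟩ := TMN.sep_out2 hθ hp
  have hD : (sepm θ p).2 ∈ DD θ n :=
    (DD_ops hz g.toGen ((DD_ops hz g.toGen (s15_zz θ n)).2.2.2.2.1 1)).2.1
  have hnd : ∀ d j, dot (act d (sepm θ p).2) (nu p j) ≠ 0 := fun d j =>
    (DD_ops hz g.toGen ((DD_ops hz g.toGen hD).2.2.2.1 d)).2.2.2.2.2 j
  have hns := s15n_nspc hz g.toGen
  have hvst : Vst p (vtx p 1) (sepm θ p).2 := by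
    left
    exact ⟨1, by decide, rfl, fun h => lt_asymm h.1 h1⟩
  obtain ⟨L, hL⟩ := TMN.bounded2 hθ hz hp g
  obtain ⟨t, ht1, htL, c, hc⟩ := hL _ hD (sepm θ p).1 (Or.inl ho)
  have hft := TMN.first_touch2 hθ hp hn hnd (Or.inl ho) (L := L)
    ⟨t, by linarith, htL, c, hc⟩
  have hgood : ∃ a, Good2 θ p a (sepm θ p) := by
    rcases hft with ⟨a, ha, -⟩ | ⟨c, t, ht, -, -, hv⟩
    · exact ⟨a, ha⟩
    · exfalso
      have := TMN.nosc2 hθ hz hp g hD hvst (l := []) trivial (c := c) ht hv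
      exact hns this.2.2.1
  obtain ⟨a, ha⟩ := hgood
  obtain ⟨o1, o2, o3, o4⟩ := TMN.nx_out2 hp ha
  have hD' : (nx θ p a (sepm θ p)).2 ∈ DD θ n :=
    (DD_ops hz g.toGen ((DD_ops hz g.toGen hD).2.2.2.1 a.1.1)).2.2.2.2.1 a.2
  have hn' : ‖(nx θ p a (sepm θ p)).2‖ = 1 := by rw [o4, hn]
  obtain ⟨-, x2, x3, x4, x5⟩ := TMN.XS_facts hp hn' o3
  have hy : (((nx θ p a (sepm θ p)).2, a.2),
      crs (nx θ p a (sepm θ p)).2 (nx θ p a (sepm θ p)).1) ∈ ES θ p n := by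
    obtain ⟨b1, b2⟩ := x5 _ o2 ha.2 ha.1.2.2.2
    exact ⟨⟨hD', o3⟩, b1, b2⟩
  have hst : nx θ p a (sepm θ p) = stt p (((nx θ p a (sepm θ p)).2, a.2),
      crs (nx θ p a (sepm θ p)).2 (nx θ p a (sepm θ p)).1) := by
    refine Prod.ext ?_ rfl
    exact (x4 _ o2).symm
  exact ⟨a, _, ha, hy, hst, (TMN.no_conn hθ hz hp g).1 _ _ a _ hD hvst ha hy hst⟩

theorem s15n_hf {θ : ℝ} (hθ : |θ - Real.pi / 4| < 1 / 100) (hz : Transcendental ℚ (zz θ))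
    {p : Par} (hp : p ∈ Pi1) {n : ℕ} (g : Gen2 θ p n) {x : (ℂ × Fin 4) × ℝ}
    (hx : x ∈ ES θ p n \ EA θ p n) :
    ∀ᶠ t in 𝓝 (0 : ℝ), fs θ p (x.1, x.2 + t) = fs θ p x := by
  obtain ⟨-, h, -, -, -, -, -⟩ := TMN.TS_loc hθ hz hp g hx
  filter_upwards [h] with t ht
  unfold fs
  rw [ht.2.1, ht.2.2]

theorem s15n_hVT {θ : ℝ} (hθ : |θ - Real.pi / 4| < 1 / 100) (hz : Transcendental ℚ (zz θ))
    {p : Par} (hp : p ∈ Pi1) {n : ℕ} (g : Gen2 θ p n) {x : (ℂ × Fin 4) × ℝ}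
    (hx : x ∈ ES θ p n \ EA θ p n) (e : ℝ)
    (he : ∀ᶠ t in 𝓝 (0 : ℝ), TS θ p (x.1, x.2 + t) =
      ((TS θ p x).1, (TS θ p x).2 + e * t)) : (TS θ p x).2 - e * x.2 ∈ VV θ p := by
  obtain ⟨hT, h, hT2, -, -, -, -⟩ := TMN.TS_loc hθ hz hp g hx
  obtain ⟨-, -, v3, v4, -⟩ := TMN.inVV2 hθ hz hp g
  have hev := (he.and h)
  rw [Metric.eventually_nhds_iff] at hev
  obtain ⟨δ, hδ, hev⟩ := hev
  have h1 := hev (y := δ / 2) (by rw [Real.dist_eq, sub_zero, abs_of_pos (by linarith)]; linarith)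
  obtain ⟨a1, -, -, a2⟩ := h1
  rw [a1] at a2
  have a3 := congrArg Prod.snd a2
  dsimp only at a3
  have a4 : e = -sdet (ltr2 θ p x).1.1 := by
    have hne : δ / 2 ≠ 0 := by linarith
    apply mul_right_cancel₀ hne
    linarith
  have e1 : (TS θ p x).2 - e * x.2 =
      sdet (ltr2 θ p x).1.1 * crs x.1.1 (lat θ (ltr2 θ p x).1.2) +
      (2 * crs (TS θ p x).1.1 (nu p (ltr2 θ p x).2)) * p.2 (ltr2 θ p x).2 := by
    rw [a4]; linear_combination hT2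
  rw [e1]
  refine s15_VV_add (s15_VV_K (mul_mem (s15_sdet θ _) (v4 _ hx.1.1.1 _).2)) (s15_VV_h ?_ _)
  exact mul_mem (by exact_mod_cast natCast_mem (KK θ) 2) (v3 _ hT.1.1 _).2

theorem s15n_hint {θ : ℝ} (hθ : |θ - Real.pi / 4| < 1 / 100) (hz : Transcendental ℚ (zz θ))
    {p : Par} (hp : p ∈ Pi1) {n : ℕ} (g : Gen2 θ p n) (q : ℕ) (hq : 0 < q) (v : ℝ)
    (hv : v ∈ VV θ p) :
    (q : ℝ) * ∑ c ∈ (TMN.CC_finite θ p n).toFinset,
      ∫ o in (crs c.1 (sv p c.2))..(crs c.1 (se p c.2)), fs θ p (c, o) ≠ ell θ * v := by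
  obtain ⟨v0, hv0, hint⟩ := TMN.int_fs hθ hz hp g
  obtain ⟨-, -, -, -, hell⟩ := TMN.inVV2 hθ hz hp g
  rw [hint]
  intro heq
  apply g.quad2
  set N := (DD_finite θ n).toFinset.card with hN
  have hNpos : 0 < N := Finset.card_pos.mpr ⟨zz θ, (Set.Finite.mem_toFinset _).mpr (s15_zz θ n)⟩
  have hNr : (0 : ℝ) < N := by exact_mod_cast hNpos
  have hqr : (0 : ℝ) < q := by exact_mod_cast hq
  set P := (p.2 0 + p.2 2) * (p.2 1 + p.2 3) -
    (p.2 2 * (nu p 2).im + p.2 3 * (nu p 3).im) ^ 2 / (2 * Real.sin p.1 * Real.cos p.1) with hP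
  have e1 : P = ((q : ℝ) * N)⁻¹ * ((q : ℝ) * v0 + ((-1) * (ell θ * v))) := by
    rw [← heq]; field_simp; ring
  rw [e1]
  refine s15_VV_mul (inv_mem (mul_mem (natCast_mem _ _) (natCast_mem _ _)))
    (s15_VV_add (s15_VV_mul (natCast_mem _ _) hv0)
      (s15_VV_mul (neg_mem (one_mem _)) (s15_VV_mul hell hv)))

theorem s15n_append {θ : ℝ} {p : Par} {l : List Lt} {z z' : ℂ × ℂ} {V : Set (ℂ × ℂ)} {t : ℝ}
    (hl : GoodL2 θ p l z) (hr : run θ p l z = z') (h : VisitL2 θ p [] z' V t) :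
    VisitL2 θ p l z V (tim θ p l z + t) := by
  obtain ⟨-, h1, h2, h3⟩ := h
  change 0 < t at h1
  change ∀ s : ℝ, 0 < s → s ≤ t - 0 → Fre θ p (z'.1 + s * z'.2) at h2
  refine ⟨hl, by linarith, ?_, ?_⟩
  · intro s h0 hs
    rw [hr]
    exact h2 s h0 (by linarith)
  · obtain ⟨c, hc⟩ := h3
    refine ⟨c, ?_⟩
    change (frm θ c (z'.1 + ((t - 0 : ℝ) : ℂ) * z'.2), act c.1 z'.2) ∈ V at hc
    rw [hr]
    have : tim θ p l z + t - tim θ p l z = t - 0 := by ring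
    rw [this]
    exact hc

theorem s15n_bt (p : Par) (c : ℂ × Fin 4) : Continuous fun o : ℝ => bt p (c, o) := by
  have h1 : Continuous fun o : ℝ =>
      (o - p.2 c.2 * crs c.1 (nu p c.2)) / dot c.1 (nu p c.2) :=
    (continuous_id.sub continuous_const).div_const _
  have h2 : Continuous fun o : ℝ => XS p c.1 c.2 o :=
    continuous_const.add ((Complex.continuous_ofReal.comp h1).mul continuous_const)
  have h3 : Continuous fun o : ℝ => (XS p c.1 c.2 o, c.1) := h2.prodMk continuous_const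
  exact continuous_dot.comp h3

theorem visits_gen2 {θ : ℝ} (hθ : |θ - Real.pi / 4| < 1 / 100) (hz : Transcendental ℚ (zz θ))
    {p : Par} (hp : p ∈ Pi1) {n : ℕ} (g : Gen2 θ p n) {v x : ℂ} (hv : v ∈ DD θ n)
    (hs : ¬ Spc θ v) (hx : Fre θ p x) {V : Set (ℂ × ℂ)} (hV : IsOpen V) (hxV : (x, v) ∈ V)
    (τ ε : ℝ) (hε : 0 < ε) :
    ∃ t, ∃ k : ℤ, Visit2 θ p (sepm θ p) V t ∧ |t - τ - k * ell θ| < ε := by
  obtain ⟨y, hy, τa, εa, hεa, haim⟩ := TMN.aim2 hθ hz hp g hv hs hx hV hxV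
  have ok := TMN.sys2_ok hθ hz hp g
  obtain ⟨a, y0, ha, hy0, hst, hinf⟩ := s15n_start hθ hz hp g
  have hbt := (s15n_bt p y.1).continuousAt (x := y.2)
  rw [Metric.continuousAt_iff] at hbt
  obtain ⟨δ, hδ, hbt⟩ := hbt (ε / 2) (by linarith)
  have hmem : ∀ {x : (ℂ × Fin 4) × ℝ}, x ∈ (TMN.sys2 θ p n).S → x ∈ ES θ p n := fun {x} hx =>
    ⟨(Set.Finite.mem_toFinset _).mp hx.1, hx.2⟩
  have hmem' : ∀ {x : (ℂ × Fin 4) × ℝ}, x ∈ ES θ p n → x ∈ (TMN.sys2 θ p n).S := fun {x} hx =>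
    ⟨(Set.Finite.mem_toFinset _).mpr hx.1, hx.2⟩
  obtain ⟨m, r1, r2, k, r3⟩ := TMN.residues2 (TMN.sys2 θ p n) ok (fs θ p)
    (fun x hx => s15n_hf hθ hz hp g ⟨hmem hx.1, hx.2⟩) (s15_V θ p)
    (fun c hc => (TMN.inVV2 hθ hz hp g).1 c.1 ((Set.Finite.mem_toFinset _).mp hc).1 c.2)
    (fun x hx => (TMN.inVV2 hθ hz hp g).2.1 x hx)
    (fun x hx e he => s15n_hVT hθ hz hp g ⟨hmem hx.1, hx.2⟩ e he) (ell θ) (s15_cos hθ)
    (fun q hq v hv => s15n_hint hθ hz hp g q hq v hv) y0 (hmem' hy0) hinf y (hmem' hy)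
    (τ - τa - fl θ p a (sepm θ p) + bt p y0 - bt p y)
    (min (min εa δ) (ε / 2)) (lt_min (lt_min hεa hδ) (by linarith))
  change ((TS θ p)^[m] y0).1 = y.1 at r1
  change |((TS θ p)^[m] y0).2 - y.2| < _ at r2
  change |∑ j ∈ Finset.range m, fs θ p ((TS θ p)^[j] y0) - _ - _| < _ at r3
  obtain ⟨l, -, hgl, hrun, hSm, htim⟩ := TMN.iter_run2 hθ hz hp g hy0 m (fun k _ => hinf k)
  have hm := haim _ hSm r1 (lt_of_lt_of_le r2 ((min_le_left _ _).trans (min_le_left _ _)))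
  have hgl' : GoodL2 θ p (a :: l) (sepm θ p) := ⟨ha, by rw [hst]; exact hgl⟩
  have hrun' : run θ p (a :: l) (sepm θ p) = stt p ((TS θ p)^[m] y0) := by
    change run θ p l (nx θ p a (sepm θ p)) = _
    rw [hst, hrun]
  have hvis := s15n_append hgl' hrun' hm
  have htim' : tim θ p (a :: l) (sepm θ p) = fl θ p a (sepm θ p) + tim θ p l (stt p y0) := by
    change fl θ p a (sepm θ p) + tim θ p l (nx θ p a (sepm θ p)) = _
    rw [hst]
  refine ⟨_, k, ⟨a :: l, hvis⟩, ?_⟩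
  rw [htim', htim]
  have hb : |bt p ((TS θ p)^[m] y0) - bt p y| < ε / 2 := by
    have e1 : bt p ((TS θ p)^[m] y0) = bt p (y.1, ((TS θ p)^[m] y0).2) := by rw [← r1]
    have := hbt (x := ((TS θ p)^[m] y0).2) (by
      rw [Real.dist_eq]
      exact lt_of_lt_of_le r2 ((min_le_left _ _).trans (min_le_right _ _)))
    rw [Real.dist_eq] at this
    rw [e1]
    exact this
  have h3 := lt_of_lt_of_le r3 (min_le_right _ _)
  rw [abs_lt] at hb h3 ⊢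
  constructor <;> linarith [hb.1, hb.2, h3.1, h3.2]

end TMN
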