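import Pool.Agent.TMN.A5
import Pool.Agent.TMN.Base
import Pool.Agent.TMN.C1
import Pool.Agent.TMN.F1
import Pool.Agent.TMN.G4
import Pool.Agent.TMN.S15

/-! # TMN [O1]: Baire category -/

set_option autoImplicit false

open Set Filter Topology

namespace TMN

open TMX

theorem O1_Pi1_open : IsOpen Pi1 := by
  have e : Pi1 = {p : Par | 1 / 10 < p.1} ∩ ({p | p.1 < 3 / 10} ∩
      ((⋂ j, {p | 0 < p.2 j + p.2 (j + 2)}) ∩
        ((⋂ j, ({p | |(vtx p j).re - 1 / 4| < 1 / 50} ∩ {p | |(vtx p j).im| < 1 / 50})) ∩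
          ({p | (vtx p 2).im < 0} ∩ ({p | 0 < (vtx p 1).im} ∩ ({p | 0 < (vtx p 3).im} ∩
            ⋂ j, {p | dot ((starRingEnd ℂ) (vtx p 2)) (nu p j) < p.2 j})))))) := by
    ext p
    simp only [Pi1, mem_ofPred_eq, mem_inter_iff, mem_iInter]
  rw [e]
  have hv := fun j => TMX.O1_vtx_cont j
  refine (isOpen_lt continuous_const continuous_fst).inter
    ((isOpen_lt continuous_fst continuous_const).inter (IsOpen.inter ?_ (IsOpen.inter ?_
      (IsOpen.inter ?_ (IsOpen.inter ?_ (IsOpen.inter ?_ ?_))))))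
  · apply isOpen_iInter_of_finite; intro j
    exact isOpen_lt continuous_const ((TMX.O1_coord_cont j).add (TMX.O1_coord_cont (j + 2)))
  · apply isOpen_iInter_of_finite; intro j
    exact (isOpen_lt ((Complex.continuous_re.comp (hv j)).sub continuous_const).abs
      continuous_const).inter
      (isOpen_lt (Complex.continuous_im.comp (hv j)).abs continuous_const)
  · exact isOpen_lt (Complex.continuous_im.comp (hv 2)) continuous_const
  · exact isOpen_lt continuous_const (Complex.continuous_im.comp (hv 1))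
  · exact isOpen_lt continuous_const (Complex.continuous_im.comp (hv 3))
  · apply isOpen_iInter_of_finite; intro j
    exact isOpen_lt (continuous_dot.comp ((Complex.continuous_conj.comp (hv 2)).prodMk
      (TMX.O1_nu_cont j))) (TMX.O1_coord_cont j)

theorem O1_mono2 {θ : ℝ} {p : Par} {z : ℂ × ℂ} {V W : Set (ℂ × ℂ)} (h : V ⊆ W) {t : ℝ}
    (hv : Visit2 θ p z V t) : Visit2 θ p z W t := by
  obtain ⟨l, h1, h2, h3, c, h4⟩ := hv
  exact ⟨l, h1, h2, h3, c, h h4⟩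

/-- Parameters for which the separatrix visits `V` at a given time modulo `ell`. -/
def O1_A2 (θ : ℝ) (V : Set (ℂ × ℂ)) (τ ε : ℝ) : Set Par :=
  {p | p ∈ Pi1 ∧ ∃ t, ∃ k : ℤ, Visit2 θ p (sepm θ p) V t ∧ |t - τ - k * ell θ| < ε}

/-- Parameters for which `V` contains a phase point of the table. -/
def O1_E2 (θ : ℝ) (V : Set (ℂ × ℂ)) : Set Par :=
  {p | p ∈ Pi1 ∧ ∃ x v : ℂ, x ∈ Ro θ ∧ x ∉ Q p ∧ ‖v‖ = 1 ∧ (x, v) ∈ V}

theorem O1_visit2 {θ : ℝ} (hθ : |θ - Real.pi / 4| < 1 / 100) {p : Par} (hp : p ∈ Pi1)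
    {s : Par → ℂ × ℂ} (hs : Continuous s) (ho : ∀ q ∈ Pi1, Out2 q (s q).1 (s q).2)
    {V : Set (ℂ × ℂ)} (hV : IsOpen V) {t : ℝ} (h : Visit2 θ p (s p) V t) :
    ∀ᶠ q in 𝓝 p, Visit2 θ q (s q) V t := by
  obtain ⟨l, hl⟩ := h
  have hvo := TMN.visit2_open hθ hp (Or.inl (ho p hp)) hV hl
  have hc : ContinuousAt (fun q : Par => (((q, s q), t) : (Par × (ℂ × ℂ)) × ℝ)) p :=
    (((continuous_id.prodMk hs).prodMk continuous_const)).continuousAt
  have h0 := hc.eventually hvo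
  filter_upwards [h0, O1_Pi1_open.mem_nhds hp] with q hq hqp
  exact ⟨l, hq (Or.inl (ho q hqp))⟩

theorem O1_A2_open {θ : ℝ} (hθ : |θ - Real.pi / 4| < 1 / 100) {V : Set (ℂ × ℂ)} (hV : IsOpen V)
    (τ ε : ℝ) : IsOpen (O1_A2 θ V τ ε) := by
  rw [isOpen_iff_mem_nhds]
  rintro p ⟨hp, t, k, h1, h2⟩
  have e1 := O1_visit2 hθ hp (TMX.O1_sepm_cont θ) (fun q hq => (TMN.sep_out2 hθ hq).1) hV h1
  filter_upwards [e1, O1_Pi1_open.mem_nhds hp] with q q1 q3
  exact ⟨q3, t, k, q1, h2⟩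

theorem O1_dense2 {θ : ℝ} (hθ : |θ - Real.pi / 4| < 1 / 100) (hz : Transcendental ℚ (zz θ))
    {V : Set (ℂ × ℂ)} (hV : IsOpen V) {τ ε : ℝ} (hε : 0 < ε) :
    O1_E2 θ V ⊆ closure (O1_A2 θ V τ ε) := by
  rintro p ⟨hp, x, v, hx, hxQ, hv, hxv⟩
  rw [mem_closure_iff_nhds]
  intro N hN
  have hVx : IsOpen {w : ℂ | (x, w) ∈ V} := hV.preimage (by fun_prop)
  obtain ⟨δ, hδ, hball⟩ := Metric.isOpen_iff.mp hVx v hxv
  obtain ⟨n₀, hn₀⟩ := DD_dense θ hv hδ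
  have hN' : N ∩ {q : Par | x ∉ Q q} ∈ 𝓝 p :=
    inter_mem hN ((TMX.O1_notQ_open x).mem_nhds hxQ)
  obtain ⟨q, ⟨hqN, hqx⟩, hqP, n, hn, g⟩ := TMN.gen_dense2 θ hp hN' n₀
  obtain ⟨w, hw, hws, hwv⟩ := hn₀ n hn
  have hxw : (x, w) ∈ V := hball (by rw [Metric.mem_ball, dist_eq_norm]; exact hwv)
  have hF : Fre θ q x := (TMN.table_closure2 hθ hqP).2.2 x hx hqx
  exact ⟨q, hqN, hqP, TMN.visits_gen2 hθ hz hqP g hw hws hF hV hxw τ ε hε⟩

/-- [O1] -/
theorem residual_visits2 {θ : ℝ} (hθ : |θ - Real.pi / 4| < 1 / 100)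
    (hz : Transcendental ℚ (zz θ)) :
    ∃ G ∈ residual Par, ∀ p ∈ G, p ∈ Pi1 → ∀ x v : ℂ, x ∈ Ro θ → x ∉ Q p → ‖v‖ = 1 →
      ∀ V : Set (ℂ × ℂ), IsOpen V → (x, v) ∈ V →
      ∀ τ ε : ℝ, 0 < ε → ∃ t, ∃ k : ℤ, Visit2 θ p (sepm θ p) V t ∧
        |t - τ - k * ell θ| < ε := by
  let B := TopologicalSpace.countableBasis (ℂ × ℂ)
  have hB : B.Countable := TopologicalSpace.countable_countableBasis _
  have hBo : ∀ V ∈ B, IsOpen V := fun V hV => TopologicalSpace.isOpen_of_mem_countableBasis hV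
  let F : Set (ℂ × ℂ) → ℚ × ℕ → Set Par := fun V q =>
    O1_A2 θ V q.1 (1 / ((q.2 : ℝ) + 1)) ∪ (closure (O1_E2 θ V))ᶜ
  have hF : ∀ V ∈ B, ∀ q, F V q ∈ residual Par := by
    intro V hV q
    have hpos : (0 : ℝ) < 1 / ((q.2 : ℝ) + 1) := by positivity
    apply residual_of_dense_open
    · exact (O1_A2_open hθ (hBo V hV) _ _).union isClosed_closure.isOpen_compl
    · intro p
      by_cases hp : p ∈ closure (O1_E2 θ V)
      · have h1 : closure (O1_E2 θ V) ⊆ closure (O1_A2 θ V q.1 (1 / ((q.2 : ℝ) + 1))) :=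
          closure_minimal (O1_dense2 hθ hz (hBo V hV) hpos) isClosed_closure
        exact closure_mono subset_union_left (h1 hp)
      · exact subset_closure (Or.inr hp)
  refine ⟨⋂ V ∈ B, ⋂ q, F V q, ?_, ?_⟩
  · rw [countable_bInter_mem hB]
    intro V hV
    rw [countable_iInter_mem]
    exact hF V hV
  · intro p hpG hp x v hx hxQ hv V hV hxV
    obtain ⟨V₀, hV₀, hxV₀, hsub⟩ :=
      (TopologicalSpace.isBasis_countableBasis (ℂ × ℂ)).exists_subset_of_mem_open hxV hV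
    have hE : p ∈ O1_E2 θ V₀ := ⟨hp, x, v, hx, hxQ, hv, hxV₀⟩
    have hA : ∀ q : ℚ × ℕ, p ∈ O1_A2 θ V₀ q.1 (1 / ((q.2 : ℝ) + 1)) := by
      intro q
      have h1 := mem_iInter.mp (mem_iInter₂.mp hpG V₀ hV₀) q
      rcases h1 with h1 | h1
      · exact h1
      · exact absurd (subset_closure hE) h1
    intro τ ε hε
    obtain ⟨N, hN⟩ := exists_nat_one_div_lt (half_pos hε)
    obtain ⟨r, hr1, hr2⟩ := exists_rat_btwn (show τ < τ + ε / 2 by linarith)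
    obtain ⟨-, t, k, h1, h2⟩ := hA (r, N)
    refine ⟨t, k, O1_mono2 hsub h1, ?_⟩
    simp only at h2
    rw [abs_lt] at h2 ⊢
    constructor <;> linarith

end TMN
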