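import Pool.Agent.TMN.Base
import Pool.Agent.TMN.G1a

set_option autoImplicit false

open Set Filter Topology

namespace TMN

open TMX

private theorem Q1_cs {θ : ℝ} (hθ : |θ - Real.pi / 4| < 1 / 100) :
    0.69 < Real.cos θ ∧ Real.cos θ < 0.72 ∧ 0.69 < Real.sin θ ∧ Real.sin θ < 0.72 := by
  have h1 := (Real.abs_cos_sub_cos_le θ (Real.pi / 4)).trans_lt hθ
  have h2 := (Real.abs_sin_sub_sin_le θ (Real.pi / 4)).trans_lt hθ
  rw [Real.cos_pi_div_four, abs_lt] at h1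
  rw [Real.sin_pi_div_four, abs_lt] at h2
  have h3 : (1.41 : ℝ) < Real.sqrt 2 := by
    rw [Real.lt_sqrt (by norm_num)]
    norm_num
  have h4 : Real.sqrt 2 < (1.42 : ℝ) := by
    rw [Real.sqrt_lt' (by norm_num)]
    norm_num
  refine ⟨?_, ?_, ?_, ?_⟩ <;> linarith [h1.1, h1.2, h2.1, h2.2]

private theorem Q1_ang {θ : ℝ} (hθ : |θ - Real.pi / 4| < 1 / 100) {p : Par} (hp : p ∈ Pi1) :
    0 < dot (zz θ) (nu p 1) ∧ 0 < crs (zz θ) (nu p 1) := by
  obtain ⟨hp1, hp2, -⟩ := hp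
  rw [abs_lt] at hθ
  have hpi := Real.pi_gt_three
  have s1 : 0 < Real.sin (θ - p.1) :=
    Real.sin_pos_of_pos_of_lt_pi (by linarith) (by linarith)
  have s2 : 0 < Real.cos (θ - p.1) :=
    Real.cos_pos_of_mem_Ioo ⟨by linarith, by linarith⟩
  rw [Real.sin_sub] at s1
  rw [Real.cos_sub] at s2
  have e1 : nu p 1 = Complex.I * nu p 0 := nu_succ p 0
  refine ⟨?_, ?_⟩
  · rw [e1, dot_mul_I]
    unfold crs
    rw [zz_re, zz_im, nu_re_zero, nu_im_zero]
    linarith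
  · rw [e1, crs_mul_I]
    unfold dot
    rw [zz_re, zz_im, nu_re_zero, nu_im_zero]
    linarith

private theorem Q1_max {p : Par} {z : ℂ} {j : Fin 4} (h1 : 0 < crs z (nu p j))
    (h2 : 0 < dot z (nu p j)) {X : ℂ} (hX : X ∈ Q p) : crs z X ≤ crs z (vtx p j) := by
  have e : crs z X = dot X (nu p j) * crs z (nu p j) +
      dot X (nu p (j + 1)) * crs z (nu p (j + 1)) := by
    conv_lhs => rw [basis_nu p j X]
    rw [crs_add_right, crs_mul_right, crs_mul_right]
  rw [e, crs_vtx, crs_nu_succ]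
  have b1 := hX j
  have b2 := hX (j + 1)
  have c1 := mul_le_mul_of_nonneg_right b1 h1.le
  have c2 := mul_le_mul_of_nonneg_right b2 h2.le
  linarith

private theorem Q1_prod {C S r i : ℝ} (h1 : 0.69 < C) (h2 : C < 0.72) (h3 : 0.69 < S)
    (h4 : S < 0.72) (hr : |r - 1 / 4| < 1 / 50) (hi : |i| < 1 / 50) :
    -0.015 < C * i ∧ C * i < 0.015 ∧ 0.158 < S * r ∧ S * r < 0.195 := by
  rw [abs_lt] at hr hi
  obtain ⟨r1, r2⟩ := hr
  obtain ⟨i1, i2⟩ := hi
  have a1 : C * (-(1 / 50)) ≤ C * i := mul_le_mul_of_nonneg_left i1.le (by linarith)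
  have a2 : C * i ≤ C * (1 / 50) := mul_le_mul_of_nonneg_left i2.le (by linarith)
  have a3 : 0.69 * 0.23 ≤ S * r := mul_le_mul h3.le (by linarith) (by norm_num) (by linarith)
  have a4 : S * r ≤ 0.72 * 0.27 := mul_le_mul h4.le (by linarith) (by linarith) (by norm_num)
  norm_num at a1 a2 a3 a4
  refine ⟨?_, ?_, ?_, ?_⟩ <;> linarith

private theorem Q1_decomp {z : ℂ} (hz : ‖z‖ = 1) (v n : ℂ) :
    dot v n = dot z v * dot z n + crs z v * crs z n := by
  have h : z.re * z.re + z.im * z.im = 1 := by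
    have := dot_self z
    rw [hz] at this
    simpa [dot] using this
  unfold dot crs
  linear_combination (-(v.re * n.re + v.im * n.im)) * h

/-- The mirror image of `Q p` in the direction of the cylinder. -/
private theorem Q1_cj {θ : ℝ} (hθ : |θ - Real.pi / 4| < 1 / 100) {p : Par} (hp : p ∈ Pi1)
    {X : ℂ} (hX : X ∈ Q p) : crs (zz θ) ((starRingEnd ℂ) X) ≤ crs (zz θ) (vtx p 1) := by
  obtain ⟨C1, C2, S1, S2⟩ := Q1_cs hθ
  obtain ⟨g1, g2⟩ := Q1_ang hθ hp
  by_cases h : X.im < 0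
  · refine Q1_max g2 g1 ?_
    intro j
    exact (TMN.hidden hp hX h j).le
  · push Not at h
    refine le_trans ?_ (Q1_max g2 g1 hX)
    simp only [crs, zz_re, zz_im, Complex.conj_re, Complex.conj_im]
    have h1 : 0 ≤ Real.cos θ * X.im := mul_nonneg (by linarith) h
    linarith

private theorem Q1_strip {θ : ℝ} (hθ : |θ - Real.pi / 4| < 1 / 100) {p : Par} (hp : p ∈ Pi1)
    {c : Cp} {P : ℂ} (hP : P ∈ obs θ p c) :
    crs (zz θ) P ≤ crs (zz θ) (vtx p 1) ∨ -crs (zz θ) (vtx p 1) ≤ crs (zz θ) P := by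
  obtain ⟨C1, C2, S1, S2⟩ := Q1_cs hθ
  obtain ⟨g1, g2⟩ := Q1_ang hθ hp
  have hbox := TMN.box2 hp hP
  have hq1 := hp.2.2.2.1 1
  have hX : frm θ c P ∈ Q p := hP
  have hcos : Real.cos θ ≠ 0 := by linarith
  have hb : bb θ * Real.cos θ = Real.sin θ := Real.tan_mul_cos hcos
  obtain ⟨d, m1, m2⟩ := c
  -- coordinates
  have hPe : P = lat θ (m1, m2) + act d (frm θ (d, (m1, m2)) P) := by
    unfold frm
    rw [act_self]
    ring
  generalize hXX : frm θ (d, (m1, m2)) P = X at hPe hX hbox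
  have hlat : crs (zz θ) (lat θ (m1, m2)) = 2 * Real.sin θ * ((m2 - m1 : ℤ) : ℝ) := by
    simp only [crs, lat, zz_re, zz_im]
    push_cast
    linear_combination (2 * (m2 : ℝ)) * hb
  have hO : crs (zz θ) P = 2 * Real.sin θ * ((m2 - m1 : ℤ) : ℝ) + crs (zz θ) (act d X) := by
    rw [hPe, crs_add_right, hlat]
  have hact : crs (zz θ) (act d X) = ((d.2 : ℤ) : ℝ) * (Real.cos θ * X.im) -
      ((d.1 : ℤ) : ℝ) * (Real.sin θ * X.re) := by
    simp only [crs, act, zz_re, zz_im]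
    ring
  have ho1 : crs (zz θ) (vtx p 1) = Real.cos θ * (vtx p 1).im - Real.sin θ * (vtx p 1).re := by
    simp only [crs, zz_re, zz_im]
  obtain ⟨x1, x2, x3, x4⟩ := Q1_prod C1 C2 S1 S2 hbox.1 hbox.2
  obtain ⟨y1, y2, y3, y4⟩ := Q1_prod C1 C2 S1 S2 hq1.1 hq1.2
  have hd := sg_cases d
  rcases lt_trichotomy (m2 - m1) 0 with hK | hK | hK
  · left
    have hK' : ((m2 - m1 : ℤ) : ℝ) ≤ -1 := by exact_mod_cast Int.le_sub_one_of_lt hK
    have hm : 2 * Real.sin θ * ((m2 - m1 : ℤ) : ℝ) ≤ -1.38 := by nlinarith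
    rw [hO, hact, ho1]
    generalize 2 * Real.sin θ * ((m2 - m1 : ℤ) : ℝ) = kt at hm
    rcases hd with ⟨h1 | h1, h2 | h2⟩ <;> rw [h1, h2] <;> push_cast <;> linarith
  · rw [hK, Int.cast_zero, mul_zero, zero_add] at hO
    rcases hd with ⟨h1 | h1, h2 | h2⟩
    · left
      have e : act d X = X := by
        apply Complex.ext <;> simp [act, h1, h2]
      rw [hO, e]
      exact Q1_max g2 g1 hX
    · left
      have e : act d X = (starRingEnd ℂ) X := by
        apply Complex.ext <;> simp [act, h1, h2]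
      rw [hO, e]
      exact Q1_cj hθ hp hX
    · right
      have e : act d X = -(starRingEnd ℂ) X := by
        apply Complex.ext <;> simp [act, h1, h2]
      rw [hO, e, crs_neg_right]
      exact neg_le_neg (Q1_cj hθ hp hX)
    · right
      have e : act d X = -X := by
        apply Complex.ext <;> simp [act, h1, h2]
      rw [hO, e, crs_neg_right]
      exact neg_le_neg (Q1_max g2 g1 hX)
  · right
    have hK' : (1 : ℝ) ≤ ((m2 - m1 : ℤ) : ℝ) := by exact_mod_cast hK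
    have hm : 1.38 ≤ 2 * Real.sin θ * ((m2 - m1 : ℤ) : ℝ) := by nlinarith
    rw [hO, hact, ho1]
    generalize 2 * Real.sin θ * ((m2 - m1 : ℤ) : ℝ) = kt at hm
    rcases hd with ⟨h1 | h1, h2 | h2⟩ <;> rw [h1, h2] <;> push_cast <;> linarith

/-- A point above the real axis in the mirror image of `Q p` is in `Q p`. -/
private theorem Q1_mir {θ : ℝ} {p : Par} (hp : p ∈ Pi1) {c : Cp} {P : ℂ}
    (hP : P ∈ obs θ p (TMX.cmp c cj)) (him : 0 < (frm θ c P).im) : frm θ c P ∈ Q p := by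
  have h1 : frm θ (TMX.cmp c cj) P ∈ Q p := hP
  rw [← frm_frm] at h1
  have e : frm θ cj (frm θ c P) = (starRingEnd ℂ) (frm θ c P) := by
    apply Complex.ext <;> simp [frm, cj, act, lat]
  rw [e] at h1
  have h2 := TMN.hidden hp h1 (by simpa using him)
  rw [Complex.conj_conj] at h2
  exact fun j => (h2 j).le

/-- Points of the side 1 near the vertex 1. -/
private theorem Q1_key {p : Par} (hp : p ∈ Pi1) (r : ℝ) (Z : ℂ) (hr : 0 < r) (hr1 : r ≤ 1 / 20)
    (hZ : Z = vtx p 1 + (r : ℂ) * (vtx p 0 - vtx p 1)) :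
    dot Z (nu p 1) = p.2 1 ∧ (∀ j, j ≠ 1 → dot Z (nu p j) < p.2 j) ∧ Z ∈ Q p ∧ 0 < Z.im ∧
      Z.re = (vtx p 1).re + r * ((vtx p 0).re - (vtx p 1).re) ∧
      Z.im = (vtx p 1).im + r * ((vtx p 0).im - (vtx p 1).im) := by
  have hs02 := hp.2.2.1 0
  have hs13 := hp.2.2.1 1
  have hi1 : 0 < (vtx p 1).im := hp.2.2.2.2.2.1
  have hi0 : 0 < (vtx p 0).im := (TMN.signs hp).2.2.2.2.2.2.1
  have hs02' : 0 < p.2 0 + p.2 2 := by simpa using hs02
  have hs13' : 0 < p.2 1 + p.2 3 := by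
    have : (1 : Fin 4) + 2 = 3 := rfl
    rwa [this] at hs13
  have d00 : dot (vtx p 0) (nu p 0) = p.2 0 := dot_vtx_self p 0
  have d01 : dot (vtx p 0) (nu p 1) = p.2 1 := dot_vtx_succ p 0
  have d02 : dot (vtx p 0) (nu p 2) = -p.2 0 := dot_vtx_two p 0
  have d03 : dot (vtx p 0) (nu p 3) = -p.2 1 := dot_vtx_three p 0
  have d11 : dot (vtx p 1) (nu p 1) = p.2 1 := dot_vtx_self p 1
  have d12 : dot (vtx p 1) (nu p 2) = p.2 2 := dot_vtx_succ p 1
  have d13 : dot (vtx p 1) (nu p 3) = -p.2 1 := dot_vtx_two p 1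
  have d10 : dot (vtx p 1) (nu p 0) = -p.2 2 := dot_vtx_three p 1
  have e4 : ∀ i : Fin 4, i = 0 ∨ i = 1 ∨ i = 2 ∨ i = 3 := by decide
  have hZd : ∀ j, dot Z (nu p j) = dot (vtx p 1) (nu p j) +
      r * (dot (vtx p 0) (nu p j) - dot (vtx p 1) (nu p j)) := by
    intro j
    rw [hZ, dot_add_left, dot_mul_left, dot_sub_left]
  have pu1 : 0 < (1 - r) * (p.2 0 + p.2 2) := mul_pos (by linarith) hs02'
  have pu2 : 0 < r * (p.2 0 + p.2 2) := mul_pos hr hs02'
  have hZ1 : dot Z (nu p 1) = p.2 1 := by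
    rw [hZd, d11, d01]
    ring
  have hZlt : ∀ j, j ≠ 1 → dot Z (nu p j) < p.2 j := by
    intro j hj
    rcases e4 j with rfl | rfl | rfl | rfl
    · rw [hZd, d10, d00]
      linarith
    · exact absurd rfl hj
    · rw [hZd, d12, d02]
      linarith
    · rw [hZd, d13, d03]
      linarith
  have hre : Z.re = (vtx p 1).re + r * ((vtx p 0).re - (vtx p 1).re) := by
    rw [hZ]
    simp
  have him : Z.im = (vtx p 1).im + r * ((vtx p 0).im - (vtx p 1).im) := by
    rw [hZ]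
    simp
  refine ⟨hZ1, hZlt, ?_, ?_, hre, him⟩
  · intro j
    by_cases hj : j = 1
    · rw [hj]
      exact hZ1.le
    · exact (hZlt j hj).le
  · rw [him]
    have t1 : 0 < (1 - r) * (vtx p 1).im := mul_pos (by linarith) hi1
    have t2 : 0 < r * (vtx p 0).im := mul_pos hr hi0
    linarith

/-- The estimates. -/
private theorem Q1_est {θ : ℝ} (hθ : |θ - Real.pi / 4| < 1 / 100) {p : Par} (hp : p ∈ Pi1)
    {m : ℕ} (hm : 1 ≤ m) {u v : ℝ} (hu : 0 < u) (hum : u * m ≤ 1 / 20) (hv : 0 < v)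
    (hvm : v * m ≤ 1 / 20) {x X' y w : ℂ} (hx : x = vtx p 1 + (u : ℂ) * (vtx p 0 - vtx p 1))
    (hX' : X' = vtx p 1 + (v : ℂ) * (vtx p 0 - vtx p 1))
    (hy : y = lat θ ((m : ℤ), (m : ℤ)) - X') (hw : w = (y - x) / (‖y - x‖ : ℂ)) :
    0 < ‖y - x‖ ∧ ((‖y - x‖ : ℝ) : ℂ) * w = y - x ∧ ‖w‖ = 1 ∧ 0 < w.im ∧ 0 < dot w (nu p 1) ∧
    0 < crs (zz θ) w ∧ 1 / 25 ≤ m * crs (zz θ) w ∧
    crs (zz θ) (vtx p 1) - u * (1 / 10) ≤ crs (zz θ) x ∧
    crs (zz θ) x + ‖y - x‖ * crs (zz θ) w ≤ -crs (zz θ) (vtx p 1) + v * (1 / 10) := by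
  obtain ⟨C1, C2, S1, S2⟩ := Q1_cs hθ
  obtain ⟨g1, g2⟩ := Q1_ang hθ hp
  have hm1 : (1 : ℝ) ≤ m := by exact_mod_cast hm
  have hm0 : (0 : ℝ) < m := by linarith
  have hu1 : u ≤ 1 / 20 := (le_mul_of_one_le_right hu.le hm1).trans hum
  have hv1 : v ≤ 1 / 20 := (le_mul_of_one_le_right hv.le hm1).trans hvm
  have hcos : Real.cos θ ≠ 0 := by linarith
  have hb : bb θ * Real.cos θ = Real.sin θ := Real.tan_mul_cos hcos
  have hbe : bb θ = Real.sin θ / Real.cos θ := eq_div_of_mul_eq hcos hb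
  have hb1 : bb θ ≤ 1.05 := by
    rw [hbe, div_le_iff₀ (by linarith)]
    linarith
  have hb9 : 0.9 ≤ bb θ := by
    rw [hbe, le_div_iff₀ (by linarith)]
    linarith
  have hbm1 : bb θ * m ≤ 1.05 * m := mul_le_mul_of_nonneg_right hb1 hm0.le
  have hbm9 : 0.9 * m ≤ bb θ * m := mul_le_mul_of_nonneg_right hb9 hm0.le
  have hq0 := hp.2.2.2.1 0
  have hq1 := hp.2.2.2.1 1
  simp only [abs_lt] at hq0 hq1
  obtain ⟨hx1, -, hxQ, hxpos, hxre, hxim⟩ := Q1_key hp u x hu hu1 hx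
  obtain ⟨hX1, hXlt, hXQ, hXpos, hXre, hXim⟩ := Q1_key hp v X' hv hv1 hX'
  have bx := TMN.box2 hp hxQ
  have bX := TMN.box2 hp hXQ
  have hyre : y.re = 2 * m - X'.re := by
    rw [hy]
    simp [lat]
  have hyim : y.im = 2 * bb θ * m - X'.im := by
    rw [hy]
    simp [lat]
  generalize ho1 : crs (zz θ) (vtx p 1) = o1
  have ho1' : o1 = Real.cos θ * (vtx p 1).im - Real.sin θ * (vtx p 1).re := by
    simp only [← ho1, crs, zz_re, zz_im]
  have hOx : crs (zz θ) x = o1 - u * (Real.cos θ * ((vtx p 1).im - (vtx p 0).im) -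
      Real.sin θ * ((vtx p 1).re - (vtx p 0).re)) := by
    rw [ho1']
    simp only [crs, zz_re, zz_im, hxre, hxim]
    ring
  have hOX : crs (zz θ) X' = o1 - v * (Real.cos θ * ((vtx p 1).im - (vtx p 0).im) -
      Real.sin θ * ((vtx p 1).re - (vtx p 0).re)) := by
    rw [ho1']
    simp only [crs, zz_re, zz_im, hXre, hXim]
    ring
  have hOyX : crs (zz θ) y = -crs (zz θ) X' := by
    simp only [crs, zz_re, zz_im, hyre, hyim]
    linear_combination (2 * (m : ℝ)) * hb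
  have hOx1 : crs (zz θ) x ≤ o1 := by
    rw [← ho1]
    exact Q1_max g2 g1 hxQ
  have hOX1 : crs (zz θ) X' ≤ o1 := by
    rw [← ho1]
    exact Q1_max g2 g1 hXQ
  have hdx : Real.cos θ * ((vtx p 1).im - (vtx p 0).im) -
      Real.sin θ * ((vtx p 1).re - (vtx p 0).re) ≤ 1 / 10 := by
    have t1 : Real.cos θ * ((vtx p 1).im - (vtx p 0).im) ≤ Real.cos θ * (1 / 25) :=
      mul_le_mul_of_nonneg_left (by linarith [hq0.2.1, hq1.2.2]) (by linarith)
    have t2 : Real.sin θ * (-(1 / 25)) ≤ Real.sin θ * ((vtx p 1).re - (vtx p 0).re) :=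
      mul_le_mul_of_nonneg_left (by linarith [hq0.1.2, hq1.1.1]) (by linarith)
    linarith
  generalize Real.cos θ * ((vtx p 1).im - (vtx p 0).im) -
      Real.sin θ * ((vtx p 1).re - (vtx p 0).re) = G at hOx hOX hdx
  have ho12 : o1 ≤ -(1 / 10) := by
    have t1 : Real.cos θ * (vtx p 1).im ≤ Real.cos θ * (1 / 50) :=
      mul_le_mul_of_nonneg_left (by linarith [hq1.2.2]) (by linarith)
    have t2 : Real.sin θ * 0.23 ≤ Real.sin θ * (vtx p 1).re :=
      mul_le_mul_of_nonneg_left (by linarith [hq1.1.1]) (by linarith)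
    rw [ho1']
    linarith
  -- the distance
  have hcrsD : 1 / 5 ≤ crs (zz θ) (y - x) := by
    rw [crs_sub_right, hOyX]
    linarith
  have hD0 : 0 < ‖y - x‖ := by
    rw [norm_pos_iff]
    intro h0
    rw [h0] at hcrsD
    simp [crs] at hcrsD
    linarith
  have hDw : ((‖y - x‖ : ℝ) : ℂ) * w = y - x := by
    rw [hw]
    have : ((‖y - x‖ : ℝ) : ℂ) ≠ 0 := by exact_mod_cast hD0.ne'
    field_simp
  have hwn : ‖w‖ = 1 := by
    have h1 := congrArg norm hDw
    rw [norm_mul, Complex.norm_real, Real.norm_eq_abs, abs_of_pos hD0] at h1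
    exact mul_left_cancel₀ hD0.ne' (by rw [h1, mul_one])
  rw [abs_lt, abs_lt] at bx bX
  have hD5 : ‖y - x‖ ≤ 5 * m := by
    have h1 := Complex.norm_le_abs_re_add_abs_im (y - x)
    have h2 : |(y - x).re| ≤ 2 * m := by
      rw [abs_le, Complex.sub_re, hyre]
      constructor <;> linarith [bx.1.1, bx.1.2, bX.1.1, bX.1.2]
    have h3 : |(y - x).im| ≤ 2.1 * m + 0.04 := by
      rw [abs_le, Complex.sub_im, hyim]
      constructor <;> linarith [bx.2.1, bx.2.2, bX.2.1, bX.2.2]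
    linarith
  have hk : ‖y - x‖ * crs (zz θ) w = crs (zz θ) (y - x) := by
    rw [← crs_mul_right, hDw]
  have hk0 : 0 < crs (zz θ) w := (mul_pos_iff_of_pos_left hD0).1 (by rw [hk]; linarith)
  have ha : ‖y - x‖ * dot (zz θ) w = dot (zz θ) (y - x) := by
    rw [← dot_mul_right, hDw]
  have ha0 : 0 < dot (zz θ) w := by
    have h1 : 0 < dot (zz θ) (y - x) := by
      simp only [dot, zz_re, zz_im, Complex.sub_re, Complex.sub_im, hyre, hyim]
      have t1 : 0 < Real.cos θ * (2 * (m : ℝ) - X'.re - x.re) :=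
        mul_pos (by linarith) (by linarith [bx.1.2, bX.1.2])
      have t2 : 0 < Real.sin θ * (2 * bb θ * (m : ℝ) - X'.im - x.im) := by
        refine mul_pos (by linarith) ?_
        linarith [bx.2.1, bx.2.2, bX.2.1, bX.2.2]
      linarith
    exact (mul_pos_iff_of_pos_left hD0).1 (by rw [ha]; exact h1)
  have hwim : 0 < w.im := by
    have h1 := congrArg Complex.im hDw
    rw [Complex.im_ofReal_mul, Complex.sub_im, hyim] at h1
    refine (mul_pos_iff_of_pos_left hD0).1 ?_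
    rw [h1]
    linarith [bx.2.2, bX.2.2]
  have hw1 : 0 < dot w (nu p 1) := by
    rw [Q1_decomp (zz_norm θ) w (nu p 1)]
    exact add_pos (mul_pos ha0 g1) (mul_pos hk0 g2)
  refine ⟨hD0, hDw, hwn, hwim, hw1, hk0, ?_, ?_, ?_⟩
  · have t1 : 1 / 5 ≤ ‖y - x‖ * crs (zz θ) w := by rw [hk]; exact hcrsD
    have t2 := mul_le_mul_of_nonneg_right hD5 hk0.le
    linarith
  · have : u * G ≤ u * (1 / 10) := mul_le_mul_of_nonneg_left hdx hu.le
    linarith
  · have : v * G ≤ v * (1 / 10) := mul_le_mul_of_nonneg_left hdx hv.le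
    rw [hk, crs_sub_right, hOyX]
    linarith

private theorem Q1_neg (x : ℂ) : act (-1 : Sg) x = -x := by
  apply Complex.ext <;> simp [act]

/-- The segment is free. -/
private theorem Q1_free {θ : ℝ} (hθ : |θ - Real.pi / 4| < 1 / 100) {p : Par} (hp : p ∈ Pi1)
    {m : ℕ} (hm : 1 ≤ m) {u v : ℝ} (hum : u * m ≤ 1 / 20)
    (hvm : v * m ≤ 1 / 20) {x X' y w : ℂ} {D : ℝ} (hx1 : dot x (nu p 1) = p.2 1) (hxQ : x ∈ Q p)
    (hxpos : 0 < x.im) (hX1 : dot X' (nu p 1) = p.2 1) (hXQ : X' ∈ Q p) (hXpos : 0 < X'.im)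
    (hDw : (D : ℂ) * w = y - x) (hwn : ‖w‖ = 1) (hwim : 0 < w.im) (hw1 : 0 < dot w (nu p 1))
    (hk0 : 0 < crs (zz θ) w) (hslope : 1 / 25 ≤ m * crs (zz θ) w)
    (hO1 : crs (zz θ) (vtx p 1) - u * (1 / 10) ≤ crs (zz θ) x)
    (hO2 : crs (zz θ) x + D * crs (zz θ) w ≤ -crs (zz θ) (vtx p 1) + v * (1 / 10))
    {cc : Cp} (hray : ∀ s : ℝ, frm θ cc (x + (s : ℂ) * w) = X' + ((D - s : ℝ) : ℂ) * w) :
    FreeSeg θ p x w D := by
  have hm1 : (1 : ℝ) ≤ m := by exact_mod_cast hm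
  have hm0 : (0 : ℝ) < m := by linarith
  intro s hs0 hsD c' hc'
  have hnQ : x + (s : ℂ) * w ∉ Q p := fun hq => out_ray ⟨hxQ, 1, hx1, hw1⟩ hs0 hq
  have hnQ2 : frm θ cc (x + (s : ℂ) * w) ∉ Q p := by
    intro hq
    have h3 := hq 1
    rw [hray, dot_add_left, dot_mul_left, hX1] at h3
    have h4 : 0 < (D - s) * dot w (nu p 1) := mul_pos (by linarith) hw1
    linarith
  by_cases h1 : s < 2 / 5
  · by_cases hcc : c' = (1, (0, 0))
    · rw [hcc] at hc'
      have hq : x + (s : ℂ) * w ∈ Q p := by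
        have : frm θ (1, (0, 0)) (x + (s : ℂ) * w) ∈ Q p := hc'
        rwa [frm_one] at this
      exact hnQ hq
    · by_cases hcc2 : c' = TMX.cmp (1, (0, 0)) cj
      · rw [hcc2] at hc'
        have him : 0 < (frm θ (1, (0, 0)) (x + (s : ℂ) * w)).im := by
          rw [frm_one, Complex.add_im, Complex.im_ofReal_mul]
          have := mul_pos hs0 hwim
          linarith
        have hq := Q1_mir hp hc' him
        rw [frm_one] at hq
        exact hnQ hq
      · have hx0 : x ∈ obs θ p (1, (0, 0)) := by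
          show frm θ (1, (0, 0)) x ∈ Q p
          rw [frm_one]
          exact hxQ
        have h2 := TMN.copies_dist2 hθ hp hcc hcc2 hx0 hc'
        have e : x - (x + (s : ℂ) * w) = -((s : ℂ) * w) := by ring
        rw [e, norm_neg, norm_mul, hwn, mul_one, Complex.norm_real, Real.norm_eq_abs,
          abs_of_pos hs0] at h2
        linarith
  · by_cases h2 : D - s < 2 / 5
    · by_cases hcc : c' = cc
      · rw [hcc] at hc'
        exact hnQ2 hc'
      · by_cases hcc2 : c' = TMX.cmp cc cj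
        · rw [hcc2] at hc'
          have him : 0 < (frm θ cc (x + (s : ℂ) * w)).im := by
            rw [hray, Complex.add_im, Complex.im_ofReal_mul]
            have := mul_pos (sub_pos.2 hsD) hwim
            linarith
          exact hnQ2 (Q1_mir hp hc' him)
        · have hy0 : y ∈ obs θ p cc := by
            show frm θ cc y ∈ Q p
            have e : y = x + (D : ℂ) * w := by rw [hDw]; ring
            rw [e, hray, sub_self, Complex.ofReal_zero, zero_mul, add_zero]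
            exact hXQ
          have h3 := TMN.copies_dist2 hθ hp hcc hcc2 hy0 hc'
          have e : y - (x + (s : ℂ) * w) = ((D - s : ℝ) : ℂ) * w := by
            push_cast
            linear_combination -hDw
          rw [e, norm_mul, hwn, mul_one, Complex.norm_real, Real.norm_eq_abs,
            abs_of_pos (by linarith)] at h3
          linarith
    · push Not at h1 h2
      have hP : crs (zz θ) (x + (s : ℂ) * w) = crs (zz θ) x + s * crs (zz θ) w := by
        rw [crs_add_right, crs_mul_right]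
      rcases Q1_strip hθ hp hc' with hst | hst
      · rw [hP] at hst
        have h3 : m * (s * crs (zz θ) w) ≤ m * (u * (1 / 10)) :=
          mul_le_mul_of_nonneg_left (by linarith) hm0.le
        have h4 : 2 / 5 * (1 / 25) ≤ s * (m * crs (zz θ) w) :=
          mul_le_mul h1 hslope (by norm_num) (by linarith)
        linarith
      · rw [hP] at hst
        have h3 : m * ((D - s) * crs (zz θ) w) ≤ m * (v * (1 / 10)) :=
          mul_le_mul_of_nonneg_left (by linarith) hm0.le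
        have h4 : 2 / 5 * (1 / 25) ≤ (D - s) * (m * crs (zz θ) w) :=
          mul_le_mul h2 hslope (by norm_num) (by linarith)
        linarith

/-- [Q1] all crossings of the cylinder that start and end close to the two vertices. -/
theorem crossing_unif2 {θ : ℝ} (hθ : |θ - Real.pi / 4| < 1 / 100) {p : Par} (hp : p ∈ Pi1) :
    ∃ ε₀ : ℝ, 0 < ε₀ ∧ ∃ m₀ : ℕ, 0 < m₀ ∧ ∀ m ≥ m₀, ∀ u v : ℝ, 0 < u → u ≤ ε₀ / m → 0 < v →
      v ≤ ε₀ / m → ∀ x y w : ℂ, x = vtx p 1 + (u : ℂ) * (vtx p 0 - vtx p 1) →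
      y = lat θ ((m : ℤ), (m : ℤ)) - (vtx p 1 + (v : ℂ) * (vtx p 0 - vtx p 1)) →
      w = (y - x) / (‖y - x‖ : ℂ) →
      Good2 θ p ((-1, ((m : ℤ), (m : ℤ))), 1) (x, w) ∧
      fl θ p ((-1, ((m : ℤ), (m : ℤ))), 1) (x, w) = ‖y - x‖ ∧
      nx θ p ((-1, ((m : ℤ), (m : ℤ))), 1) (x, w) =
        (vtx p 1 + (v : ℂ) * (vtx p 0 - vtx p 1), -refl p 1 w) := by
  refine ⟨1 / 20, by norm_num, 1, one_pos, ?_⟩
  intro m hm u v hu hu' hv hv' x y w hx hy hw
  have hm1 : (1 : ℝ) ≤ m := by exact_mod_cast hm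
  have hm0 : (0 : ℝ) < m := by linarith
  have hum : u * m ≤ 1 / 20 := by rwa [le_div_iff₀ hm0] at hu'
  have hvm : v * m ≤ 1 / 20 := by rwa [le_div_iff₀ hm0] at hv'
  have hu1 : u ≤ 1 / 20 := (le_mul_of_one_le_right hu.le hm1).trans hum
  have hv1 : v ≤ 1 / 20 := (le_mul_of_one_le_right hv.le hm1).trans hvm
  generalize hX' : vtx p 1 + (v : ℂ) * (vtx p 0 - vtx p 1) = X' at hy
  obtain ⟨hx1, -, hxQ, hxpos, -, -⟩ := Q1_key hp u x hu hu1 hx
  obtain ⟨hX1, hXlt, hXQ, hXpos, -, -⟩ := Q1_key hp v X' hv hv1 hX'.symm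
  obtain ⟨hD0, hDw, hwn, hwim, hw1, hk0, hslope, hO1, hO2⟩ :=
    Q1_est hθ hp hm hu hum hv hvm hx hX'.symm hy hw
  generalize ‖y - x‖ = D at hD0 hDw hO2
  have hw3 : dot (act (-1 : Sg) w) (nu p 1) < 0 := by
    rw [Q1_neg, dot_neg_left]
    linarith
  have hray : ∀ s : ℝ, frm θ (-1, ((m : ℤ), (m : ℤ))) (x + (s : ℂ) * w) =
      X' + ((D - s : ℝ) : ℂ) * w := by
    intro s
    have e : x + (s : ℂ) * w = y + ((s - D : ℝ) : ℂ) * w := by
      push_cast
      linear_combination hDw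
    rw [e]
    unfold frm
    rw [hy, Q1_neg]
    push_cast
    ring
  have hfl : fl θ p ((-1, ((m : ℤ), (m : ℤ))), 1) (x, w) = D := by
    unfold fl
    have e := congrArg (fun t => dot t (nu p 1)) (hray 0)
    simp only [Complex.ofReal_zero, zero_mul, add_zero, sub_zero] at e
    rw [dot_add_left, dot_mul_left, hX1] at e
    show (p.2 1 - dot (frm θ (-1, ((m : ℤ), (m : ℤ))) x) (nu p 1)) /
      dot (act (-1 : Sg) w) (nu p 1) = D
    rw [e, div_eq_iff hw3.ne, Q1_neg, dot_neg_left]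
    ring
  have hnx : nx θ p ((-1, ((m : ℤ), (m : ℤ))), 1) (x, w) = (X', -refl p 1 w) := by
    unfold nx
    rw [hfl]
    show (frm θ (-1, ((m : ℤ), (m : ℤ))) (x + (D : ℂ) * w), refl p 1 (act (-1 : Sg) w)) = _
    rw [hray D, sub_self, Complex.ofReal_zero, zero_mul, add_zero, Q1_neg, refl_neg]
  refine ⟨⟨⟨hw3, ?_, ?_, ?_⟩, ?_⟩, hfl, hnx⟩
  · rw [hfl]
    exact hD0
  · rw [hfl]
    exact Q1_free hθ hp hm hum hvm hx1 hxQ hxpos hX1 hXQ hXpos hDw hwn hwim hw1 hk0 hslope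
      hO1 hO2 hray
  · intro j hj
    rw [hnx]
    exact hXlt j hj
  · rw [hnx]
    exact hXpos

end TMN
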