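import Pool.Agent.TMN.Base
import Pool.Agent.TMN.C1
import Pool.Agent.TMN.G1a
import Pool.Agent.TMN.G2
import Pool.Agent.TMN.Q1

/-! # TMN: boxes of phase points in the cylinder -/

set_option autoImplicit false

open Set Filter Topology

namespace TMN

open TMX

/-- Starting later on the same leg. -/
private theorem Q2_shift {θ : ℝ} {p : Par} {a : Lt} {x w : ℂ} {s : ℝ}
    (h : Good θ p a (x, w)) (hs0 : 0 ≤ s) (hs : s < fl θ p a (x, w)) :
    Good θ p a (x + (s : ℂ) * w, w) ∧ fl θ p a (x + (s : ℂ) * w, w) = fl θ p a (x, w) - s ∧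
      nx θ p a (x + (s : ℂ) * w, w) = nx θ p a (x, w) := by
  obtain ⟨h1, h2, h3, h4⟩ := h
  have hne : dot (act a.1.1 w) (nu p a.2) ≠ 0 := ne_of_lt h1
  have hfl : fl θ p a (x + (s : ℂ) * w, w) = fl θ p a (x, w) - s := by
    simp only [fl, frm_ray, dot_add_left, dot_mul_left]
    field_simp
    ring
  have hnx : nx θ p a (x + (s : ℂ) * w, w) = nx θ p a (x, w) := by
    have e : x + (s : ℂ) * w + ((fl θ p a (x, w) - s : ℝ) : ℂ) * w =
        x + (fl θ p a (x, w) : ℂ) * w := by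
      push_cast
      ring
    simp only [nx]
    rw [hfl, e]
  refine ⟨⟨h1, ?_, ?_, ?_⟩, hfl, hnx⟩
  · rw [hfl]
    linarith
  · rw [hfl]
    intro t ht0 ht1 c
    have e : x + (s : ℂ) * w + (t : ℂ) * w = x + ((s + t : ℝ) : ℂ) * w := by
      push_cast
      ring
    change x + (s : ℂ) * w + (t : ℂ) * w ∉ obs θ p c
    rw [e]
    exact h3 (s + t) (by linarith) (by linarith) c
  · rw [hnx]
    exact h4

/-- Starting later on the same leg. -/
private theorem Q2_shift2 {θ : ℝ} {p : Par} {a : Lt} {x w : ℂ} {s : ℝ}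
    (h : Good2 θ p a (x, w)) (hs0 : 0 ≤ s) (hs : s < fl θ p a (x, w)) :
    Good2 θ p a (x + (s : ℂ) * w, w) ∧ fl θ p a (x + (s : ℂ) * w, w) = fl θ p a (x, w) - s ∧
      nx θ p a (x + (s : ℂ) * w, w) = nx θ p a (x, w) := by
  obtain ⟨h1, h2, h3⟩ := Q2_shift h.1 hs0 hs
  refine ⟨⟨h1, ?_⟩, h2, h3⟩
  rw [h3]
  exact h.2

private theorem Q2_norm_exp (x y : ℝ) :
    ‖Complex.exp (x * Complex.I) - Complex.exp (y * Complex.I)‖ ≤ |x - y| := by
  have e : Complex.exp (x * Complex.I) - Complex.exp (y * Complex.I) =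
      Complex.exp (y * Complex.I) * (Complex.exp (Complex.I * ((x - y : ℝ) : ℂ)) - 1) := by
    rw [mul_sub, ← Complex.exp_add, mul_one]
    congr 2
    push_cast
    ring
  rw [e, norm_mul, Complex.norm_exp_ofReal_mul_I, one_mul]
  have := Real.norm_exp_I_mul_ofReal_sub_one_le (x := x - y)
  rwa [Real.norm_eq_abs] at this

private theorem Q2_norm_le {z : ℂ} (hz : ‖z‖ = 1) (x : ℂ) : ‖x‖ ≤ |dot z x| + |crs z x| := by
  have h := dot_sq_add_crs_sq z x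
  rw [hz, one_pow, one_mul] at h
  apply abs_le_of_sq_le_sq' _ (by positivity) |>.2
  rw [← h]
  nlinarith [sq_abs (dot z x), sq_abs (crs z x), abs_nonneg (dot z x), abs_nonneg (crs z x),
    mul_nonneg (abs_nonneg (dot z x)) (abs_nonneg (crs z x))]

private theorem Q2_long {z e : ℂ} (hz : ‖z‖ = 1) {T K : ℝ} (he : ‖e‖ ≤ K) (hT : 2 * K + 2 < T) :
    |‖(T : ℂ) * z + e‖ - T| ≤ K ∧ T / 2 ≤ ‖(T : ℂ) * z + e‖ ∧
      ‖(T : ℂ) * z + e - (‖(T : ℂ) * z + e‖ : ℂ) * z‖ ≤ 2 * K ∧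
      |‖(T : ℂ) * z + e‖ - (T + dot z e)| ≤ K ^ 2 / T := by
  have hK : 0 ≤ K := (norm_nonneg e).trans he
  have hT0 : 0 < T := by linarith
  have hTz : ‖(T : ℂ) * z‖ = T := by
    rw [norm_mul, hz, mul_one, Complex.norm_real, Real.norm_eq_abs, abs_of_pos hT0]
  set D := ‖(T : ℂ) * z + e‖ with hD
  have h1 : |D - T| ≤ K := by
    have := abs_norm_sub_norm_le ((T : ℂ) * z + e) ((T : ℂ) * z)
    rw [hTz, add_sub_cancel_left] at this
    exact this.trans he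
  have h2 : T / 2 ≤ D := by
    have := (abs_le.1 h1).1
    linarith
  refine ⟨h1, h2, ?_, ?_⟩
  · have e1 : (T : ℂ) * z + e - (D : ℂ) * z = e - ((D - T : ℝ) : ℂ) * z := by
      push_cast
      ring
    rw [e1]
    calc ‖e - ((D - T : ℝ) : ℂ) * z‖ ≤ ‖e‖ + ‖((D - T : ℝ) : ℂ) * z‖ := norm_sub_le _ _
      _ ≤ K + K := by
        apply add_le_add he
        rw [norm_mul, hz, mul_one, Complex.norm_real, Real.norm_eq_abs]
        exact h1
      _ = 2 * K := by ring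
  · have e2 : D ^ 2 = T ^ 2 + 2 * T * dot z e + ‖e‖ ^ 2 := by
      rw [hD, ← dot_self, dot_add_left, dot_add_right, dot_add_right, dot_mul_left,
        dot_mul_right, dot_mul_left, dot_mul_right, dot_self, dot_self, hz, dot_comm e z]
      ring
    have e3 := dot_sq_add_crs_sq z e
    rw [hz, one_pow, one_mul] at e3
    have e4 : (D - (T + dot z e)) * (D + (T + dot z e)) = crs z e ^ 2 := by
      nlinarith
    have h3 : |dot z e| ≤ K := by
      have := abs_dot_le z e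
      rw [hz, one_mul] at this
      exact this.trans he
    have h4 : T ≤ D + (T + dot z e) := by
      have := (abs_le.1 h3).1
      linarith
    have h5 : crs z e ^ 2 ≤ K ^ 2 := by
      nlinarith [sq_nonneg (dot z e), norm_nonneg e]
    have h6 : 0 ≤ D - (T + dot z e) := by
      by_contra hcon
      push Not at hcon
      nlinarith [sq_nonneg (crs z e)]
    rw [abs_of_nonneg h6, le_div_iff₀ hT0]
    nlinarith

/-- The computation for one value of `m` (`N = m`, `i = 1 / m`). -/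
private theorem Q2_step {z q a b V W w y' : ℂ} {L ε₀ N i K C g c₁ c₂ r B D : ℝ} (hz : ‖z‖ = 1)
    (hL : 0 < L) (hε₀ : 0 < ε₀) (hN : 1 ≤ N) (hi : N * i = 1)
    (hK : K = ‖V - q‖ + ε₀ * (‖a‖ + ‖b‖)) (hKN : 2 * K + 2 < N * L)
    (hg : 0 < g) (hga : 2 * g ≤ -crs z a) (hgb : 2 * g ≤ crs z b)
    (hW : ‖W‖ = 1) (hD0 : 0 ≤ D) (hD : D ≤ N * L + K)
    (hDW : (D : ℂ) * W = ((N * L : ℝ) : ℂ) * z + V + ((ε₀ * i / 2 : ℝ) : ℂ) * b -
      (q + ((ε₀ * i / 2 : ℝ) : ℂ) * a))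
    (hC : 0 ≤ C) (hWz : ‖W - z‖ ≤ C * i)
    (hc₁ : 0 < c₁) (hc₁'' : c₁ ≤ ε₀ * g / 8)
    (hc₂ : 0 < c₂) (hc₂' : c₂ ≤ 1) (hc₂'' : (L + K + 1) * c₂ ≤ ε₀ * g / 8)
    (hr : 0 < r) (hr' : (C + 1) * r ≤ ε₀ * g / 16) (hr'' : r ≤ 1 / 100)
    (h1 : (‖a‖ + ‖b‖) * (C + 1) * i < g) (h2 : (C + 1) * c₁ * i < ε₀ * g / 16)
    (hB : B = c₁ + c₂ + ε₀ * (‖a‖ + ‖b‖) + C + 1 + K ^ 2 / L) (hBi : B * i < 1 / 100)
    (hw : ‖w‖ = 1) (hwW : ‖w - W‖ ≤ c₂ * i ^ 2)
    (hd : |dot z (y' - (q + ((ε₀ * i / 2 : ℝ) : ℂ) * a + ((1 / 5 : ℝ) : ℂ) * W))| < r)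
    (hc : |crs z (y' - (q + ((ε₀ * i / 2 : ℝ) : ℂ) * a + ((1 / 5 : ℝ) : ℂ) * W))| < c₁ * i) :
    crs w a < 0 ∧ ∃ u v s s' : ℝ, 0 < u ∧ u ≤ ε₀ * i ∧ 0 < v ∧ v ≤ ε₀ * i ∧ 0 < s ∧ 0 < s' ∧
      y' = q + (u : ℂ) * a + (s : ℂ) * w ∧
      ((N * L : ℝ) : ℂ) * z + V + (v : ℂ) * b = y' + (s' : ℂ) * w ∧
      |s - 1 / 5| ≤ r + B * i ∧ |s' - (N * L + (dot z (V - q) - 1 / 5))| ≤ r + 2 * (B * i) ∧
      ‖w - z‖ ≤ B * i ∧ u * ‖a‖ ≤ B * i ∧ v * ‖b‖ ≤ B * i ∧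
      ‖y' - (q + ((1 / 5 : ℝ) : ℂ) * z)‖ ≤ r + B * i := by
  set μ : ℝ := ε₀ * i / 2 with hμ
  set η : ℂ := y' - (q + (μ : ℂ) * a + ((1 / 5 : ℝ) : ℂ) * W) with hη
  have hN0 : 0 < N := by linarith
  have hie : i = 1 / N := by
    field_simp
    linarith
  have hi0 : 0 < i := by
    rw [hie]
    positivity
  have hi1 : i ≤ 1 := by
    rw [hie]
    exact (div_le_one hN0).2 hN
  have hi2 : i ^ 2 ≤ i := by
    rw [sq]
    exact mul_le_of_le_one_left hi0.le hi1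
  have hμ0 : 0 < μ := by positivity
  have na := norm_nonneg a
  have nb := norm_nonneg b
  have hK0 : 0 ≤ K := by
    rw [hK]
    positivity
  have hKL : 0 ≤ K ^ 2 / L := by positivity
  have hab : 0 ≤ ε₀ * (‖a‖ + ‖b‖) := by positivity
  -- the direction
  have hwz : ‖w - z‖ ≤ (C + 1) * i := by
    have e : w - z = (w - W) + (W - z) := by ring
    rw [e]
    refine (norm_add_le _ _).trans ?_
    have h3 : c₂ * i ^ 2 ≤ 1 * i := mul_le_mul hc₂' hi2 (sq_nonneg i) zero_le_one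
    have h4 : (C + 1) * i = C * i + 1 * i := by ring
    linarith
  have hwz' : ‖w - z‖ ≤ B * i := by
    refine hwz.trans (mul_le_mul_of_nonneg_right ?_ hi0.le)
    rw [hB]
    linarith
  -- the deviation
  have hηn : ‖η‖ ≤ r + c₁ * i := by
    have := Q2_norm_le hz η
    linarith
  have hcη : |crs w η| ≤ c₁ * i + (C + 1) * i * (r + c₁ * i) := by
    have e : crs w η = crs z η + crs (w - z) η := by rw [crs_sub_left]; ring
    rw [e]
    refine (abs_add_le _ _).trans ?_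
    have h3 := abs_crs_le (w - z) η
    have h4 : ‖w - z‖ * ‖η‖ ≤ (C + 1) * i * (r + c₁ * i) :=
      mul_le_mul hwz hηn (norm_nonneg _) (by positivity)
    linarith
  have hcη' : |crs w η| ≤ ε₀ * g / 4 * i := by
    have h3 : (C + 1) * i * (r + c₁ * i) = ((C + 1) * r + (C + 1) * c₁ * i) * i := by ring
    have h4 : ((C + 1) * r + (C + 1) * c₁ * i) * i ≤ (ε₀ * g / 16 + ε₀ * g / 16) * i :=
      mul_le_mul_of_nonneg_right (by linarith) hi0.le
    have h5 : c₁ * i ≤ ε₀ * g / 8 * i := mul_le_mul_of_nonneg_right hc₁'' hi0.le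
    linarith
  have hcW : |crs w W| ≤ c₂ * i ^ 2 := by
    have e : crs w W = crs (w - W) W := by rw [crs_sub_left, crs_self]; ring
    rw [e]
    have := abs_crs_le (w - W) W
    rw [hW, mul_one] at this
    exact this.trans hwW
  have hdW : |dot w W - 1| ≤ c₂ * i ^ 2 := by
    have e : dot w W - 1 = dot (w - W) W := by
      rw [dot_sub_left, dot_self W, hW]
      ring
    rw [e]
    have := abs_dot_le (w - W) W
    rw [hW, mul_one] at this
    exact this.trans hwW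
  -- the two slopes
  have hP : g ≤ -crs w a := by
    have e : crs w a = crs z a + crs (w - z) a := by rw [crs_sub_left]; ring
    have h3 := (abs_le.1 (abs_crs_le (w - z) a)).2
    have h4 : ‖w - z‖ * ‖a‖ ≤ (C + 1) * i * ‖a‖ := mul_le_mul_of_nonneg_right hwz na
    have h5 : 0 ≤ (C + 1) * i * ‖b‖ := by positivity
    have h6 : (‖a‖ + ‖b‖) * (C + 1) * i = (C + 1) * i * ‖a‖ + (C + 1) * i * ‖b‖ := by ring
    linarith
  have hG : g ≤ crs w b := by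
    have e : crs w b = crs z b + crs (w - z) b := by rw [crs_sub_left]; ring
    have h3 := (abs_le.1 (abs_crs_le (w - z) b)).1
    have h4 : ‖w - z‖ * ‖b‖ ≤ (C + 1) * i * ‖b‖ := mul_le_mul_of_nonneg_right hwz nb
    have h5 : 0 ≤ (C + 1) * i * ‖a‖ := by positivity
    have h6 : (‖a‖ + ‖b‖) * (C + 1) * i = (C + 1) * i * ‖a‖ + (C + 1) * i * ‖b‖ := by ring
    linarith
  have hP0 : 0 < -crs w a := by linarith
  have hG0 : 0 < crs w b := by linarith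
  -- small quotients
  have hquot : ∀ t P : ℝ, g ≤ P → |t| < μ * g → |t / P| < μ := by
    intro t P hgP ht
    have hP' : 0 < P := by linarith
    rw [abs_div, abs_of_pos hP', div_lt_iff₀ hP']
    exact ht.trans_le (mul_le_mul_of_nonneg_left hgP hμ0.le)
  have hμg : μ * g = ε₀ * g / 2 * i := by rw [hμ]; ring
  have hc2i : c₂ * i ^ 2 ≤ ε₀ * g / 8 * i := by
    have h3 : c₂ ≤ ε₀ * g / 8 :=
      (le_mul_of_one_le_left hc₂.le (by linarith)).trans hc₂''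
    have h4 : c₂ * i ^ 2 ≤ c₂ * i := mul_le_mul_of_nonneg_left hi2 hc₂.le
    have h5 : c₂ * i ≤ ε₀ * g / 8 * i := mul_le_mul_of_nonneg_right h3 hi0.le
    linarith
  have hpos : 0 < ε₀ * g * i := by positivity
  set tu : ℝ := 1 / 5 * crs w W + crs w η with htu
  set tv : ℝ := (1 / 5 - D) * crs w W + crs w η with htv
  have hu1 : |tu / (-crs w a)| < μ := by
    apply hquot _ _ hP
    rw [hμg, htu]
    refine (abs_add_le _ _).trans_lt ?_
    rw [abs_mul, abs_of_pos (by norm_num : (0 : ℝ) < 1 / 5)]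
    have h3 : ε₀ * g / 8 * i = 1 / 8 * (ε₀ * g * i) := by ring
    have h4 : ε₀ * g / 4 * i = 1 / 4 * (ε₀ * g * i) := by ring
    have h5 : ε₀ * g / 2 * i = 1 / 2 * (ε₀ * g * i) := by ring
    linarith
  have hv1 : |tv / crs w b| < μ := by
    apply hquot _ _ hG
    rw [hμg, htv]
    refine (abs_add_le _ _).trans_lt ?_
    rw [abs_mul]
    have h3 : |1 / 5 - D| ≤ N * (L + K + 1) := by
      have h7 : K ≤ N * K := le_mul_of_one_le_left hK0 hN
      have h8 : N * (L + K + 1) = N * L + N * K + N := by ring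
      have h9 : 0 < N * L := by positivity
      rw [h8, abs_le]
      constructor <;> linarith
    have h4 : |1 / 5 - D| * |crs w W| ≤ N * (L + K + 1) * (c₂ * i ^ 2) :=
      mul_le_mul h3 hcW (abs_nonneg _) (by positivity)
    have h5 : N * (L + K + 1) * (c₂ * i ^ 2) = ((L + K + 1) * c₂) * i := by
      linear_combination ((L + K + 1) * c₂ * i) * hi
    have h6 : ((L + K + 1) * c₂) * i ≤ ε₀ * g / 8 * i :=
      mul_le_mul_of_nonneg_right hc₂'' hi0.le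
    have h7 : ε₀ * g / 8 * i = 1 / 8 * (ε₀ * g * i) := by ring
    have h8 : ε₀ * g / 4 * i = 1 / 4 * (ε₀ * g * i) := by ring
    have h9 : ε₀ * g / 2 * i = 1 / 2 * (ε₀ * g * i) := by ring
    linarith
  obtain ⟨hu2, hu3⟩ := abs_lt.1 hu1
  obtain ⟨hv2, hv3⟩ := abs_lt.1 hv1
  set u : ℝ := μ - tu / (-crs w a) with hu
  set v : ℝ := μ + tv / crs w b with hv
  have hμ2 : 2 * μ = ε₀ * i := by rw [hμ]; ring
  have hu0 : 0 < u := by linarith
  have hu4 : u ≤ ε₀ * i := by linarith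
  have hv0 : 0 < v := by linarith
  have hv4 : v ≤ ε₀ * i := by linarith
  have heu : (μ - u) * (-crs w a) = tu := by
    rw [hu, sub_sub_cancel, div_mul_cancel₀ _ hP0.ne']
  have hev : (v - μ) * crs w b = tv := by
    rw [hv, add_sub_cancel_left, div_mul_cancel₀ _ hG0.ne']
  set s : ℝ := dot w (y' - (q + (u : ℂ) * a)) with hs
  set s' : ℝ := dot w (((N * L : ℝ) : ℂ) * z + V + (v : ℂ) * b - y') with hs'
  have ey : y' = η + (q + (μ : ℂ) * a + ((1 / 5 : ℝ) : ℂ) * W) := by rw [hη]; ring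
  have ed1 : y' - (q + (u : ℂ) * a) = η + ((1 / 5 : ℝ) : ℂ) * W + ((μ - u : ℝ) : ℂ) * a := by
    rw [ey]
    push_cast
    ring
  have ed2 : ((N * L : ℝ) : ℂ) * z + V + (v : ℂ) * b - y' =
      (((D - 1 / 5 : ℝ) : ℂ) * W + ((v - μ : ℝ) : ℂ) * b) - η := by
    have e : ((D - 1 / 5 : ℝ) : ℂ) * W = (D : ℂ) * W - ((1 / 5 : ℝ) : ℂ) * W := by
      push_cast
      ring
    rw [e, hDW, ey]
    push_cast
    ring
  have ec1 : crs w (y' - (q + (u : ℂ) * a)) = 0 := by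
    rw [ed1, crs_add_right, crs_add_right, crs_mul_right, crs_mul_right]
    linarith
  have ec2 : crs w (((N * L : ℝ) : ℂ) * z + V + (v : ℂ) * b - y') = 0 := by
    rw [ed2, crs_sub_right, crs_add_right, crs_mul_right, crs_mul_right, hev, htv]
    ring
  have eX : y' = q + (u : ℂ) * a + (s : ℂ) * w := by
    have := decomp hw (y' - (q + (u : ℂ) * a))
    rw [ec1, ← hs] at this
    have e : y' = q + (u : ℂ) * a + (y' - (q + (u : ℂ) * a)) := by ring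
    rw [this] at e
    rw [e]
    push_cast
    ring
  have eY : ((N * L : ℝ) : ℂ) * z + V + (v : ℂ) * b = y' + (s' : ℂ) * w := by
    have := decomp hw (((N * L : ℝ) : ℂ) * z + V + (v : ℂ) * b - y')
    rw [ec2, ← hs'] at this
    have e : ((N * L : ℝ) : ℂ) * z + V + (v : ℂ) * b =
      y' + (((N * L : ℝ) : ℂ) * z + V + (v : ℂ) * b - y') := by ring
    rw [this] at e
    rw [e]
    push_cast
    ring
  have hμu : |μ - u| ≤ ε₀ * i := by
    rw [abs_le]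
    constructor <;> linarith
  have hBi' : B * i = c₁ * i + c₂ * i + ε₀ * i * ‖a‖ + ε₀ * i * ‖b‖ + (C + 1) * i +
      K ^ 2 / L * i := by
    rw [hB]
    ring
  have hBpos1 : 0 ≤ c₁ * i := by positivity
  have hBpos2 : 0 ≤ c₂ * i := by positivity
  have hBpos3 : 0 ≤ ε₀ * i * ‖a‖ := by positivity
  have hBpos4 : 0 ≤ ε₀ * i * ‖b‖ := by positivity
  have hBpos5 : 0 ≤ (C + 1) * i := by positivity
  have hBpos6 : 0 ≤ K ^ 2 / L * i := by positivity
  have hc2i' : c₂ * i ^ 2 ≤ c₂ * i := mul_le_mul_of_nonneg_left hi2 hc₂.le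
  have hs5 : |s - 1 / 5| ≤ r + B * i := by
    have e : s - 1 / 5 = dot w η + 1 / 5 * (dot w W - 1) + (μ - u) * dot w a := by
      rw [hs, ed1, dot_add_right, dot_add_right, dot_mul_right, dot_mul_right]
      ring
    rw [e]
    have h3 := abs_dot_le w η
    have h4 := abs_dot_le w a
    rw [hw, one_mul] at h3 h4
    have h5 : |(μ - u) * dot w a| ≤ ε₀ * i * ‖a‖ := by
      rw [abs_mul]
      exact mul_le_mul hμu h4 (abs_nonneg _) (by positivity)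
    have h6 : |1 / 5 * (dot w W - 1)| ≤ c₂ * i := by
      rw [abs_mul, abs_of_pos (by norm_num : (0 : ℝ) < 1 / 5)]
      have := abs_nonneg (dot w W - 1)
      linarith
    have h7 := abs_add_le (dot w η + 1 / 5 * (dot w W - 1)) ((μ - u) * dot w a)
    have h8 := abs_add_le (dot w η) (1 / 5 * (dot w W - 1))
    linarith
  have hs0 : 0 < s := by
    have := (abs_le.1 hs5).1
    linarith
  have hs1 : s < 1 := by
    have := (abs_le.1 hs5).2
    linarith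
  -- the long segment
  set e' : ℂ := (V - q) + (v : ℂ) * b - (u : ℂ) * a with he'
  have hab1 : ‖(v : ℂ) * b‖ ≤ ε₀ * i * ‖b‖ := by
    rw [norm_mul, Complex.norm_real, Real.norm_eq_abs, abs_of_pos hv0]
    exact mul_le_mul_of_nonneg_right hv4 nb
  have hab2 : ‖(u : ℂ) * a‖ ≤ ε₀ * i * ‖a‖ := by
    rw [norm_mul, Complex.norm_real, Real.norm_eq_abs, abs_of_pos hu0]
    exact mul_le_mul_of_nonneg_right hu4 na
  have hei : ε₀ * i ≤ ε₀ := mul_le_of_le_one_right hε₀.le hi1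
  have he'K : ‖e'‖ ≤ K := by
    have h3 := norm_sub_le ((V - q) + (v : ℂ) * b) ((u : ℂ) * a)
    have h4 := norm_add_le (V - q) ((v : ℂ) * b)
    have h5 : ε₀ * i * ‖b‖ ≤ ε₀ * ‖b‖ := mul_le_mul_of_nonneg_right hei nb
    have h6 : ε₀ * i * ‖a‖ ≤ ε₀ * ‖a‖ := mul_le_mul_of_nonneg_right hei na
    have h7 : ε₀ * (‖a‖ + ‖b‖) = ε₀ * ‖a‖ + ε₀ * ‖b‖ := by ring
    rw [hK]
    linarith
  have esum : ((N * L : ℝ) : ℂ) * z + e' = ((s + s' : ℝ) : ℂ) * w := by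
    have e3 : ((N * L : ℝ) : ℂ) * z + e' =
        (((N * L : ℝ) : ℂ) * z + V + (v : ℂ) * b) - (q + (u : ℂ) * a) := by
      rw [he']
      ring
    rw [e3, eY]
    nth_rewrite 1 [eX]
    push_cast
    ring
  obtain ⟨l1, l2, -, l4⟩ := Q2_long hz he'K hKN
  have hsum0 : 0 < s + s' := by
    have h3 : s + s' = dot w (((N * L : ℝ) : ℂ) * z + e') := by
      rw [esum, dot_mul_right, dot_self, hw]
      ring
    rw [h3, dot_add_right, dot_mul_right]
    have h4 : dot w z = 1 + dot (w - z) z := by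
      rw [dot_sub_left, dot_self z, hz]
      ring
    have h5 := (abs_le.1 (abs_dot_le (w - z) z)).1
    have h6 := (abs_le.1 (abs_dot_le w e')).1
    rw [hz, mul_one] at h5
    rw [hw, one_mul] at h6
    have h7 : 1 / 2 ≤ dot w z := by linarith
    have h8 : N * L * (1 / 2) ≤ N * L * dot w z :=
      mul_le_mul_of_nonneg_left h7 (by positivity)
    linarith
  have hnorm : ‖((N * L : ℝ) : ℂ) * z + e'‖ = s + s' := by
    rw [esum, norm_mul, hw, mul_one, Complex.norm_real, Real.norm_eq_abs, abs_of_pos hsum0]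
  rw [hnorm] at l1 l2 l4
  have hs'0 : 0 < s' := by linarith
  have hl4 : K ^ 2 / (N * L) = K ^ 2 / L * i := by
    have hLne : L ≠ 0 := ne_of_gt hL
    have hNne : N ≠ 0 := ne_of_gt hN0
    rw [hie]
    field_simp
  rw [hl4] at l4
  have hdot : |dot z e' - dot z (V - q)| ≤ ε₀ * i * ‖b‖ + ε₀ * i * ‖a‖ := by
    have e3 : dot z e' - dot z (V - q) = dot z ((v : ℂ) * b) - dot z ((u : ℂ) * a) := by
      rw [he', dot_sub_right, dot_add_right]
      ring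
    rw [e3]
    have h3 := abs_dot_le z ((v : ℂ) * b)
    have h4 := abs_dot_le z ((u : ℂ) * a)
    rw [hz, one_mul] at h3 h4
    have h5 := abs_sub (dot z ((v : ℂ) * b)) (dot z ((u : ℂ) * a))
    linarith
  have hs'5 : |s' - (N * L + (dot z (V - q) - 1 / 5))| ≤ r + 2 * (B * i) := by
    have e3 : s' - (N * L + (dot z (V - q) - 1 / 5)) =
        (s + s' - (N * L + dot z e')) + (dot z e' - dot z (V - q)) - (s - 1 / 5) := by ring
    rw [e3]
    have h5 := abs_sub ((s + s' - (N * L + dot z e')) + (dot z e' - dot z (V - q))) (s - 1 / 5)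
    have h6 := abs_add_le (s + s' - (N * L + dot z e')) (dot z e' - dot z (V - q))
    linarith
  have hfin : ‖y' - (q + ((1 / 5 : ℝ) : ℂ) * z)‖ ≤ r + B * i := by
    have e3 : y' - (q + ((1 / 5 : ℝ) : ℂ) * z) =
        η + (μ : ℂ) * a + ((1 / 5 : ℝ) : ℂ) * (W - z) := by
      rw [ey]
      ring
    rw [e3]
    have h3 := norm_add_le (η + (μ : ℂ) * a) (((1 / 5 : ℝ) : ℂ) * (W - z))
    have h4 := norm_add_le η ((μ : ℂ) * a)
    have h5 : ‖(μ : ℂ) * a‖ ≤ ε₀ * i * ‖a‖ := by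
      rw [norm_mul, Complex.norm_real, Real.norm_eq_abs, abs_of_pos hμ0]
      exact mul_le_mul_of_nonneg_right (by linarith) na
    have h6 : ‖((1 / 5 : ℝ) : ℂ) * (W - z)‖ ≤ C * i := by
      rw [norm_mul, Complex.norm_real, Real.norm_eq_abs,
        abs_of_pos (by norm_num : (0 : ℝ) < 1 / 5)]
      have := norm_nonneg (W - z)
      linarith
    have h7 : (C + 1) * i = C * i + i := by ring
    linarith
  refine ⟨by linarith, u, v, s, s', hu0, hu4, hv0, hv4, hs0, hs'0, eX, eY, hs5, hs'5, hwz', ?_, ?_, hfin⟩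
  · have : u * ‖a‖ ≤ ε₀ * i * ‖a‖ := mul_le_mul_of_nonneg_right hu4 na
    linarith
  · have : v * ‖b‖ ≤ ε₀ * i * ‖b‖ := mul_le_mul_of_nonneg_right hv4 nb
    linarith

private theorem Q2_core {z q a b V : ℂ} {L ε₀ : ℝ} (hz : ‖z‖ = 1) (hL : 0 < L) (hε₀ : 0 < ε₀)
    (ha : crs z a < 0) (hb : 0 < crs z b) :
    ∃ c₁ c₂ : ℝ, 0 < c₁ ∧ 0 < c₂ ∧ ∃ (y : ℕ → ℂ) (α : ℕ → ℝ), ∀ ε > 0, ∃ r : ℝ, 0 < r ∧
      ∃ m₀ : ℕ, ∀ m ≥ m₀, ∀ (y' w : ℂ) (α' : ℝ), |dot z (y' - y m)| < r →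
      |crs z (y' - y m)| < c₁ / m → |α' - α m| < c₂ / m ^ 2 →
      w = Complex.exp (α' * Complex.I) → ‖w‖ = 1 ∧ crs w a < 0 ∧
      ∃ u v s s' : ℝ, 0 < u ∧ u ≤ ε₀ / m ∧ u < 1 ∧ 0 < v ∧ v ≤ ε₀ / m ∧ 0 < s ∧ 0 < s' ∧
        y' = q + (u : ℂ) * a + (s : ℂ) * w ∧
        ((m * L : ℝ) : ℂ) * z + V + (v : ℂ) * b = y' + (s' : ℂ) * w ∧
        |s - 1 / 5| < ε ∧ |s' - (m * L + (dot z (V - q) - 1 / 5))| < ε ∧
        ‖w - z‖ < ε ∧ u * ‖a‖ < ε ∧ v * ‖b‖ < ε ∧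
        ‖y' - (q + ((1 / 5 : ℝ) : ℂ) * z)‖ < ε := by
  have na := norm_nonneg a
  have nb := norm_nonneg b
  set K : ℝ := ‖V - q‖ + ε₀ * (‖a‖ + ‖b‖) with hK
  have hK0 : 0 ≤ K := by positivity
  set C : ℝ := 4 * K / L with hC
  have hC0 : 0 ≤ C := by positivity
  obtain ⟨g, hg, hga, hgb⟩ : ∃ g : ℝ, 0 < g ∧ 2 * g ≤ -crs z a ∧ 2 * g ≤ crs z b := by
    refine ⟨min (-crs z a) (crs z b) / 2, ?_, ?_, ?_⟩
    · have : 0 < min (-crs z a) (crs z b) := lt_min (by linarith) hb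
      linarith
    · have := min_le_left (-crs z a) (crs z b)
      linarith
    · have := min_le_right (-crs z a) (crs z b)
      linarith
  set c₁ : ℝ := ε₀ * g / 8 with hc₁
  have hc₁0 : 0 < c₁ := by positivity
  obtain ⟨c₂, hc₂0, hc₂1, hc₂2⟩ : ∃ c₂ : ℝ, 0 < c₂ ∧ c₂ ≤ 1 ∧ (L + K + 1) * c₂ ≤ ε₀ * g / 8 := by
    have h1 : 0 < L + K + 1 := by positivity
    refine ⟨min 1 (ε₀ * g / 8 / (L + K + 1)), lt_min one_pos (by positivity), min_le_left _ _, ?_⟩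
    have h2 := min_le_right 1 (ε₀ * g / 8 / (L + K + 1))
    rw [le_div_iff₀ h1] at h2
    linarith
  obtain ⟨B, hB⟩ : ∃ B : ℝ, B = c₁ + c₂ + ε₀ * (‖a‖ + ‖b‖) + C + 1 + K ^ 2 / L := ⟨_, rfl⟩
  refine ⟨c₁, c₂, hc₁0, hc₂0, ?_⟩
  obtain ⟨W, hW⟩ : ∃ W : ℕ → ℂ, ∀ m : ℕ, 2 * K + 2 < m * L → 1 ≤ (m : ℝ) →
      ‖W m‖ = 1 ∧ ∃ D : ℝ, 0 ≤ D ∧ D ≤ m * L + K ∧
      (D : ℂ) * W m = ((m * L : ℝ) : ℂ) * z + V + ((ε₀ * (1 / m) / 2 : ℝ) : ℂ) * b -
        (q + ((ε₀ * (1 / m) / 2 : ℝ) : ℂ) * a) ∧ ‖W m - z‖ ≤ C * (1 / m) := by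
    have key : ∀ m : ℕ, ∃ W : ℂ, 2 * K + 2 < m * L → 1 ≤ (m : ℝ) →
        ‖W‖ = 1 ∧ ∃ D : ℝ, 0 ≤ D ∧ D ≤ m * L + K ∧
        (D : ℂ) * W = ((m * L : ℝ) : ℂ) * z + V + ((ε₀ * (1 / m) / 2 : ℝ) : ℂ) * b -
          (q + ((ε₀ * (1 / m) / 2 : ℝ) : ℂ) * a) ∧ ‖W - z‖ ≤ C * (1 / m) := by
      intro m
      obtain ⟨μ, hμ⟩ : ∃ μ : ℝ, μ = ε₀ * (1 / m) / 2 := ⟨_, rfl⟩
      obtain ⟨e, he⟩ : ∃ e : ℂ, e = (V - q) + (μ : ℂ) * b - (μ : ℂ) * a := ⟨_, rfl⟩
      refine ⟨(((m * L : ℝ) : ℂ) * z + e) / (‖((m * L : ℝ) : ℂ) * z + e‖ : ℂ), ?_⟩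
      intro hT hm
      have hm0 : (0 : ℝ) < m := by linarith
      have hμ0 : 0 ≤ μ := by rw [hμ]; positivity
      have hμ1 : μ ≤ ε₀ := by
        have h1 : (1 : ℝ) / m ≤ 1 := (div_le_one hm0).2 hm
        have h2 : ε₀ * (1 / m) ≤ ε₀ * 1 := mul_le_mul_of_nonneg_left h1 hε₀.le
        have h3 : 0 ≤ ε₀ * (1 / m) := by positivity
        rw [hμ]
        linarith
      have he1 : ‖e‖ ≤ K := by
        have h1 := norm_sub_le ((V - q) + (μ : ℂ) * b) ((μ : ℂ) * a)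
        have h2 := norm_add_le (V - q) ((μ : ℂ) * b)
        have h3 : ‖(μ : ℂ) * b‖ ≤ ε₀ * ‖b‖ := by
          rw [norm_mul, Complex.norm_real, Real.norm_eq_abs, abs_of_nonneg hμ0]
          exact mul_le_mul_of_nonneg_right hμ1 nb
        have h4 : ‖(μ : ℂ) * a‖ ≤ ε₀ * ‖a‖ := by
          rw [norm_mul, Complex.norm_real, Real.norm_eq_abs, abs_of_nonneg hμ0]
          exact mul_le_mul_of_nonneg_right hμ1 na
        have h5 : ε₀ * (‖a‖ + ‖b‖) = ε₀ * ‖a‖ + ε₀ * ‖b‖ := by ring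
        rw [he, hK]
        linarith
      obtain ⟨l1, l2, l3, -⟩ := Q2_long hz he1 hT
      set D : ℝ := ‖((m * L : ℝ) : ℂ) * z + e‖ with hD
      have hmL : 0 < m * L := by positivity
      have hD0 : 0 < D := by linarith
      have hDne : (D : ℂ) ≠ 0 := by
        rw [Complex.ofReal_ne_zero]
        exact hD0.ne'
      refine ⟨?_, D, hD0.le, ?_, ?_, ?_⟩
      · rw [norm_div, Complex.norm_real, Real.norm_eq_abs, abs_of_pos hD0, ← hD]
        exact div_self hD0.ne'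
      · have := (abs_le.1 l1).2
        linarith
      · rw [mul_div_cancel₀ _ hDne, he, hμ]
        ring
      · have e1 : (((m * L : ℝ) : ℂ) * z + e) / (D : ℂ) - z =
            (((m * L : ℝ) : ℂ) * z + e - (D : ℂ) * z) / (D : ℂ) := by
          field_simp
        rw [e1, norm_div, Complex.norm_real, Real.norm_eq_abs, abs_of_pos hD0,
          div_le_iff₀ hD0]
        refine l3.trans ?_
        have h1 : 0 ≤ C * (1 / m) := by positivity
        have h2 : C * (1 / m) * (m * L / 2) ≤ C * (1 / m) * D := mul_le_mul_of_nonneg_left l2 h1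
        have h3 : C * (1 / m) * (m * L / 2) = 2 * K := by
          rw [hC]
          field_simp
          ring
        linarith
    choose W hW using key
    exact ⟨W, hW⟩
  refine ⟨fun m => q + ((ε₀ * (1 / m) / 2 : ℝ) : ℂ) * a + ((1 / 5 : ℝ) : ℂ) * W m,
    fun m => (W m).arg, ?_⟩
  intro ε hε
  obtain ⟨r, hr0, hr1, hr2, hr3⟩ : ∃ r : ℝ, 0 < r ∧ r ≤ ε / 8 ∧ (C + 1) * r ≤ ε₀ * g / 16 ∧
      r ≤ 1 / 100 := by
    have hC1 : 0 < C + 1 := by linarith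
    refine ⟨min (min (ε / 8) (ε₀ * g / 16 / (C + 1))) (1 / 100), ?_, ?_, ?_, ?_⟩
    · exact lt_min (lt_min (by positivity) (by positivity)) (by norm_num)
    · exact (min_le_left _ _).trans (min_le_left _ _)
    · have h2 : min (min (ε / 8) (ε₀ * g / 16 / (C + 1))) (1 / 100) ≤ ε₀ * g / 16 / (C + 1) :=
        (min_le_left _ _).trans (min_le_right _ _)
      rw [le_div_iff₀ hC1] at h2
      linarith
    · exact min_le_right _ _
  refine ⟨r, hr0, ?_⟩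
  have ev : ∀ A B' : ℝ, 0 < B' → ∀ᶠ m : ℕ in atTop, A / (m : ℝ) < B' := fun A B' hB' =>
    (tendsto_const_div_atTop_nhds_zero_nat A).eventually (gt_mem_nhds hB')
  have hall := ((ev (2 * K + 2) L hL).and ((ev ((‖a‖ + ‖b‖) * (C + 1)) g hg).and
    ((ev ((C + 1) * c₁) (ε₀ * g / 16) (by positivity)).and
    ((ev B (ε / 8) (by positivity)).and ((ev B (1 / 100) (by norm_num)).and
    ((ev ε₀ 1 one_pos).and (eventually_ge_atTop 1)))))))
  obtain ⟨m₀, hm₀⟩ := eventually_atTop.1 hall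
  refine ⟨m₀, ?_⟩
  intro m hm y' w α' hd hc hα hw
  obtain ⟨A1, A2, A3, A4, A5, A6, A7⟩ := hm₀ m hm
  have hm1 : (1 : ℝ) ≤ m := by exact_mod_cast A7
  have hm0 : (0 : ℝ) < m := by linarith
  have hT : 2 * K + 2 < m * L := by
    rw [div_lt_iff₀ hm0] at A1
    linarith
  obtain ⟨hW1, D, hD0, hD1, hDW, hWz⟩ := hW m hT hm1
  have hw1 : ‖w‖ = 1 := by rw [hw, Complex.norm_exp_ofReal_mul_I]
  have hWe : Complex.exp ((W m).arg * Complex.I) = W m := by
    have := Complex.norm_mul_exp_arg_mul_I (W m)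
    rw [hW1] at this
    simpa using this
  have hwW : ‖w - W m‖ ≤ c₂ * (1 / m) ^ 2 := by
    have h1 := Q2_norm_exp α' (W m).arg
    rw [hWe, ← hw] at h1
    have h2 : c₂ / (m : ℝ) ^ 2 = c₂ * (1 / m) ^ 2 := by
      field_simp
    rw [h2] at hα
    exact h1.trans hα.le
  have A2' : (‖a‖ + ‖b‖) * (C + 1) * (1 / m) < g := by
    rw [mul_one_div]
    exact A2
  have A3' : (C + 1) * c₁ * (1 / m) < ε₀ * g / 16 := by
    rw [mul_one_div]
    exact A3
  have A4' : B * (1 / m) < ε / 8 := by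
    rw [mul_one_div]
    exact A4
  have A5' : B * (1 / m) < 1 / 100 := by
    rw [mul_one_div]
    exact A5
  have hc' : |crs z (y' - (q + ((ε₀ * (1 / m) / 2 : ℝ) : ℂ) * a +
      ((1 / 5 : ℝ) : ℂ) * W m))| < c₁ * (1 / m) := by
    rw [mul_one_div c₁ (m : ℝ)]
    exact hc
  obtain ⟨hwa, u, v, s, s', hu0, hu1, hv0, hv1, hs0, hs'0, e1, e2, b1, b2, b3, b4, b5, b6⟩ :=
    Q2_step hz hL hε₀ hm1 (mul_one_div_cancel hm0.ne') hK hT hg hga hgb hW1 hD0 hD1 hDW hC0 hWz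
      hc₁0 hc₁.le hc₂0 hc₂1 hc₂2 hr0 hr2 hr3 A2' A3' hB A5' hw1 hwW hd hc'
  rw [mul_one_div] at hu1 hv1
  exact ⟨hw1, hwa, u, v, s, s', hu0, hu1, hu1.trans_lt A6, hv0, hv1, hs0, hs'0, e1, e2,
    by linarith, by linarith, by linarith, by linarith, by linarith, by linarith⟩

private theorem Q2_trig {θ : ℝ} (hθ : |θ - Real.pi / 4| < 1 / 100) :
    0 < Real.cos θ ∧ 1 / 2 < Real.sin θ ∧ 3 / 4 < bb θ ∧ 1 / 2 < Real.cos θ := by
  have h1 := Real.abs_sin_sub_sin_le θ (Real.pi / 4)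
  have h2 := Real.abs_cos_sub_cos_le θ (Real.pi / 4)
  rw [Real.sin_pi_div_four] at h1
  rw [Real.cos_pi_div_four] at h2
  have h3 : (1.4 : ℝ) < Real.sqrt 2 := by
    rw [Real.lt_sqrt (by norm_num)]
    norm_num
  obtain ⟨h4, h5⟩ := abs_le.1 (h1.trans hθ.le)
  obtain ⟨h6, h7⟩ := abs_le.1 (h2.trans hθ.le)
  have hc : 0 < Real.cos θ := by linarith
  have hs : 1 / 2 < Real.sin θ := by linarith
  refine ⟨hc, hs, ?_, by linarith⟩
  unfold bb
  rw [Real.tan_eq_sin_div_cos, lt_div_iff₀ hc]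
  linarith

private theorem Q2_lat {θ : ℝ} (hc : 0 < Real.cos θ) (m : ℕ) :
    lat θ ((m : ℤ), (m : ℤ)) = ((m * ell θ : ℝ) : ℂ) * zz θ := by
  apply Complex.ext
  · simp only [lat, ell, Complex.mul_re, Complex.ofReal_re, Complex.ofReal_im, zz_re, zz_im]
    push_cast
    field_simp
    ring
  · simp only [lat, ell, bb, Complex.mul_im, Complex.ofReal_re, Complex.ofReal_im, zz_re, zz_im,
      Real.tan_eq_sin_div_cos]
    push_cast
    field_simp
    ring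

private theorem Q2_side {p : Par} (hp : p ∈ Pi1) {u : ℝ} (hu0 : 0 < u) (hu1 : u < 1) :
    dot (vtx p 1 + (u : ℂ) * (vtx p 0 - vtx p 1)) (nu p 1) = p.2 1 ∧
    ∀ j, j ≠ 1 → dot (vtx p 1 + (u : ℂ) * (vtx p 0 - vtx p 1)) (nu p j) < p.2 j := by
  have hH := hp.2.2.1
  have h02 : 0 < p.2 0 + p.2 2 := hH 0
  have h13 : 0 < p.2 1 + p.2 3 := hH 1
  have a1 : dot (vtx p 1) (nu p 1) = p.2 1 := dot_vtx_self p 1
  have a2 : dot (vtx p 1) (nu p 2) = p.2 2 := dot_vtx_succ p 1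
  have a3 : dot (vtx p 1) (nu p 3) = -p.2 1 := dot_vtx_two p 1
  have a0 : dot (vtx p 1) (nu p 0) = -p.2 2 := dot_vtx_three p 1
  have b0 : dot (vtx p 0) (nu p 0) = p.2 0 := dot_vtx_self p 0
  have b1 : dot (vtx p 0) (nu p 1) = p.2 1 := dot_vtx_succ p 0
  have b2 : dot (vtx p 0) (nu p 2) = -p.2 0 := dot_vtx_two p 0
  have b3 : dot (vtx p 0) (nu p 3) = -p.2 1 := dot_vtx_three p 0
  constructor
  · rw [dot_add_left, dot_mul_left, dot_sub_left, a1, b1]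
    ring
  · intro j hj
    have e : ∀ i : Fin 4, i = 0 ∨ i = 1 ∨ i = 2 ∨ i = 3 := by decide
    rcases e j with rfl | rfl | rfl | rfl
    · rw [dot_add_left, dot_mul_left, dot_sub_left, a0, b0]
      nlinarith
    · exact absurd rfl hj
    · rw [dot_add_left, dot_mul_left, dot_sub_left, a2, b2]
      nlinarith
    · rw [dot_add_left, dot_mul_left, dot_sub_left, a3, b3]
      linarith

/-- [Q2] boxes of phase points in the cylinder, near the point `vtx p 1 + z / 5`. -/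
theorem crossing_box2 {θ : ℝ} (hθ : |θ - Real.pi / 4| < 1 / 100) {p : Par} (hp : p ∈ Pi1) :
    ∃ κ c₁ c₂ : ℝ, 0 < c₁ ∧ 0 < c₂ ∧ ∃ (y : ℕ → ℂ) (α : ℕ → ℝ), ∀ ε > 0, ∃ r : ℝ, 0 < r ∧
      ∃ m₀ : ℕ, ∀ m ≥ m₀, ∀ (y' w : ℂ) (α' : ℝ), |dot (zz θ) (y' - y m)| < r →
      |crs (zz θ) (y' - y m)| < c₁ / m → |α' - α m| < c₂ / m ^ 2 →
      w = Complex.exp (α' * Complex.I) →
      y' ∈ Ro θ ∧ Fre θ p y' ∧
      Good2 θ p ((1, (0, 0)), 1) (y', -w) ∧
      |fl θ p ((1, (0, 0)), 1) (y', -w) - 1 / 5| < ε ∧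
      ‖nx θ p ((1, (0, 0)), 1) (y', -w) - sepm θ p‖ < ε ∧
      Good2 θ p ((-1, ((m : ℤ), (m : ℤ))), 1) (y', w) ∧
      |fl θ p ((-1, ((m : ℤ), (m : ℤ))), 1) (y', w) - (m * ell θ + κ)| < ε ∧
      ‖nx θ p ((-1, ((m : ℤ), (m : ℤ))), 1) (y', w) - sepm θ p‖ < ε := by
  obtain ⟨ε₀, hε₀, m₁, hm₁, hcr⟩ := TMN.crossing_unif2 hθ hp
  obtain ⟨hcos, hsin, hbb, hcos2⟩ := Q2_trig hθ
  obtain ⟨-, -, hd1, -⟩ := TMN.sep_out2 hθ hp
  have hd1' : 0 < dot (zz θ) (nu p 1) := by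
    simp only [sepm, dot_neg_left, dot_refl_nu] at hd1
    linarith
  have h02 : 0 < p.2 0 + p.2 2 := hp.2.2.1 0
  have hcrs : ∀ w : ℂ, crs w (vtx p 0 - vtx p 1) = -((p.2 0 + p.2 2) * dot w (nu p 1)) := by
    intro w
    have h : crs w (vtx p 1) - crs w (vtx p 0) = (p.2 0 + p.2 2) * dot w (nu p 1) :=
      crs_vtx_sub p w 0
    rw [crs_sub_right]
    linarith
  have ha : crs (zz θ) (vtx p 0 - vtx p 1) < 0 := by
    rw [hcrs]
    have := mul_pos h02 hd1'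
    linarith
  have hb : 0 < crs (zz θ) (vtx p 1 - vtx p 0) := by
    have e : crs (zz θ) (vtx p 1 - vtx p 0) = - crs (zz θ) (vtx p 0 - vtx p 1) := by
      rw [crs_sub_right, crs_sub_right]
      ring
    rw [e]
    linarith
  have hL : 0 < ell θ := by
    unfold ell
    positivity
  have him1 : 0 < (vtx p 1).im := hp.2.2.2.2.2.1
  have him0 : 0 < (vtx p 0).im := (TMN.signs hp).2.2.2.2.2.2.1
  have himx : ∀ u : ℝ, 0 < u → u < 1 → 0 < (vtx p 1 + (u : ℂ) * (vtx p 0 - vtx p 1)).im := by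
    intro u hu0 hu1
    simp only [Complex.add_im, Complex.mul_im, Complex.ofReal_re, Complex.ofReal_im, zero_mul,
      add_zero, Complex.sub_im]
    have h1 : 0 < u * (vtx p 0).im := mul_pos hu0 him0
    have h2 : 0 < (1 - u) * (vtx p 1).im := mul_pos (by linarith) him1
    nlinarith
  obtain ⟨c₁, c₂, hc₁, hc₂, y, α, hcore⟩ :=
    Q2_core (q := vtx p 1) (V := -vtx p 1) (zz_norm θ) hL hε₀ ha hb
  refine ⟨dot (zz θ) (-vtx p 1 - vtx p 1) - 1 / 5, c₁, c₂, hc₁, hc₂, y, α, ?_⟩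
  intro ε hε
  obtain ⟨r, hr, m₀, hm₀⟩ := hcore (min ε (1 / 50)) (lt_min hε (by norm_num))
  refine ⟨r, hr, max m₀ m₁, ?_⟩
  intro m hm y' w α' hdd hcc hα hw
  obtain ⟨hw1, hwa, u, v, s, s', hu0, hu1, hu2, hv0, hv1, hs0, hs'0, e1, e2, b1, b2, b3, b4, b5,
    b6⟩ := hm₀ m (le_trans (le_max_left _ _) hm) y' w α' hdd hcc hα hw
  have hεm : min ε (1 / 50) ≤ ε := min_le_left _ _
  have hεm' : min ε (1 / 50) ≤ 1 / 50 := min_le_right _ _
  obtain ⟨x, hx⟩ : ∃ x : ℂ, x = vtx p 1 + (u : ℂ) * (vtx p 0 - vtx p 1) := ⟨_, rfl⟩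
  obtain ⟨Y, hY⟩ : ∃ Y : ℂ, Y = lat θ ((m : ℤ), (m : ℤ)) -
    (vtx p 1 + (v : ℂ) * (vtx p 0 - vtx p 1)) := ⟨_, rfl⟩
  have ex : y' = x + (s : ℂ) * w := by rw [hx, e1]
  have eY : Y = y' + (s' : ℂ) * w := by
    rw [hY, Q2_lat hcos, ← e2]
    ring
  have eYx : Y - x = ((s + s' : ℝ) : ℂ) * w := by
    rw [eY, ex]
    push_cast
    ring
  have hss : 0 < s + s' := by linarith
  have nYx : ‖Y - x‖ = s + s' := by
    rw [eYx, norm_mul, hw1, mul_one, Complex.norm_real, Real.norm_eq_abs, abs_of_pos hss]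
  have ew : w = (Y - x) / (‖Y - x‖ : ℂ) := by
    have hne : ((s + s' : ℝ) : ℂ) ≠ 0 := by
      rw [Complex.ofReal_ne_zero]
      exact hss.ne'
    rw [nYx, eYx, mul_div_cancel_left₀ _ hne]
  obtain ⟨G1, G2, G3⟩ := hcr m (le_trans (le_max_right _ _) hm) u v hu0 hu1 hv0 hv1 x Y w hx hY ew
  rw [nYx] at G2
  obtain ⟨S1, S2, S3⟩ := Q2_shift2 G1 hs0.le (by rw [G2]; linarith)
  rw [← ex] at S1 S2 S3
  rw [G2, add_sub_cancel_left] at S2
  rw [G3] at S3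
  obtain ⟨X1, X2⟩ := Q2_side hp hu0 hu2
  have X3 := himx u hu0 hu2
  rw [← hx] at X1 X2 X3
  have hwν : 0 < dot w (nu p 1) := by
    rw [hcrs] at hwa
    by_contra hcon
    push Not at hcon
    have := mul_nonneg h02.le (neg_nonneg.2 hcon)
    linarith
  have hFS : FreeSeg θ p x w s := fun t ht0 ht1 => G1.1.2.2.1 t ht0 (by rw [G2]; linarith)
  obtain ⟨R1, R2, R3⟩ := TMN.rev_leg2 X1 X2 X3 hwν (1, (0, 0)) hs0 hFS
  have einv : inv ((1, (0, 0)) : Cp) = (1, (0, 0)) := by simp [inv]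
  rw [einv, frm_one, act_one, ← ex] at R1 R2 R3
  have hFre : Fre θ p y' := by
    intro c
    rw [ex]
    exact G1.1.2.2.1 s hs0 (by rw [G2]; linarith) c
  refine ⟨?_, hFre, R1, ?_, ?_, S1, ?_, ?_⟩
  · -- the point is in the rectangle
    have hq := hp.2.2.2.1 1
    obtain ⟨q1, q2⟩ := hq
    rw [abs_lt] at q1 q2
    have d1 := Complex.abs_re_le_norm (y' - (vtx p 1 + ((1 / 5 : ℝ) : ℂ) * zz θ))
    have d2 := Complex.abs_im_le_norm (y' - (vtx p 1 + ((1 / 5 : ℝ) : ℂ) * zz θ))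
    have d3 := b6.trans_le hεm'
    have d4 := abs_lt.1 (d1.trans_lt d3)
    have d5 := abs_lt.1 (d2.trans_lt d3)
    simp only [Complex.sub_re, Complex.add_re, Complex.mul_re, Complex.ofReal_re,
      Complex.ofReal_im, zz_re, zero_mul, sub_zero] at d4
    simp only [Complex.sub_im, Complex.add_im, Complex.mul_im, Complex.ofReal_re,
      Complex.ofReal_im, zz_im, zero_mul, add_zero] at d5
    have c1 := Real.cos_le_one θ
    have s1 := Real.sin_le_one θ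
    refine ⟨?_, ?_, ?_, ?_⟩
    · linarith [d4.1]
    · linarith [d4.2]
    · linarith [d5.1]
    · linarith [d5.2]
  · rw [R2]
    exact b1.trans_le hεm
  · rw [R3]
    have e3 : (x, -refl p 1 w) - sepm θ p =
        ((u : ℂ) * (vtx p 0 - vtx p 1), -refl p 1 (w - zz θ)) := by
      rw [hx]
      simp only [sepm, Prod.mk_sub_mk, refl_sub]
      refine Prod.ext ?_ ?_ <;> simp only <;> ring
    rw [e3, Prod.norm_def]
    apply max_lt
    · rw [norm_mul, Complex.norm_real, Real.norm_eq_abs, abs_of_pos hu0]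
      exact b4.trans_le hεm
    · rw [norm_neg, norm_refl]
      exact b3.trans_le hεm
  · rw [S2]
    exact b2.trans_le hεm
  · rw [S3]
    have e3 : (vtx p 1 + (v : ℂ) * (vtx p 0 - vtx p 1), -refl p 1 w) - sepm θ p =
        ((v : ℂ) * (vtx p 0 - vtx p 1), -refl p 1 (w - zz θ)) := by
      simp only [sepm, Prod.mk_sub_mk, refl_sub]
      refine Prod.ext ?_ ?_ <;> simp only <;> ring
    rw [e3, Prod.norm_def]
    apply max_lt
    · rw [norm_mul, Complex.norm_real, Real.norm_eq_abs, abs_of_pos hv0, norm_sub_rev]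
      exact b5.trans_le hεm
    · rw [norm_neg, norm_refl]
      exact b3.trans_le hεm

end TMN
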