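import Pool.Agent.TMN.Base
import Pool.Agent.TMN.C1
import Pool.Agent.TMN.G2
import Pool.Agent.TMN.G4
import Pool.Agent.TMN.Q2

/-! # TMN: the quantitative criterion -/

set_option autoImplicit false

open Set Filter Topology

namespace TMN

open TMX

theorem q3_rev_open {U : Set (ℂ × ℂ)} (hU : IsOpen U) : IsOpen (rev U) := by
  have h : Continuous fun z : ℂ × ℂ => (z.1, -z.2) := by fun_prop
  exact hU.preimage h

/-- stability of visits at fixed parameters, in product form -/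
theorem q3_stab {θ : ℝ} (hθ : |θ - Real.pi / 4| < 1 / 100) {p : Par} (hp : p ∈ Pi1)
    {z : ℂ × ℂ} (hs : Out2 p z.1 z.2) {V : Set (ℂ × ℂ)} (hV : IsOpen V) {t : ℝ}
    (h : Visit2 θ p z V t) :
    ∃ r > 0, ∀ᶠ z' : ℂ × ℂ in 𝓝 z, ∀ t' : ℝ, |t' - t| < r → Out2 p z'.1 z'.2 →
      Visit2 θ p z' V t' := by
  obtain ⟨l, hl⟩ := h
  have h1 := TMN.visit2_open hθ hp (Or.inl hs) hV hl
  rw [nhds_prod_eq, eventually_prod_iff] at h1
  obtain ⟨pa, hpa, pb, hpb, h2⟩ := h1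
  obtain ⟨r, hr, hrb⟩ := Metric.eventually_nhds_iff.mp hpb
  refine ⟨r, hr, ?_⟩
  have hc : Tendsto (fun z' : ℂ × ℂ => (p, z')) (𝓝 z) (𝓝 (p, z)) :=
    (Continuous.prodMk continuous_const continuous_id).tendsto z
  filter_upwards [hc.eventually hpa] with z' hz' t' ht' hout
  exact ⟨l, h2 hz' (hrb (by rw [Real.dist_eq]; exact ht')) (Or.inl hout)⟩

/-- a good letter in front of a visit -/
theorem q3_cons {θ : ℝ} {p : Par} {a : Lt} {z : ℂ × ℂ} {V : Set (ℂ × ℂ)} {t : ℝ}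
    (ha : Good2 θ p a z) (h : Visit2 θ p (nx θ p a z) V t) : Visit2 θ p z V (fl θ p a z + t) := by
  obtain ⟨l, h1, h2, h3, h4⟩ := h
  refine ⟨a :: l, ⟨ha, h1⟩, ?_, ?_, ?_⟩
  · show fl θ p a z + tim θ p l (nx θ p a z) < fl θ p a z + t
    linarith
  · intro s h0 hs
    refine h3 s h0 (hs.trans ?_)
    show fl θ p a z + t - (fl θ p a z + tim θ p l (nx θ p a z)) ≤ t - tim θ p l (nx θ p a z)
    linarith
  · obtain ⟨c, hc⟩ := h4
    refine ⟨c, ?_⟩
    have e : fl θ p a z + t - tim θ p (a :: l) z = t - tim θ p l (nx θ p a z) := by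
      show fl θ p a z + t - (fl θ p a z + tim θ p l (nx θ p a z)) = t - tim θ p l (nx θ p a z)
      ring
    rw [e]
    exact hc

theorem q3_tim_nonneg {θ : ℝ} {p : Par} : ∀ (l : List Lt) (z : ℂ × ℂ), GoodL2 θ p l z →
    0 ≤ tim θ p l z
  | [], _, _ => le_refl _
  | a :: l, z, h => add_nonneg h.1.1.2.1.le (q3_tim_nonneg l _ h.2)

theorem q3_pos {θ : ℝ} {p : Par} {z : ℂ × ℂ} {V : Set (ℂ × ℂ)} {t : ℝ} (h : Visit2 θ p z V t) :
    0 < t := by
  obtain ⟨l, h1, h2, -⟩ := h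
  exact lt_of_le_of_lt (q3_tim_nonneg l z h1) h2

/-- [Q3] the quantitative criterion. -/
theorem criterion_q2 {θ : ℝ} (hθ : |θ - Real.pi / 4| < 1 / 100) {p : Par} (hp : p ∈ Pi1)
    {U V : Set (ℂ × ℂ)} (hUo : IsOpen U) (hVo : IsOpen V)
    (hU : ∃ t, Visit2 θ p (sepm θ p) (rev U) t)
    (hV : ∀ τ ε : ℝ, 0 < ε → ∃ t, ∃ k : ℤ, Visit2 θ p (sepm θ p) V t ∧ |t - τ - k * ell θ| < ε) :
    ∃ T c : ℝ, 0 < T ∧ 0 < c ∧ ∀ t ≥ T, ∃ (y : ℂ) (α r δ₁ δ₂ t₁ t₂ : ℝ), 0 < r ∧ 0 < δ₁ ∧ 0 < δ₂ ∧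
      δ₂ < 1 ∧ 0 < t₁ ∧ 0 < t₂ ∧ t₁ + t₂ = t ∧ c / t ^ 3 ≤ r * δ₁ * δ₂ ∧
      ∀ (y' w : ℂ) (α' : ℝ), |dot (zz θ) (y' - y)| < r → |crs (zz θ) (y' - y)| < δ₁ →
        |α' - α| < δ₂ → w = Complex.exp (α' * Complex.I) →
        y' ∈ Ro θ ∧ Fre θ p y' ∧ Visit2 θ p (y', -w) (rev U) t₁ ∧ Visit2 θ p (y', w) V t₂ := by
  have outm := (TMN.sep_out2 hθ hp).1
  have outp := outm
  -- the length of the cylinder is positive
  have hell : 0 < ell θ := by
    have hθ' := abs_lt.mp hθ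
    have hpi1 := Real.pi_gt_d2
    have hpi2 := Real.pi_lt_d2
    have : 0 < Real.cos θ := by
      apply Real.cos_pos_of_mem_Ioo; constructor <;> linarith
    unfold ell
    positivity
  -- the visit of `rev U`
  obtain ⟨tU, hU⟩ := hU
  have htU : 0 < tU := q3_pos hU
  obtain ⟨rU, hrU, hUev⟩ := q3_stab hθ hp outm (q3_rev_open hUo) hU
  obtain ⟨ηU, hηU, hUη⟩ := Metric.eventually_nhds_iff.mp hUev
  -- the visits of `V`
  set ε : ℝ := min rU (1 / 5) / 4 with hε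
  have hε0 : 0 < ε := by
    have : 0 < min rU (1 / 5) := lt_min hrU (by norm_num)
    rw [hε]
    positivity
  have hεU : 4 * ε ≤ rU := by
    have := min_le_left rU (1 / 5)
    rw [hε]
    linarith
  have hε5 : 4 * ε ≤ 1 / 5 := by
    have := min_le_right rU (1 / 5)
    rw [hε]
    linarith
  choose tk nk hk1 hk2 using fun k : ℕ => hV (k * ε) ε hε0
  have hVev : ∀ k : ℕ, ∀ᶠ ρ : ℝ in 𝓝[>] 0, ∀ z' : ℂ × ℂ, dist z' (sepm θ p) < ρ → ∀ t' : ℝ,
      |t' - tk k| < ρ → Out2 p z'.1 z'.2 → Visit2 θ p z' V t' := by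
    intro k
    obtain ⟨r', hr', h⟩ := q3_stab hθ hp outp hVo (hk1 k)
    obtain ⟨η, hη, h2⟩ := Metric.eventually_nhds_iff.mp h
    have hm : 0 < min r' η := lt_min hr' hη
    have h3 : ∀ᶠ ρ : ℝ in 𝓝[>] 0, ρ < min r' η :=
      nhdsWithin_le_nhds (Iio_mem_nhds hm)
    filter_upwards [h3] with ρ hρ z' hz' t' ht' hout
    exact h2 (hz'.trans (hρ.trans_le (min_le_right _ _))) t'
      (ht'.trans (hρ.trans_le (min_le_left _ _))) hout
  -- number of residues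
  set K : ℕ := ⌊ell θ / ε⌋₊ with hK
  obtain ⟨ρV, hρV, hVρ⟩ : ∃ ρ : ℝ, 0 < ρ ∧ ∀ k ∈ Finset.range (K + 1), ∀ z' : ℂ × ℂ,
      dist z' (sepm θ p) < ρ → ∀ t' : ℝ, |t' - tk k| < ρ → Out2 p z'.1 z'.2 →
      Visit2 θ p z' V t' := by
    have h1 : ∀ᶠ ρ : ℝ in 𝓝[>] 0, ∀ k ∈ Finset.range (K + 1), ∀ z' : ℂ × ℂ,
        dist z' (sepm θ p) < ρ → ∀ t' : ℝ, |t' - tk k| < ρ → Out2 p z'.1 z'.2 →
        Visit2 θ p z' V t' := by
      rw [Filter.eventually_all_finset]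
      intro k _
      exact hVev k
    have h2 : ∀ᶠ ρ : ℝ in 𝓝[>] 0, 0 < ρ := self_mem_nhdsWithin
    obtain ⟨ρ, h⟩ := (h2.and h1).exists
    exact ⟨ρ, h.1, h.2⟩
  -- crossing
  obtain ⟨κ, c₁, c₂, hc₁, hc₂, y, α, hbox⟩ := TMN.crossing_box2 hθ hp
  set e : ℝ := min ε (min ηU ρV) with he
  have he0 : 0 < e := lt_min hε0 (lt_min hηU hρV)
  have heε : e ≤ ε := min_le_left _ _
  have heU : e ≤ ηU := (min_le_right _ _).trans (min_le_left _ _)
  have heV : e ≤ ρV := (min_le_right _ _).trans (min_le_right _ _)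
  obtain ⟨r, hr, m₀, hbox⟩ := hbox e he0
  -- bound of the numbers of turns
  obtain ⟨M, hM⟩ : ∃ M : ℤ, ∀ k ∈ Finset.range (K + 1), nk k ≤ M := by
    obtain ⟨M, hM⟩ := ((Finset.range (K + 1)).image nk).exists_le
    exact ⟨M, fun k hk => hM _ (Finset.mem_image_of_mem nk hk)⟩
  set c₃ : ℝ := min c₂ (1 / 2) with hc₃
  have hc₃0 : 0 < c₃ := lt_min hc₂ (by norm_num)
  have hc₃1 : c₃ ≤ 1 / 2 := min_le_right _ _
  have hc₃2 : c₃ ≤ c₂ := min_le_left _ _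
  refine ⟨max (tU + 1 / 5 + κ + ((m₀ : ℝ) + M + 2) * ell θ) (tU + 2 + |κ|),
    r * c₁ * c₃ * (ell θ / 2) ^ 3, ?_, by positivity, fun t ht => ?_⟩
  · refine lt_of_lt_of_le ?_ (le_max_right _ _)
    have := abs_nonneg κ
    linarith
  have ht1 : tU + 1 / 5 + κ + ((m₀ : ℝ) + M + 2) * ell θ ≤ t := (le_max_left _ _).trans ht
  have ht2 : tU + 2 + |κ| ≤ t := (le_max_right _ _).trans ht
  have hκ := abs_nonneg κ
  have ht0 : 0 < t := by linarith
  set s : ℝ := t - tU - 1 / 5 - κ with hs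
  set N : ℤ := ⌊s / ell θ⌋ with hN
  set ρ : ℝ := s - N * ell θ with hρ
  have hρ0 : 0 ≤ ρ := by
    have := Int.floor_le (s / ell θ)
    rw [le_div_iff₀ hell] at this
    linarith
  have hρ1 : ρ < ell θ := by
    have := Int.lt_floor_add_one (s / ell θ)
    rw [div_lt_iff₀ hell] at this
    linarith
  set k : ℕ := ⌊ρ / ε⌋₊ with hkdef
  have hkK : k ∈ Finset.range (K + 1) := by
    rw [Finset.mem_range, Nat.lt_succ_iff, hK, hkdef]
    apply Nat.floor_le_floor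
    gcongr
  have hk3 : (k : ℝ) * ε ≤ ρ := by
    have := Nat.floor_le (a := ρ / ε) (by positivity)
    rwa [le_div_iff₀ hε0] at this
  have hk4 : ρ < (k : ℝ) * ε + ε := by
    have := Nat.lt_floor_add_one (ρ / ε)
    rw [div_lt_iff₀ hε0] at this
    linarith
  have hNM : (m₀ : ℤ) + M + 2 ≤ N := by
    rw [hN, Int.le_floor, le_div_iff₀ hell]
    push_cast
    linarith
  have hNk : (m₀ : ℤ) + 2 ≤ N - nk k := by
    have := hM k hkK
    linarith
  obtain ⟨m, hm⟩ : ∃ m : ℕ, (m : ℤ) = N - nk k :=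
    ⟨(N - nk k).toNat, Int.toNat_of_nonneg (le_trans (by positivity) hNk)⟩
  have hmm0 : m₀ + 2 ≤ m := by
    have : ((m₀ + 2 : ℕ) : ℤ) ≤ m := by rw [hm]; push_cast; exact hNk
    exact_mod_cast this
  have hm1 : (1 : ℝ) ≤ m := by
    have : 1 ≤ m := by omega
    exact_mod_cast this
  have hm0 : (0 : ℝ) < m := by linarith
  have hmR : (m : ℝ) = (N : ℝ) - (nk k : ℝ) := by
    have : ((m : ℤ) : ℝ) = ((N - nk k : ℤ) : ℝ) := by rw [hm]
    push_cast at this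
    exact this
  -- the times
  have h2 := abs_lt.mp (hk2 k)
  have htk : 0 < tk k := q3_pos (hk1 k)
  obtain ⟨t₂, ht₂⟩ : ∃ t₂ : ℝ, t₂ = m * ell θ + κ + tk k := ⟨_, rfl⟩
  have e1 : t = s + tU + 1 / 5 + κ := by rw [hs]; ring
  have e2 : s = ρ + N * ell θ := by rw [hρ]; ring
  have e3 : (m : ℝ) * ell θ = N * ell θ - nk k * ell θ := by rw [hmR]; ring
  have hd : |t - t₂ - (tU + 1 / 5)| < 2 * ε := by
    rw [abs_lt]
    constructor
    · linarith [h2.1, h2.2]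
    · linarith [h2.1, h2.2]
  have hd' := abs_lt.mp hd
  have ht₁0 : 0 < t - t₂ := by linarith [hd'.1]
  have ht₂0 : 0 < t₂ := by linarith [hd'.2]
  -- the size of the box
  have hmt : m ≤ 2 * t / ell θ := by
    rw [le_div_iff₀ hell]
    have := neg_abs_le κ
    linarith
  have hm3 : ((m : ℝ)) ^ 3 ≤ (2 * t / ell θ) ^ 3 := pow_le_pow_left₀ hm0.le hmt 3
  refine ⟨y m, α m, r, c₁ / m, c₃ / m ^ 2, t - t₂, t₂, hr, by positivity, by positivity, ?_,
    ht₁0, ht₂0, by ring, ?_, ?_⟩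
  · rw [div_lt_one (by positivity)]
    have : (1 : ℝ) ≤ (m : ℝ) ^ 2 := one_le_pow₀ hm1
    linarith
  · rw [div_le_iff₀ (by positivity)]
    have e4 : r * (c₁ / m) * (c₃ / m ^ 2) * t ^ 3 = r * c₁ * c₃ * (t ^ 3 / m ^ 3) := by
      field_simp
    rw [e4]
    have hrc : 0 ≤ r * c₁ * c₃ := by positivity
    refine mul_le_mul_of_nonneg_left ?_ hrc
    rw [le_div_iff₀ (by positivity)]
    calc (ell θ / 2) ^ 3 * (m : ℝ) ^ 3 ≤ (ell θ / 2) ^ 3 * (2 * t / ell θ) ^ 3 :=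
          mul_le_mul_of_nonneg_left hm3 (by positivity)
      _ = t ^ 3 := by
          have := hell.ne'
          field_simp
  · intro y' w α' h3 h4 h5 h6
    have h5' : |α' - α m| < c₂ / m ^ 2 := by
      refine h5.trans_le ?_
      gcongr
    obtain ⟨g1, g2, g3, g4, g5, g6, g7, g8⟩ := hbox m (by omega) y' w α' h3 h4 h5' h6
    have g4' := abs_lt.mp g4
    have g7' := abs_lt.mp g7
    refine ⟨g1, g2, ?_, ?_⟩
    · have ho := (TMN.nx_out2 hp g3).1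
      have hv := hUη (y := nx θ p ((1, (0, 0)), 1) (y', -w))
        (by rw [dist_eq_norm]; exact g5.trans_le heU)
        (t - t₂ - fl θ p ((1, (0, 0)), 1) (y', -w))
        (by
          rw [abs_lt]
          constructor
          · linarith [hd'.1, g4'.2]
          · linarith [hd'.2, g4'.1]) ho
      have := q3_cons g3 hv
      rwa [add_sub_cancel] at this
    · have ho := (TMN.nx_out2 hp g6).1
      have hv := hVρ k hkK (nx θ p ((-1, ((m : ℤ), (m : ℤ))), 1) (y', w))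
        (by rw [dist_eq_norm]; exact g8.trans_le heV)
        (t₂ - fl θ p ((-1, ((m : ℤ), (m : ℤ))), 1) (y', w))
        (by
          rw [abs_lt]
          constructor
          · linarith [g7'.2]
          · linarith [g7'.1]) ho
      have := q3_cons g6 hv
      rwa [add_sub_cancel] at this

end TMN
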