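import Pool.Agent.TMN.A2
import Pool.Agent.TMN.A3
import Pool.Agent.TMN.A5
import Pool.Agent.TMN.Base
import Pool.Agent.TMN.C1
import Pool.Agent.TMN.F1
import Pool.Agent.TMN.F1b
import Pool.Agent.TMN.F2a
import Pool.Agent.TMN.F2b
import Pool.Agent.TMN.G1a
import Pool.Agent.TMN.G1b
import Pool.Agent.TMN.G2
import Pool.Agent.TMN.G3
import Pool.Agent.TMN.G4
import Pool.Agent.TMN.G6
import Pool.Agent.TMN.I2a
import Pool.Agent.TMN.I2b
import Pool.Agent.TMN.M1
import Pool.Agent.TMN.M2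
import Pool.Agent.TMN.O1
import Pool.Agent.TMN.Q1
import Pool.Agent.TMN.Q2
import Pool.Agent.TMN.Q3
import Pool.Agent.TMN.S1
import Pool.Agent.TMN.S10
import Pool.Agent.TMN.S11a
import Pool.Agent.TMN.S11b
import Pool.Agent.TMN.S11c
import Pool.Agent.TMN.S12
import Pool.Agent.TMN.S13a
import Pool.Agent.TMN.S13b
import Pool.Agent.TMN.S14
import Pool.Agent.TMN.S15
import Pool.Agent.TMN.S2
import Pool.Agent.TMN.S3
import Pool.Agent.TMN.S4
import Pool.Agent.TMN.S5
import Pool.Agent.TMN.S6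
import Pool.Agent.TMN.S8
import Pool.Agent.TMN.S9
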