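import Pool.Agent.TMN.Base
import Pool.Agent.TMN.F1
import Pool.Agent.TMN.F1b
import Pool.Agent.TMN.M1
import Pool.Agent.TMN.O1
import Pool.Agent.TMN.Q3

/-! # TMN row M2: main theorem -/

set_option autoImplicit false

open Set Filter Topology

namespace TMN

open TMX

private theorem m2_isOpen_Pi1 : IsOpen Pi1 := by
  have h : Pi1 = {p : Par | 1 / 10 < p.1} ∩ ({p : Par | p.1 < 3 / 10} ∩
      ((⋂ j : Fin 4, {p : Par | 0 < p.2 j + p.2 (j + 2)}) ∩
        ((⋂ j : Fin 4, ({p : Par | |(vtx p j).re - 1 / 4| < 1 / 50} ∩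
          {p : Par | |(vtx p j).im| < 1 / 50})) ∩
        ({p : Par | (vtx p 2).im < 0} ∩ ({p : Par | 0 < (vtx p 1).im} ∩
          ({p : Par | 0 < (vtx p 3).im} ∩
            (⋂ j : Fin 4, {p : Par | dot ((starRingEnd ℂ) (vtx p 2)) (nu p j) < p.2 j}))))))) := by
    ext p; simp [Pi1]
  rw [h]
  have hre : ∀ j, Continuous fun p : Par => (vtx p j).re := fun j =>
    Complex.continuous_re.comp (continuous_vtx j)
  have him : ∀ j, Continuous fun p : Par => (vtx p j).im := fun j =>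
    Complex.continuous_im.comp (continuous_vtx j)
  have nre : ∀ j, Continuous fun p : Par => (nu p j).re := fun j =>
    Complex.continuous_re.comp (continuous_nu j)
  have nim : ∀ j, Continuous fun p : Par => (nu p j).im := fun j =>
    Complex.continuous_im.comp (continuous_nu j)
  refine IsOpen.inter (isOpen_lt (by fun_prop) (by fun_prop)) (IsOpen.inter
    (isOpen_lt (by fun_prop) (by fun_prop)) (IsOpen.inter (isOpen_iInter_of_finite fun j =>
      isOpen_lt (by fun_prop) (by fun_prop)) (IsOpen.inter (isOpen_iInter_of_finite fun j =>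
        IsOpen.inter (isOpen_lt ?_ (by fun_prop)) (isOpen_lt ?_ (by fun_prop)))
        (IsOpen.inter (isOpen_lt (him 2) (by fun_prop)) (IsOpen.inter
          (isOpen_lt (by fun_prop) (him 1)) (IsOpen.inter (isOpen_lt (by fun_prop) (him 3))
            (isOpen_iInter_of_finite fun j => isOpen_lt ?_ (by fun_prop))))))))
  · exact ((hre j).sub continuous_const).abs
  · exact (him j).abs
  · have e : (fun p : Par => dot ((starRingEnd ℂ) (vtx p 2)) (nu p j)) =
        fun p : Par => (vtx p 2).re * (nu p j).re + -(vtx p 2).im * (nu p j).im := by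
      funext p
      simp [dot]
    rw [e]
    exact ((hre 2).mul (nre j)).add ((him 2).neg.mul (nim j))

private theorem m2_Pi1_nonempty : Pi1.Nonempty := by
  let c : ℂ := ⟨1 / 4, 1 / 200⟩
  let p0 : Par := (1 / 5, fun _ => 0)
  let p : Par := (1 / 5, fun j => dot c (nu p0 j) + 1 / 200)
  have hnu : ∀ j, nu p j = nu p0 j := fun j => rfl
  have hv : ∀ j, vtx p j = c + (1 / 200 : ℝ) * (nu p j + nu p (j + 1)) := by
    intro j
    have h := basis_nu p j c
    conv_rhs => rw [h]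
    simp only [vtx]
    change ((dot c (nu p0 j) + 1 / 200 : ℝ) : ℂ) * nu p j +
      ((dot c (nu p0 (j + 1)) + 1 / 200 : ℝ) : ℂ) * nu p (j + 1) = _
    rw [hnu, hnu]; push_cast; ring
  -- numbers
  have hsb := Real.sin_bound (x := 1 / 5) (by norm_num [abs_le])
  have hcb := Real.cos_bound (x := 1 / 5) (by norm_num [abs_le])
  have h15 : |(1 / 5 : ℝ)| = 1 / 5 := abs_of_pos (by norm_num)
  rw [h15] at hsb hcb
  rw [abs_le] at hsb hcb
  obtain ⟨s, hs⟩ : ∃ s, Real.sin (1 / 5) = s := ⟨_, rfl⟩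
  obtain ⟨k, hk⟩ : ∃ k, Real.cos (1 / 5) = k := ⟨_, rfl⟩
  rw [hs] at hsb
  rw [hk] at hcb
  have s1 : 198 / 1000 < s := by norm_num at hsb ⊢; linarith [hsb.1]
  have s2 : s < 199 / 1000 := by norm_num at hsb ⊢; linarith [hsb.2]
  have k1 : 979 / 1000 < k := by norm_num at hcb ⊢; linarith [hcb.1]
  have k2 : k < 981 / 1000 := by norm_num at hcb ⊢; linarith [hcb.2]
  have hsk : s ^ 2 + k ^ 2 = 1 := by rw [← hs, ← hk]; exact Real.sin_sq_add_cos_sq _
  have n0 : nu p 0 = ⟨k, s⟩ := by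
    apply Complex.ext
    · rw [nu_re_zero]; exact hk
    · rw [nu_im_zero]; exact hs
  have n1 : nu p 1 = ⟨-s, k⟩ := by
    have h := nu_succ p 0
    rw [n0] at h
    rw [show (1 : Fin 4) = 0 + 1 from rfl, h]
    apply Complex.ext <;> simp
  have n2 : nu p 2 = ⟨-k, -s⟩ := by
    have h := nu_succ p 1
    rw [n1] at h
    rw [show (2 : Fin 4) = 1 + 1 from rfl, h]
    apply Complex.ext <;> simp
  have n3 : nu p 3 = ⟨s, -k⟩ := by
    have h := nu_succ p 2
    rw [n2] at h
    rw [show (3 : Fin 4) = 2 + 1 from rfl, h]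
    apply Complex.ext <;> simp
  have v0 : vtx p 0 = ⟨1 / 4 + 1 / 200 * (k - s), 1 / 200 + 1 / 200 * (s + k)⟩ := by
    rw [hv, show (0 : Fin 4) + 1 = 1 from rfl, n0, n1]
    apply Complex.ext <;> simp [c] <;> ring
  have v1 : vtx p 1 = ⟨1 / 4 + 1 / 200 * (-s - k), 1 / 200 + 1 / 200 * (k - s)⟩ := by
    rw [hv, show (1 : Fin 4) + 1 = 2 from rfl, n1, n2]
    apply Complex.ext <;> simp [c] <;> ring
  have v2 : vtx p 2 = ⟨1 / 4 + 1 / 200 * (s - k), 1 / 200 + 1 / 200 * (-s - k)⟩ := by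
    rw [hv, show (2 : Fin 4) + 1 = 3 from rfl, n2, n3]
    apply Complex.ext <;> simp [c] <;> ring
  have v3 : vtx p 3 = ⟨1 / 4 + 1 / 200 * (s + k), 1 / 200 + 1 / 200 * (s - k)⟩ := by
    rw [hv, show (3 : Fin 4) + 1 = 0 from rfl, n3, n0]
    apply Complex.ext <;> simp [c] <;> ring
  have p0' : p.2 0 = 1 / 4 * k + 1 / 200 * s + 1 / 200 := by
    change dot c (nu p 0) + 1 / 200 = _
    rw [n0]
    rfl
  have p1' : p.2 1 = 1 / 4 * (-s) + 1 / 200 * k + 1 / 200 := by
    change dot c (nu p 1) + 1 / 200 = _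
    rw [n1]
    rfl
  have p2' : p.2 2 = 1 / 4 * (-k) + 1 / 200 * (-s) + 1 / 200 := by
    change dot c (nu p 2) + 1 / 200 = _
    rw [n2]
    rfl
  have p3' : p.2 3 = 1 / 4 * s + 1 / 200 * (-k) + 1 / 200 := by
    change dot c (nu p 3) + 1 / 200 = _
    rw [n3]
    rfl
  refine ⟨p, ?_, ?_, ?_, ?_, ?_, ?_, ?_, ?_⟩
  · change (1 : ℝ) / 10 < 1 / 5; norm_num
  · change (1 : ℝ) / 5 < 3 / 10; norm_num
  · intro j
    change 0 < dot c (nu p0 j) + 1 / 200 + (dot c (nu p0 (j + 2)) + 1 / 200)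
    rw [dot_add_two]; linarith
  · intro j
    fin_cases j
    · change |(vtx p 0).re - 1 / 4| < 1 / 50 ∧ |(vtx p 0).im| < 1 / 50
      rw [v0]
      constructor <;> rw [abs_lt] <;> constructor <;> simp only [] <;> linarith
    · change |(vtx p 1).re - 1 / 4| < 1 / 50 ∧ |(vtx p 1).im| < 1 / 50
      rw [v1]
      constructor <;> rw [abs_lt] <;> constructor <;> simp only [] <;> linarith
    · change |(vtx p 2).re - 1 / 4| < 1 / 50 ∧ |(vtx p 2).im| < 1 / 50
      rw [v2]
      constructor <;> rw [abs_lt] <;> constructor <;> simp only [] <;> linarith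
    · change |(vtx p 3).re - 1 / 4| < 1 / 50 ∧ |(vtx p 3).im| < 1 / 50
      rw [v3]
      constructor <;> rw [abs_lt] <;> constructor <;> simp only [] <;> linarith
  · rw [v2]; simp only []; linarith
  · rw [v1]; simp only []; linarith
  · rw [v3]; simp only []; linarith
  · intro j
    rw [v2]
    fin_cases j
    · change dot _ (nu p 0) < p.2 0
      rw [n0, p0']
      simp only [dot, Complex.conj_re, Complex.conj_im]
      nlinarith
    · change dot _ (nu p 1) < p.2 1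
      rw [n1, p1']
      simp only [dot, Complex.conj_re, Complex.conj_im]
      nlinarith
    · change dot _ (nu p 2) < p.2 2
      rw [n2, p2']
      simp only [dot, Complex.conj_re, Complex.conj_im]
      nlinarith
    · change dot _ (nu p 3) < p.2 3
      rw [n3, p3']
      simp only [dot, Complex.conj_re, Complex.conj_im]
      nlinarith

/-- [M2] main theorem. -/
theorem main2 {θ : ℝ} (hθ : |θ - Real.pi / 4| < 1 / 100) (hz : Transcendental ℚ (zz θ)) :
    IsOpen Pi1 ∧ Pi1.Nonempty ∧ ∃ G ∈ residual Par, ∀ p ∈ G, p ∈ Pi1 →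
      Irrational (p.1 / Real.pi) ∧
      BIL.IsPolygon (Tb θ p) (vx θ p) (fun i => vx θ p (i + 1)) ∧ Simple (vx θ p) ∧
      TopMixQ (Tb θ p) (vx θ p) (fun i => vx θ p (i + 1)) := by
  obtain ⟨G, hG, h⟩ := TMN.residual_visits2 hθ hz
  refine ⟨m2_isOpen_Pi1, m2_Pi1_nonempty, G ∩ {p : Par | Irrational (p.1 / Real.pi)},
    Filter.inter_mem hG residual_irrational, ?_⟩
  rintro p ⟨hpG, hirr⟩ hp
  refine ⟨hirr, TMN.polygon2 hθ hp, TMN.simple2 hθ hp, TMN.topmixq_of_boxes2 hθ hp ?_⟩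
  rintro U V hU hV ⟨z, hzU, hz1, hz2, hz3⟩ ⟨y, hyV, hy1, hy2, hy3⟩
  refine TMN.criterion_q2 hθ hp hU hV ?_ ?_
  · have hr : IsOpen (rev U) := hU.preimage (by fun_prop : Continuous fun z : ℂ × ℂ => (z.1, -z.2))
    have hm : (z.1, -z.2) ∈ rev U := by
      change (z.1, - -z.2) ∈ U
      rw [neg_neg]; exact hzU
    obtain ⟨t, k, ht, _⟩ := h p hpG hp z.1 (-z.2) hz1 hz2 (by rw [norm_neg]; exact hz3)
      (rev U) hr hm 0 1 one_pos
    exact ⟨t, ht⟩
  · intro τ ε hε
    exact h p hpG hp y.1 y.2 hy1 hy2 hy3 V hV hyV τ ε hε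

end TMN
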