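import Pool.Agent.TMX.Table

/-!
# MP_613dd8_an [TMN]: a simply connected table (nonagon)

The table is again `Tb θ p`, the rectangle `[0,1] × [0, tan θ]` minus the interior of the tilted
rectangle `Q p`; now `Q p` is centered near the bottom wall and its lowest vertex is below the wall.
-/

set_option autoImplicit false

open Set Filter Topology

namespace TMN

open TMX

noncomputable section

/-- The open set of parameters: the rectangle `Q p` is small and near the point `1/4`, its vertex
`vtx p 2` is below the real axis, the three other vertices are above it (for `vtx p 0` this follows),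
and the mirror image of the vertex `vtx p 2` is in the interior of `Q p`. -/
def Pi1 : Set Par :=
  {p | 1 / 10 < p.1 ∧ p.1 < 3 / 10 ∧ (∀ j, 0 < p.2 j + p.2 (j + 2)) ∧
    (∀ j, |(vtx p j).re - 1 / 4| < 1 / 50 ∧ |(vtx p j).im| < 1 / 50) ∧
    (vtx p 2).im < 0 ∧ 0 < (vtx p 1).im ∧ 0 < (vtx p 3).im ∧
    ∀ j, dot ((starRingEnd ℂ) (vtx p 2)) (nu p j) < p.2 j}

/-- The points where the lines of the sides `2` and `3` of `Q p` meet the real axis. -/
def jt (p : Par) (k : Fin 4) : ℂ := ((p.2 k / (nu p k).re : ℝ) : ℂ)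

/-- The nine vertices of the table, in cyclic order. -/
def vx (θ : ℝ) (p : Par) : Fin 9 → ℂ :=
  ![0, jt p 2, vtx p 1, vtx p 0, vtx p 3, jt p 3, 1, 1 + bb θ * Complex.I, bb θ * Complex.I]

/-- The closed polygonal curve with the vertices `v` is simple. -/
def Simple {n : ℕ} [NeZero n] (v : Fin n → ℂ) : Prop :=
  ∀ i j : Fin n, ∀ x, x ∈ segment ℝ (v i) (v (i + 1)) → x ∈ segment ℝ (v j) (v (j + 1)) →
    i = j ∨ (j = i + 1 ∧ x = v j) ∨ (i = j + 1 ∧ x = v i)

end

end TMN
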