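import Pool.Agent.BFE.Defs
import Pool.Agent.TMN.Base
import Pool.Agent.TMN.Table
import Pool.Agent.TMX.All

/-! # TMN [N]: the sides of the tables have finitely many common points -/

set_option autoImplicit false

open Set Filter Topology

namespace TMN

open TMX

theorem nd_of_simple {n : ℕ} [NeZero n] {v : Fin n → ℂ} (h : Simple v) :
    BFE.Nd v (fun i => v (i + 1)) := by
  intro i j hij
  refine Set.Finite.subset (s := {v i, v j}) (by simp) ?_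
  rintro x ⟨hx, hx'⟩
  rcases h i j x hx hx' with h | ⟨_, h⟩ | ⟨_, h⟩
  · exact absurd h hij
  · simp [h]
  · simp [h]

theorem N_vtx {p : Par} {x : ℂ} {j : Fin 4} (h : dot x (nu p j) = p.2 j)
    (h' : dot x (nu p (j + 1)) = p.2 (j + 1)) : x = vtx p j := by
  rw [basis_nu p j x, h, h']
  rfl

theorem N_outer {θ : ℝ} (hθ : |θ - Real.pi / 4| < 1 / 100) {p : Par} (hp : p ∈ Pi0) {x : ℂ}
    (h : x ∈ segment ℝ (cor θ 0) (cor θ 1) ∨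
      x ∈ segment ℝ (cor θ 1) (cor θ 2) ∨ x ∈ segment ℝ (cor θ 2) (cor θ 3) ∨
      x ∈ segment ℝ (cor θ 3) (cor θ 0)) : x ∉ Q p := by
  have hb := f1_bb hθ
  have h1 := (f1_outer (θ := θ) (by linarith) x).mpr h
  exact fun hq => h1.2 (f1_Q_Ro hθ hp hq)

theorem N_seg {u v x : ℂ} (h : x ∈ segment ℝ u v) :
    (∀ c : ℝ, u.re = c → v.re = c → x.re = c) ∧ ∀ c : ℝ, u.im = c → v.im = c → x.im = c := by
  obtain ⟨s, t, hs, ht, hst, rfl⟩ := h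
  constructor
  · intro c hu hv
    simp only [Complex.add_re, Complex.smul_re, smul_eq_mul, hu, hv]
    rw [← add_mul, hst, one_mul]
  · intro c hu hv
    simp only [Complex.add_im, Complex.smul_im, smul_eq_mul, hu, hv]
    rw [← add_mul, hst, one_mul]

theorem N_key {θ : ℝ} (hθ : |θ - Real.pi / 4| < 1 / 100) {p : Par} (hp : p ∈ Pi0) (i : Fin 8)
    (x : ℂ) (h : x ∈ segment ℝ (sa θ p i) (sb θ p i)) :
    (i = 0 ∧ x.im = 0 ∧ x ∉ Q p) ∨ (i = 1 ∧ x.re = 1 ∧ x ∉ Q p) ∨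
    (i = 2 ∧ x.im = bb θ ∧ x ∉ Q p) ∨ (i = 3 ∧ x.re = 0 ∧ x ∉ Q p) ∨
    (i = 4 ∧ x ∈ Q p ∧ dot x (nu p 0) = p.2 0) ∨ (i = 5 ∧ x ∈ Q p ∧ dot x (nu p 1) = p.2 1) ∨
    (i = 6 ∧ x ∈ Q p ∧ dot x (nu p 2) = p.2 2) ∨ (i = 7 ∧ x ∈ Q p ∧ dot x (nu p 3) = p.2 3) := by
  rcases f1_eight i with rfl | rfl | rfl | rfl | rfl | rfl | rfl | rfl
  · change x ∈ segment ℝ (cor θ 0) (cor θ 1) at h
    exact Or.inl ⟨rfl, (N_seg h).2 0 (by simp [f1_cor0]) (by simp [f1_cor1]),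
      N_outer hθ hp (Or.inl h)⟩
  · change x ∈ segment ℝ (cor θ 1) (cor θ 2) at h
    exact Or.inr (Or.inl ⟨rfl, (N_seg h).1 1 (by simp [f1_cor1]) (by simp [f1_cor2]),
      N_outer hθ hp (Or.inr (Or.inl h))⟩)
  · change x ∈ segment ℝ (cor θ 2) (cor θ 3) at h
    exact Or.inr (Or.inr (Or.inl ⟨rfl, (N_seg h).2 (bb θ) (by simp [f1_cor2]) (by simp [f1_cor3]),
      N_outer hθ hp (Or.inr (Or.inr (Or.inl h)))⟩))
  · change x ∈ segment ℝ (cor θ 3) (cor θ 0) at h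
    exact Or.inr (Or.inr (Or.inr (Or.inl ⟨rfl, (N_seg h).1 0 (by simp [f1_cor3])
      (by simp [f1_cor0]), N_outer hθ hp (Or.inr (Or.inr (Or.inr h)))⟩)))
  · have := (f1_side hp 3 x).mp h
    exact Or.inr (Or.inr (Or.inr (Or.inr (Or.inl ⟨rfl, this.1, this.2⟩))))
  · have := (f1_side hp 0 x).mp h
    exact Or.inr (Or.inr (Or.inr (Or.inr (Or.inr (Or.inl ⟨rfl, this.1, this.2⟩)))))
  · have := (f1_side hp 1 x).mp h
    exact Or.inr (Or.inr (Or.inr (Or.inr (Or.inr (Or.inr (Or.inl ⟨rfl, this.1, this.2⟩))))))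
  · have := (f1_side hp 2 x).mp h
    exact Or.inr (Or.inr (Or.inr (Or.inr (Or.inr (Or.inr (Or.inr ⟨rfl, this.1, this.2⟩))))))

theorem nd_hole {θ : ℝ} (hθ : |θ - Real.pi / 4| < 1 / 100) {p : Par} (hp : p ∈ Pi0) :
    BFE.Nd (sa θ p) (sb θ p) := by
  intro i j hij
  have hb := f1_bb hθ
  have h02 := hp.2.2.1 0
  have h13 := hp.2.2.1 1
  have e02 : (0 : Fin 4) + 2 = 2 := rfl
  have e13 : (1 : Fin 4) + 2 = 3 := rfl
  rw [e02] at h02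
  rw [e13] at h13
  refine Set.Finite.subset (s := {(⟨0, 0⟩ : ℂ), ⟨1, 0⟩, ⟨0, bb θ⟩, ⟨1, bb θ⟩} ∪ range (vtx p))
    ((by simp : ({(⟨0, 0⟩ : ℂ), ⟨1, 0⟩, ⟨0, bb θ⟩, ⟨1, bb θ⟩} : Set ℂ).Finite).union
      (Set.finite_range _)) ?_
  rintro x ⟨hx, hx'⟩
  have hx2 : dot x (nu p 2) = -dot x (nu p 0) := dot_add_two p x 0
  have hx3 : dot x (nu p 3) = -dot x (nu p 1) := dot_add_two p x 1
  have c0 : dot x (nu p 0) = p.2 0 → dot x (nu p 1) = p.2 1 → x ∈ range (vtx p) :=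
    fun a b => ⟨0, (N_vtx a b).symm⟩
  have c1 : dot x (nu p 1) = p.2 1 → dot x (nu p 2) = p.2 2 → x ∈ range (vtx p) :=
    fun a b => ⟨1, (N_vtx a b).symm⟩
  have c2 : dot x (nu p 2) = p.2 2 → dot x (nu p 3) = p.2 3 → x ∈ range (vtx p) :=
    fun a b => ⟨2, (N_vtx a b).symm⟩
  have c3 : dot x (nu p 3) = p.2 3 → dot x (nu p 0) = p.2 0 → x ∈ range (vtx p) :=
    fun a b => ⟨3, (N_vtx a b).symm⟩
  have cc : ∀ u v : ℝ, x.re = u → x.im = v → x = ⟨u, v⟩ := by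
    rintro u v rfl rfl; rfl
  rcases N_key hθ hp i x hx with ⟨rfl, a, b⟩ | ⟨rfl, a, b⟩ | ⟨rfl, a, b⟩ | ⟨rfl, a, b⟩ |
    ⟨rfl, b, a⟩ | ⟨rfl, b, a⟩ | ⟨rfl, b, a⟩ | ⟨rfl, b, a⟩ <;>
  rcases N_key hθ hp j x hx' with ⟨rfl, c, d⟩ | ⟨rfl, c, d⟩ | ⟨rfl, c, d⟩ | ⟨rfl, c, d⟩ |
    ⟨rfl, d, c⟩ | ⟨rfl, d, c⟩ | ⟨rfl, d, c⟩ | ⟨rfl, d, c⟩ <;>
  first
  | exact absurd rfl hij
  | exact absurd b d
  | exact absurd d b
  | (exfalso; linarith)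
  | exact Or.inr (c0 a c)
  | exact Or.inr (c0 c a)
  | exact Or.inr (c1 a c)
  | exact Or.inr (c1 c a)
  | exact Or.inr (c2 a c)
  | exact Or.inr (c2 c a)
  | exact Or.inr (c3 a c)
  | exact Or.inr (c3 c a)
  | (left; rw [cc _ _ a c]; simp)
  | (left; rw [cc _ _ c a]; simp)

end TMN
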