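import Pool.Agent.TMN.Base
import Pool.Agent.TMN.G1a
import Pool.Agent.TMN.G1b

/-! # TMN [N2]: the angle of the table at the joint -/

set_option autoImplicit false

open Set Filter Topology

namespace TMN

open TMX

/-- The angle of the table at the vertex `jt p 3` is `p.1`. -/
theorem angle2 {θ : ℝ} {p : Par} (hp : p ∈ Pi1) :
    EuclideanGeometry.angle (vx θ p 4) (vx θ p 5) (vx θ p 6) = p.1 := by
  obtain ⟨⟨L, hL, hs⟩, -, -⟩ := TMN.side hp 3
  change vtx p 3 - jt p 3 = (L : ℂ) * (Complex.I * nu p 3) at hs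
  have hn : Complex.I * nu p 3 = Complex.exp (p.1 * Complex.I) := by
    unfold nu
    have : (((3 : Fin 4) : ℕ)) = 3 := rfl
    rw [this]
    have h4 : Complex.I * (Complex.I ^ 3) = 1 := by
      rw [← pow_succ']; exact Complex.I_pow_four
    linear_combination Complex.exp (p.1 * Complex.I) * h4
  rw [hn] at hs
  obtain ⟨-, -, -, -, -, -, -, -, hre, hre'⟩ := TMN.signs hp
  have hb := (hp.2.2.2.1 3).1
  rw [abs_lt] at hb
  set r : ℝ := 1 - (jt p 3).re with hr
  have hr0 : 0 < r := by linarith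
  have h1 : (1 : ℂ) - jt p 3 = (r : ℂ) := by
    have him : (jt p 3).im = 0 := Complex.ofReal_im _
    apply Complex.ext
    · simp [hr]
    · simp [him]
  unfold EuclideanGeometry.angle
  change InnerProductGeometry.angle (vtx p 3 - jt p 3) ((1 : ℂ) - jt p 3) = p.1
  rw [hs, h1, Complex.angle_eq_abs_arg
    (mul_ne_zero (Complex.ofReal_ne_zero.mpr hL.ne') (Complex.exp_ne_zero _))
    (Complex.ofReal_ne_zero.mpr hr0.ne')]
  have h2 : (L : ℂ) * Complex.exp (p.1 * Complex.I) / (r : ℂ) =
      ((L / r : ℝ) : ℂ) * Complex.exp (p.1 * Complex.I) := by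
    push_cast; ring
  have hp1 := hp.1
  have hp2 := hp.2.1
  have h3 := Real.pi_gt_three
  rw [h2, Complex.arg_real_mul _ (div_pos hL hr0), Complex.arg_exp_mul_I,
    (toIocMod_eq_self Real.two_pi_pos).mpr ⟨by linarith, by linarith⟩, abs_of_pos (by linarith)]

end TMN
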