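import Pool.Agent.TMX.M3
import Pool.Agent.TMN.All
import Pool.Agent.TMN.N
import Pool.Agent.TMN.N2
import Pool.Agent.BFE.All

/-! # TMN: the main theorems for both families of tables -/

set_option autoImplicit false

open Set Filter Topology

namespace TMN

open TMX

theorem main_hole {θ : ℝ} (hθ : |θ - Real.pi / 4| < 1 / 100)
    (hz : Transcendental ℚ (Complex.exp (θ * Complex.I))) :
    IsOpen Pi0 ∧ Pi0.Nonempty ∧ ∃ G ∈ residual Par, ∀ p ∈ G, p ∈ Pi0 →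
      Irrational (p.1 / Real.pi) ∧
      BIL.IsPolygon (Tb θ p) (sa θ p) (sb θ p) ∧
      (∃ φ, BIL.IsBilliardFlow (Tb θ p) (sa θ p) (sb θ p) φ) ∧
      TopMixQ (Tb θ p) (sa θ p) (sb θ p) := by
  obtain ⟨h1, h2, G, hG, h3⟩ := mainq hθ hz
  refine ⟨h1, h2, G, hG, fun p hp hp0 => ?_⟩
  obtain ⟨h4, h5, h6⟩ := h3 p hp hp0
  exact ⟨h4, h5, BFE.exists_flow h5 (nd_hole hθ hp0), h6⟩

theorem main_nonagon {θ : ℝ} (hθ : |θ - Real.pi / 4| < 1 / 100)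
    (hz : Transcendental ℚ (Complex.exp (θ * Complex.I))) :
    IsOpen Pi1 ∧ Pi1.Nonempty ∧ ∃ G ∈ residual Par, ∀ p ∈ G, p ∈ Pi1 →
      Irrational (p.1 / Real.pi) ∧
      BIL.IsPolygon (Tb θ p) (vx θ p) (fun i => vx θ p (i + 1)) ∧ Simple (vx θ p) ∧
      EuclideanGeometry.angle (vx θ p 4) (vx θ p 5) (vx θ p 6) = p.1 ∧
      (∃ φ, BIL.IsBilliardFlow (Tb θ p) (vx θ p) (fun i => vx θ p (i + 1)) φ) ∧
      TopMixQ (Tb θ p) (vx θ p) (fun i => vx θ p (i + 1)) := by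
  obtain ⟨h1, h2, G, hG, h3⟩ := main2 hθ hz
  refine ⟨h1, h2, G, hG, fun p hp hp0 => ?_⟩
  obtain ⟨h4, h5, h6, h7⟩ := h3 p hp hp0
  exact ⟨h4, h5, h6, angle2 hp0, BFE.exists_flow h5 (nd_of_simple h6), h7⟩

end TMN
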